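import Mathlib

set_option autoImplicit false

open Filter Topology

namespace Q98

/-- Basic weak neighbourhoods. -/
theorem weak_nhd {X : Type*} [NormedAddCommGroup X] [NormedSpace ℝ X] (V : Set (WeakSpace ℝ X))
    (hV : IsOpen V) (x : X) (hx : toWeakSpace ℝ X x ∈ V) :
    ∃ (I : Finset (StrongDual ℝ X)) (δ : ℝ), 0 < δ ∧
      ∀ y : X, (∀ f ∈ I, |f (y - x)| < δ) → toWeakSpace ℝ X y ∈ V := by
  have h1 : V ∈ 𝓝 (toWeakSpace ℝ X x) := hV.mem_nhds hx
  have hind : Topology.IsInducing (fun (z : WeakSpace ℝ X) (f : StrongDual ℝ X) =>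
      (topDualPairing ℝ X).flip z f) := ⟨rfl⟩
  rw [hind.nhds_eq_comap, Filter.mem_comap] at h1
  obtain ⟨t, ht, htV⟩ := h1
  rw [nhds_pi, Filter.mem_pi] at ht
  obtain ⟨I, hI, s, hs, hst⟩ := ht
  -- choose radii
  have h2 : ∀ f : StrongDual ℝ X, ∃ ε > 0, Metric.ball (f x) ε ⊆ s f := by
    intro f
    exact Metric.mem_nhds_iff.1 (hs f)
  choose ε hε hball using h2
  obtain ⟨δ, hδ, hδ'⟩ : ∃ δ > 0, ∀ f ∈ hI.toFinset, δ ≤ ε f := by
    by_cases hne : hI.toFinset.Nonempty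
    · obtain ⟨f0, hf0, hmin⟩ := hI.toFinset.exists_min_image ε hne
      exact ⟨ε f0, hε f0, fun f hf => hmin f hf⟩
    · exact ⟨1, one_pos, fun f hf => absurd ⟨f, hf⟩ hne⟩
  refine ⟨hI.toFinset, δ, hδ, fun y hy => htV ?_⟩
  apply hst
  intro f hf
  apply hball f
  have hf' : f ∈ hI.toFinset := hI.mem_toFinset.2 hf
  have h3 := hy f hf'
  rw [map_sub] at h3
  show dist (f y) (f x) < ε f
  rw [Real.dist_eq]
  exact lt_of_lt_of_le h3 (hδ' f hf')

/-- Weak openness of a coordinate slab. -/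
theorem isOpen_slab {X : Type*} [NormedAddCommGroup X] [NormedSpace ℝ X]
    (f : StrongDual ℝ X) (r η : ℝ) :
    IsOpen {z : WeakSpace ℝ X | |f ((toWeakSpace ℝ X).symm z) - r| < η} := by
  have hc : Continuous (fun z : WeakSpace ℝ X => f ((toWeakSpace ℝ X).symm z)) :=
    WeakBilin.eval_continuous (topDualPairing ℝ X).flip f
  exact isOpen_lt ((hc.sub continuous_const).abs) continuous_const

end Q98
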