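import Mathlib
import Pool.Agent.Q98.WeakNhd

set_option autoImplicit false
set_option linter.unusedSectionVars false

open Filter Topology

namespace Q98.Gdel

/-- the countable rational vector space -/
abbrev V : Type := ℕ →₀ ℚ

section Open

variable {S : Set (V → ℝ)}

/-- the open condition -/
def O (S : Set (V → ℝ)) (k n : ℕ) (R : (V → ℝ) → (Fin k → V) → Prop) (v : V) (δ : ℝ) : Set S :=
  {μ : S | ∀ g : Fin n → (V →+ ℝ), (∀ i v, |g i v| ≤ μ.1 v) →
    ∃ p, R μ.1 p ∧ ∀ i j, |g i (p j - v)| < δ}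

theorem isOpen_O (k n : ℕ) (R : (V → ℝ) → (Fin k → V) → Prop)
    (hR : ∀ p, IsOpen {μ | R μ p}) (v : V) (δ : ℝ) : IsOpen (O S k n R v δ) := by
  classical
  rw [isOpen_iff_ultrafilter]
  intro μ₀ hμ₀ l hl
  by_contra hO
  have hOc : (O S k n R v δ)ᶜ ∈ l := Ultrafilter.compl_mem_iff_notMem.2 hO
  -- the bad functionals
  have hbad : ∀ μ : S, ∃ g : Fin n → (V →+ ℝ), μ ∈ (O S k n R v δ)ᶜ →
      (∀ i v, |g i v| ≤ μ.1 v) ∧ ∀ p, R μ.1 p → ∃ i j, δ ≤ |g i (p j - v)| := by
    intro μ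
    by_cases hμ : μ ∈ (O S k n R v δ)ᶜ
    · have h1 : ¬ ∀ g : Fin n → (V →+ ℝ), (∀ i v, |g i v| ≤ μ.1 v) →
        ∃ p, R μ.1 p ∧ ∀ i j, |g i (p j - v)| < δ := hμ
      push Not at h1
      obtain ⟨g, hg1, hg2⟩ := h1
      exact ⟨g, fun _ => ⟨hg1, hg2⟩⟩
    · exact ⟨0, fun h => absurd h hμ⟩
  choose G hG using hbad
  -- coordinate convergence
  have hcoord : ∀ u : V, Tendsto (fun μ : S => μ.1 u) (l : Filter S) (𝓝 (μ₀.1 u)) := by
    intro u
    exact (((continuous_apply u).comp continuous_subtype_val).tendsto μ₀).mono_left hl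
  have hlim : ∀ (i : Fin n) (u : V), ∃ r : ℝ,
      Tendsto (fun μ : S => G μ i u) (l : Filter S) (𝓝 r) := by
    intro i u
    have hb : ∀ᶠ μ : S in (l : Filter S), G μ i u ∈ Metric.closedBall (0 : ℝ) (μ₀.1 u + 1) := by
      have h1 : ∀ᶠ μ : S in (l : Filter S), μ.1 u < μ₀.1 u + 1 :=
        (hcoord u).eventually (gt_mem_nhds (by linarith))
      filter_upwards [h1, hOc] with μ h2 h3
      rw [mem_closedBall_zero_iff]
      exact (((hG μ h3).1 i u).trans h2.le)
    obtain ⟨r, _, hr⟩ := (isCompact_closedBall (0 : ℝ) (μ₀.1 u + 1)).ultrafilter_le_nhds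
      (l.map fun μ : S => G μ i u) (by
        rw [le_principal_iff]
        show _ ∈ (l.map fun μ : S => G μ i u)
        rw [Ultrafilter.mem_map]
        exact hb)
    exact ⟨r, hr⟩
  choose L hL using hlim
  set g : Fin n → (V →+ ℝ) := fun i =>
    { toFun := L i
      map_zero' := tendsto_nhds_unique (hL i 0) (by
        have : (fun μ : S => G μ i 0) = fun _ => 0 := by funext μ; simp
        rw [this]; exact tendsto_const_nhds)
      map_add' := fun a b => tendsto_nhds_unique (hL i (a + b)) (by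
        have : (fun μ : S => G μ i (a + b)) = fun μ => G μ i a + G μ i b := by funext μ; simp
        rw [this]; exact (hL i a).add (hL i b)) } with hg
  have hgle : ∀ i u, |g i u| ≤ μ₀.1 u := by
    intro i u
    refine le_of_tendsto_of_tendsto (hL i u).abs (hcoord u) ?_
    filter_upwards [hOc] with μ h3
    exact (hG μ h3).1 i u
  obtain ⟨p, hp, hpg⟩ := hμ₀ g hgle
  have hRp : ∀ᶠ μ : S in (l : Filter S), R μ.1 p := by
    have h1 : IsOpen {μ : S | R μ.1 p} := (hR p).preimage continuous_subtype_val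
    exact hl (h1.mem_nhds hp)
  have hsmall : ∀ᶠ μ : S in (l : Filter S), ∀ i j, |G μ i (p j - v)| < δ := by
    rw [eventually_all]
    intro i
    rw [eventually_all]
    intro j
    exact (hL i (p j - v)).abs.eventually (gt_mem_nhds (hpg i j))
  have hcontr : ∀ᶠ μ : S in (l : Filter S), False := by
    filter_upwards [hRp, hsmall, hOc] with μ h1 h2 h3
    obtain ⟨i, j, hij⟩ := (hG μ h3).2 p h1
    exact absurd (h2 i j) (not_lt.2 hij)
  have hneb : (l : Filter S).NeBot := l.neBot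
  exact hcontr.exists.elim fun _ h => h

theorem isGδ_cond (k : ℕ) (R : V → ℕ → (V → ℝ) → (Fin k → V) → Prop)
    (hR : ∀ v m p, IsOpen {μ | R v m μ p}) :
    IsGδ {μ : S | ∀ v, μ.1 v < 1 → ∀ (n m m' : ℕ) (g : Fin n → (V →+ ℝ)),
      (∀ i v, |g i v| ≤ μ.1 v) →
      ∃ p, R v m' μ.1 p ∧ ∀ i j, |g i (p j - v)| < 1 / ((m : ℝ) + 1)} := by
  have h1 : {μ : S | ∀ v, μ.1 v < 1 → ∀ (n m m' : ℕ) (g : Fin n → (V →+ ℝ)),
      (∀ i v, |g i v| ≤ μ.1 v) →
      ∃ p, R v m' μ.1 p ∧ ∀ i j, |g i (p j - v)| < 1 / ((m : ℝ) + 1)} =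
      ⋂ v : V, ⋂ n : ℕ, ⋂ m : ℕ, ⋂ m' : ℕ, ({μ : S | 1 ≤ μ.1 v} ∪
        O S k n (R v m') v (1 / ((m : ℝ) + 1))) := by
    ext μ
    simp only [Set.mem_iInter, Set.mem_union]
    constructor
    · intro h v n m m'
      by_cases hv : μ.1 v < 1
      · exact Or.inr (h v hv n m m')
      · exact Or.inl (not_lt.1 hv)
    · intro h v hv n m m'
      rcases h v n m m' with h1 | h1
      · exact absurd hv (not_lt.2 h1)
      · exact h1
  rw [h1]
  refine IsGδ.iInter fun v => IsGδ.iInter fun n => IsGδ.iInter fun m => IsGδ.iInter fun m' => ?_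
  apply IsGδ.union
  · have hc : Continuous fun μ : S => μ.1 v := (continuous_apply v).comp continuous_subtype_val
    have h2 : {μ : S | 1 ≤ μ.1 v} = ⋂ j : ℕ, {μ : S | 1 - 1 / ((j : ℝ) + 1) < μ.1 v} := by
      ext μ
      rw [Set.mem_iInter]
      constructor
      · intro h j
        have h3 : (1:ℝ) ≤ μ.1 v := h
        have h4 : (0:ℝ) < 1 / ((j : ℝ) + 1) := by positivity
        show 1 - 1 / ((j : ℝ) + 1) < μ.1 v
        linarith
      · intro h
        show 1 ≤ μ.1 v
        by_contra hlt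
        push Not at hlt
        obtain ⟨j, hj⟩ := exists_nat_one_div_lt (show 0 < 1 - μ.1 v by linarith)
        have h3 : 1 - 1 / ((j : ℝ) + 1) < μ.1 v := h j
        linarith
    rw [h2]
    exact IsGδ.iInter fun j => (isOpen_lt continuous_const hc).isGδ
  · exact (isOpen_O k n (R v m') (fun p => hR v m' p) v _).isGδ

end Open

section Extend

variable {X : Type*} [NormedAddCommGroup X] [NormedSpace ℝ X]

/-- Extension of dominated additive functionals. -/
theorem exists_extend {A : Type*} [AddCommGroup A] [Module ℚ A] (ι : A →+ X) (hd : DenseRange ι)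
    (g : A →+ ℝ) (hg : ∀ v, |g v| ≤ ‖ι v‖) :
    ∃ f : StrongDual ℝ X, ‖f‖ ≤ 1 ∧ ∀ v, f (ι v) = g v := by
  classical
  -- extend as a uniformly continuous map
  letI : SeminormedAddCommGroup A := SeminormedAddCommGroup.induced A X ι
  have hnorm : ∀ v : A, ‖v‖ = ‖ι v‖ := fun v => rfl
  have hui : IsUniformInducing ι := ⟨rfl⟩
  have hgu : UniformContinuous g := by
    apply (AddMonoidHomClass.lipschitz_of_bound g 1 ?_).uniformContinuous
    intro v
    rw [one_mul, hnorm]
    exact hg v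
  have hdi : IsDenseInducing ι := hui.isDenseInducing hd
  set f : X → ℝ := hdi.extend g with hf
  have hfu : UniformContinuous f := uniformContinuous_uniformly_extend hui hd hgu
  have hfc : Continuous f := hfu.continuous
  have hfι : ∀ v, f (ι v) = g v := fun v => hdi.extend_eq hgu.continuous v
  have hfadd : ∀ x y, f (x + y) = f x + f y := by
    intro x y
    have : IsClosed {q : X × X | f (q.1 + q.2) = f q.1 + f q.2} :=
      isClosed_eq (hfc.comp (continuous_fst.add continuous_snd))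
        ((hfc.comp continuous_fst).add (hfc.comp continuous_snd))
    have h2 : (Set.range (Prod.map ι ι)) ⊆ {q : X × X | f (q.1 + q.2) = f q.1 + f q.2} := by
      rintro _ ⟨⟨a, b⟩, rfl⟩
      show f (ι a + ι b) = f (ι a) + f (ι b)
      rw [← map_add, hfι, hfι, hfι, map_add]
    have h3 := this.closure_subset_iff.2 h2
    exact h3 ((hd.prodMap hd) (x, y))
  have hfn : ∀ x, |f x| ≤ ‖x‖ := by
    intro x
    have : IsClosed {x : X | |f x| ≤ ‖x‖} := isClosed_le hfc.abs continuous_norm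
    have h2 : Set.range ι ⊆ {x : X | |f x| ≤ ‖x‖} := by
      rintro _ ⟨a, rfl⟩
      show |f (ι a)| ≤ ‖ι a‖
      rw [hfι]; exact hg a
    exact (this.closure_subset_iff.2 h2) (hd x)
  set f0 : X →+ ℝ := AddMonoidHom.mk' f hfadd
  set f1 : X →L[ℝ] ℝ := f0.toRealLinearMap hfc
  refine ⟨f1, ?_, hfι⟩
  apply ContinuousLinearMap.opNorm_le_bound _ zero_le_one
  intro x
  rw [one_mul]
  exact hfn x

end Extend

end Q98.Gdel
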