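import Mathlib

/-! A lattice type renorming of `ℓ₂(I)` and its asymptotic behaviour along weakly null families. -/

set_option autoImplicit false

open Filter Topology

open scoped ENNReal

namespace Q98.EQ

/-- the Hilbert space `ℓ₂(I)` -/
abbrev H (I : Type*) : Type _ := lp (fun _ : I => ℝ) 2

variable {I : Type*}

lemma sq_summable (x : H I) : Summable fun i => x i ^ 2 := by
  have := (memℓp_gen_iff (p := 2) (by norm_num)).1 (lp.memℓp x)
  simpa using this

lemma norm_sq (x : H I) : ‖x‖ ^ 2 = ∑' i, x i ^ 2 := by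
  have := lp.norm_rpow_eq_tsum (p := 2) (by norm_num) x
  simpa using this

lemma norm_mono {x y : H I} (h : ∀ i, |x i| ≤ |y i|) : ‖x‖ ≤ ‖y‖ :=
  lp.norm_mono (by norm_num) h

lemma inner_eq (x y : H I) : inner ℝ x y = ∑' i, x i * y i := by
  rw [lp.inner_eq_tsum]
  simp [mul_comm]

lemma summable_mul (x y : H I) : Summable fun i => x i * y i := by
  have := lp.summable_inner (𝕜 := ℝ) x y
  simpa [mul_comm] using this

/-- a vector from its coordinates -/
def mk (f : I → ℝ) {C : ℝ} (h : ∀ s : Finset I, ∑ i ∈ s, f i ^ 2 ≤ C) : H I :=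
  ⟨f, memℓp_gen' (C := C) fun s => by simpa using h s⟩

@[simp] lemma mk_apply (f : I → ℝ) {C : ℝ} (h : ∀ s : Finset I, ∑ i ∈ s, f i ^ 2 ≤ C) (i : I) :
    mk f h i = f i := rfl

lemma norm_mk_le (f : I → ℝ) {C : ℝ} (h : ∀ s : Finset I, ∑ i ∈ s, f i ^ 2 ≤ C) :
    ‖mk f h‖ ^ 2 ≤ C := by
  rw [norm_sq]
  exact Real.tsum_le_of_sum_le (fun i => sq_nonneg _) h

lemma sum_sq_le (x : H I) (s : Finset I) : ∑ i ∈ s, x i ^ 2 ≤ ‖x‖ ^ 2 := by
  rw [norm_sq]
  exact (sq_summable x).sum_le_tsum s fun i _ => sq_nonneg _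

lemma abs_apply_le (x : H I) (i : I) : |x i| ≤ ‖x‖ := by
  have := lp.norm_apply_le_norm (p := 2) (by norm_num) x i
  simpa using this

/-- the modulus of a vector -/
noncomputable def ab (x : H I) : H I := mk (fun i => |x i|) (C := ‖x‖ ^ 2) fun s => by
  simpa using sum_sq_le x s

@[simp] lemma ab_apply (x : H I) (i : I) : ab x i = |x i| := rfl

lemma norm_ab (x : H I) : ‖ab x‖ = ‖x‖ :=
  le_antisymm (norm_mono fun i => by simp) (norm_mono fun i => by simp)

/-- The weights. -/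
structure Wt (I : Type*) where
  /-- the weight of a pair -/
  m : I → I → ℝ
  nonneg : ∀ i j, 0 ≤ m i j
  sum_le : ∀ j, ∀ s : Finset I, ∑ i ∈ s, m i j ^ 2 ≤ 2

variable (W : Wt I)

lemma Wt.sq_le (i j : I) : W.m i j ^ 2 ≤ 2 := by
  have := W.sum_le j {i}
  simpa using this

/-- a row of the weights, as a diagonal operator -/
noncomputable def D (i : I) (x : H I) : H I := mk (fun j => W.m i j * x j) (C := 2 * ‖x‖ ^ 2) fun s => by
  have h1 : ∀ j ∈ s, (W.m i j * x j) ^ 2 ≤ 2 * x j ^ 2 := fun j _ => by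
    rw [mul_pow]
    exact mul_le_mul_of_nonneg_right (W.sq_le i j) (sq_nonneg _)
  refine (Finset.sum_le_sum h1).trans ?_
  rw [← Finset.mul_sum]
  exact mul_le_mul_of_nonneg_left (sum_sq_le x s) (by norm_num)

@[simp] lemma D_apply (i : I) (x : H I) (j : I) : D W i x j = W.m i j * x j := rfl

lemma D_add (i : I) (x y : H I) : D W i (x + y) = D W i x + D W i y := by
  ext j
  simp [mul_add]

lemma D_smul (i : I) (c : ℝ) (x : H I) : D W i (c • x) = c • D W i x := by
  ext j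
  simp
  ring

lemma sum_D_le (x : H I) (s : Finset I) : ∑ i ∈ s, ‖D W i x‖ ^ 2 ≤ 2 * ‖x‖ ^ 2 := by
  simp only [norm_sq]
  rw [← Summable.tsum_finsetSum (fun i _ => sq_summable (D W i x)), ← tsum_mul_left]
  refine Summable.tsum_le_tsum (fun j => ?_) ?_ ((sq_summable x).mul_left 2)
  · simp only [D_apply, mul_pow]
    rw [← Finset.sum_mul]
    exact mul_le_mul_of_nonneg_right (W.sum_le j s) (sq_nonneg _)
  · exact summable_sum fun i _ => sq_summable (D W i x)

/-- the vector of the norms of the rows -/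
noncomputable def G (x : H I) : H I := mk (fun i => ‖D W i x‖) (C := 2 * ‖x‖ ^ 2) (sum_D_le W x)

@[simp] lemma G_apply (x : H I) (i : I) : G W x i = ‖D W i x‖ := rfl

lemma norm_G_le (x : H I) : ‖G W x‖ ≤ 2 * ‖x‖ := by
  have h := norm_mk_le (fun i => ‖D W i x‖) (sum_D_le W x)
  have h2 : ‖G W x‖ ^ 2 ≤ (2 * ‖x‖) ^ 2 := by
    refine h.trans ?_
    nlinarith [norm_nonneg x]
  exact abs_le_of_sq_le_sq' h2 (by positivity) |>.2

/-- The new norm. -/
noncomputable def N (x : H I) : ℝ := ‖ab x + G W x‖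

lemma N_nonneg (x : H I) : 0 ≤ N W x := norm_nonneg _

lemma N_add_le (x y : H I) : N W (x + y) ≤ N W x + N W y := by
  unfold N
  refine le_trans ?_ (norm_add_le _ _)
  refine norm_mono fun i => ?_
  have h1 : 0 ≤ ‖D W i (x + y)‖ := norm_nonneg _
  have h2 : ‖D W i (x + y)‖ ≤ ‖D W i x‖ + ‖D W i y‖ := by
    rw [D_add]; exact norm_add_le _ _
  have h3 := abs_add_le (x i) (y i)
  simp only [lp.coeFn_add, Pi.add_apply, ab_apply, G_apply]
  rw [abs_of_nonneg (a := |x i + y i| + ‖D W i (x + y)‖) (by positivity),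
    abs_of_nonneg (a := |x i| + ‖D W i x‖ + (|y i| + ‖D W i y‖)) (by positivity)]
  linarith

lemma N_smul (c : ℝ) (x : H I) : N W (c • x) = |c| * N W x := by
  unfold N
  have : ab (c • x) + G W (c • x) = |c| • (ab x + G W x) := by
    ext i
    simp only [lp.coeFn_add, Pi.add_apply, ab_apply, G_apply, lp.coeFn_smul, Pi.smul_apply,
      smul_eq_mul, D_smul, norm_smul, Real.norm_eq_abs, abs_mul]
    ring
  rw [this, norm_smul, Real.norm_eq_abs, abs_abs]

/-- the new norm as a seminorm -/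
noncomputable def Ns : Seminorm ℝ (H I) :=
  Seminorm.of (N W) (N_add_le W) (fun c x => by rw [N_smul, Real.norm_eq_abs])

lemma N_neg (x : H I) : N W (-x) = N W x := map_neg_eq_map (Ns W) x

lemma N_zero : N W (0 : H I) = 0 := map_zero (Ns W)

lemma N_sub_rev (x y : H I) : N W (x - y) = N W (y - x) := map_sub_rev (Ns W) x y

lemma abs_N_sub_le (x y : H I) : |N W x - N W y| ≤ N W (x - y) := abs_sub_map_le_sub (Ns W) x y

lemma norm_le_N (x : H I) : ‖x‖ ≤ N W x := by
  refine norm_mono fun i => ?_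
  simp only [lp.coeFn_add, Pi.add_apply, ab_apply, G_apply]
  rw [abs_of_nonneg (a := |x i| + ‖D W i x‖) (by positivity)]
  linarith [norm_nonneg (D W i x)]

lemma N_le (x : H I) : N W x ≤ 3 * ‖x‖ := by
  have h1 := norm_add_le (ab x) (G W x)
  have h2 := norm_G_le W x
  rw [norm_ab] at h1
  unfold N
  linarith

lemma N_sq (x : H I) : N W x ^ 2 = ‖x‖ ^ 2 + ‖G W x‖ ^ 2 + 2 * inner ℝ (ab x) (G W x) := by
  unfold N
  rw [norm_add_sq_real, norm_ab]
  ring

/-- disjoint supports -/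
def Disj (x y : H I) : Prop := ∀ i, x i = 0 ∨ y i = 0

variable {W}

lemma Disj.norm_add_sq {x y : H I} (h : Disj x y) : ‖x + y‖ ^ 2 = ‖x‖ ^ 2 + ‖y‖ ^ 2 := by
  rw [norm_sq, norm_sq, norm_sq, ← Summable.tsum_add (sq_summable x) (sq_summable y)]
  refine tsum_congr fun i => ?_
  simp only [lp.coeFn_add, Pi.add_apply]
  rcases h i with h | h <;> rw [h] <;> ring

lemma Disj.D_add_sq {x y : H I} (h : Disj x y) (i : I) :
    ‖D W i (x + y)‖ ^ 2 = ‖D W i x‖ ^ 2 + ‖D W i y‖ ^ 2 := by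
  rw [D_add]
  refine Disj.norm_add_sq fun j => ?_
  rcases h j with h | h
  · left; simp [h]
  · right; simp [h]

lemma Disj.G_add_sq {x y : H I} (h : Disj x y) :
    ‖G W (x + y)‖ ^ 2 = ‖G W x‖ ^ 2 + ‖G W y‖ ^ 2 := by
  rw [norm_sq, norm_sq, norm_sq, ← Summable.tsum_add (sq_summable _) (sq_summable _)]
  refine tsum_congr fun i => ?_
  exact h.D_add_sq i

lemma Disj.ab_add {x y : H I} (h : Disj x y) : ab (x + y) = ab x + ab y := by
  ext i
  simp only [lp.coeFn_add, Pi.add_apply, ab_apply]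
  rcases h i with h | h <;> simp [h]

lemma inner_mono {x y z : H I} (hx : ∀ i, 0 ≤ x i) (h : ∀ i, y i ≤ z i) :
    inner ℝ x y ≤ inner ℝ x z := by
  rw [inner_eq, inner_eq]
  exact Summable.tsum_le_tsum (fun i => mul_le_mul_of_nonneg_left (h i) (hx i))
    (summable_mul x y) (summable_mul x z)

lemma Disj.D_le_left {x y : H I} (h : Disj x y) (i : I) : ‖D W i x‖ ≤ ‖D W i (x + y)‖ := by
  have h1 := h.D_add_sq (W := W) i
  refine abs_le_of_sq_le_sq' (a := ‖D W i x‖) ?_ (norm_nonneg _) |>.2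
  rw [h1]
  nlinarith [norm_nonneg (D W i y)]

lemma Disj.D_le_right {x y : H I} (h : Disj x y) (i : I) : ‖D W i y‖ ≤ ‖D W i (x + y)‖ := by
  have h1 := h.D_add_sq (W := W) i
  refine abs_le_of_sq_le_sq' (a := ‖D W i y‖) ?_ (norm_nonneg _) |>.2
  rw [h1]
  nlinarith [norm_nonneg (D W i x)]

/-- **Superadditivity.** -/
lemma Disj.le_N_sq {x y : H I} (h : Disj x y) : N W x ^ 2 + N W y ^ 2 ≤ N W (x + y) ^ 2 := by
  rw [N_sq, N_sq, N_sq, h.norm_add_sq, h.G_add_sq, h.ab_add, inner_add_left]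
  have h1 : inner ℝ (ab x) (G W x) ≤ inner ℝ (ab x) (G W (x + y)) :=
    inner_mono (fun i => by simp) fun i => h.D_le_left i
  have h2 : inner ℝ (ab y) (G W y) ≤ inner ℝ (ab y) (G W (x + y)) :=
    inner_mono (fun i => by simp) fun i => h.D_le_right i
  linarith

/-- **Upper estimate.** -/
lemma Disj.N_sq_le {x y : H I} (h : Disj x y) : N W (x + y) ^ 2 ≤ N W x ^ 2 + N W y ^ 2 +
    2 * inner ℝ (ab x) (G W y) + 2 * inner ℝ (ab y) (G W x) := by
  rw [N_sq, N_sq, N_sq, h.norm_add_sq, h.G_add_sq, h.ab_add, inner_add_left]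
  have h0 : ∀ i, G W (x + y) i ≤ (G W x + G W y) i := fun i => by
    simp only [lp.coeFn_add, Pi.add_apply, G_apply, D_add]
    exact norm_add_le _ _
  have h1 : inner ℝ (ab x) (G W (x + y)) ≤ inner ℝ (ab x) (G W x + G W y) :=
    inner_mono (fun i => by simp) h0
  have h2 : inner ℝ (ab y) (G W (x + y)) ≤ inner ℝ (ab y) (G W x + G W y) :=
    inner_mono (fun i => by simp) h0
  rw [inner_add_right] at h1 h2
  linarith

/-- **Strict superadditivity.** -/
lemma Disj.lt_N_sq {x y : H I} (h : Disj x y) {i : I} (hi : x i ≠ 0) (hy : D W i y ≠ 0) :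
    N W x ^ 2 + N W y ^ 2 < N W (x + y) ^ 2 := by
  rw [N_sq, N_sq, N_sq, h.norm_add_sq, h.G_add_sq, h.ab_add, inner_add_left]
  have h1 : inner ℝ (ab x) (G W x) < inner ℝ (ab x) (G W (x + y)) := by
    rw [inner_eq, inner_eq]
    refine Summable.tsum_lt_tsum (i := i) (fun j => ?_) ?_ (summable_mul _ _) (summable_mul _ _)
    · exact mul_le_mul_of_nonneg_left (h.D_le_left j) (by simp)
    · refine mul_lt_mul_of_pos_left ?_ (by simpa using hi)
      have h1 := h.D_add_sq (W := W) i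
      have h2 : 0 < ‖D W i y‖ := norm_pos_iff.2 hy
      exact lt_of_pow_lt_pow_left₀ 2 (norm_nonneg _) (by
        simp only [G_apply]
        rw [h1]; nlinarith)
  have h2 : inner ℝ (ab y) (G W y) ≤ inner ℝ (ab y) (G W (x + y)) :=
    inner_mono (fun i => by simp) fun i => h.D_le_right i
  linarith

end Q98.EQ
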