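import Pool.Agent.Q98.EQ1

/-! Asymptotic behaviour of the norm along weakly null families. -/

set_option autoImplicit false

open Filter Topology

open scoped ENNReal

namespace Q98.EQ

variable {I : Type*} {W : Wt I}

open Classical in
/-- truncation to a finite set of coordinates -/
noncomputable def P (F : Finset I) (x : H I) : H I := ∑ i ∈ F, lp.single 2 i (x i)

open Classical in
lemma P_apply (F : Finset I) (x : H I) (i : I) : P F x i = if i ∈ F then x i else 0 := by
  unfold P
  rw [lp.coeFn_sum, Finset.sum_apply]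
  simp only [lp.single_apply, Pi.single_apply]
  simp

lemma exists_P (x : H I) {ε : ℝ} (hε : 0 < ε) : ∃ F : Finset I, ‖x - P F x‖ < ε := by
  classical
  have h := lp.hasSum_single (p := 2) (by norm_num) x
  rw [HasSum, Metric.tendsto_nhds] at h
  obtain ⟨F, hF⟩ := (h ε hε).exists
  refine ⟨F, ?_⟩
  rw [dist_eq_norm, norm_sub_rev] at hF
  unfold P
  convert hF

lemma norm_P_le (F : Finset I) (x : H I) : ‖P F x‖ ≤ ‖x‖ :=
  norm_mono fun i => by
    classical
    rw [P_apply]
    split_ifs
    · exact le_rfl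
    · simp

lemma norm_sub_P_le (F : Finset I) (x : H I) : ‖x - P F x‖ ≤ ‖x‖ :=
  norm_mono fun i => by
    classical
    rw [lp.coeFn_sub, Pi.sub_apply, P_apply]
    split_ifs
    · simp
    · simp

lemma tendsto_P {α : Type*} {U : Filter α} {x : α → H I}
    (h : ∀ i, Tendsto (fun a => x a i) U (𝓝 0)) (F : Finset I) :
    Tendsto (fun a => ‖P F (x a)‖) U (𝓝 0) := by
  classical
  have h1 : Tendsto (fun a => ∑ i ∈ F, |x a i|) U (𝓝 (∑ i ∈ F, |(0 : ℝ)|)) :=
    tendsto_finsetSum _ fun i _ => (h i).abs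
  rw [show (∑ i ∈ F, |(0 : ℝ)|) = 0 by simp] at h1
  refine squeeze_zero (fun _ => norm_nonneg _) (fun a => ?_) h1
  unfold P
  refine (norm_sum_le _ _).trans (Finset.sum_le_sum fun i _ => ?_)
  rw [lp.norm_single (by norm_num)]
  rfl

/-- weak convergence -/
lemma tendsto_inner {α : Type*} {U : Filter α} {f : α → H I} {B : ℝ} (hB : ∀ a, ‖f a‖ ≤ B)
    {g : H I} (h : ∀ i, Tendsto (fun a => f a i) U (𝓝 (g i))) (w : H I) :
    Tendsto (fun a => inner ℝ w (f a)) U (𝓝 (inner ℝ w g)) := by
  rw [Metric.tendsto_nhds]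
  intro ε hε
  set K : ℝ := |B| + ‖g‖ + 1 with hK
  have hK0 : 0 < K := by positivity
  obtain ⟨F, hF⟩ := exists_P w (ε := ε / (2 * K)) (by positivity)
  have h1 : ∀ i, Tendsto (fun a => (f a - g) i) U (𝓝 0) := fun i => by
    simp only [lp.coeFn_sub, Pi.sub_apply]
    have := (h i).sub_const (g i)
    rwa [sub_self] at this
  have h2 : Tendsto (fun a => ‖w‖ * ‖P F (f a - g)‖) U (𝓝 0) := by
    have := (tendsto_P h1 F).const_mul ‖w‖
    rwa [mul_zero] at this
  filter_upwards [h2.eventually (gt_mem_nhds (show (0 : ℝ) < ε / 2 by positivity))] with a ha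
  rw [Real.dist_eq, ← inner_sub_right]
  have h3 : inner ℝ w (f a - g) = inner ℝ (w - P F w) (f a - g) + inner ℝ w (P F (f a - g)) := by
    rw [inner_sub_left]
    have : inner ℝ (P F w) (f a - g) = inner ℝ w (P F (f a - g)) := by
      classical
      rw [inner_eq, inner_eq]
      refine tsum_congr fun i => ?_
      rw [P_apply, P_apply]
      split_ifs <;> simp
    rw [this]; ring
  rw [h3]
  have h4 := abs_real_inner_le_norm (w - P F w) (f a - g)
  have h5 := abs_real_inner_le_norm w (P F (f a - g))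
  have h6 : ‖f a - g‖ ≤ K := by
    have h7 := norm_sub_le (f a) g
    have h8 := hB a
    have h9 := le_abs_self B
    linarith
  have h7 : ‖w - P F w‖ * ‖f a - g‖ ≤ ε / (2 * K) * K :=
    mul_le_mul hF.le h6 (norm_nonneg _) (by positivity)
  have h8 : ε / (2 * K) * K = ε / 2 := by field_simp
  calc |inner ℝ (w - P F w) (f a - g) + inner ℝ w (P F (f a - g))|
      ≤ |inner ℝ (w - P F w) (f a - g)| + |inner ℝ w (P F (f a - g))| := abs_add_le _ _
    _ < ε := by linarith

lemma inner_ab_mono {x y w : H I} (h : ∀ i, |x i| ≤ |y i|) (hw : ∀ i, 0 ≤ w i) :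
    inner ℝ (ab x) w ≤ inner ℝ (ab y) w := by
  rw [real_inner_comm, real_inner_comm w]
  exact inner_mono hw h

lemma sq_diff {a b K r : ℝ} (ha : 0 ≤ a) (hb : 0 ≤ b) (haK : a ≤ K) (hbK : b ≤ K)
    (h : |a - b| ≤ r) : |a ^ 2 - b ^ 2| ≤ 2 * K * r := by
  have h1 : a ^ 2 - b ^ 2 = (a - b) * (a + b) := by ring
  rw [h1, abs_mul, abs_of_nonneg (a := a + b) (by positivity)]
  have h2 : 0 ≤ r := (abs_nonneg _).trans h
  calc |a - b| * (a + b) ≤ r * (2 * K) := mul_le_mul h (by linarith) (by positivity) h2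
    _ = 2 * K * r := by ring

/-- **Two-sided estimate along a weakly null family.** -/
lemma sandwich {α : Type*} {U : Filter α} {x : α → H I} {B : ℝ} (hB : ∀ a, ‖x a‖ ≤ B)
    (h : ∀ i, Tendsto (fun a => x a i) U (𝓝 0)) (w : H I) {ε : ℝ} (hε : 0 < ε) :
    ∀ᶠ a in U, N W (x a) ^ 2 + N W w ^ 2 - ε ≤ N W (x a + w) ^ 2 ∧
      N W (x a + w) ^ 2 ≤ N W (x a) ^ 2 + N W w ^ 2 + 2 * inner ℝ (ab w) (G W (x a)) +
        2 * inner ℝ (ab (x a)) (G W w) + ε := by
  classical
  set K : ℝ := 3 * (|B| + ‖w‖) + 1 with hK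
  have hK0 : 0 < K := by positivity
  set η : ℝ := ε / (8 * K) with hη
  have hη0 : 0 < η := by positivity
  obtain ⟨F, hF⟩ := exists_P w (ε := η / 3) (by positivity)
  filter_upwards [(tendsto_P h F).eventually (gt_mem_nhds (show (0 : ℝ) < η / 3 by positivity))]
    with a ha
  set p := x a - P F (x a) with hp
  set q := P F w with hq
  have hdisj : Disj p q := by
    intro i
    by_cases hi : i ∈ F
    · left
      rw [hp, lp.coeFn_sub, Pi.sub_apply, P_apply, if_pos hi, sub_self]
    · right
      rw [hq, P_apply, if_neg hi]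
  have hBa : ‖x a‖ ≤ |B| := (hB a).trans (le_abs_self B)
  have hp1 : ‖p‖ ≤ |B| := (norm_sub_P_le F _).trans hBa
  have hq1 : ‖q‖ ≤ ‖w‖ := norm_P_le F w
  have n1 : N W (x a) ≤ K := by have := N_le W (x a); have := norm_nonneg w; linarith
  have n2 : N W w ≤ K := by have := N_le W w; have := abs_nonneg B; linarith
  have n3 : N W p ≤ K := by have := N_le W p; have := norm_nonneg w; linarith
  have n4 : N W q ≤ K := by have := N_le W q; have := abs_nonneg B; linarith
  have n5 : N W (x a + w) ≤ K := by have := N_le W (x a + w); have := norm_add_le (x a) w; linarith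
  have n6 : N W (p + q) ≤ K := by have := N_le W (p + q); have := norm_add_le p q; linarith
  have e1 : N W (P F (x a)) ≤ η := by have := N_le W (P F (x a)); linarith
  have e2 : N W (w - q) ≤ η := by have := N_le W (w - q); linarith
  have d1 : |N W (x a) - N W p| ≤ η := by
    refine (abs_N_sub_le W _ _).trans ?_
    rw [hp, sub_sub_cancel]; exact e1
  have d2 : |N W w - N W q| ≤ η := (abs_N_sub_le W _ _).trans e2
  have d3 : |N W (x a + w) - N W (p + q)| ≤ 2 * η := by
    refine (abs_N_sub_le W _ _).trans ?_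
    have : x a + w - (p + q) = P F (x a) + (w - q) := by rw [hp]; abel
    rw [this]
    have := N_add_le W (P F (x a)) (w - q)
    linarith
  have s1 := sq_diff (N_nonneg W _) (N_nonneg W _) n1 n3 d1
  have s2 := sq_diff (N_nonneg W _) (N_nonneg W _) n2 n4 d2
  have s3 := sq_diff (N_nonneg W _) (N_nonneg W _) n5 n6 d3
  have hKη : 8 * K * η = ε := by rw [hη]; field_simp
  rw [abs_le] at s1 s2 s3
  constructor
  · have := hdisj.le_N_sq (W := W)
    nlinarith
  · have h1 := hdisj.N_sq_le (W := W)
    have h2 : inner ℝ (ab p) (G W q) ≤ inner ℝ (ab (x a)) (G W w) := by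
      refine (inner_ab_mono (y := x a) (fun i => ?_) (fun i => norm_nonneg _)).trans
        (inner_mono (fun i => abs_nonneg _) fun i => ?_)
      · rw [hp, lp.coeFn_sub, Pi.sub_apply, P_apply]
        split_ifs <;> simp
      · refine norm_mono fun j => ?_
        rw [D_apply, D_apply, hq, P_apply]
        split_ifs <;> simp
        positivity
    have h3 : inner ℝ (ab q) (G W p) ≤ inner ℝ (ab w) (G W (x a)) := by
      refine (inner_ab_mono (y := w) (fun i => ?_) (fun i => norm_nonneg _)).trans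
        (inner_mono (fun i => abs_nonneg _) fun i => ?_)
      · rw [hq, P_apply]
        split_ifs <;> simp
      · refine norm_mono fun j => ?_
        rw [D_apply, D_apply, hp, lp.coeFn_sub, Pi.sub_apply, P_apply]
        split_ifs <;> simp
        positivity
    nlinarith

end Q98.EQ
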