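import Pool.Agent.Q98.EQ2

/-! An infinite equilateral family for the new norm converges weakly. -/

set_option autoImplicit false

open Filter Topology

open scoped ENNReal

namespace Q98.EQ

variable {I : Type*} {W : Wt I} {α : Type*}

lemma exists_lim_real (U : Ultrafilter α) {f : α → ℝ} {B : ℝ} (hB : ∀ a, |f a| ≤ B) :
    ∃ e, Tendsto f U (𝓝 e) := by
  have h : Set.Icc (-B) B ∈ U.map f := by
    rw [Ultrafilter.mem_map]
    exact Filter.univ_mem' fun a => abs_le.1 (hB a)
  obtain ⟨e, -, he⟩ := isCompact_Icc.ultrafilter_le_nhds (U.map f) (le_principal_iff.2 h)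
  exact ⟨e, he⟩

lemma exists_lim (U : Ultrafilter α) {f : α → H I} {B : ℝ} (hB : ∀ a, ‖f a‖ ≤ B) :
    ∃ g : H I, ∀ i, Tendsto (fun a => f a i) U (𝓝 (g i)) := by
  have h : ∀ i, ∃ e, Tendsto (fun a => f a i) U (𝓝 e) := fun i =>
    exists_lim_real U fun a => (abs_apply_le (f a) i).trans (hB a)
  choose e he using h
  have hs : ∀ s : Finset I, ∑ i ∈ s, e i ^ 2 ≤ B ^ 2 := by
    intro s
    have h1 : Tendsto (fun a => ∑ i ∈ s, f a i ^ 2) U (𝓝 (∑ i ∈ s, e i ^ 2)) :=
      tendsto_finsetSum _ fun i _ => (he i).pow 2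
    refine le_of_tendsto h1 (Eventually.of_forall fun a => ?_)
    refine (sum_sq_le (f a) s).trans ?_
    exact pow_le_pow_left₀ (norm_nonneg _) (hB a) 2
  exact ⟨mk e hs, he⟩

/-- an equilateral family -/
def Equil (W : Wt I) (y : α → H I) (δ : ℝ) : Prop := ∀ a b, a ≠ b → N W (y a - y b) = δ

section Main

variable {y : α → H I} {δ : ℝ}

lemma Equil.bdd (h : Equil W y δ) : ∃ B, ∀ a, ‖y a‖ ≤ B := by
  rcases isEmpty_or_nonempty α with he | ⟨⟨a₀⟩⟩
  · exact ⟨0, fun a => he.elim a⟩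
  · refine ⟨‖y a₀‖ + |δ|, fun a => ?_⟩
    rcases eq_or_ne a a₀ with rfl | hne
    · linarith [abs_nonneg δ]
    · have h1 := h a a₀ hne
      have h2 := norm_le_N W (y a - y a₀)
      have h3 : ‖y a‖ ≤ ‖y a₀‖ + ‖y a - y a₀‖ := by
        have := norm_add_le (y a₀) (y a - y a₀)
        rwa [add_sub_cancel] at this
      have h4 := le_abs_self δ
      linarith

lemma tendsto_sub_zero {U : Filter α} {u : H I}
    (hu : ∀ i, Tendsto (fun a => y a i) U (𝓝 (u i))) (i : I) :
    Tendsto (fun a => (y a - u) i) U (𝓝 0) := by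
  simp only [lp.coeFn_sub, Pi.sub_apply]
  have := (hu i).sub_const (u i)
  rwa [sub_self] at this

lemma bdd_sub {B : ℝ} (hB : ∀ a, ‖y a‖ ≤ B) (u : H I) (a : α) : ‖y a - u‖ ≤ B + ‖u‖ :=
  (norm_sub_le _ _).trans (by linarith [hB a])

lemma ne_eventually {U : Filter α} (hU : U ≤ cofinite) (b : α) : ∀ᶠ a in U, a ≠ b :=
  hU (Set.finite_singleton b).compl_mem_cofinite

/-- first lower estimate -/
lemma Equil.lower₁ (h : Equil W y δ) {U : Ultrafilter α} (hU : (U : Filter α) ≤ cofinite)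
    {u : H I} (hu : ∀ i, Tendsto (fun a => y a i) U (𝓝 (u i))) {e : ℝ}
    (he : Tendsto (fun a => N W (y a - u) ^ 2) U (𝓝 e)) (b : α) :
    e + N W (y b - u) ^ 2 ≤ δ ^ 2 := by
  obtain ⟨B, hB⟩ := h.bdd
  refine le_of_forall_pos_le_add fun ε hε => ?_
  have h1 := sandwich (W := W) (bdd_sub hB u) (tendsto_sub_zero hu) (u - y b) hε
  have h2 : ∀ᶠ a in (U : Filter α), N W (y a - u) ^ 2 + (N W (u - y b) ^ 2 - ε) ≤ δ ^ 2 := by
    filter_upwards [h1, ne_eventually hU b] with a ha hab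
    have h3 := ha.1
    rw [show y a - u + (u - y b) = y a - y b by abel, h a b hab] at h3
    linarith
  have h3 := le_of_tendsto (he.add_const _) h2
  rw [N_sub_rev] at h3
  linarith

/-- second lower estimate -/
lemma Equil.lower₂ (h : Equil W y δ) {U V : Ultrafilter α} (hU : (U : Filter α) ≤ cofinite)
    {u v : H I} (hu : ∀ i, Tendsto (fun a => y a i) U (𝓝 (u i)))
    (hv : ∀ i, Tendsto (fun a => y a i) V (𝓝 (v i))) {e e' : ℝ}
    (he : Tendsto (fun a => N W (y a - u) ^ 2) U (𝓝 e))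
    (he' : Tendsto (fun a => N W (y a - v) ^ 2) V (𝓝 e')) :
    e + e' + N W (v - u) ^ 2 ≤ δ ^ 2 := by
  obtain ⟨B, hB⟩ := h.bdd
  refine le_of_forall_pos_le_add fun ε hε => ?_
  have h1 := sandwich (W := W) (bdd_sub hB v) (tendsto_sub_zero hv) (v - u) hε
  have h2 : ∀ᶠ a in (V : Filter α), N W (y a - v) ^ 2 + (N W (v - u) ^ 2 - ε + e) ≤ δ ^ 2 := by
    filter_upwards [h1] with a ha
    have h3 := ha.1
    rw [show y a - v + (v - u) = y a - u by abel] at h3
    have h4 := h.lower₁ hU hu he a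
    linarith
  have h3 := le_of_tendsto (he'.add_const _) h2
  linarith

/-- the upper estimate -/
lemma Equil.upper (h : Equil W y δ) {U : Ultrafilter α} (hU : (U : Filter α) ≤ cofinite)
    {u : H I} (hu : ∀ i, Tendsto (fun a => y a i) U (𝓝 (u i))) {e : ℝ}
    (he : Tendsto (fun a => N W (y a - u) ^ 2) U (𝓝 e)) : δ ^ 2 ≤ 2 * e := by
  obtain ⟨B, hB⟩ := h.bdd
  have hx := tendsto_sub_zero hu
  have hGB : ∀ a, ‖G W (y a - u)‖ ≤ 2 * (B + ‖u‖) := fun a =>
    (norm_G_le W _).trans (by linarith [bdd_sub hB u a])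
  obtain ⟨g, hg⟩ := exists_lim U hGB
  have hab : ∀ i, Tendsto (fun a => ab (y a - u) i) U (𝓝 ((0 : H I) i)) := fun i => by
    have := (hx i).abs
    rw [abs_zero] at this
    exact this
  have habB : ∀ a, ‖ab (y a - u)‖ ≤ B + ‖u‖ := fun a => by
    rw [norm_ab]; exact bdd_sub hB u a
  have key : ∀ b, δ ^ 2 ≤ e + N W (y b - u) ^ 2 + 2 * inner ℝ (ab (y b - u)) g := by
    intro b
    refine le_of_forall_pos_le_add fun ε hε => ?_
    have h1 := sandwich (W := W) (bdd_sub hB u) hx (u - y b) hε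
    have h2 : ∀ᶠ a in (U : Filter α), δ ^ 2 ≤ N W (y a - u) ^ 2 + N W (y b - u) ^ 2 +
        2 * inner ℝ (ab (y b - u)) (G W (y a - u)) +
        2 * inner ℝ (G W (u - y b)) (ab (y a - u)) + ε := by
      filter_upwards [h1, ne_eventually hU b] with a ha hab
      have h3 := ha.2
      rw [show y a - u + (u - y b) = y a - y b by abel, h a b hab, N_sub_rev W u (y b)] at h3
      have h4 : ab (u - y b) = ab (y b - u) := by
        ext i
        simp only [ab_apply, lp.coeFn_sub, Pi.sub_apply]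
        exact abs_sub_comm _ _
      rw [h4, real_inner_comm (G W (u - y b))] at h3
      exact h3
    have h5 := ((((he.add_const (N W (y b - u) ^ 2)).add
      ((tendsto_inner hGB hg (ab (y b - u))).const_mul 2)).add
      ((tendsto_inner habB hab (G W (u - y b))).const_mul 2)).add_const ε)
    have h6 := ge_of_tendsto h5 h2
    rw [inner_zero_right] at h6
    linarith
  have h7 : Tendsto (fun b => e + N W (y b - u) ^ 2 + 2 * inner ℝ g (ab (y b - u))) U
      (𝓝 (e + e + 2 * inner ℝ g (0 : H I))) :=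
    (he.const_add e).add ((tendsto_inner habB hab g).const_mul 2)
  have h8 := ge_of_tendsto h7 (Eventually.of_forall fun b => by
    rw [real_inner_comm]; exact key b)
  rw [inner_zero_right] at h8
  linarith

/-- **An infinite equilateral family converges weakly.** -/
theorem Equil.exists_lim [Infinite α] (h : Equil W y δ) :
    ∃ u : H I, (∀ i, Tendsto (fun a => y a i) cofinite (𝓝 (u i))) ∧
      Tendsto (fun a => N W (y a - u) ^ 2) cofinite (𝓝 (δ ^ 2 / 2)) := by
  obtain ⟨B, hB⟩ := h.bdd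
  have hex : ∀ U : Ultrafilter α, ∃ u : H I, ∃ e : ℝ,
      (∀ i, Tendsto (fun a => y a i) U (𝓝 (u i))) ∧
      Tendsto (fun a => N W (y a - u) ^ 2) U (𝓝 e) := by
    intro U
    obtain ⟨u, hu⟩ := Q98.EQ.exists_lim U hB
    obtain ⟨e, he⟩ := exists_lim_real U (f := fun a => N W (y a - u) ^ 2)
      (B := (3 * (B + ‖u‖)) ^ 2) fun a => by
        rw [abs_of_nonneg (sq_nonneg _)]
        refine pow_le_pow_left₀ (N_nonneg W _) ?_ 2
        exact (N_le W _).trans (by linarith [bdd_sub hB u a])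
    exact ⟨u, e, hu, he⟩
  obtain ⟨u, e, hu, he⟩ := hex (Ultrafilter.of cofinite)
  have hU₀ : ((Ultrafilter.of cofinite : Ultrafilter α) : Filter α) ≤ cofinite :=
    Ultrafilter.of_le _
  have hall : ∀ V : Ultrafilter α, (V : Filter α) ≤ cofinite →
      (∀ i, Tendsto (fun a => y a i) V (𝓝 (u i))) ∧
      Tendsto (fun a => N W (y a - u) ^ 2) V (𝓝 (δ ^ 2 / 2)) := by
    intro V hV
    obtain ⟨v, e', hv, he'⟩ := hex V
    have h1 := h.upper hU₀ hu he
    have h2 := h.upper hV hv he'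
    have h3 := h.lower₂ hU₀ hu hv he he'
    have h4 : N W (v - u) ^ 2 ≤ 0 := by linarith
    have h5 : ‖v - u‖ ≤ 0 := by
      have h6 := norm_le_N W (v - u)
      have h7 := N_nonneg W (v - u)
      nlinarith
    have h6 : v = u := sub_eq_zero.1 (norm_le_zero_iff.1 h5)
    subst h6
    refine ⟨hv, ?_⟩
    have h7 : e' = δ ^ 2 / 2 := by
      have h8 := h.lower₂ hV hv hv he' he'
      have h9 := sq_nonneg (N W (v - v))
      linarith
    rw [← h7]
    exact he'
  refine ⟨u, fun i => ?_, ?_⟩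
  · rw [tendsto_iff_ultrafilter]
    exact fun V hV => (hall V hV).1 i
  · rw [tendsto_iff_ultrafilter]
    exact fun V hV => (hall V hV).2

end Main

end Q98.EQ
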