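import Pool.Agent.Q98.EQ3

/-! No uncountable equilateral families. -/

set_option autoImplicit false

open Filter Topology

open scoped ENNReal

namespace Q98.EQ

variable {I : Type*} {W : Wt I} {α : Type*}

lemma countable_supp (x : H I) : {i | x i ≠ 0}.Countable := by
  have h := (sq_summable x).countable_support
  refine h.mono fun i hi => ?_
  rw [Function.mem_support]
  exact pow_ne_zero 2 hi

lemma countable_ne_zero {f : α → ℝ} (h : Tendsto f cofinite (𝓝 0)) : {a | f a ≠ 0}.Countable := by
  have h1 : ∀ n : ℕ, {a | ¬ |f a| < 1 / ((n : ℝ) + 1)}.Finite := by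
    intro n
    have h2 := (Metric.tendsto_nhds.1 h) (1 / ((n : ℝ) + 1)) (by positivity)
    simpa [Real.dist_eq, eventually_cofinite] using h2
  refine (Set.countable_iUnion fun n : ℕ => (h1 n).countable).mono fun a ha => ?_
  have h3 : 0 < |f a| := abs_pos.2 ha
  obtain ⟨n, hn⟩ := exists_nat_one_div_lt h3
  exact Set.mem_iUnion.2 ⟨n, not_lt.2 hn.le⟩

variable [LinearOrder I]

/-- a countable set is bounded -/
lemma exists_bound [Uncountable I] (hI : ∀ i : I, (Set.Iio i).Countable) {A : Set I}
    (hA : A.Countable) : ∃ γ : I, ∀ i ∈ A, i ≤ γ := by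
  by_contra hcon
  push Not at hcon
  have h1 : (Set.univ : Set I) ⊆ ⋃ i ∈ A, Set.Iio i := by
    intro γ _
    obtain ⟨i, hi, hlt⟩ := hcon γ
    exact Set.mem_biUnion hi hlt
  have h2 : (Set.univ : Set I).Countable := (hA.biUnion fun i _ => hI i).mono h1
  exact not_countable (Set.countable_univ_iff.1 h2)

/-- **No uncountable equilateral families.** -/
theorem Equil.countable [Uncountable I] (hI : ∀ i : I, (Set.Iio i).Countable)
    (hpos : ∀ i j, i < j → 0 < W.m i j) (hzero : ∀ i j, j ≤ i → W.m i j = 0)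
    {y : α → H I} {δ : ℝ} (hδ : 0 < δ) (h : Equil W y δ) : Countable α := by
  by_contra hcon
  have hunc : Uncountable α := not_countable_iff.1 hcon
  have hinf : Infinite α := inferInstance
  obtain ⟨u, hu, he⟩ := h.exists_lim
  set x : α → H I := fun a => y a - u with hx
  have hxy : ∀ a b, a ≠ b → N W (x a - x b) = δ := by
    intro a b hab
    rw [hx]
    show N W (y a - u - (y b - u)) = δ
    rw [sub_sub_sub_cancel_right]
    exact h a b hab
  have hx0 : ∀ i, Tendsto (fun a => x a i) cofinite (𝓝 0) := tendsto_sub_zero hu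
  have hI' : ∀ i : I, (Set.Iic i).Countable := by
    intro i
    rw [← Set.Iio_insert]
    exact (hI i).insert i
  have hIinf : Infinite I := inferInstance
  -- picking a vector beyond a given point
  have hpick : ∀ (γ : I) (C : Set α), C.Countable → ∃ b, b ∉ C ∧ ∀ i ≤ γ, x b i = 0 := by
    intro γ C hC
    have h1 : (⋃ i ∈ Set.Iic γ, {a | x a i ≠ 0}).Countable :=
      (hI' γ).biUnion fun i _ => countable_ne_zero (hx0 i)
    have h2 : ∃ b, b ∉ (⋃ i ∈ Set.Iic γ, {a | x a i ≠ 0}) ∪ C := by
      by_contra hcon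
      push Not at hcon
      have h3 : (Set.univ : Set α).Countable := (h1.union hC).mono fun a _ => hcon a
      exact not_countable (Set.countable_univ_iff.1 h3)
    obtain ⟨b, hb⟩ := h2
    rw [Set.mem_union, not_or] at hb
    refine ⟨b, hb.2, fun i hi => ?_⟩
    by_contra hne
    exact hb.1 (Set.mem_biUnion (show i ∈ Set.Iic γ from hi) hne)
  -- a sequence and a bound for its supports
  obtain ⟨s⟩ : Nonempty (ℕ ↪ α) := ⟨Infinite.natEmbedding α⟩
  obtain ⟨γ, hγ⟩ := exists_bound hI (A := ⋃ n : ℕ, {i | x (s n) i ≠ 0})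
    (Set.countable_iUnion fun n => countable_supp _)
  have hγ' : ∀ n i, γ < i → x (s n) i = 0 := by
    intro n i hi
    by_contra hne
    exact absurd (hγ i (Set.mem_iUnion.2 ⟨n, hne⟩)) (not_le.2 hi)
  have hsc : (Set.range s).Countable := Set.countable_range s
  -- the norm of a vector beyond the bound
  have hbig : ∀ b, b ∉ Set.range s → (∀ i ≤ γ, x b i = 0) → δ ^ 2 / 2 ≤ N W (x b) ^ 2 := by
    intro b hb hb0
    have hs : Tendsto s atTop cofinite := by
      rw [← Nat.cofinite_eq_atTop]
      exact s.injective.tendsto_cofinite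
    have h1 : ∀ n, δ ^ 2 ≤ N W (x (s n)) ^ 2 + N W (x b) ^ 2 +
        2 * inner ℝ (G W (x b)) (ab (x (s n))) := by
      intro n
      have hdisj : Disj (x (s n)) (-x b) := by
        intro i
        by_cases hi : i ≤ γ
        · right; rw [lp.coeFn_neg, Pi.neg_apply, hb0 i hi, neg_zero]
        · left; exact hγ' n i (not_le.1 hi)
      have h2 := hdisj.N_sq_le (W := W)
      have h3 : N W (x (s n) + -x b) = δ := by
        rw [← sub_eq_add_neg]
        exact hxy _ _ fun h => hb ⟨n, h⟩
      have h4 : inner ℝ (ab (-x b)) (G W (x (s n))) = 0 := by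
        have hz : ∀ i, ab (-x b) i * G W (x (s n)) i = 0 := by
          intro i
          by_cases hi : i ≤ γ
          · rw [ab_apply, lp.coeFn_neg, Pi.neg_apply, hb0 i hi, neg_zero, abs_zero, zero_mul]
          · have : D W i (x (s n)) = 0 := by
              ext j
              rw [D_apply]
              by_cases hj : j ≤ i
              · rw [hzero i j hj, zero_mul]; rfl
              · rw [hγ' n j ((not_le.1 hi).trans (not_le.1 hj)), mul_zero]; rfl
            rw [G_apply, this, norm_zero, mul_zero]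
        rw [inner_eq]
        simp only [hz, tsum_zero]
      have h5 : G W (-x b) = G W (x b) := by
        ext i
        rw [G_apply, G_apply]
        have : D W i (-x b) = -D W i (x b) := by
          have := D_smul W i (-1) (x b)
          simpa using this
        rw [this, norm_neg]
      rw [h3, N_neg, h4, h5, real_inner_comm (G W (x b))] at h2
      linarith
    obtain ⟨B, hB⟩ := h.bdd
    have h6 : Tendsto (fun n => inner ℝ (G W (x b)) (ab (x (s n)))) atTop
        (𝓝 (inner ℝ (G W (x b)) (0 : H I))) := by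
      refine tendsto_inner (B := B + ‖u‖) (fun n => ?_) (fun i => ?_) _
      · rw [norm_ab]; exact bdd_sub hB u _
      · have h7 := ((hx0 i).comp hs).abs
        rw [abs_zero] at h7
        exact h7
    have h8 : Tendsto (fun n => N W (x (s n)) ^ 2 + N W (x b) ^ 2 +
        2 * inner ℝ (G W (x b)) (ab (x (s n)))) atTop
        (𝓝 (δ ^ 2 / 2 + N W (x b) ^ 2 + 2 * inner ℝ (G W (x b)) (0 : H I))) :=
      ((he.comp hs).add_const _).add (h6.const_mul 2)
    have h9 := ge_of_tendsto h8 (Eventually.of_forall h1)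
    rw [inner_zero_right] at h9
    linarith
  obtain ⟨b, hbs, hb⟩ := hpick γ _ hsc
  have hbN := hbig b hbs hb
  have hb0 : x b ≠ 0 := by
    intro h0
    rw [h0, N_zero] at hbN
    have : 0 < δ ^ 2 := by positivity
    linarith
  obtain ⟨γ', hγb⟩ := exists_bound hI (A := {i | x b i ≠ 0} ∪ {γ})
    ((countable_supp _).union (Set.countable_singleton γ))
  have hγγ' : γ ≤ γ' := hγb γ (Or.inr rfl)
  obtain ⟨b', hbs', hb'⟩ := hpick γ' _ (hsc.union (Set.countable_singleton b))
  rw [Set.mem_union, not_or] at hbs'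
  have hne : b ≠ b' := fun h => hbs'.2 h.symm
  have hbN' := hbig b' hbs'.1 fun i hi => hb' i (hi.trans hγγ')
  have hb0' : x b' ≠ 0 := by
    intro h0
    rw [h0, N_zero] at hbN'
    have : 0 < δ ^ 2 := by positivity
    linarith
  obtain ⟨i, hi⟩ : ∃ i, x b i ≠ 0 := by
    by_contra hcon
    push Not at hcon
    exact hb0 (by ext i; exact hcon i)
  obtain ⟨j, hj⟩ : ∃ j, x b' j ≠ 0 := by
    by_contra hcon
    push Not at hcon
    exact hb0' (by ext i; exact hcon i)
  have hiγ : i ≤ γ' := hγb i (Or.inl hi)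
  have hγj : γ' < j := by
    by_contra hcon
    exact hj (hb' j (not_lt.1 hcon))
  have hdisj : Disj (x b) (-x b') := by
    intro k
    by_cases hk : k ≤ γ'
    · right; rw [lp.coeFn_neg, Pi.neg_apply, hb' k hk, neg_zero]
    · left
      by_contra hne
      exact hk (hγb k (Or.inl hne))
  have hD : D W i (-x b') ≠ 0 := by
    intro h0
    have h1 : D W i (-x b') j = 0 := by rw [h0]; rfl
    rw [D_apply, lp.coeFn_neg, Pi.neg_apply] at h1
    rcases mul_eq_zero.1 h1 with h1 | h1
    · exact (hpos i j (hiγ.trans_lt hγj)).ne' h1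
    · exact hj (neg_eq_zero.1 h1)
  have hfin := hdisj.lt_N_sq hi hD
  rw [← sub_eq_add_neg, hxy b b' hne, N_neg] at hfin
  linarith

/-- the weights -/
theorem exists_Wt (hI : ∀ i : I, (Set.Iio i).Countable) :
    ∃ W : Wt I, (∀ i j, i < j → 0 < W.m i j) ∧ (∀ i j, j ≤ i → W.m i j = 0) := by
  classical
  have h : ∀ j : I, ∃ e : I → ℕ, Set.InjOn e (Set.Iio j) := fun j =>
    (Set.countable_iff_exists_injOn.1 (hI j))
  choose e he using h
  refine ⟨⟨fun i j => if i < j then (1 / 2 : ℝ) ^ e j i else 0, ?_, ?_⟩, ?_, ?_⟩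
  · intro i j
    split_ifs
    · positivity
    · exact le_rfl
  · intro j s
    have h1 : ∑ i ∈ s, (if i < j then (1 / 2 : ℝ) ^ e j i else 0) ^ 2
        = ∑ i ∈ s.filter (· < j), (1 / 4 : ℝ) ^ e j i := by
      rw [Finset.sum_filter]
      refine Finset.sum_congr rfl fun i _ => ?_
      split_ifs
      · rw [← pow_mul, mul_comm, pow_mul]
        norm_num
      · norm_num
    rw [h1]
    have h2 : ∑ i ∈ s.filter (· < j), (1 / 4 : ℝ) ^ e j i
        = ∑ n ∈ (s.filter (· < j)).image (e j), (1 / 4 : ℝ) ^ n := by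
      rw [Finset.sum_image]
      intro a ha b hb hab
      refine he j ?_ ?_ hab
      · exact (Finset.mem_filter.1 ha).2
      · exact (Finset.mem_filter.1 hb).2
    rw [h2]
    have h3 : Summable fun n : ℕ => (1 / 4 : ℝ) ^ n :=
      summable_geometric_of_lt_one (by norm_num) (by norm_num)
    refine (h3.sum_le_tsum _ fun n _ => by positivity).trans ?_
    rw [tsum_geometric_of_lt_one (by norm_num) (by norm_num)]
    norm_num
  · intro i j hij
    dsimp only
    rw [if_pos hij]
    positivity
  · intro i j hij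
    dsimp only
    rw [if_neg (not_lt.2 hij)]

end Q98.EQ
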