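import Mathlib

/-! An i.i.d. sequence of standard Gaussian variables on `[0,1]` and the law of its finite linear
combinations. -/

set_option autoImplicit false

open MeasureTheory ProbabilityTheory unitInterval

open scoped ENNReal NNReal

namespace Q98.GW

/-- There is an i.i.d. sequence of standard Gaussian variables on `[0,1]`. -/
theorem exists_gauss : ∃ g : ℕ → I → ℝ, (∀ n, Measurable (g n)) ∧
    iIndepFun g (volume : Measure I) ∧ ∀ n, (volume : Measure I).map (g n) = gaussianReal 0 1 := by
  obtain ⟨f, hf, hfm⟩ := MeasureTheory.Measure.exists_measurable_map_eq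
    (Measure.infinitePi (fun _ : ℕ => gaussianReal 0 1))
  have hmeas : ∀ n, Measurable (fun t => f t n) := fun n => (measurable_pi_apply n).comp hf
  have hmap : ∀ n, (volume : Measure I).map (fun t => f t n) = gaussianReal 0 1 := by
    intro n
    have h1 : (volume : Measure I).map (fun t => f t n)
        = ((volume : Measure I).map f).map (Function.eval n) := by
      rw [Measure.map_map (measurable_pi_apply n) hf]
      rfl
    rw [h1, hfm]
    exact (measurePreserving_eval_infinitePi (fun _ : ℕ => gaussianReal 0 1) n).map_eq
  refine ⟨fun n t => f t n, hmeas, ?_, hmap⟩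
  rw [iIndepFun_iff_map_fun_eq_infinitePi_map hmeas]
  simp only [hmap]
  exact hfm

variable {Ω : Type*} [MeasurableSpace Ω] {P : Measure Ω} {g : ℕ → Ω → ℝ}

/-- the law of a finite linear combination -/
theorem law_sum (hm : ∀ n, Measurable (g n)) (hi : iIndepFun g P)
    (hl : ∀ n, P.map (g n) = gaussianReal 0 1) (x : ℕ → ℝ) (F : Finset ℕ) :
    P.map (fun t => ∑ n ∈ F, x n * g n t) = gaussianReal 0 (∑ n ∈ F, x n ^ 2).toNNReal := by
  classical
  have hP : IsProbabilityMeasure P := hi.isProbabilityMeasure
  induction F using Finset.induction_on with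
  | empty =>
    simp only [Finset.sum_empty]
    rw [Real.toNNReal_zero, gaussianReal_zero_var, Measure.map_const, measure_univ, one_smul]
  | insert a F ha ih =>
    have h1 : (fun t => ∑ n ∈ insert a F, x n * g n t)
        = (fun t => x a * g a t) + fun t => ∑ n ∈ F, x n * g n t := by
      funext t
      rw [Finset.sum_insert ha]; rfl
    have hxi : iIndepFun (fun n t => x n * g n t) P :=
      hi.comp (fun n y => x n * y) (fun n => measurable_const_mul (x n))
    have h2 : IndepFun (fun t => x a * g a t) (fun t => ∑ n ∈ F, x n * g n t) P := by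
      have := (hxi.indepFun_finsetSum_of_notMem (fun n => (hm n).const_mul (x n)) ha).symm
      convert this using 1
      funext t
      rw [Finset.sum_apply]
    have h3 : P.map (fun t => x a * g a t) = gaussianReal 0 (x a ^ 2).toNNReal := by
      have h4 : P.map (fun t => x a * g a t) = (P.map (g a)).map (fun y => x a * y) := by
        rw [Measure.map_map (measurable_const_mul _) (hm a)]
        rfl
      rw [h4, hl, gaussianReal_map_const_mul, mul_zero, mul_one]
      congr 1
      apply NNReal.eq
      rw [Real.coe_toNNReal _ (sq_nonneg _)]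
      rfl
    rw [h1, gaussianReal_add_gaussianReal_of_indepFun h2 h3 ih, add_zero, Finset.sum_insert ha,
      Real.toNNReal_add (sq_nonneg _) (Finset.sum_nonneg fun _ _ => sq_nonneg _)]

/-- A finite linear combination plus a constant has the same law as a multiple of the first
variable plus the constant. -/
theorem identDistrib_sum (hm : ∀ n, Measurable (g n)) (hi : iIndepFun g P)
    (hl : ∀ n, P.map (g n) = gaussianReal 0 1) (c : ℝ) (x : ℕ → ℝ) (F : Finset ℕ) (k : ℕ) :
    IdentDistrib (fun t => c + ∑ n ∈ F, x n * g n t)
      (fun t => c + √(∑ n ∈ F, x n ^ 2) * g k t) P P := by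
  have h0 : 0 ≤ ∑ n ∈ F, x n ^ 2 := Finset.sum_nonneg fun _ _ => sq_nonneg _
  have h1 : IdentDistrib (fun t => ∑ n ∈ F, x n * g n t)
      (fun t => √(∑ n ∈ F, x n ^ 2) * g k t) P P := by
    refine ⟨(Finset.measurable_sum _ fun n _ => (hm n).const_mul _).aemeasurable,
      ((hm k).const_mul _).aemeasurable, ?_⟩
    rw [law_sum hm hi hl]
    have h4 : P.map (fun t => √(∑ n ∈ F, x n ^ 2) * g k t)
        = (P.map (g k)).map (fun y => √(∑ n ∈ F, x n ^ 2) * y) := by
      rw [Measure.map_map (measurable_const_mul _) (hm k)]
      rfl
    rw [h4, hl, gaussianReal_map_const_mul, mul_zero, mul_one]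
    congr 1
    apply NNReal.eq
    rw [Real.coe_toNNReal _ h0]
    exact (Real.sq_sqrt h0).symm
  exact h1.comp (measurable_const_add c)

end Q98.GW
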