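import Mathlib

/-! The pairing between `L_p` and `L_q` is norming. -/

set_option autoImplicit false

open MeasureTheory

open scoped ENNReal NNReal

namespace Q98.GW

variable {α : Type*} {m : MeasurableSpace α} {μ : Measure α}

theorem toReal_eLpNorm_const_mul (c : ℝ) (H : α → ℝ) (q : ℝ≥0∞) :
    (eLpNorm (fun x => c * H x) q μ).toReal = |c| * (eLpNorm H q μ).toReal := by
  have : eLpNorm (fun x => c * H x) q μ = ‖c‖ₑ * eLpNorm H q μ := eLpNorm_const_smul c H q μ
  rw [this, ENNReal.toReal_mul, toReal_enorm, Real.norm_eq_abs]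

/-- The extremal function in Hölder's inequality. -/
theorem exists_norming_fun {p q : ℝ} (h : p.HolderConjugate q) {w : α → ℝ} (hwm : Measurable w)
    (hw : MemLp w (ENNReal.ofReal p) μ) :
    ∃ H : α → ℝ, Measurable H ∧ MemLp H (ENNReal.ofReal q) μ ∧
      (eLpNorm H (ENNReal.ofReal q) μ).toReal ≤ 1 ∧
      ∫ x, H x * w x ∂μ = (eLpNorm w (ENNReal.ofReal p) μ).toReal := by
  have hp0 : 0 < p := h.pos
  have hq0 : 0 < q := h.symm.pos
  have hp1 : 1 < p := h.lt
  have hpE : ENNReal.ofReal p ≠ 0 := by simpa using hp0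
  have hqE : ENNReal.ofReal q ≠ 0 := by simpa using hq0
  have hpr : (ENNReal.ofReal p).toReal = p := ENNReal.toReal_ofReal hp0.le
  have hqr : (ENNReal.ofReal q).toReal = q := ENNReal.toReal_ofReal hq0.le
  set A : ℝ := ∫ x, |w x| ^ p ∂μ with hA
  have hA0 : 0 ≤ A := integral_nonneg fun x => by positivity
  have hint : Integrable (fun x => |w x| ^ p) μ := by
    have := hw.integrable_norm_rpow hpE ENNReal.ofReal_ne_top
    rwa [hpr] at this
  have hwn : (eLpNorm w (ENNReal.ofReal p) μ).toReal = A ^ p⁻¹ := by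
    rw [hw.eLpNorm_eq_integral_rpow_norm hpE ENNReal.ofReal_ne_top, hpr,
      ENNReal.toReal_ofReal (by positivity)]
    rfl
  rcases hA0.eq_or_lt with hA00 | hApos
  · refine ⟨0, measurable_const, MemLp.zero, by simp, ?_⟩
    rw [hwn, ← hA00, Real.zero_rpow (inv_ne_zero hp0.ne')]
    simp
  · set H0 : α → ℝ := fun x => w x * |w x| ^ (p - 2) with hH0
    have hH0m : Measurable H0 := hwm.mul ((hwm.norm).pow_const _)
    have habs : ∀ x, |H0 x| = |w x| ^ (p - 1) := by
      intro x
      rcases eq_or_ne (w x) 0 with h0 | h0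
      · simp [hH0, h0, Real.zero_rpow (by linarith : p - 1 ≠ 0)]
      · have : 0 < |w x| := abs_pos.2 h0
        rw [hH0]
        show |w x * |w x| ^ (p - 2)| = _
        rw [abs_mul, abs_of_pos (by positivity : 0 < |w x| ^ (p - 2))]
        have e : p - 1 = 1 + (p - 2) := by ring
        rw [e, Real.rpow_add this, Real.rpow_one]
    have hmul : ∀ x, H0 x * w x = |w x| ^ p := by
      intro x
      rcases eq_or_ne (w x) 0 with h0 | h0
      · simp [hH0, h0, Real.zero_rpow hp0.ne']
      · have : 0 < |w x| := abs_pos.2 h0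
        have e1 : H0 x * w x = (w x * w x) * |w x| ^ (p - 2) := by rw [hH0]; ring
        have e2 : w x * w x = |w x| ^ (2 : ℝ) := by
          rw [Real.rpow_two, sq_abs]; ring
        rw [e1, e2, ← Real.rpow_add this]
        congr 1; ring
    have hpow : ∀ x, |H0 x| ^ q = |w x| ^ p := by
      intro x
      rw [habs, ← Real.rpow_mul (abs_nonneg _), h.sub_one_mul_conj]
    have hH0q : MemLp H0 (ENNReal.ofReal q) μ := by
      rw [← integrable_norm_rpow_iff hH0m.aestronglyMeasurable hqE ENNReal.ofReal_ne_top, hqr]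
      refine hint.congr (Filter.Eventually.of_forall fun x => ?_)
      exact (hpow x).symm
    have hH0n : (eLpNorm H0 (ENNReal.ofReal q) μ).toReal = A ^ q⁻¹ := by
      rw [hH0q.eLpNorm_eq_integral_rpow_norm hqE ENNReal.ofReal_ne_top, hqr,
        ENNReal.toReal_ofReal (by positivity), hA]
      congr 1
      exact integral_congr_ae (Filter.Eventually.of_forall fun x => hpow x)
    have hcpos : 0 < A ^ q⁻¹ := by positivity
    refine ⟨fun x => (A ^ q⁻¹)⁻¹ * H0 x, hH0m.const_mul _, hH0q.const_mul _, ?_, ?_⟩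
    · rw [toReal_eLpNorm_const_mul, hH0n, abs_of_pos (by positivity), inv_mul_cancel₀ hcpos.ne']
    · have e : ∀ x, (A ^ q⁻¹)⁻¹ * H0 x * w x = (A ^ q⁻¹)⁻¹ * |w x| ^ p := by
        intro x
        rw [mul_assoc, hmul]
      simp only [e]
      rw [integral_const_mul, hwn, ← hA]
      have e2 : A ^ q⁻¹ * A ^ p⁻¹ = A := by
        rw [← Real.rpow_add hApos, add_comm, h.inv_add_inv_eq_one, Real.rpow_one]
      rw [inv_mul_eq_iff_eq_mul₀ hcpos.ne']
      exact e2.symm

end Q98.GW
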