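import Mathlib

/-! An abstract construction of operators which do not attain their norm although all their
maximizing sequences fail to be weakly null. -/

set_option autoImplicit false

open Filter Topology

open scoped ENNReal InnerProductSpace

namespace Q98.GW

/-- The Hilbert space `ℓ_2`. -/
abbrev H : Type := lp (fun _ : ℕ => ℝ) 2

/-- unit vectors -/
noncomputable def e (i : ℕ) : H := lp.single 2 i (1 : ℝ)

lemma inner_e (i : ℕ) (x : H) : ⟪e i, x⟫_ℝ = x i := by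
  rw [e, lp.inner_single_left]; simp

lemma norm_e (i : ℕ) : ‖e i‖ = 1 := by
  rw [e, lp.norm_single (by norm_num)]; simp

lemma e_apply (i j : ℕ) : e i j = if j = i then 1 else 0 := by
  rw [e, lp.single_apply, Pi.single_apply]

lemma summable_sq (x : H) : Summable fun i => (x i) ^ 2 := by
  have := (lp.memℓp x).summable (by norm_num)
  simpa using this

lemma norm_sq (x : H) : ‖x‖ ^ 2 = ∑' i, (x i) ^ 2 := by
  have := lp.norm_rpow_eq_tsum (p := 2) (by norm_num) x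
  simpa using this

lemma memℓp_of_sq {f : ℕ → ℝ} (h : Summable fun i => f i ^ 2) : Memℓp f 2 := by
  apply memℓp_gen
  simpa using h

/-- the damping factors -/
noncomputable def damp (n : ℕ) : ℝ := 1 - 1 / ((n : ℝ) + 1)

lemma damp_nonneg (n : ℕ) : 0 ≤ damp n := by
  unfold damp
  have : 1 / ((n : ℝ) + 1) ≤ 1 := by
    rw [div_le_one (by positivity)]
    linarith [(Nat.cast_nonneg n : (0 : ℝ) ≤ n)]
  linarith

lemma damp_lt_one (n : ℕ) : damp n < 1 := by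
  unfold damp
  have : 0 < 1 / ((n : ℝ) + 1) := by positivity
  linarith

lemma damp_tendsto : Tendsto damp atTop (𝓝 1) := by
  have := (tendsto_one_div_add_atTop_nhds_zero_nat (𝕜 := ℝ)).const_sub 1
  rw [sub_zero] at this
  exact this

/-- A strictly contractive diagonal operator whose entries tend to `1`. -/
lemma exists_damp : ∃ D : H →L[ℝ] H, (∀ y k, (D y) k = damp k * y k) ∧
    (∀ y, y ≠ 0 → ‖D y‖ < ‖y‖) := by
  have hle : ∀ (x : H) i, (damp i * x i) ^ 2 ≤ (x i) ^ 2 := by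
    intro x i
    rw [mul_pow]
    have h1 : damp i ^ 2 ≤ 1 := pow_le_one₀ (damp_nonneg i) (damp_lt_one i).le
    have := mul_le_mul_of_nonneg_right h1 (sq_nonneg (x i))
    rwa [one_mul] at this
  have hs : ∀ x : H, Summable fun i => (damp i * x i) ^ 2 := fun x =>
    Summable.of_nonneg_of_le (fun _ => sq_nonneg _) (hle x) (summable_sq x)
  let D0 : H →ₗ[ℝ] H :=
    { toFun := fun x => ⟨fun i => damp i * x i, memℓp_of_sq (hs x)⟩
      map_add' := fun x y => by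
        ext i
        show damp i * (x i + y i) = damp i * x i + damp i * y i
        ring
      map_smul' := fun c x => by
        ext i
        show damp i * (c * x i) = c * (damp i * x i)
        ring }
  have hD0 : ∀ x, ‖D0 x‖ ^ 2 = ∑' i, (damp i * x i) ^ 2 := fun x => norm_sq _
  refine ⟨D0.mkContinuous 1 (fun x => ?_), fun y k => rfl, fun y hy => ?_⟩
  · rw [one_mul, ← pow_le_pow_iff_left₀ (norm_nonneg _) (norm_nonneg _) two_ne_zero, hD0, norm_sq]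
    exact (hs x).tsum_le_tsum (hle x) (summable_sq x)
  · show ‖D0 y‖ < ‖y‖
    rw [← pow_lt_pow_iff_left₀ (norm_nonneg _) (norm_nonneg _) two_ne_zero, hD0, norm_sq]
    obtain ⟨k, hk⟩ : ∃ k, y k ≠ 0 := by
      by_contra hcon
      push Not at hcon
      apply hy
      ext i
      exact hcon i
    refine Summable.tsum_lt_tsum (i := k) (hle y) ?_ (hs y) (summable_sq y)
    rw [mul_pow]
    have h1 : damp k ^ 2 < 1 := pow_lt_one₀ (damp_nonneg k) (damp_lt_one k) two_ne_zero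
    have h2 : 0 < (y k) ^ 2 := by positivity
    nlinarith

theorem abstract_main {E F : Type*} [NormedAddCommGroup E] [NormedSpace ℝ E]
    [NormedAddCommGroup F] [NormedSpace ℝ F]
    (A0 : StrongDual ℝ E) (A1 : H →L[ℝ] StrongDual ℝ E) (B0 : F) (B1 : H →L[ℝ] F)
    (hA0 : ‖A0‖ ≤ 1) (hB0 : ‖B0‖ = 1)
    (hA : ∀ (c : ℝ) x, ‖c • A0 + A1 x‖ = ‖c • A0 + ‖x‖ • A1 (e 0)‖)
    (hB : ∀ (c : ℝ) y, ‖c • B0 + B1 y‖ = ‖c • B0 + ‖y‖ • B1 (e 0)‖)
    (hmono : ∀ s t₁ t₂ : ℝ, 0 ≤ t₁ → t₁ < t₂ →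
      ‖s • B0 + t₁ • B1 (e 0)‖ < ‖s • B0 + t₂ • B1 (e 0)‖)
    (hdual : ∀ s t : ℝ, ∃ h₀ κ : ℝ, s * h₀ + t * κ = ‖s • B0 + t • B1 (e 0)‖ ∧
      ∀ k, ∃ h : StrongDual ℝ F, ‖h‖ ≤ 1 ∧ h B0 = h₀ ∧ ∀ y : H, h (B1 y) = κ * y k)
    {a : ℝ} (ha : a = ‖A1 (e 0)‖ * ‖B1 (e 0)‖)
    (hlow : ∃ α₀ φ ν h₀ κ ν' : ℝ, 0 < ν ∧ 0 < ν' ∧ a * (ν * ν') < a * α₀ * h₀ + φ * κ ∧
      (∀ k, ∃ f : E, ‖f‖ ≤ ν ∧ A0 f = α₀ ∧ ∀ x : H, A1 x f = φ * x k) ∧
      (∀ k, ∃ h : StrongDual ℝ F, ‖h‖ ≤ ν' ∧ h B0 = h₀ ∧ ∀ y : H, h (B1 y) = κ * y k)) :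
    ∃ T : E →L[ℝ] F, (¬ ∃ x, ‖x‖ = 1 ∧ ‖T x‖ = ‖T‖) ∧ ∀ x : ℕ → E, (∀ n, ‖x n‖ = 1) →
      Tendsto (fun n => ‖T (x n)‖) atTop (𝓝 ‖T‖) → ¬ Tendsto (fun n => A0 (x n)) atTop (𝓝 0) := by
  obtain ⟨D, hD1, hD2⟩ := exists_damp
  have ha0 : 0 ≤ a := by rw [ha]; positivity
  have hA1 : ∀ x, ‖A1 x‖ = ‖x‖ * ‖A1 (e 0)‖ := by
    intro x
    have := hA 0 x
    rwa [zero_smul, zero_add, zero_add, norm_smul, norm_norm] at this
  have hB1 : ∀ x, ‖B1 x‖ = ‖x‖ * ‖B1 (e 0)‖ := by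
    intro x
    have := hB 0 x
    rwa [zero_smul, zero_add, zero_add, norm_smul, norm_norm] at this
  -- the coefficient operator
  let Y0 : E →ₗ[ℝ] H :=
    { toFun := fun f => (InnerProductSpace.toDual ℝ H).symm (A1.flip f)
      map_add' := fun f f' => by rw [map_add, map_add]
      map_smul' := fun c f => by rw [map_smul, LinearIsometryEquiv.map_smulₛₗ]; rfl }
  have hY0 : ∀ f x, ⟪Y0 f, x⟫_ℝ = A1 x f := by
    intro f x
    show ⟪(InnerProductSpace.toDual ℝ H).symm (A1.flip f), x⟫_ℝ = A1 x f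
    rw [InnerProductSpace.toDual_symm_apply]
    rfl
  have hY0n : ∀ f, ‖Y0 f‖ ≤ ‖A1 (e 0)‖ * ‖f‖ := by
    intro f
    rcases (norm_nonneg (Y0 f)).eq_or_lt with h0 | h0
    · rw [← h0]; positivity
    · have h1 : ‖Y0 f‖ * ‖Y0 f‖ ≤ ‖Y0 f‖ * (‖A1 (e 0)‖ * ‖f‖) := by
        rw [← real_inner_self_eq_norm_mul_norm, hY0]
        calc A1 (Y0 f) f ≤ ‖A1 (Y0 f) f‖ := le_abs_self _
          _ ≤ ‖A1 (Y0 f)‖ * ‖f‖ := (A1 (Y0 f)).le_opNorm f
          _ = ‖Y0 f‖ * (‖A1 (e 0)‖ * ‖f‖) := by rw [hA1]; ring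
      exact le_of_mul_le_mul_left h1 h0
  let Y : E →L[ℝ] H := Y0.mkContinuous ‖A1 (e 0)‖ hY0n
  have hY : ∀ f x, ⟪Y f, x⟫_ℝ = A1 x f := hY0
  have hYn : ∀ f, ‖Y f‖ ≤ ‖A1 (e 0)‖ * ‖f‖ := hY0n
  have hYk : ∀ f k, (Y f) k = A1 (e k) f := by
    intro f k
    rw [← hY, real_inner_comm, inner_e]
  let T : E →L[ℝ] F := a • A0.smulRight B0 + B1.comp (D.comp Y)
  have hT : ∀ f, T f = (a * A0 f) • B0 + B1 (D (Y f)) := by
    intro f
    show a • (A0 f • B0) + B1 (D (Y f)) = _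
    rw [smul_smul]
  have hTle : ∀ f, ‖T f‖ ≤ ‖T‖ * ‖f‖ := T.le_opNorm
  -- functionals applied to `T f`
  have hhT : ∀ (h : StrongDual ℝ F) (h₀ κ : ℝ) (k : ℕ), h B0 = h₀ → (∀ y : H, h (B1 y) = κ * y k) →
      ∀ f, h (T f) = a * h₀ * A0 f + κ * damp k * A1 (e k) f := by
    intro h h₀ κ k h1 h2 f
    rw [hT, map_add, map_smul, h1, h2, hD1, hYk, smul_eq_mul]; ring
  -- the norm is large
  have hbig : a < ‖T‖ := by
    obtain ⟨α₀, φ, ν, h₀, κ, ν', hν, hν', hlt, hf, hh⟩ := hlow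
    have h1 : ∀ k, a * α₀ * h₀ + damp k * (φ * κ) ≤ ‖T‖ * (ν * ν') := by
      intro k
      obtain ⟨f, hf1, hf2, hf3⟩ := hf k
      obtain ⟨h, hh1, hh2, hh3⟩ := hh k
      have h2 := hhT h h₀ κ k hh2 hh3 f
      rw [hf2, hf3, e_apply, if_pos rfl] at h2
      calc a * α₀ * h₀ + damp k * (φ * κ) = h (T f) := by rw [h2]; ring
        _ ≤ ‖h (T f)‖ := le_abs_self _
        _ ≤ ‖h‖ * ‖T f‖ := h.le_opNorm _
        _ ≤ ν' * (‖T‖ * ν) := by
          refine mul_le_mul hh1 ((hTle f).trans ?_) (norm_nonneg _) hν'.le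
          exact mul_le_mul_of_nonneg_left hf1 (norm_nonneg _)
        _ = ‖T‖ * (ν * ν') := by ring
    have h2 : Tendsto (fun k => a * α₀ * h₀ + damp k * (φ * κ)) atTop
        (𝓝 (a * α₀ * h₀ + 1 * (φ * κ))) := (damp_tendsto.mul_const _).const_add _
    have h3 := le_of_tendsto' h2 h1
    rw [one_mul] at h3
    have h4 : a * (ν * ν') < ‖T‖ * (ν * ν') := lt_of_lt_of_le hlt h3
    exact lt_of_mul_lt_mul_right h4 (by positivity)
  refine ⟨T, ?_, ?_⟩
  · rintro ⟨f, hf1, hf2⟩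
    have hA0f : |A0 f| ≤ 1 := by
      have := A0.le_opNorm f
      rw [hf1, mul_one] at this
      exact this.trans hA0
    by_cases hy : Y f = 0
    · have h1 : ‖T f‖ ≤ a := by
        rw [hT, hy, map_zero, map_zero, add_zero, norm_smul, hB0, mul_one, norm_mul,
          Real.norm_eq_abs, Real.norm_eq_abs, abs_of_nonneg ha0]
        calc a * |A0 f| ≤ a * 1 := mul_le_mul_of_nonneg_left hA0f ha0
          _ = a := mul_one a
      linarith
    · have hyp : 0 < ‖Y f‖ := norm_pos_iff.2 hy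
      set s : ℝ := a * A0 f with hs
      have h1 : ‖T‖ < ‖s • B0 + ‖Y f‖ • B1 (e 0)‖ := by
        rw [← hf2, hT, hB]
        exact hmono s _ _ (norm_nonneg _) (hD2 _ hy)
      obtain ⟨h₀, κ, hval, hh⟩ := hdual s ‖Y f‖
      rw [← hval] at h1
      -- the value is a value of a functional on `f`
      have h2 : s * h₀ + ‖Y f‖ * κ ≤ ‖(a * h₀) • A0 + |κ| • A1 (e 0)‖ := by
        have h3 : ((a * h₀) • A0 + A1 ((κ / ‖Y f‖) • Y f)) f = s * h₀ + ‖Y f‖ * κ := by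
          show (a * h₀) * A0 f + (A1 ((κ / ‖Y f‖) • Y f)) f = _
          rw [← hY, real_inner_smul_right, real_inner_self_eq_norm_mul_norm, hs]
          field_simp
        have h4 := ((a * h₀) • A0 + A1 ((κ / ‖Y f‖) • Y f)).le_opNorm f
        rw [hf1, mul_one, hA, h3] at h4
        have h5 : ‖(κ / ‖Y f‖) • Y f‖ = |κ| := by
          rw [norm_smul, norm_div, norm_norm, div_mul_cancel₀ _ hyp.ne', Real.norm_eq_abs]
        rw [h5] at h4
        exact (le_abs_self _).trans h4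
      have h3 : ∀ k, ‖(a * h₀) • A0 + (damp k * |κ|) • A1 (e 0)‖ ≤ ‖T‖ := by
        intro k
        obtain ⟨h, hh1, hh2, hh3⟩ := hh k
        have h4 : ‖(a * h₀) • A0 + A1 ((damp k * κ) • e k)‖ ≤ ‖T‖ := by
          refine ContinuousLinearMap.opNorm_le_bound _ (norm_nonneg _) fun g => ?_
          have h5 : ((a * h₀) • A0 + A1 ((damp k * κ) • e k)) g = h (T g) := by
            rw [hhT h h₀ κ k hh2 hh3 g, map_smul]
            show (a * h₀) * A0 g + (damp k * κ) * A1 (e k) g = _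
            ring
          rw [h5]
          calc ‖h (T g)‖ ≤ ‖h‖ * ‖T g‖ := h.le_opNorm _
            _ ≤ 1 * ‖T g‖ := mul_le_mul_of_nonneg_right hh1 (norm_nonneg _)
            _ ≤ ‖T‖ * ‖g‖ := by rw [one_mul]; exact hTle g
        rw [hA, norm_smul, norm_e, mul_one, norm_mul, Real.norm_eq_abs, Real.norm_eq_abs,
          abs_of_nonneg (damp_nonneg k)] at h4
        exact h4
      have h4 : Tendsto (fun k => ‖(a * h₀) • A0 + (damp k * |κ|) • A1 (e 0)‖) atTop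
          (𝓝 ‖(a * h₀) • A0 + (1 * |κ|) • A1 (e 0)‖) := by
        refine Tendsto.norm (Tendsto.const_add _ ?_)
        exact (damp_tendsto.mul_const _).smul_const _
      have h5 := le_of_tendsto' h4 h3
      rw [one_mul] at h5
      linarith
  · intro x hx hmax hcon
    have h1 : ∀ n, ‖T (x n)‖ ≤ a * |A0 (x n)| + a := by
      intro n
      rw [hT]
      refine (norm_add_le _ _).trans ?_
      have h2 : ‖(a * A0 (x n)) • B0‖ = a * |A0 (x n)| := by
        rw [norm_smul, hB0, mul_one, norm_mul, Real.norm_eq_abs, Real.norm_eq_abs,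
          abs_of_nonneg ha0]
      have h3 : ‖D (Y (x n))‖ ≤ ‖Y (x n)‖ := by
        by_cases hy : Y (x n) = 0
        · rw [hy, map_zero]
        · exact (hD2 _ hy).le
      have h4 : ‖B1 (D (Y (x n)))‖ ≤ a := by
        rw [hB1]
        have h5 := hYn (x n)
        rw [hx n, mul_one] at h5
        calc ‖D (Y (x n))‖ * ‖B1 (e 0)‖ ≤ ‖A1 (e 0)‖ * ‖B1 (e 0)‖ :=
              mul_le_mul_of_nonneg_right (h3.trans h5) (norm_nonneg _)
          _ = a := ha.symm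
      rw [h2]
      linarith
    have h2 : Tendsto (fun n => a * |A0 (x n)| + a) atTop (𝓝 (a * |(0 : ℝ)| + a)) :=
      (hcon.abs.const_mul a).add_const a
    rw [abs_zero, mul_zero, zero_add] at h2
    have := le_of_tendsto_of_tendsto' hmax h2 h1
    linarith

end Q98.GW
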