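import Mathlib

/-! Absolute and exponential moments of the standard Gaussian measure. -/

set_option autoImplicit false

open MeasureTheory ProbabilityTheory Set

open scoped ENNReal NNReal

namespace Q98.GW

/-- the standard Gaussian measure -/
noncomputable abbrev γ : Measure ℝ := gaussianReal 0 1

/-- absolute moments -/
noncomputable def M (r : ℝ) : ℝ := ∫ x, |x| ^ r ∂γ

lemma memLp_id (r : ℝ) : MemLp (fun x : ℝ => x) (ENNReal.ofReal r) γ :=
  memLp_id_gaussianReal' _ ENNReal.ofReal_ne_top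

lemma integrable_abs_rpow {r : ℝ} (hr : 0 ≤ r) : Integrable (fun x : ℝ => |x| ^ r) γ := by
  rcases hr.eq_or_lt with rfl | hr
  · simp
  · have := (memLp_id r).integrable_norm_rpow (by simpa using hr) ENNReal.ofReal_ne_top
    rwa [ENNReal.toReal_ofReal hr.le] at this

lemma M_eq {r : ℝ} (hr : -1 < r) :
    M r = 2 * (√(2 * Real.pi))⁻¹ *
      ((1 / 2 : ℝ) ^ (-(r + 1) / 2) * (1 / 2) * Real.Gamma ((r + 1) / 2)) := by
  unfold M
  rw [integral_gaussianReal_eq_integral_smul one_ne_zero]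
  have h1 : ∀ x : ℝ, gaussianPDFReal 0 1 x • |x| ^ r
      = (√(2 * Real.pi))⁻¹ * (|x| ^ r * Real.exp (-(1 / 2) * |x| ^ (2 : ℝ))) := by
    intro x
    rw [gaussianPDFReal, smul_eq_mul]
    have : -(x - 0) ^ 2 / (2 * ((1 : ℝ≥0) : ℝ)) = -(1 / 2) * |x| ^ (2 : ℝ) := by
      rw [Real.rpow_two, sq_abs]; push_cast; ring
    rw [this]
    push_cast
    rw [mul_one]
    ring
  simp only [h1]
  rw [integral_const_mul, integral_comp_abs (f := fun x => x ^ r * Real.exp (-(1 / 2) * x ^ (2 : ℝ))),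
    integral_rpow_mul_exp_neg_mul_rpow two_pos hr (by norm_num)]
  ring

lemma M_rec {r : ℝ} (hr : 1 < r) : M r = (r - 1) * M (r - 2) := by
  rw [M_eq (by linarith), M_eq (by linarith)]
  have h1 : (r + 1) / 2 = (r - 2 + 1) / 2 + 1 := by ring
  have h2 : Real.Gamma ((r + 1) / 2) = ((r - 2 + 1) / 2) * Real.Gamma ((r - 2 + 1) / 2) := by
    rw [h1, Real.Gamma_add_one (by
      have : (0 : ℝ) < (r - 2 + 1) / 2 := by linarith
      exact this.ne')]
  have h3 : (1 / 2 : ℝ) ^ (-(r + 1) / 2) = 2 * (1 / 2 : ℝ) ^ (-(r - 2 + 1) / 2) := by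
    have : -(r + 1) / 2 = -1 + -(r - 2 + 1) / 2 := by ring
    rw [this, Real.rpow_add (by norm_num), Real.rpow_neg_one]
    norm_num
  rw [h2, h3]
  ring

lemma M_zero : M 0 = 1 := by
  unfold M
  simp

lemma M_two : M 2 = 1 := by
  rw [M_rec (by norm_num)]
  norm_num [M_zero]

lemma M_pos {r : ℝ} (hr : -1 < r) : 0 < M r := by
  rw [M_eq hr]
  have : 0 < Real.Gamma ((r + 1) / 2) := Real.Gamma_pos_of_pos (by linarith)
  positivity

lemma not_ae_const {r : ℝ} (hr : 0 < r) (c : ℝ) : ¬ ((fun x : ℝ => |x| ^ r) =ᵐ[γ] fun _ => c) := by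
  intro h
  have : NullSingletonClass (γ : Measure ℝ) := nullSingletonClass_gaussianReal one_ne_zero
  have h1 : γ {x : ℝ | ¬ |x| ^ r = c} = 0 := h
  have hpos : γ ({x : ℝ | |x| ^ r = c} ∩ Ioi 0) = 0 := by
    apply Set.Subsingleton.measure_zero
    rintro x ⟨hx1, hx2⟩ y ⟨hy1, hy2⟩
    have hx2' : (0 : ℝ) < x := hx2
    have hy2' : (0 : ℝ) < y := hy2
    have e : x ^ r = y ^ r := by
      rw [← abs_of_pos hx2', ← abs_of_pos hy2']
      exact hx1.trans hy1.symm
    exact (Real.rpow_left_inj hx2'.le hy2'.le hr.ne').1 e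
  have hneg : γ ({x : ℝ | |x| ^ r = c} ∩ Iio 0) = 0 := by
    apply Set.Subsingleton.measure_zero
    rintro x ⟨hx1, hx2⟩ y ⟨hy1, hy2⟩
    have hx2' : x < 0 := hx2
    have hy2' : y < 0 := hy2
    have e : (-x) ^ r = (-y) ^ r := by
      rw [← abs_of_neg hx2', ← abs_of_neg hy2']
      exact hx1.trans hy1.symm
    have := (Real.rpow_left_inj (by linarith) (by linarith) hr.ne').1 e
    linarith
  have hz : γ ({0} : Set ℝ) = 0 := measure_singleton 0
  have hall : γ (univ : Set ℝ) ≤ 0 := by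
    have hsub : (univ : Set ℝ) ⊆ ({x : ℝ | ¬ |x| ^ r = c} ∪ ({x : ℝ | |x| ^ r = c} ∩ Ioi 0)) ∪
        (({x : ℝ | |x| ^ r = c} ∩ Iio 0) ∪ {0}) := by
      intro x _
      by_cases hx : |x| ^ r = c
      · rcases lt_trichotomy x 0 with h | h | h
        · exact Or.inr (Or.inl ⟨hx, h⟩)
        · exact Or.inr (Or.inr h)
        · exact Or.inl (Or.inr ⟨hx, h⟩)
      · exact Or.inl (Or.inl hx)
    refine (measure_mono hsub).trans ((measure_union_le _ _).trans ?_)
    refine (add_le_add (measure_union_le _ _) (measure_union_le _ _)).trans ?_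
    rw [h1, hpos, hneg, hz]
    simp
  rw [measure_univ] at hall
  simp at hall

lemma M_lt {r : ℝ} (hr : 2 < r) : M (r - 2) ^ (r / (r - 2)) < M r := by
  have h2 : 0 < r - 2 := by linarith
  have hpow : 1 < r / (r - 2) := by
    rw [lt_div_iff₀ h2]; linarith
  have hcomp : ∀ x : ℝ, (|x| ^ (r - 2)) ^ (r / (r - 2)) = |x| ^ r := by
    intro x
    rw [← Real.rpow_mul (abs_nonneg x)]
    congr 1
    field_simp
  have := (strictConvexOn_rpow hpow).ae_eq_const_or_map_average_lt (μ := γ)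
    (f := fun x : ℝ => |x| ^ (r - 2))
    (continuousOn_id.rpow_const fun x _ => Or.inr (by linarith)) isClosed_Ici
    (Filter.Eventually.of_forall fun x => by
      show (0 : ℝ) ≤ |x| ^ (r - 2)
      positivity)
    (integrable_abs_rpow h2.le) (by
      refine (integrable_abs_rpow (by linarith : (0 : ℝ) ≤ r)).congr ?_
      exact Filter.Eventually.of_forall fun x => (hcomp x).symm)
  rcases this with h | h
  · exact absurd h (not_ae_const h2 _)
  · rw [average_eq_integral, average_eq_integral] at h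
    simp only [hcomp] at h
    exact h

/-- the norm of a Gaussian variable in `L_r` -/
noncomputable def gn (r : ℝ) : ℝ := M r ^ r⁻¹

lemma gn_pos {r : ℝ} (hr : 0 < r) : 0 < gn r := by
  have := M_pos (r := r) (by linarith)
  unfold gn; positivity

lemma gn_sq_lt {r : ℝ} (hr : 2 < r) : gn r ^ 2 < r - 1 := by
  have h2 : 0 < r - 2 := by linarith
  have hm : 0 < M r := M_pos (by linarith)
  have hlt := M_lt hr
  have hrec := M_rec (r := r) (by linarith)
  have hr10 : r - 1 ≠ 0 := by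
    have : 0 < r - 1 := by linarith
    exact this.ne'
  have h3 : M (r - 2) = M r / (r - 1) := by
    rw [hrec, mul_div_cancel_left₀ _ hr10]
  rw [h3] at hlt
  have hr1 : 0 < r - 1 := by linarith
  have h4 : M r / (r - 1) < M r ^ ((r - 2) / r) := by
    have h5 := Real.rpow_lt_rpow (by positivity) hlt (show 0 < (r - 2) / r by positivity)
    rw [← Real.rpow_mul (by positivity)] at h5
    have h6 : r / (r - 2) * ((r - 2) / r) = 1 := by field_simp
    rwa [h6, Real.rpow_one] at h5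
  have h5 : gn r ^ 2 * M r ^ ((r - 2) / r) = M r := by
    have h6 : gn r ^ 2 = M r ^ (2 / r) := by
      unfold gn
      rw [← Real.rpow_natCast, ← Real.rpow_mul hm.le]
      congr 1
      push_cast
      field_simp
    rw [h6, ← Real.rpow_add hm]
    have : 2 / r + (r - 2) / r = 1 := by field_simp; ring
    rw [this, Real.rpow_one]
  have h6 : 0 < M r ^ ((r - 2) / r) := by positivity
  rw [div_lt_iff₀ hr1] at h4
  have h7 : gn r ^ 2 * M r ^ ((r - 2) / r) < (r - 1) * M r ^ ((r - 2) / r) := by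
    rw [h5]; linarith
  exact lt_of_mul_lt_mul_right h7 h6.le

lemma gn_two : gn 2 = 1 := by
  unfold gn
  rw [M_two, Real.one_rpow]

lemma gn_sq_le {r : ℝ} (hr : 2 ≤ r) : gn r ^ 2 ≤ r - 1 := by
  rcases hr.eq_or_lt with rfl | hr
  · rw [gn_two]; norm_num
  · exact (gn_sq_lt hr).le

lemma norm_id {r : ℝ} (hr : 0 < r) :
    (eLpNorm (fun x : ℝ => x) (ENNReal.ofReal r) γ).toReal = gn r := by
  have := M_pos (r := r) (by linarith)
  rw [(memLp_id r).eLpNorm_eq_integral_rpow_norm (by simpa using hr) ENNReal.ofReal_ne_top,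
    ENNReal.toReal_ofReal hr.le, ENNReal.toReal_ofReal (by positivity)]
  rfl

lemma int_exp (c : ℝ) : ∫ x, Real.exp (c * x) ∂γ = Real.exp (c ^ 2 / 2) := by
  have := congrFun (mgf_fun_id_gaussianReal (μ := 0) (v := 1)) c
  unfold mgf at this
  rw [this]
  simp

lemma int_mul_exp (c : ℝ) : ∫ x, x * Real.exp (c * x) ∂γ = c * Real.exp (c ^ 2 / 2) := by
  have h1 : HasDerivAt (mgf (fun x : ℝ => x) γ) (∫ x, x * Real.exp (c * x) ∂γ) c :=
    hasDerivAt_mgf (by simp)
  rw [mgf_fun_id_gaussianReal] at h1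
  have h2 : HasDerivAt (fun t : ℝ => Real.exp (0 * t + ((1 : ℝ≥0) : ℝ) * t ^ 2 / 2))
      (Real.exp (0 * c + ((1 : ℝ≥0) : ℝ) * c ^ 2 / 2) * (0 * 1 + ((1 : ℝ≥0) : ℝ) *
        ((2 : ℕ) * c ^ (2 - 1)) / 2)) c := by
    apply HasDerivAt.exp
    apply HasDerivAt.add
    · exact (hasDerivAt_id c).const_mul 0
    · exact ((hasDerivAt_pow 2 c).const_mul _).div_const 2
  have h3 := h1.unique h2
  rw [h3]
  push_cast
  simp
  ring

lemma exp_rpow (c r x : ℝ) : ‖Real.exp (c * x)‖ ^ r = Real.exp ((r * c) * x) := by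
  rw [Real.norm_eq_abs, abs_of_pos (Real.exp_pos _), ← Real.exp_mul]
  congr 1; ring

lemma memLp_exp (c : ℝ) {r : ℝ} (hr : 0 < r) :
    MemLp (fun x : ℝ => Real.exp (c * x)) (ENNReal.ofReal r) γ := by
  rw [← integrable_norm_rpow_iff (by fun_prop) (by simpa using hr) ENNReal.ofReal_ne_top,
    ENNReal.toReal_ofReal hr.le]
  simp only [exp_rpow]
  exact integrable_exp_mul_gaussianReal _

lemma norm_exp (c : ℝ) {r : ℝ} (hr : 0 < r) :
    (eLpNorm (fun x : ℝ => Real.exp (c * x)) (ENNReal.ofReal r) γ).toReal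
      = Real.exp (r * c ^ 2 / 2) := by
  rw [(memLp_exp c hr).eLpNorm_eq_integral_rpow_norm (by simpa using hr) ENNReal.ofReal_ne_top,
    ENNReal.toReal_ofReal hr.le]
  simp only [exp_rpow]
  rw [int_exp, ENNReal.toReal_ofReal (by positivity), ← Real.exp_mul]
  congr 1
  field_simp

/-- The decisive strict inequality. -/
lemma exists_cd {p q p' q' a : ℝ} (hp : p.HolderConjugate p') (hq : q.HolderConjugate q')
    (ha : 0 < a) (ha2 : a ^ 2 < (q - 1) * (p' - 1)) :
    ∃ c d : ℝ, a * (Real.exp (p * c ^ 2 / 2) * Real.exp (q' * d ^ 2 / 2))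
      < a * Real.exp (c ^ 2 / 2) * Real.exp (d ^ 2 / 2)
        + (c * Real.exp (c ^ 2 / 2)) * (d * Real.exp (d ^ 2 / 2)) := by
  have hp1 : 0 < p - 1 := by linarith [hp.lt]
  have hq1 : 0 < q' - 1 := by linarith [hq.symm.lt]
  have hpp : (p - 1) * (p' - 1) = 1 := by
    have := hp.sub_one_mul_conj
    nlinarith
  have hqq : (q - 1) * (q' - 1) = 1 := by
    have := hq.sub_one_mul_conj
    nlinarith
  set R : ℝ := (√((p - 1) * (q' - 1)))⁻¹ with hR
  have hR0 : 0 < R := by positivity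
  have hR2 : R ^ 2 = (q - 1) * (p' - 1) := by
    rw [hR, inv_pow, Real.sq_sqrt (by positivity)]
    apply inv_eq_of_mul_eq_one_right
    calc (p - 1) * (q' - 1) * ((q - 1) * (p' - 1)) = ((q - 1) * (q' - 1)) * ((p - 1) * (p' - 1)) := by
          ring
      _ = 1 := by rw [hpp, hqq, one_mul]
  have haR : a < R := by
    have : a ^ 2 < R ^ 2 := by rw [hR2]; exact ha2
    exact lt_of_pow_lt_pow_left₀ 2 hR0.le this
  -- the parameter
  set y : ℝ := min 1 ((R / a - 1) / 2) with hy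
  have hRa : 0 < R / a - 1 := by
    rw [sub_pos, one_lt_div ha]; exact haR
  have hy0 : 0 < y := lt_min one_pos (by positivity)
  have hy1 : y ≤ 1 := min_le_left _ _
  have hy2 : y < R / a - 1 := lt_of_le_of_lt (min_le_right _ _) (by linarith)
  set c : ℝ := √(y / (p - 1)) with hc
  set d : ℝ := √(y / (q' - 1)) with hd
  have hc2 : c ^ 2 = y / (p - 1) := Real.sq_sqrt (by positivity)
  have hd2 : d ^ 2 = y / (q' - 1) := Real.sq_sqrt (by positivity)
  have hcd : c * d = y * R := by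
    rw [hc, hd, ← Real.sqrt_mul (by positivity), hR]
    have : y / (p - 1) * (y / (q' - 1)) = (y * y) * ((p - 1) * (q' - 1))⁻¹ := by
      field_simp
    rw [this, Real.sqrt_mul (by positivity), Real.sqrt_mul_self hy0.le, Real.sqrt_inv]
  refine ⟨c, d, ?_⟩
  have e1 : Real.exp (p * c ^ 2 / 2) * Real.exp (q' * d ^ 2 / 2)
      = Real.exp y * (Real.exp (c ^ 2 / 2) * Real.exp (d ^ 2 / 2)) := by
    rw [← Real.exp_add, ← Real.exp_add, ← Real.exp_add]
    congr 1
    have h1 : (p - 1) * c ^ 2 = y := by rw [hc2]; field_simp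
    have h2 : (q' - 1) * d ^ 2 = y := by rw [hd2]; field_simp
    linarith
  rw [e1]
  have h3 : Real.exp y < 1 + y * (R / a) := by
    have h4 : Real.exp y ≤ 1 + y + y ^ 2 := by
      have := Real.abs_exp_sub_one_sub_id_le (x := y) (by rw [abs_of_pos hy0]; exact hy1)
      rw [abs_le] at this
      linarith [this.2]
    nlinarith
  have h4 : a * Real.exp y < a + c * d := by
    rw [hcd]
    have h5 : a * Real.exp y < a * (1 + y * (R / a)) := mul_lt_mul_of_pos_left h3 ha
    have h6 : a * (1 + y * (R / a)) = a + y * R := by field_simp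
    linarith
  have h5 : 0 < Real.exp (c ^ 2 / 2) * Real.exp (d ^ 2 / 2) := by positivity
  nlinarith

end Q98.GW
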