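import Pool.Agent.Q98.GW3

/-! Extension of an orthonormal-like sequence to an operator on `ℓ_2`. -/

set_option autoImplicit false

open Filter Topology

open scoped ENNReal InnerProductSpace

namespace Q98.GW

theorem exists_ext {F : Type*} [NormedAddCommGroup F] [NormedSpace ℝ F] [CompleteSpace F]
    (B0 : F) (G : ℕ → F)
    (h : ∀ (c : ℝ) (x : ℕ → ℝ) (s : Finset ℕ),
      ‖c • B0 + ∑ n ∈ s, x n • G n‖ = ‖c • B0 + √(∑ n ∈ s, x n ^ 2) • G 0‖) :
    ∃ S : H →L[ℝ] F, (∀ x : H, HasSum (fun n => x n • G n) (S x)) ∧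
      ∀ (c : ℝ) (x : H), ‖c • B0 + S x‖ = ‖c • B0 + ‖x‖ • G 0‖ := by
  classical
  have h0 : ∀ (x : ℕ → ℝ) (s : Finset ℕ), ‖∑ n ∈ s, x n • G n‖ = √(∑ n ∈ s, x n ^ 2) * ‖G 0‖ := by
    intro x s
    have := h 0 x s
    rwa [zero_smul, zero_add, zero_add, norm_smul, Real.norm_eq_abs,
      abs_of_nonneg (Real.sqrt_nonneg _)] at this
  have hsum : ∀ x : H, Summable fun n => x n • G n := by
    intro x
    rw [summable_iff_vanishing_norm]
    intro ε hε
    set K : ℝ := ‖G 0‖ + 1 with hK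
    have hK0 : 0 < K := by positivity
    obtain ⟨s, hs⟩ := summable_iff_vanishing_norm.1 (summable_sq x) ((ε / K) ^ 2) (by positivity)
    refine ⟨s, fun t ht => ?_⟩
    have h1 := hs t ht
    rw [Real.norm_eq_abs, abs_of_nonneg (Finset.sum_nonneg fun _ _ => sq_nonneg _)] at h1
    rw [h0]
    have h2 : √(∑ n ∈ t, x n ^ 2) < ε / K := by
      rw [Real.sqrt_lt' (by positivity)]
      exact h1
    calc √(∑ n ∈ t, x n ^ 2) * ‖G 0‖ ≤ √(∑ n ∈ t, x n ^ 2) * K := by
          gcongr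
          rw [hK]; linarith
      _ < ε / K * K := by gcongr
      _ = ε := div_mul_cancel₀ _ hK0.ne'
  have hnorm : ∀ (c : ℝ) (x : H), ‖c • B0 + ∑' n, x n • G n‖ = ‖c • B0 + ‖x‖ • G 0‖ := by
    intro c x
    have h1 : Tendsto (fun s : Finset ℕ => ‖c • B0 + ∑ n ∈ s, x n • G n‖) atTop
        (𝓝 ‖c • B0 + ∑' n, x n • G n‖) := ((hsum x).hasSum.const_add _).norm
    have h2 : Tendsto (fun s : Finset ℕ => ‖c • B0 + √(∑ n ∈ s, x n ^ 2) • G 0‖) atTop
        (𝓝 ‖c • B0 + √(∑' n, x n ^ 2) • G 0‖) := by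
      refine Tendsto.norm (Tendsto.const_add _ ?_)
      exact (((Real.continuous_sqrt.tendsto _).comp (summable_sq x).hasSum)).smul_const _
    have h3 : √(∑' n, x n ^ 2) = ‖x‖ := by
      rw [← norm_sq, Real.sqrt_sq (norm_nonneg _)]
    rw [h3] at h2
    refine tendsto_nhds_unique h1 (h2.congr fun s => ?_)
    rw [h]
  let S0 : H →ₗ[ℝ] F :=
    { toFun := fun x => ∑' n, x n • G n
      map_add' := fun x y => by
        rw [← (hsum x).tsum_add (hsum y)]
        refine tsum_congr fun n => ?_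
        rw [lp.coeFn_add, Pi.add_apply, add_smul]
      map_smul' := fun c x => by
        rw [RingHom.id_apply, ← (hsum x).tsum_const_smul]
        refine tsum_congr fun n => ?_
        rw [lp.coeFn_smul, Pi.smul_apply, smul_eq_mul, mul_smul] }
  refine ⟨S0.mkContinuous ‖G 0‖ fun x => ?_, fun x => (hsum x).hasSum, hnorm⟩
  have := hnorm 0 x
  rw [zero_smul, zero_add, zero_add, norm_smul, norm_norm] at this
  show ‖∑' n, x n • G n‖ ≤ _
  rw [this, mul_comm]

end Q98.GW
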