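import Pool.Agent.Q98.GW1
import Pool.Agent.Q98.GW2
import Pool.Agent.Q98.GW4

/-! The Gaussian sequence in `L_r[0,1]`. -/

set_option autoImplicit false

open MeasureTheory ProbabilityTheory unitInterval

open scoped ENNReal NNReal

namespace Q98.GW

/-- a fixed Gaussian sequence on `[0,1]` -/
noncomputable def g : ℕ → I → ℝ := exists_gauss.choose

lemma g_meas (n : ℕ) : Measurable (g n) := exists_gauss.choose_spec.1 n
lemma g_indep : iIndepFun g (volume : Measure I) := exists_gauss.choose_spec.2.1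
lemma g_law (n : ℕ) : (volume : Measure I).map (g n) = gaussianReal 0 1 :=
  exists_gauss.choose_spec.2.2 n

lemma g_mp (n : ℕ) : MeasurePreserving (g n) (volume : Measure I) γ := ⟨g_meas n, g_law n⟩

variable (r : ℝ)

/-- the exponent -/
abbrev X : Type := Lp ℝ (ENNReal.ofReal r) (volume : Measure I)

/-- composition with the `k`-th variable -/
noncomputable def Ps {ψ : ℝ → ℝ} (h : MemLp ψ (ENNReal.ofReal r) γ) (k : ℕ) : X r :=
  (h.comp_measurePreserving (g_mp k)).toLp

lemma norm_Ps {ψ : ℝ → ℝ} (h : MemLp ψ (ENNReal.ofReal r) γ) (k : ℕ) :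
    ‖Ps r h k‖ = (eLpNorm ψ (ENNReal.ofReal r) γ).toReal := by
  unfold Ps
  rw [Lp.norm_toLp, eLpNorm_comp_measurePreserving h.1 (g_mp k)]

lemma g_memLp (n : ℕ) : MemLp (g n) (ENNReal.ofReal r) (volume : Measure I) :=
  (memLp_id r).comp_measurePreserving (g_mp n)

/-- the constant function `1` -/
noncomputable def one : X r := (memLp_const (1 : ℝ)).toLp

/-- the Gaussian variables -/
noncomputable def G (n : ℕ) : X r := (g_memLp r n).toLp

lemma sum_toLp (x : ℕ → ℝ) (s : Finset ℕ) :
    ∃ h : MemLp (fun t => ∑ n ∈ s, x n * g n t) (ENNReal.ofReal r) (volume : Measure I),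
      ∑ n ∈ s, x n • G r n = h.toLp := by
  classical
  induction s using Finset.induction_on with
  | empty =>
    refine ⟨by simp, ?_⟩
    simp only [Finset.sum_empty]
    exact (MemLp.toLp_zero _).symm
  | insert a s ha ih =>
    obtain ⟨h1, h2⟩ := ih
    have h3 : MemLp (fun t => x a * g a t + ∑ n ∈ s, x n * g n t) (ENNReal.ofReal r)
        (volume : Measure I) := ((g_memLp r a).const_mul (x a)).add h1
    have e : (fun t => ∑ n ∈ insert a s, x n * g n t)
        = fun t => x a * g a t + ∑ n ∈ s, x n * g n t := by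
      funext t
      rw [Finset.sum_insert ha]
    refine ⟨by rw [e]; exact h3, ?_⟩
    rw [Finset.sum_insert ha, h2]
    have h4 : x a • G r a = ((g_memLp r a).const_mul (x a)).toLp := rfl
    rw [h4, ← MemLp.toLp_add]
    apply MemLp.toLp_congr
    refine Filter.Eventually.of_forall fun t => ?_
    exact (congrFun e t).symm

lemma norm_comb (c : ℝ) (x : ℕ → ℝ) (s : Finset ℕ) :
    ‖c • one r + ∑ n ∈ s, x n • G r n‖
      = (eLpNorm (fun t => c + ∑ n ∈ s, x n * g n t) (ENNReal.ofReal r) volume).toReal := by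
  obtain ⟨h, he⟩ := sum_toLp r x s
  have h4 : c • one r = ((memLp_const (1 : ℝ)).const_mul c).toLp := rfl
  rw [he, h4, ← MemLp.toLp_add, Lp.norm_toLp]
  congr 2
  funext t
  show c * 1 + ∑ n ∈ s, x n * g n t = _
  rw [mul_one]

lemma norm_comb_one (c t : ℝ) (k : ℕ) :
    ‖c • one r + t • G r k‖
      = (eLpNorm (fun y => c + t * y) (ENNReal.ofReal r) γ).toReal := by
  have h1 := norm_comb r c (fun _ => t) {k}
  rw [Finset.sum_singleton] at h1
  rw [h1]
  have h2 : (fun u => c + ∑ n ∈ ({k} : Finset ℕ), t * g n u) = (fun y => c + t * y) ∘ g k := by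
    funext u
    simp
  rw [h2, eLpNorm_comp_measurePreserving (by fun_prop) (g_mp k)]

lemma norm_comb_eq (c : ℝ) (x : ℕ → ℝ) (s : Finset ℕ) :
    ‖c • one r + ∑ n ∈ s, x n • G r n‖ = ‖c • one r + √(∑ n ∈ s, x n ^ 2) • G r 0‖ := by
  rw [norm_comb, norm_comb_one]
  have h1 := (identDistrib_sum g_meas g_indep g_law c x s 0).eLpNorm_eq (ENNReal.ofReal r)
  rw [h1]
  have h2 : (fun t => c + √(∑ n ∈ s, x n ^ 2) * g 0 t)
      = (fun y => c + √(∑ n ∈ s, x n ^ 2) * y) ∘ g 0 := rfl
  rw [h2, eLpNorm_comp_measurePreserving (by fun_prop) (g_mp 0)]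

lemma norm_one' : ‖one r‖ = 1 ∨ r ≤ 0 := by
  by_cases hr : 0 < r
  · left
    unfold one
    rw [Lp.norm_toLp, eLpNorm_const _ (by simpa using hr) (by
      intro h
      have := congrArg (fun m : Measure I => m Set.univ) h
      simp at this)]
    simp
  · right; linarith

lemma norm_G {r : ℝ} (hr : 0 < r) (k : ℕ) : ‖G r k‖ = gn r := by
  have := norm_comb_one r 0 1 k
  rw [zero_smul, zero_add, one_smul] at this
  rw [this]
  simp only [zero_add, one_mul]
  exact norm_id hr

end Q98.GW
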