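import Pool.Agent.Q98.GW5
import Pool.Agent.Q98.GW6

/-! The pairing of `L_p[0,1]` and `L_q[0,1]`, and the real case of the theorem. -/

set_option autoImplicit false

open MeasureTheory ProbabilityTheory unitInterval Filter Topology

open scoped ENNReal NNReal

namespace Q98.GW

/-- the pairing -/
noncomputable def pr (r r' : ℝ) [Fact (1 ≤ ENNReal.ofReal r)] [Fact (1 ≤ ENNReal.ofReal r')]
    [(ENNReal.ofReal r).HolderConjugate (ENNReal.ofReal r')] : X r →L[ℝ] X r' →L[ℝ] ℝ :=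
  (ContinuousLinearMap.mul ℝ ℝ).lpPairing volume (ENNReal.ofReal r) (ENNReal.ofReal r')

section

variable {r r' : ℝ} [Fact (1 ≤ ENNReal.ofReal r)] [Fact (1 ≤ ENNReal.ofReal r')]
    [(ENNReal.ofReal r).HolderConjugate (ENNReal.ofReal r')]

lemma pr_apply (f : X r) (h : X r') : pr r r' f h = ∫ t, f t * h t := by
  unfold pr
  rw [ContinuousLinearMap.lpPairing_eq_integral]
  rfl

lemma pr_toLp {f h : I → ℝ} (hf : MemLp f (ENNReal.ofReal r) (volume : Measure I))
    (hh : MemLp h (ENNReal.ofReal r') (volume : Measure I)) :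
    pr r r' hf.toLp hh.toLp = ∫ t, f t * h t := by
  rw [pr_apply]
  apply integral_congr_ae
  filter_upwards [hf.coeFn_toLp, hh.coeFn_toLp] with t h1 h2
  rw [h1, h2]

lemma pr_le (f : X r) (h : X r') : |pr r r' f h| ≤ ‖f‖ * ‖h‖ := by
  have h1 : pr r r' f h = ∫ t, ((ContinuousLinearMap.mul ℝ ℝ).holder 1 f h : Lp ℝ 1 volume) t := by
    rw [pr_apply]
    apply integral_congr_ae
    filter_upwards [(ContinuousLinearMap.mul ℝ ℝ).coeFn_holder (r := 1) f h] with t ht
    rw [ht]; rfl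
  have h2 := ContinuousLinearMap.norm_holder_apply_apply_le (ContinuousLinearMap.mul ℝ ℝ)
    (r := 1) f h
  rw [h1]
  have h3 : |∫ t, ((ContinuousLinearMap.mul ℝ ℝ).holder 1 f h : Lp ℝ 1 volume) t|
      ≤ ‖((ContinuousLinearMap.mul ℝ ℝ).holder 1 f h : Lp ℝ 1 (volume : Measure I))‖ := by
    rw [← L1.integral_eq_integral, ← Real.norm_eq_abs]
    exact L1.norm_integral_le _
  refine h3.trans (h2.trans ?_)
  rw [ContinuousLinearMap.opNorm_mul, one_mul]

/-- the pairing is norming -/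
lemma norm_pr_flip (hr : r'.HolderConjugate r) (w : X r') : ‖(pr r r').flip w‖ = ‖w‖ := by
  apply le_antisymm
  · refine ContinuousLinearMap.opNorm_le_bound _ (norm_nonneg _) fun f => ?_
    have := pr_le f w
    rw [mul_comm] at this
    exact this
  · obtain ⟨h, h1, h2, h3, h4⟩ := exists_norming_fun hr (Lp.stronglyMeasurable w).measurable
      (Lp.memLp w)
    have h5 : (pr r r').flip w h2.toLp = ‖w‖ := by
      show pr r r' h2.toLp w = _
      rw [pr_apply, Lp.norm_def, ← h4]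
      apply integral_congr_ae
      filter_upwards [h2.coeFn_toLp] with t ht
      rw [ht]
    have h6 : ‖(h2.toLp : X r)‖ ≤ 1 := by
      rw [Lp.norm_toLp]; exact h3
    have h7 := ((pr r r').flip w).le_opNorm h2.toLp
    rw [h5, norm_norm] at h7
    calc ‖w‖ ≤ ‖(pr r r').flip w‖ * ‖(h2.toLp : X r)‖ := h7
      _ ≤ ‖(pr r r').flip w‖ * 1 := by gcongr
      _ = _ := mul_one _

lemma pr_Ps_one {ψ : ℝ → ℝ} (h : MemLp ψ (ENNReal.ofReal r) γ) (k : ℕ) :
    pr r r' (Ps r h k) (one r') = ∫ y, ψ y ∂γ := by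
  unfold Ps one
  rw [pr_toLp]
  simp only [mul_one]
  have h1 := integral_map (g_meas k).aemeasurable (f := ψ)
    (by rw [g_law k]; exact h.1)
  rw [g_law k] at h1
  exact h1.symm

lemma pr_Ps_G {ψ : ℝ → ℝ} (hm : Measurable ψ) (h : MemLp ψ (ENNReal.ofReal r) γ) (k n : ℕ) :
    pr r r' (Ps r h k) (G r' n) = if n = k then ∫ y, ψ y * y ∂γ else 0 := by
  unfold Ps G
  rw [pr_toLp]
  split_ifs with hnk
  · subst hnk
    have h1 := integral_map (g_meas n).aemeasurable (f := fun y => ψ y * y)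
      (by rw [g_law n]; exact h.1.mul aestronglyMeasurable_id)
    rw [g_law n] at h1
    exact h1.symm
  · have hi : IndepFun (g k) (g n) (volume : Measure I) := g_indep.indepFun (fun h => hnk h.symm)
    have hi' : IndepFun (ψ ∘ g k) (g n) (volume : Measure I) := by
      have := hi.comp hm measurable_id
      simpa using this
    have h1 : ∫ t, (ψ ∘ g k) t * g n t = (∫ t, (ψ ∘ g k) t) * ∫ t, g n t :=
      hi'.integral_fun_mul_eq_mul_integral (hm.comp (g_meas k)).aestronglyMeasurable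
        (g_meas n).aestronglyMeasurable
    rw [h1]
    have h2 : ∫ t, g n t = 0 := by
      have h3 := integral_map (μ := (volume : Measure I)) (g_meas n).aemeasurable
        (f := fun y : ℝ => y) aestronglyMeasurable_id
      rw [g_law n, integral_id_gaussianReal] at h3
      exact h3.symm
    rw [h2, mul_zero]

lemma pr_Ps_S {ψ : ℝ → ℝ} (hm : Measurable ψ) (h : MemLp ψ (ENNReal.ofReal r) γ) (k : ℕ)
    {S : H →L[ℝ] X r'} (hS : ∀ x : H, HasSum (fun n => x n • G r' n) (S x)) (x : H) :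
    pr r r' (Ps r h k) (S x) = (∫ y, ψ y * y ∂γ) * x k := by
  have h1 := (hS x).mapL (pr r r' (Ps r h k))
  have h2 : HasSum (fun n => pr r r' (Ps r h k) (x n • G r' n))
      ((∫ y, ψ y * y ∂γ) * x k) := by
    have h3 : (fun n => pr r r' (Ps r h k) (x n • G r' n))
        = fun n => if n = k then (∫ y, ψ y * y ∂γ) * x k else 0 := by
      funext n
      rw [map_smul, pr_Ps_G hm h, smul_eq_mul]
      split_ifs with hnk
      · rw [hnk, mul_comm]
      · rw [mul_zero]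
    rw [h3]
    exact hasSum_ite_eq k _
  exact h1.unique h2

end

lemma l2_lower {q : ℝ} (hq : 2 ≤ q) (s t : ℝ) :
    √(s ^ 2 + t ^ 2) ≤ ‖s • one q + t • G q 0‖ := by
  rw [norm_comb_one]
  have hmem : ∀ r : ℝ, MemLp (fun y : ℝ => s + t * y) (ENNReal.ofReal r) γ := fun r =>
    (memLp_const s).add ((memLp_id r).const_mul t)
  have h1 : eLpNorm (fun y : ℝ => s + t * y) (ENNReal.ofReal 2) γ
      ≤ eLpNorm (fun y : ℝ => s + t * y) (ENNReal.ofReal q) γ :=
    eLpNorm_le_eLpNorm_of_exponent_le (ENNReal.ofReal_le_ofReal hq) (hmem 2).1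
  have h2 := ENNReal.toReal_mono (hmem q).2.ne h1
  refine le_trans (le_of_eq ?_) h2
  rw [(hmem 2).eLpNorm_eq_integral_rpow_norm (by simp) ENNReal.ofReal_ne_top,
    ENNReal.toReal_ofReal (by norm_num : (0 : ℝ) ≤ 2), ENNReal.toReal_ofReal (by positivity),
    Real.sqrt_eq_rpow, one_div]
  congr 1
  have h3 : ∀ y : ℝ, ‖s + t * y‖ ^ (2 : ℝ) = s ^ 2 + 2 * s * t * y + t ^ 2 * |y| ^ (2 : ℝ) := by
    intro y
    rw [Real.rpow_two, Real.norm_eq_abs, sq_abs, Real.rpow_two, sq_abs]; ring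
  simp only [h3]
  have i1 : Integrable (fun y : ℝ => 2 * s * t * y) γ := by
    have := (memLp_id 1)
    rw [ENNReal.ofReal_one] at this
    exact (memLp_one_iff_integrable.1 this).const_mul _
  have i2 : Integrable (fun y : ℝ => t ^ 2 * |y| ^ (2 : ℝ)) γ :=
    (integrable_abs_rpow (by norm_num)).const_mul _
  rw [integral_add (f := fun y : ℝ => s ^ 2 + 2 * s * t * y)
    (g := fun y : ℝ => t ^ 2 * |y| ^ (2 : ℝ)) ((integrable_const _).add i1) i2,
    integral_add (f := fun _ : ℝ => s ^ 2) (g := fun y : ℝ => 2 * s * t * y) (integrable_const _) i1,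
    integral_const_mul, integral_const_mul, integral_id_gaussianReal]
  have h4 : ∫ y : ℝ, |y| ^ (2 : ℝ) ∂γ = 1 := M_two
  rw [h4]
  simp

lemma mono_aux {F : Type*} [NormedAddCommGroup F] [NormedSpace ℝ F] {b u : F} {s : ℝ}
    (hlow : ∀ t : ℝ, 0 < t → ‖s • b‖ < ‖s • b + t • u‖) {t₁ t₂ : ℝ} (h1 : 0 ≤ t₁) (h2 : t₁ < t₂) :
    ‖s • b + t₁ • u‖ < ‖s • b + t₂ • u‖ := by
  have ht2 : 0 < t₂ := lt_of_le_of_lt h1 h2
  set α : ℝ := t₁ / t₂ with hα
  have hα0 : 0 ≤ α := by positivity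
  have hα1 : α < 1 := by rw [hα, div_lt_one ht2]; exact h2
  have e : s • b + t₁ • u = (1 - α) • (s • b) + α • (s • b + t₂ • u) := by
    have : α * t₂ = t₁ := div_mul_cancel₀ _ ht2.ne'
    rw [smul_add, smul_smul, smul_smul, smul_smul, ← add_assoc, ← add_smul, this]
    congr 2
    ring
  rw [e]
  refine (norm_add_le _ _).trans_lt ?_
  rw [norm_smul (1 - α), norm_smul α, Real.norm_eq_abs, Real.norm_eq_abs, abs_of_nonneg hα0,
    abs_of_pos (by linarith : 0 < 1 - α)]
  have h3 := hlow t₂ ht2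
  nlinarith

/-- **The real case.** -/
theorem real_case {p q p' q' : ℝ} (hp : p.HolderConjugate p') (hq : q.HolderConjugate q')
    (hp2 : p ≤ 2) (hq2 : 2 ≤ q) (hne : ¬ (p = 2 ∧ q = 2))
    [Fact (1 ≤ ENNReal.ofReal p)] [Fact (1 ≤ ENNReal.ofReal q)] :
    ∃ (T : X p →L[ℝ] X q) (A0 : StrongDual ℝ (X p)), (¬ ∃ x, ‖x‖ = 1 ∧ ‖T x‖ = ‖T‖) ∧
      (∀ f : X p, A0 f = ∫ t, f t) ∧
      ∀ x : ℕ → X p, (∀ n, ‖x n‖ = 1) → Tendsto (fun n => ‖T (x n)‖) atTop (𝓝 ‖T‖) →
        ¬ Tendsto (fun n => A0 (x n)) atTop (𝓝 0) := by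
  have hp1 : 1 < p := hp.lt
  have hp'1 : 1 < p' := hp.symm.lt
  have hq1 : 1 < q := hq.lt
  have hq'1 : 1 < q' := hq.symm.lt
  have : Fact (1 ≤ ENNReal.ofReal p') := ⟨by simpa using hp'1.le⟩
  have : Fact (1 ≤ ENNReal.ofReal q') := ⟨by simpa using hq'1.le⟩
  have : (ENNReal.ofReal p).HolderConjugate (ENNReal.ofReal p') := hp.ennrealOfReal
  have : (ENNReal.ofReal q').HolderConjugate (ENNReal.ofReal q) := hq.symm.ennrealOfReal
  have hp'2 : 2 ≤ p' := by
    have := hp.sub_one_mul_conj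
    have h2 := hp.symm.sub_one_mul_conj
    nlinarith
  obtain ⟨Sp, hSp, hSpn⟩ := exists_ext (one p') (G p') (norm_comb_eq p')
  obtain ⟨Sq, hSq, hSqn⟩ := exists_ext (one q) (G q) (norm_comb_eq q)
  have hS0 : ∀ {r : ℝ} [Fact (1 ≤ ENNReal.ofReal r)] {S : H →L[ℝ] X r},
      (∀ x : H, HasSum (fun n => x n • G r n) (S x)) → S (e 0) = G r 0 := by
    intro r _ S hS
    have h1 := hS (e 0)
    have h2 : (fun n => (e 0) n • G r n) = fun n => if n = 0 then G r 0 else 0 := by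
      funext n
      rw [e_apply]
      split_ifs with h
      · rw [h, one_smul]
      · rw [zero_smul]
    rw [h2] at h1
    exact h1.unique (hasSum_ite_eq 0 _)
  have hSp0 := hS0 hSp
  have hSq0 := hS0 hSq
  set A0 : StrongDual ℝ (X p) := (pr p p').flip (one p') with hA0
  set A1 : H →L[ℝ] StrongDual ℝ (X p) := (pr p p').flip.comp Sp with hA1
  have hone : ∀ {r : ℝ} [Fact (1 ≤ ENNReal.ofReal r)], 0 < r → ‖one r‖ = 1 := by
    intro r _ hr
    rcases norm_one' r with h | h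
    · exact h
    · linarith
  have hA : ∀ (c : ℝ) x, ‖c • A0 + A1 x‖ = ‖c • A0 + ‖x‖ • A1 (e 0)‖ := by
    intro c x
    have e1 : c • A0 + A1 x = (pr p p').flip (c • one p' + Sp x) := by
      rw [map_add, map_smul]; rfl
    have e2 : c • A0 + ‖x‖ • A1 (e 0) = (pr p p').flip (c • one p' + ‖x‖ • G p' 0) := by
      rw [map_add, map_smul, map_smul, ← hSp0]; rfl
    rw [e1, e2, norm_pr_flip hp.symm, norm_pr_flip hp.symm, hSpn]
  have hB : ∀ (c : ℝ) y, ‖c • one q + Sq y‖ = ‖c • one q + ‖y‖ • Sq (e 0)‖ := by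
    intro c y
    rw [hSqn, hSq0]
  have hmono : ∀ s t₁ t₂ : ℝ, 0 ≤ t₁ → t₁ < t₂ →
      ‖s • one q + t₁ • Sq (e 0)‖ < ‖s • one q + t₂ • Sq (e 0)‖ := by
    intro s t₁ t₂ h1 h2
    refine mono_aux (fun t ht => ?_) h1 h2
    rw [hSq0, norm_smul, hone (by linarith), mul_one]
    refine lt_of_lt_of_le ?_ (l2_lower hq2 s t)
    rw [Real.norm_eq_abs, Real.lt_sqrt (abs_nonneg _), sq_abs]
    nlinarith [sq_nonneg s, sq_pos_of_pos ht]
  have hdual : ∀ s t : ℝ, ∃ h₀ κ : ℝ, s * h₀ + t * κ = ‖s • one q + t • Sq (e 0)‖ ∧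
      ∀ k, ∃ h : StrongDual ℝ (X q), ‖h‖ ≤ 1 ∧ h (one q) = h₀ ∧ ∀ y : H, h (Sq y) = κ * y k := by
    intro s t
    have hwm : MemLp (fun y : ℝ => s + t * y) (ENNReal.ofReal q) γ :=
      (memLp_const s).add ((memLp_id q).const_mul t)
    obtain ⟨ψ, hψm, hψ, hψn, hψi⟩ := exists_norming_fun hq (by fun_prop) hwm
    refine ⟨∫ y, ψ y ∂γ, ∫ y, ψ y * y ∂γ, ?_, fun k => ⟨pr q' q (Ps q' hψ k), ?_, ?_, ?_⟩⟩
    · rw [hSq0, norm_comb_one, ← hψi]
      have i0 : Integrable ψ γ := hψ.integrable (by simpa using hq'1.le)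
      have i1 : Integrable (fun y => ψ y * y) γ := hψ.integrable_mul (memLp_id q)
      have e1 : ∀ y, ψ y * (s + t * y) = s * ψ y + t * (ψ y * y) := fun y => by ring
      simp only [e1]
      rw [integral_add (i0.const_mul s) (i1.const_mul t), integral_const_mul, integral_const_mul]
    · refine ContinuousLinearMap.opNorm_le_bound _ zero_le_one fun w => ?_
      refine (pr_le _ _).trans ?_
      rw [norm_Ps]
      exact mul_le_mul_of_nonneg_right hψn (norm_nonneg _)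
    · exact pr_Ps_one hψ k
    · intro y
      exact pr_Ps_S hψm hψ k hSq y
  have hA1n : ‖A1 (e 0)‖ = gn p' := by
    show ‖(pr p p').flip (Sp (e 0))‖ = _
    rw [norm_pr_flip hp.symm, hSp0, norm_G (by linarith)]
  have hB1n : ‖Sq (e 0)‖ = gn q := by rw [hSq0, norm_G (by linarith)]
  set a : ℝ := gn p' * gn q with ha
  have ha0 : 0 < a := mul_pos (gn_pos (by linarith)) (gn_pos (by linarith))
  have ha2 : a ^ 2 < (q - 1) * (p' - 1) := by
    rw [ha, mul_pow]
    have g1 := gn_sq_le hp'2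
    have g2 := gn_sq_le hq2
    have g3 : 0 < gn p' ^ 2 := by have := gn_pos (r := p') (by linarith); positivity
    have g4 : 0 < gn q ^ 2 := by have := gn_pos (r := q) (by linarith); positivity
    rcases hq2.eq_or_lt with h | h
    · have hp3 : 2 < p' := by
        rcases hp'2.eq_or_lt with h' | h'
        · exfalso
          apply hne
          refine ⟨?_, h.symm⟩
          have h6 := hp.inv_add_inv_eq_one
          rw [← h'] at h6
          have h7 : p⁻¹ = 2⁻¹ := by linarith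
          exact inv_injective h7
        · exact h'
      have g5 := gn_sq_lt hp3
      calc gn p' ^ 2 * gn q ^ 2 ≤ gn p' ^ 2 * (q - 1) := by gcongr
        _ < (p' - 1) * (q - 1) := by
          apply mul_lt_mul_of_pos_right g5; linarith
        _ = (q - 1) * (p' - 1) := by ring
    · have g5 := gn_sq_lt h
      calc gn p' ^ 2 * gn q ^ 2 < gn p' ^ 2 * (q - 1) := by gcongr
        _ ≤ (p' - 1) * (q - 1) := by
          apply mul_le_mul_of_nonneg_right g1; linarith
        _ = (q - 1) * (p' - 1) := by ring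
  obtain ⟨c, d, hcd⟩ := exists_cd hp hq ha0 ha2
  have hp0 : 0 < p := by linarith
  have hq'0 : 0 < q' := by linarith
  have hlow : ∃ α₀ φ ν h₀ κ ν' : ℝ, 0 < ν ∧ 0 < ν' ∧ a * (ν * ν') < a * α₀ * h₀ + φ * κ ∧
      (∀ k, ∃ f : X p, ‖f‖ ≤ ν ∧ A0 f = α₀ ∧ ∀ x : H, A1 x f = φ * x k) ∧
      (∀ k, ∃ h : StrongDual ℝ (X q), ‖h‖ ≤ ν' ∧ h (one q) = h₀ ∧
        ∀ y : H, h (Sq y) = κ * y k) := by
    refine ⟨Real.exp (c ^ 2 / 2), c * Real.exp (c ^ 2 / 2), Real.exp (p * c ^ 2 / 2),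
      Real.exp (d ^ 2 / 2), d * Real.exp (d ^ 2 / 2), Real.exp (q' * d ^ 2 / 2),
      Real.exp_pos _, Real.exp_pos _, hcd,
      fun k => ⟨Ps p (memLp_exp c hp0) k, ?_, ?_, ?_⟩,
      fun k => ⟨pr q' q (Ps q' (memLp_exp d hq'0) k), ?_, ?_, ?_⟩⟩
    · rw [norm_Ps, norm_exp c hp0]
    · show pr p p' (Ps p (memLp_exp c hp0) k) (one p') = _
      rw [pr_Ps_one, int_exp]
    · intro x
      show pr p p' (Ps p (memLp_exp c hp0) k) (Sp x) = _
      rw [pr_Ps_S (by fun_prop) _ k hSp]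
      congr 1
      rw [← int_mul_exp]
      exact integral_congr_ae (Filter.Eventually.of_forall fun y => mul_comm _ _)
    · refine ContinuousLinearMap.opNorm_le_bound _ (Real.exp_pos _).le fun w => ?_
      refine (pr_le _ _).trans ?_
      rw [norm_Ps, norm_exp d hq'0]
    · rw [pr_Ps_one, int_exp]
    · intro y
      rw [pr_Ps_S (by fun_prop) _ k hSq]
      congr 1
      rw [← int_mul_exp]
      exact integral_congr_ae (Filter.Eventually.of_forall fun y => mul_comm _ _)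
  obtain ⟨T, hT1, hT2⟩ := abstract_main A0 A1 (one q) Sq
    (by rw [hA0, norm_pr_flip hp.symm, hone (by linarith)]) (hone (by linarith)) hA hB hmono hdual
    (a := a) (by rw [hA1n, hB1n]) hlow
  refine ⟨T, A0, hT1, fun f => ?_, hT2⟩
  show pr p p' f (one p') = _
  unfold one
  rw [pr_apply]
  apply integral_congr_ae
  filter_upwards [(memLp_const (μ := (volume : Measure I)) (p := ENNReal.ofReal p')
    (1 : ℝ)).coeFn_toLp] with t ht
  rw [ht, mul_one]

end Q98.GW
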