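import Mathlib

/-! Norms of `𝕜`-valued functions against the norms of their real and imaginary parts in `L_p`,
for `p ≤ 2` and for `p ≥ 2`. -/

set_option autoImplicit false

open MeasureTheory

open scoped ENNReal NNReal

namespace Q98.GW

variable {α : Type*} {m : MeasurableSpace α} {μ : Measure α} {𝕜 : Type*} [RCLike 𝕜]

lemma norm_rpow_Lp {E : Type*} [NormedAddCommGroup E] {p : ℝ} (hp : 0 < p)
    (u : Lp E (ENNReal.ofReal p) μ) : ‖u‖ ^ p = ∫ t, ‖u t‖ ^ p ∂μ := by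
  have h0 : 0 ≤ ∫ t, ‖u t‖ ^ p ∂μ := integral_nonneg fun t => by positivity
  rw [Lp.norm_def, (Lp.memLp u).eLpNorm_eq_integral_rpow_norm (by simpa using hp)
    ENNReal.ofReal_ne_top, ENNReal.toReal_ofReal hp.le, ENNReal.toReal_ofReal (by positivity),
    ← Real.rpow_mul h0, inv_mul_cancel₀ hp.ne', Real.rpow_one]

lemma eLpNorm_sq {E : Type*} [NormedAddCommGroup E] {q : ℝ} (hq : 0 < q) (f : α → E) :
    eLpNorm (fun t => ‖f t‖ ^ (2 : ℝ)) (ENNReal.ofReal (q / 2)) μ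
      = eLpNorm f (ENNReal.ofReal q) μ ^ (2 : ℝ) := by
  have hmul : ENNReal.ofReal (q / 2) * ENNReal.ofReal 2 = ENNReal.ofReal q := by
    rw [← ENNReal.ofReal_mul (by positivity), div_mul_cancel₀ _ two_ne_zero]
  rw [eLpNorm_norm_rpow f two_pos, hmul]

/-- For `q ≥ 2`. -/
theorem norm_sq_le {q : ℝ} (hq : 2 ≤ q) (u v : Lp ℝ (ENNReal.ofReal q) μ)
    (F : Lp 𝕜 (ENNReal.ofReal q) μ) (h : ∀ᵐ t ∂μ, ‖F t‖ ^ 2 ≤ (u t) ^ 2 + (v t) ^ 2) :
    ‖F‖ ^ 2 ≤ ‖u‖ ^ 2 + ‖v‖ ^ 2 := by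
  have hq0 : 0 < q := by linarith
  have hum : AEStronglyMeasurable (fun t => ‖u t‖ ^ (2 : ℝ)) μ :=
    ((Lp.stronglyMeasurable u).norm.measurable.pow_const _).aestronglyMeasurable
  have hvm : AEStronglyMeasurable (fun t => ‖v t‖ ^ (2 : ℝ)) μ :=
    ((Lp.stronglyMeasurable v).norm.measurable.pow_const _).aestronglyMeasurable
  have h1 : eLpNorm (fun t => ‖F t‖ ^ (2 : ℝ)) (ENNReal.ofReal (q / 2)) μ
      ≤ eLpNorm ((fun t => ‖u t‖ ^ (2 : ℝ)) + fun t => ‖v t‖ ^ (2 : ℝ))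
        (ENNReal.ofReal (q / 2)) μ := by
    apply eLpNorm_mono_ae
    filter_upwards [h] with t ht
    rw [Pi.add_apply, Real.norm_eq_abs, Real.norm_eq_abs (_ + _), abs_of_nonneg (by positivity),
      abs_of_nonneg (by positivity), Real.rpow_two, Real.rpow_two, Real.rpow_two,
      Real.norm_eq_abs, Real.norm_eq_abs, sq_abs, sq_abs]
    exact ht
  have h2 := h1.trans (eLpNorm_add_le hum hvm (by
    rw [ENNReal.one_le_ofReal]; linarith))
  rw [eLpNorm_sq hq0, eLpNorm_sq hq0, eLpNorm_sq hq0] at h2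
  have h3 := ENNReal.toReal_mono (by
    refine ENNReal.add_ne_top.2 ⟨?_, ?_⟩
    · exact ENNReal.rpow_ne_top_of_nonneg (by norm_num) (Lp.eLpNorm_ne_top u)
    · exact ENNReal.rpow_ne_top_of_nonneg (by norm_num) (Lp.eLpNorm_ne_top v)) h2
  rw [ENNReal.toReal_add (ENNReal.rpow_ne_top_of_nonneg (by norm_num) (Lp.eLpNorm_ne_top u))
    (ENNReal.rpow_ne_top_of_nonneg (by norm_num) (Lp.eLpNorm_ne_top v)),
    ← ENNReal.toReal_rpow, ← ENNReal.toReal_rpow, ← ENNReal.toReal_rpow, Real.rpow_two,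
    Real.rpow_two, Real.rpow_two] at h3
  exact h3

/-- For `p ≤ 2`. -/
theorem norm_sq_ge {p : ℝ} (hp1 : 1 ≤ p) (hp : p ≤ 2) [Fact (1 ≤ ENNReal.ofReal p)]
    (u v : Lp ℝ (ENNReal.ofReal p) μ)
    (F : Lp 𝕜 (ENNReal.ofReal p) μ) (h : ∀ᵐ t ∂μ, (u t) ^ 2 + (v t) ^ 2 ≤ ‖F t‖ ^ 2) :
    ‖u‖ ^ 2 + ‖v‖ ^ 2 ≤ ‖F‖ ^ 2 := by
  have hp0 : 0 < p := by linarith
  have hule : ‖u‖ ≤ ‖F‖ := by
    apply Lp.norm_le_norm_of_ae_le
    filter_upwards [h] with t ht
    rw [← pow_le_pow_iff_left₀ (norm_nonneg _) (norm_nonneg _) two_ne_zero, Real.norm_eq_abs,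
      sq_abs]
    nlinarith [sq_nonneg (v t)]
  have hvle : ‖v‖ ≤ ‖F‖ := by
    apply Lp.norm_le_norm_of_ae_le
    filter_upwards [h] with t ht
    rw [← pow_le_pow_iff_left₀ (norm_nonneg _) (norm_nonneg _) two_ne_zero, Real.norm_eq_abs,
      sq_abs]
    nlinarith [sq_nonneg (u t)]
  rcases (norm_nonneg u).eq_or_lt with hu | hu
  · rw [← hu]
    have := pow_le_pow_left₀ (norm_nonneg v) hvle 2
    simpa using this
  rcases (norm_nonneg v).eq_or_lt with hv | hv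
  · rw [← hv]
    have := pow_le_pow_left₀ (norm_nonneg u) hule 2
    simpa using this
  set U := ‖u‖ with hU
  set V := ‖v‖ with hV
  set W2 : ℝ := U ^ 2 + V ^ 2 with hW2
  have hW2p : 0 < W2 := by positivity
  set θ : ℝ := U ^ 2 / W2 with hθ
  have hθ0 : 0 ≤ θ := by positivity
  have hθ1 : 1 - θ = V ^ 2 / W2 := by rw [hθ, hW2]; field_simp; ring
  have hθ2 : 0 ≤ 1 - θ := by rw [hθ1]; positivity
  have hs0 : 0 ≤ p / 2 := by positivity
  have hs1 : p / 2 ≤ 1 := by linarith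
  -- pointwise inequality
  have hpt : ∀ᵐ t ∂μ, W2 ^ (p / 2) * (θ * (‖u t‖ ^ p / U ^ p) + (1 - θ) * (‖v t‖ ^ p / V ^ p))
      ≤ ‖F t‖ ^ p := by
    filter_upwards [h] with t ht
    have e1 : ∀ {x y : ℝ}, 0 < y → (x ^ 2 / y ^ 2) ^ (p / 2) = ‖x‖ ^ p / y ^ p := by
      intro x y hy
      rw [Real.div_rpow (sq_nonneg x) (sq_nonneg y), Real.norm_eq_abs, ← sq_abs,
        ← Real.rpow_natCast, ← Real.rpow_natCast, ← Real.rpow_mul (abs_nonneg x),
        ← Real.rpow_mul hy.le]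
      congr 2 <;> push_cast <;> ring
    have e2 : ‖F t‖ ^ p = (‖F t‖ ^ 2) ^ (p / 2) := by
      rw [← Real.rpow_natCast, ← Real.rpow_mul (norm_nonneg _)]
      congr 1; push_cast; ring
    have hconc := (Real.concaveOn_rpow hs0 hs1).2 (x := (u t) ^ 2 / U ^ 2) (y := (v t) ^ 2 / V ^ 2)
      (Set.mem_Ici.2 (by positivity)) (Set.mem_Ici.2 (by positivity)) hθ0 hθ2 (by ring)
    simp only [smul_eq_mul] at hconc
    rw [e1 hu, e1 hv] at hconc
    calc W2 ^ (p / 2) * (θ * (‖u t‖ ^ p / U ^ p) + (1 - θ) * (‖v t‖ ^ p / V ^ p))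
        ≤ W2 ^ (p / 2) * (θ * ((u t) ^ 2 / U ^ 2) + (1 - θ) * ((v t) ^ 2 / V ^ 2)) ^ (p / 2) :=
          mul_le_mul_of_nonneg_left hconc (by positivity)
      _ = ((u t) ^ 2 + (v t) ^ 2) ^ (p / 2) := by
          rw [← Real.mul_rpow hW2p.le (by positivity)]
          congr 1
          rw [hθ1, hθ]
          field_simp
      _ ≤ (‖F t‖ ^ 2) ^ (p / 2) := Real.rpow_le_rpow (by positivity) ht hs0
      _ = ‖F t‖ ^ p := e2.symm
  have iu : Integrable (fun t => ‖u t‖ ^ p) μ := by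
    have := (Lp.memLp u).integrable_norm_rpow (by simpa using hp0) ENNReal.ofReal_ne_top
    rwa [ENNReal.toReal_ofReal hp0.le] at this
  have iv : Integrable (fun t => ‖v t‖ ^ p) μ := by
    have := (Lp.memLp v).integrable_norm_rpow (by simpa using hp0) ENNReal.ofReal_ne_top
    rwa [ENNReal.toReal_ofReal hp0.le] at this
  have iF : Integrable (fun t => ‖F t‖ ^ p) μ := by
    have := (Lp.memLp F).integrable_norm_rpow (by simpa using hp0) ENNReal.ofReal_ne_top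
    rwa [ENNReal.toReal_ofReal hp0.le] at this
  have i1 : Integrable (fun t => θ * (‖u t‖ ^ p / U ^ p)) μ := (iu.div_const _).const_mul _
  have i2 : Integrable (fun t => (1 - θ) * (‖v t‖ ^ p / V ^ p)) μ := (iv.div_const _).const_mul _
  have hint := integral_mono_ae ((i1.add i2).const_mul (W2 ^ (p / 2))) iF hpt
  simp only [Pi.add_apply] at hint
  rw [integral_const_mul, integral_add i1 i2, integral_const_mul, integral_const_mul,
    integral_div, integral_div, ← norm_rpow_Lp hp0 u, ← norm_rpow_Lp hp0 v,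
    ← norm_rpow_Lp hp0 F, div_self (by positivity), div_self (by positivity), mul_one, mul_one]
    at hint
  have h1 : W2 ^ (p / 2) ≤ ‖F‖ ^ p := by
    have : θ + (1 - θ) = 1 := by ring
    rwa [this, mul_one] at hint
  have h2 : ‖F‖ ^ p = (‖F‖ ^ 2) ^ (p / 2) := by
    rw [← Real.rpow_natCast, ← Real.rpow_mul (norm_nonneg _)]
    congr 1; push_cast; ring
  rw [h2] at h1
  exact (Real.rpow_le_rpow_iff hW2p.le (by positivity) (by positivity)).1 h1

end Q98.GW
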