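import Mathlib
import Pool.Agent.Q98.Gdel

set_option autoImplicit false
set_option linter.unusedSectionVars false

open Filter Topology

namespace Q98.Gdel

variable {X : Type*} [NormedAddCommGroup X] [NormedSpace ℝ X]

/-- diameter two property -/
def D2P (X : Type*) [NormedAddCommGroup X] [NormedSpace ℝ X] : Prop :=
  ∀ U : Set (WeakSpace ℝ X), IsOpen U →
    ({x : X | ‖x‖ ≤ 1 ∧ toWeakSpace ℝ X x ∈ U}).Nonempty →
      Metric.diam {x : X | ‖x‖ ≤ 1 ∧ toWeakSpace ℝ X x ∈ U} = 2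

/-- diametral diameter two property -/
def DD2P (X : Type*) [NormedAddCommGroup X] [NormedSpace ℝ X] : Prop :=
  ∀ U : Set (WeakSpace ℝ X), IsOpen U → ∀ x : X, ‖x‖ ≤ 1 → toWeakSpace ℝ X x ∈ U →
    ∀ ε : ℝ, 0 < ε → ∃ y : X, ‖y‖ ≤ 1 ∧ toWeakSpace ℝ X y ∈ U ∧ 1 + ‖x‖ - ε ≤ ‖x - y‖

/-- contraction towards the origin -/
lemma shrink (x : X) (hx : ‖x‖ ≤ 1) (O : Set X) (hO : IsOpen O) (hxO : x ∈ O) :
    ∃ y ∈ O, ‖y‖ < 1 := by
  have hc : Continuous fun t : ℝ => (1 - t) • x := (continuous_const.sub continuous_id).smul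
    continuous_const
  have h1 : Tendsto (fun t : ℝ => (1 - t) • x) (𝓝[>] 0) (𝓝 x) := by
    have := (hc.tendsto 0).mono_left (nhdsWithin_le_nhds (s := Set.Ioi (0:ℝ)))
    simpa using this
  have h2 : ∀ᶠ t : ℝ in 𝓝[>] 0, (1 - t) • x ∈ O := h1.eventually (hO.mem_nhds hxO)
  have h3 : ∀ᶠ t : ℝ in 𝓝[>] 0, t ∈ Set.Ioo (0:ℝ) 1 := Ioo_mem_nhdsGT one_pos
  obtain ⟨t, ht1, ht2⟩ := (h2.and h3).exists
  refine ⟨(1 - t) • x, ht1, ?_⟩
  rw [norm_smul, Real.norm_of_nonneg (by linarith [ht2.2])]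
  nlinarith [ht2.1, ht2.2, norm_nonneg x]

lemma shrink_dense {ι : V →+ X} (hd : DenseRange ι) (x : X) (hx : ‖x‖ ≤ 1) (O : Set X)
    (hO : IsOpen O) (hxO : x ∈ O) : ∃ v : V, ι v ∈ O ∧ ‖ι v‖ < 1 := by
  obtain ⟨y, hy, hy1⟩ := shrink x hx O hO hxO
  have hopen : IsOpen (O ∩ {z : X | ‖z‖ < 1}) := hO.inter (isOpen_lt continuous_norm
    continuous_const)
  obtain ⟨v, hv⟩ := hd.exists_mem_open hopen ⟨y, hy, hy1⟩
  exact ⟨v, hv.1, hv.2⟩

/-- weak neighbourhoods from dominated additive functionals -/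
lemma weak_open_of {n : ℕ} (f : Fin n → StrongDual ℝ X) (x : X) (δ : ℝ) :
    IsOpen {z : WeakSpace ℝ X | ∀ i, |f i ((toWeakSpace ℝ X).symm z) - f i x| < δ} := by
  have : {z : WeakSpace ℝ X | ∀ i, |f i ((toWeakSpace ℝ X).symm z) - f i x| < δ} =
      ⋂ i, {z : WeakSpace ℝ X | |f i ((toWeakSpace ℝ X).symm z) - f i x| < δ} := by
    ext z; simp
  rw [this]
  exact isOpen_iInter_of_finite fun i => isOpen_slab (f i) (f i x) δ

lemma norm_open_of {n : ℕ} (f : Fin n → StrongDual ℝ X) (x : X) (δ : ℝ) :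
    IsOpen {z : X | ∀ i, |f i z - f i x| < δ} := by
  have : {z : X | ∀ i, |f i z - f i x| < δ} = ⋂ i, {z : X | |f i z - f i x| < δ} := by
    ext z; simp
  rw [this]
  exact isOpen_iInter_of_finite fun i =>
    isOpen_lt (((f i).continuous.sub continuous_const).abs) continuous_const

/-- From weakly open sets to conditions on additive functionals. -/
lemma transfer (μ : V → ℝ) (ι : V →+ X) (hι : ∀ v, ‖ι v‖ = μ v)
    (I : Finset (StrongDual ℝ X)) (δ : ℝ) (hδ : 0 < δ) :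
    ∃ (n m : ℕ) (g : Fin n → (V →+ ℝ)), (∀ i v, |g i v| ≤ μ v) ∧
      ∀ u w : V, (∀ i, |g i (u - w)| < 1 / ((m : ℝ) + 1)) → ∀ f ∈ I, |f (ι u - ι w)| < δ := by
  classical
  set M : ℝ := (∑ f ∈ I, ‖f‖) + 1 with hM
  have hM0 : 0 < M := by
    have : 0 ≤ ∑ f ∈ I, ‖f‖ := Finset.sum_nonneg fun _ _ => norm_nonneg _
    linarith
  have hfM : ∀ f ∈ I, ‖f‖ ≤ M := by
    intro f hf
    have := Finset.single_le_sum (f := fun f : StrongDual ℝ X => ‖f‖) (fun _ _ => norm_nonneg _) hf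
    linarith
  obtain ⟨m, hm⟩ := exists_nat_one_div_lt (show 0 < δ / M by positivity)
  refine ⟨I.card, m, fun i => (AddMonoidHom.mulLeft (M⁻¹)).comp
    (((I.equivFin.symm i : StrongDual ℝ X) : X →+ ℝ).comp ι), ?_, ?_⟩
  · intro i v
    show |M⁻¹ * (I.equivFin.symm i : StrongDual ℝ X) (ι v)| ≤ μ v
    rw [abs_mul, abs_of_pos (by positivity), ← hι v, inv_mul_le_iff₀ hM0]
    refine ((I.equivFin.symm i : StrongDual ℝ X).le_opNorm (ι v)).trans ?_
    gcongr
    exact hfM _ (I.equivFin.symm i).2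
  · intro u w h f hf
    have h1 := h (I.equivFin ⟨f, hf⟩)
    have h2 : |M⁻¹ * f (ι (u - w))| < 1 / ((m : ℝ) + 1) := by
      have h3 : (AddMonoidHom.mulLeft (M⁻¹)).comp
        (((I.equivFin.symm (I.equivFin ⟨f, hf⟩) : StrongDual ℝ X) : X →+ ℝ).comp ι) (u - w) =
        M⁻¹ * f (ι (u - w)) := by
        rw [Equiv.symm_apply_apply]; rfl
      rw [h3] at h1
      exact h1
    rw [abs_mul, abs_of_pos (by positivity), inv_mul_lt_iff₀ hM0] at h2
    rw [← map_sub]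
    calc |f (ι (u - w))| < M * (1 / ((m : ℝ) + 1)) := h2
      _ ≤ M * (δ / M) := by gcongr
      _ = δ := by field_simp

theorem d2p_iff (μ : V → ℝ) (ι : V →+ X) (hι : ∀ v, ‖ι v‖ = μ v) (hd : DenseRange ι) :
    D2P X ↔ ∀ v, μ v < 1 → ∀ (n m m' : ℕ) (g : Fin n → (V →+ ℝ)), (∀ i v, |g i v| ≤ μ v) →
      ∃ p : Fin 2 → V, (μ (p 0) < 1 ∧ μ (p 1) < 1 ∧ 2 - 1 / ((m' : ℝ) + 1) < μ (p 0 - p 1)) ∧
        ∀ i j, |g i (p j - v)| < 1 / ((m : ℝ) + 1) := by
  constructor
  · intro hX v hv n m m' g hg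
    have hg' : ∀ i, ∃ f : StrongDual ℝ X, ‖f‖ ≤ 1 ∧ ∀ v, f (ι v) = g i v := fun i =>
      exists_extend ι hd (g i) fun v => by rw [hι v]; exact hg i v
    choose f hf1 hf using hg'
    set δ : ℝ := 1 / ((m : ℝ) + 1) with hδ
    have hδ0 : 0 < δ := by positivity
    set U : Set (WeakSpace ℝ X) :=
      {z : WeakSpace ℝ X | ∀ i, |f i ((toWeakSpace ℝ X).symm z) - f i (ι v)| < δ} with hU
    have hUo : IsOpen U := weak_open_of f (ι v) δ
    have hne : ({x : X | ‖x‖ ≤ 1 ∧ toWeakSpace ℝ X x ∈ U}).Nonempty := by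
      refine ⟨ι v, (hι v).le.trans hv.le, fun i => ?_⟩
      show |f i (ι v) - f i (ι v)| < δ
      rw [sub_self, abs_zero]; exact hδ0
    have hdiam := hX U hUo hne
    obtain ⟨y, hy, z, hz, hyz⟩ : ∃ y ∈ {x : X | ‖x‖ ≤ 1 ∧ toWeakSpace ℝ X x ∈ U},
        ∃ z ∈ {x : X | ‖x‖ ≤ 1 ∧ toWeakSpace ℝ X x ∈ U}, 2 - 1 / ((m' : ℝ) + 1) < ‖y - z‖ := by
      by_contra hcon
      push Not at hcon
      have h1 : (0 : ℝ) ≤ 2 - 1 / ((m' : ℝ) + 1) := by
        have : 1 / ((m' : ℝ) + 1) ≤ 1 := by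
          rw [div_le_one (by positivity)]
          have : (0:ℝ) ≤ m' := Nat.cast_nonneg _
          linarith
        linarith
      have h2 : Metric.diam {x : X | ‖x‖ ≤ 1 ∧ toWeakSpace ℝ X x ∈ U} ≤
          2 - 1 / ((m' : ℝ) + 1) := by
        apply Metric.diam_le_of_forall_dist_le h1
        intro y hy z hz
        rw [dist_eq_norm]; exact hcon y hy z hz
      rw [hdiam] at h2
      have : (0:ℝ) < 1 / ((m' : ℝ) + 1) := by positivity
      linarith
    -- first coordinate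
    obtain ⟨p0, hp0, hp0n⟩ := shrink_dense hd y hy.1
      ({a : X | ∀ i, |f i a - f i (ι v)| < δ} ∩ {a : X | 2 - 1 / ((m' : ℝ) + 1) < ‖a - z‖})
      ((norm_open_of f (ι v) δ).inter (isOpen_lt continuous_const
        ((continuous_id.sub continuous_const).norm))) ⟨hy.2, hyz⟩
    obtain ⟨p1, hp1, hp1n⟩ := shrink_dense hd z hz.1
      ({a : X | ∀ i, |f i a - f i (ι v)| < δ} ∩ {a : X | 2 - 1 / ((m' : ℝ) + 1) < ‖ι p0 - a‖})
      ((norm_open_of f (ι v) δ).inter (isOpen_lt continuous_const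
        ((continuous_const.sub continuous_id).norm))) ⟨hz.2, hp0.2⟩
    refine ⟨![p0, p1], ⟨?_, ?_, ?_⟩, ?_⟩
    · show μ p0 < 1
      rw [← hι]; exact hp0n
    · show μ p1 < 1
      rw [← hι]; exact hp1n
    · show _ < μ (p0 - p1)
      rw [← hι, map_sub]; exact hp1.2
    · intro i j
      fin_cases j
      · show |g i (p0 - v)| < δ
        rw [map_sub, ← hf, ← hf]; exact hp0.1 i
      · show |g i (p1 - v)| < δ
        rw [map_sub, ← hf, ← hf]; exact hp1.1 i
  · intro hμ U hU hne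
    obtain ⟨x, hx1, hxU⟩ := hne
    apply le_antisymm
    · apply Metric.diam_le_of_forall_dist_le zero_le_two
      intro y hy z hz
      rw [dist_eq_norm]
      have := norm_sub_le y z
      have h1 := hy.1
      have h2 := hz.1
      linarith
    · apply le_of_forall_pos_sub_le
      intro ε hε
      obtain ⟨I, δ, hδ, hI⟩ := weak_nhd U hU x hxU
      obtain ⟨v, hv, hv1⟩ := shrink_dense hd x hx1
        {a : X | ∀ f ∈ I, |f (a - x)| < δ / 2} (by
          have : {a : X | ∀ f ∈ I, |f (a - x)| < δ / 2} =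
            ⋂ f ∈ I, {a : X | |f (a - x)| < δ / 2} := by ext a; simp
          rw [this]
          exact isOpen_biInter_finset fun f _ =>
            isOpen_lt ((f.continuous.comp (continuous_id.sub continuous_const)).abs)
              continuous_const) (by
          intro f _; rw [sub_self, map_zero, abs_zero]; positivity)
      obtain ⟨n, m, g, hg, hgI⟩ := transfer μ ι hι I (δ / 2) (by positivity)
      obtain ⟨m', hm'⟩ := exists_nat_one_div_lt hε
      obtain ⟨p, ⟨hp0, hp1, hp01⟩, hpg⟩ := hμ v (by rw [← hι]; exact hv1) n m m' g hg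
      have hmem : ∀ j, μ (p j) < 1 → ι (p j) ∈ {x : X | ‖x‖ ≤ 1 ∧ toWeakSpace ℝ X x ∈ U} := by
        intro j hj
        refine ⟨by rw [hι]; exact hj.le, hI _ fun f hf => ?_⟩
        have h1 := hgI (p j) v (fun i => hpg i j) f hf
        have h2 := hv f hf
        have h3 : ι (p j) - x = (ι (p j) - ι v) + (ι v - x) := by abel
        rw [h3, map_add]
        have := abs_add_le (f (ι (p j) - ι v)) (f (ι v - x))
        linarith
      have hbdd : Bornology.IsBounded {x : X | ‖x‖ ≤ 1 ∧ toWeakSpace ℝ X x ∈ U} := by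
        apply (Metric.isBounded_closedBall (x := (0 : X)) (r := 1)).subset
        intro y hy
        rw [mem_closedBall_zero_iff]; exact hy.1
      have h1 := Metric.dist_le_diam_of_mem hbdd (hmem 0 hp0) (hmem 1 hp1)
      rw [dist_eq_norm, ← map_sub, hι] at h1
      linarith

theorem dd2p_iff (μ : V → ℝ) (ι : V →+ X) (hι : ∀ v, ‖ι v‖ = μ v) (hd : DenseRange ι) :
    DD2P X ↔ ∀ v, μ v < 1 → ∀ (n m m' : ℕ) (g : Fin n → (V →+ ℝ)), (∀ i v, |g i v| ≤ μ v) →
      ∃ p : Fin 1 → V, (μ (p 0) < 1 ∧ 1 + μ v - 1 / ((m' : ℝ) + 1) < μ (v - p 0)) ∧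
        ∀ i j, |g i (p j - v)| < 1 / ((m : ℝ) + 1) := by
  constructor
  · intro hX v hv n m m' g hg
    have hg' : ∀ i, ∃ f : StrongDual ℝ X, ‖f‖ ≤ 1 ∧ ∀ v, f (ι v) = g i v := fun i =>
      exists_extend ι hd (g i) fun v => by rw [hι v]; exact hg i v
    choose f hf1 hf using hg'
    set δ : ℝ := 1 / ((m : ℝ) + 1) with hδ
    have hδ0 : 0 < δ := by positivity
    set U : Set (WeakSpace ℝ X) :=
      {z : WeakSpace ℝ X | ∀ i, |f i ((toWeakSpace ℝ X).symm z) - f i (ι v)| < δ} with hU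
    have hUo : IsOpen U := weak_open_of f (ι v) δ
    obtain ⟨y, hy1, hyU, hy⟩ := hX U hUo (ι v) (by rw [hι v]; exact hv.le) (by
      intro i
      show |f i (ι v) - f i (ι v)| < δ
      rw [sub_self, abs_zero]; exact hδ0) (1 / ((m' : ℝ) + 1) / 2) (by positivity)
    have he : (0:ℝ) < 1 / ((m' : ℝ) + 1) := by positivity
    obtain ⟨p0, hp0, hp0n⟩ := shrink_dense hd y hy1
      ({a : X | ∀ i, |f i a - f i (ι v)| < δ} ∩
        {a : X | 1 + ‖ι v‖ - 1 / ((m' : ℝ) + 1) < ‖ι v - a‖})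
      ((norm_open_of f (ι v) δ).inter (isOpen_lt continuous_const
        ((continuous_const.sub continuous_id).norm))) ⟨hyU, by
          show 1 + ‖ι v‖ - 1 / ((m' : ℝ) + 1) < ‖ι v - y‖
          linarith⟩
    refine ⟨![p0], ⟨?_, ?_⟩, ?_⟩
    · show μ p0 < 1
      rw [← hι]; exact hp0n
    · show _ < μ (v - p0)
      rw [← hι (v - p0), ← hι v, map_sub]; exact hp0.2
    · intro i j
      fin_cases j
      show |g i (p0 - v)| < δ
      rw [map_sub, ← hf, ← hf]; exact hp0.1 i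
  · intro hμ U hU x hx1 hxU ε hε
    obtain ⟨I, δ, hδ, hI⟩ := weak_nhd U hU x hxU
    obtain ⟨v, hv, hv1⟩ := shrink_dense hd x hx1
      ({a : X | ∀ f ∈ I, |f (a - x)| < δ / 2} ∩ {a : X | ‖a - x‖ < ε / 4}) (by
        apply IsOpen.inter
        · have : {a : X | ∀ f ∈ I, |f (a - x)| < δ / 2} =
            ⋂ f ∈ I, {a : X | |f (a - x)| < δ / 2} := by ext a; simp
          rw [this]
          exact isOpen_biInter_finset fun f _ =>
            isOpen_lt ((f.continuous.comp (continuous_id.sub continuous_const)).abs)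
              continuous_const
        · exact isOpen_lt ((continuous_id.sub continuous_const).norm) continuous_const) (by
        refine ⟨fun f _ => ?_, ?_⟩
        · rw [sub_self, map_zero, abs_zero]; positivity
        · show ‖x - x‖ < ε / 4
          rw [sub_self, norm_zero]; positivity)
    obtain ⟨n, m, g, hg, hgI⟩ := transfer μ ι hι I (δ / 2) (by positivity)
    obtain ⟨m', hm'⟩ := exists_nat_one_div_lt (show 0 < ε / 4 by positivity)
    obtain ⟨p, ⟨hp0, hp01⟩, hpg⟩ := hμ v (by rw [← hι]; exact hv1) n m m' g hg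
    refine ⟨ι (p 0), by rw [hι]; exact hp0.le, hI _ fun f hf => ?_, ?_⟩
    · have h1 := hgI (p 0) v (fun i => hpg i 0) f hf
      have h2 := hv.1 f hf
      have h3 : ι (p 0) - x = (ι (p 0) - ι v) + (ι v - x) := by abel
      rw [h3, map_add]
      have := abs_add_le (f (ι (p 0) - ι v)) (f (ι v - x))
      linarith
    · have h1 : ‖ι v - x‖ < ε / 4 := hv.2
      have h2 : 1 + ‖ι v‖ - 1 / ((m' : ℝ) + 1) < ‖ι v - ι (p 0)‖ := by
        rw [← map_sub, hι, hι]; exact hp01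
      have h3 : ‖ι v - ι (p 0)‖ ≤ ‖ι v - x‖ + ‖x - ι (p 0)‖ := by
        have := norm_add_le (ι v - x) (x - ι (p 0))
        rwa [sub_add_sub_cancel] at this
      have h4 : ‖x‖ ≤ ‖ι v‖ + ‖ι v - x‖ := by
        have := norm_sub_le (ι v) (ι v - x)
        rwa [sub_sub_cancel] at this
      linarith

end Q98.Gdel
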