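import Pool.Agent.Q98.SG6

/-! A strong Gurarii space over `c_0(ℝ)` inside `ℓ_∞`: the codes and the functions they denote. -/

set_option autoImplicit false

open Filter Topology

open scoped ENNReal

namespace Q98.HG

open Q98.SG (lo hi cross le_lo hi_le lo_le_hi neg_le_lo hi_le' abs_between)

/-- Codes for the elements of the space: atoms, linear combinations, limits of sequences, and
one-point extensions of finite-dimensional subspaces. -/
inductive Code : Type
  | atom (γ : ℝ) : Code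
  | lin (a b : ℝ) (c d : Code) : Code
  | lim (f : ℕ → Code) : Code
  | ext (n : ℕ) (N : (Fin n → ℚ) → ℝ) (f : Fin n → Code) : Code

/-- The parameters of the extensions. -/
abbrev Sp : Type := Code → Set.Icc (0 : ℝ) 1

/-- The unit ball of `ℓ_1(ℝ)`, the functionals on the span of the atoms. -/
def T0 : Type := {b : ℝ → ℝ // ∀ F : Finset ℝ, ∑ γ ∈ F, |b γ| ≤ 1}

/-- The parameter space. -/
abbrev T : Type := T0 × Sp

/-- The ambient space of bounded functions on the parameter space. -/
abbrev B : Type := lp (fun _ : T => ℝ) ∞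

open Classical in
/-- a bounded function as an element of `B` -/
noncomputable def toB (f : T → ℝ) : B := if h : Memℓp f ∞ then ⟨f, h⟩ else 0

lemma toB_apply {f : T → ℝ} (h : Memℓp f ∞) (t : T) : toB f t = f t := by
  rw [toB, dif_pos h]

/-- `N` is the distance function of a one-point extension of the span of `b`. -/
def Valid (n : ℕ) (N : (Fin n → ℚ) → ℝ) (b : Fin n → B) : Prop :=
  ∃ p : Seminorm ℝ ((Fin n → ℝ) × ℝ), (∀ x, p (x, 0) = ‖∑ j, x j • b j‖) ∧
    (∀ q : Fin n → ℚ, p (fun j => (q j : ℝ), -1) = N q) ∧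
    ∃ C : ℝ, ∀ (x : Fin n → ℝ) j, |x j| ≤ C * ‖∑ j, x j • b j‖

open Classical in
/-- The function denoted by a code. -/
noncomputable def v : Code → B
  | .atom γ => toB (fun t => t.1.1 γ)
  | .lin a b c d => a • v c + b • v d
  | .lim f => if CauchySeq (fun i => v (f i)) then limUnder atTop (fun i => v (f i)) else 0
  | .ext n N f => if Valid n N (fun j => v (f j)) then
      toB (fun t => lo N (fun j => v (f j) t) + (t.2 (.ext n N f) : ℝ) *
        (hi N (fun j => v (f j) t) - lo N (fun j => v (f j) t))) else 0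

/-- values of linear combinations -/
lemma comb_apply {n : ℕ} (b : Fin n → B) (x : Fin n → ℝ) (t : T) :
    (∑ j, x j • b j) t = ∑ j, x j * b j t := by
  rw [lp.coeFn_sum, Finset.sum_apply]
  rfl

lemma abs_apply_le (f : B) (t : T) : |f t| ≤ ‖f‖ :=
  lp.norm_apply_le_norm ENNReal.top_ne_zero f t

lemma adm_apply {n : ℕ} {b : Fin n → B} {p : Seminorm ℝ ((Fin n → ℝ) × ℝ)}
    (hp : ∀ x, p (x, 0) = ‖∑ j, x j • b j‖) (t : T) (x : Fin n → ℝ) :
    |∑ j, x j * b j t| ≤ p (x, 0) := by
  rw [← comb_apply, hp]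
  exact abs_apply_le _ t

lemma T0_le (b : T0) (γ : ℝ) : |b.1 γ| ≤ 1 := by
  have := b.2 {γ}
  simpa using this

/-- the values of an atom -/
lemma v_atom (γ : ℝ) (t : T) : v (.atom γ) t = t.1.1 γ := by
  rw [v, toB_apply]
  refine memℓp_infty ⟨1, ?_⟩
  rintro _ ⟨t, rfl⟩
  exact T0_le t.1 γ

/-- signed sums of atoms are in the unit ball -/
lemma norm_atoms_le (F : Finset ℝ) (ε : ℝ → ℝ) (hε : ∀ γ, |ε γ| ≤ 1) :
    ‖∑ γ ∈ F, ε γ • v (.atom γ)‖ ≤ 1 := by
  refine lp.norm_le_of_forall_le zero_le_one fun t => ?_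
  have e : (∑ γ ∈ F, ε γ • v (.atom γ)) t = ∑ γ ∈ F, ε γ * t.1.1 γ := by
    rw [lp.coeFn_sum, Finset.sum_apply]
    refine Finset.sum_congr rfl fun γ _ => ?_
    rw [lp.coeFn_smul, Pi.smul_apply, smul_eq_mul, v_atom]
  rw [e, Real.norm_eq_abs]
  refine (Finset.abs_sum_le_sum_abs _ _).trans ((Finset.sum_le_sum fun γ _ => ?_).trans (t.1.2 F))
  rw [abs_mul]
  calc |ε γ| * |t.1.1 γ| ≤ 1 * |t.1.1 γ| := mul_le_mul_of_nonneg_right (hε γ) (abs_nonneg _)
    _ = _ := one_mul _

/-- the values of a functional at the atoms -/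
lemma sum_abs_atoms_le (φ : B →ₗ[ℝ] ℝ) (C : ℝ) (hle : ∀ f : B, |φ f| ≤ C * ‖f‖) (hC : 0 ≤ C)
    (F : Finset ℝ) : ∑ γ ∈ F, |φ (v (.atom γ))| ≤ C := by
  classical
  let ε : ℝ → ℝ := fun γ => if 0 ≤ φ (v (.atom γ)) then 1 else -1
  have h1 : ∑ γ ∈ F, |φ (v (.atom γ))| = φ (∑ γ ∈ F, ε γ • v (.atom γ)) := by
    rw [map_sum]
    refine Finset.sum_congr rfl fun γ _ => ?_
    rw [map_smul, smul_eq_mul]
    show _ = (if 0 ≤ φ (v (.atom γ)) then (1:ℝ) else -1) * _
    split_ifs with h
    · rw [abs_of_nonneg h, one_mul]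
    · rw [abs_of_neg (not_le.1 h), neg_one_mul]
  rw [h1]
  refine (le_abs_self _).trans ((hle _).trans ?_)
  have h2 : ‖∑ γ ∈ F, ε γ • v (.atom γ)‖ ≤ 1 := norm_atoms_le F ε fun γ => by
    show |(if 0 ≤ φ (v (.atom γ)) then (1:ℝ) else -1)| ≤ 1
    split_ifs <;> simp
  nlinarith

/-- the value of a valid extension code -/
lemma v_ext {n : ℕ} {N : (Fin n → ℚ) → ℝ} {f : Fin n → Code}
    (h : Valid n N (fun j => v (f j))) (t : T) :
    v (.ext n N f) t = lo N (fun j => v (f j) t) + (t.2 (.ext n N f) : ℝ) *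
        (hi N (fun j => v (f j) t) - lo N (fun j => v (f j) t)) := by
  have h0 := h
  obtain ⟨p, hp, hN, -⟩ := h
  rw [v, if_pos h0, toB_apply]
  refine memℓp_infty ⟨N 0, ?_⟩
  rintro _ ⟨t, rfl⟩
  have h1 := lo_le_hi hN (adm_apply hp t)
  have h2 := neg_le_lo hN (adm_apply hp t)
  have h3 := hi_le' hN (adm_apply hp t)
  exact abs_between h1 h2 h3 (t.2 (.ext n N f)).2.1 (t.2 (.ext n N f)).2.2

lemma v_ext_mem {n : ℕ} {N : (Fin n → ℚ) → ℝ} {f : Fin n → Code}
    (h : Valid n N (fun j => v (f j))) (t : T) :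
    lo N (fun j => v (f j) t) ≤ v (.ext n N f) t ∧
      v (.ext n N f) t ≤ hi N (fun j => v (f j) t) := by
  have h0 := h
  obtain ⟨p, hp, hN, -⟩ := h
  rw [v_ext h0]
  have h1 := lo_le_hi hN (adm_apply hp t)
  have h4 := (t.2 (.ext n N f)).2.1
  have h5 := (t.2 (.ext n N f)).2.2
  constructor <;> nlinarith

/-- the distance of the new vector to the rational points -/
lemma norm_sub_le {n : ℕ} {N : (Fin n → ℚ) → ℝ} {f : Fin n → Code}
    (h : Valid n N (fun j => v (f j))) (q : Fin n → ℚ) :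
    ‖∑ j, (q j : ℝ) • v (f j) - v (.ext n N f)‖ ≤ N q := by
  have h0 := h
  obtain ⟨p, hp, hN, -⟩ := h
  have hpos : 0 ≤ N q := by rw [← hN]; exact apply_nonneg _ _
  refine lp.norm_le_of_forall_le hpos fun t => ?_
  have e : (∑ j, (q j : ℝ) • v (f j) - v (.ext n N f)) t
      = ∑ j, (q j : ℝ) * v (f j) t - v (.ext n N f) t := by
    rw [lp.coeFn_sub, Pi.sub_apply, comb_apply]
  rw [e, Real.norm_eq_abs]
  obtain ⟨h1, h2⟩ := v_ext_mem h0 t
  have h3 := le_lo hN (adm_apply hp t) q
  have h4 := hi_le hN (adm_apply hp t) q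
  rw [abs_le]
  constructor <;> linarith

/-- **Every functional of norm at most one is, on the denoted functions, an evaluation.** -/
theorem exists_point (φ : StrongDual ℝ B) (hφ : ‖φ‖ ≤ 1) : ∃ t : T, ∀ c, v c t = φ (v c) := by
  have hle : ∀ f : B, |φ f| ≤ ‖f‖ := by
    intro f
    refine (φ.le_opNorm f).trans ?_
    have := mul_le_mul_of_nonneg_right hφ (norm_nonneg f)
    rwa [one_mul] at this
  -- the parameter of a code
  have hpar : ∀ (n : ℕ) (N : (Fin n → ℚ) → ℝ) (f : Fin n → Code), ∃ s : Set.Icc (0 : ℝ) 1,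
      Valid n N (fun j => v (f j)) → lo N (fun j => φ (v (f j))) + (s : ℝ) *
        (hi N (fun j => φ (v (f j))) - lo N (fun j => φ (v (f j)))) = φ (v (.ext n N f)) := by
    intro n N f
    by_cases hv : Valid n N (fun j => v (f j))
    · have hv0 := hv
      obtain ⟨p, hp, hN, -⟩ := hv
      have hadm : ∀ x : Fin n → ℝ, |∑ j, x j * φ (v (f j))| ≤ p (x, 0) := by
        intro x
        have : ∑ j, x j * φ (v (f j)) = φ (∑ j, x j • v (f j)) := by
          rw [map_sum]
          exact Finset.sum_congr rfl fun j _ => by rw [map_smul, smul_eq_mul]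
        rw [this, hp]
        exact hle _
      have hφq : ∀ q : Fin n → ℚ, |∑ j, (q j : ℝ) * φ (v (f j)) - φ (v (.ext n N f))| ≤ N q := by
        intro q
        have : ∑ j, (q j : ℝ) * φ (v (f j)) - φ (v (.ext n N f))
            = φ (∑ j, (q j : ℝ) • v (f j) - v (.ext n N f)) := by
          rw [map_sub, map_sum]
          congr 1
          exact Finset.sum_congr rfl fun j _ => by rw [map_smul, smul_eq_mul]
        rw [this]
        exact (hle _).trans (norm_sub_le hv0 q)
      have h1 : lo N (fun j => φ (v (f j))) ≤ φ (v (.ext n N f)) := by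
        refine ciSup_le fun q => ?_
        have := (abs_le.1 (hφq q)).2
        linarith
      have h2 : φ (v (.ext n N f)) ≤ hi N (fun j => φ (v (f j))) := by
        refine le_ciInf fun q => ?_
        have := (abs_le.1 (hφq q)).1
        linarith
      rcases (h1.trans h2).eq_or_lt with h3 | h3
      · refine ⟨⟨0, by simp⟩, fun _ => ?_⟩
        simp only [zero_mul, add_zero]
        linarith
      · refine ⟨⟨(φ (v (.ext n N f)) - lo N (fun j => φ (v (f j)))) /
          (hi N (fun j => φ (v (f j))) - lo N (fun j => φ (v (f j)))), ?_, ?_⟩, fun _ => ?_⟩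
        · exact div_nonneg (by linarith) (by linarith)
        · rw [div_le_one (by linarith)]; linarith
        · show _ + (φ (v (.ext n N f)) - lo N (fun j => φ (v (f j)))) /
            (hi N (fun j => φ (v (f j))) - lo N (fun j => φ (v (f j)))) * _ = _
          rw [div_mul_cancel₀ _ (by linarith : hi N (fun j => φ (v (f j))) -
            lo N (fun j => φ (v (f j))) ≠ 0)]
          ring
    · exact ⟨⟨0, by simp⟩, fun h => absurd h hv⟩
  choose s hs using hpar
  have hb : ∀ F : Finset ℝ, ∑ γ ∈ F, |φ (v (.atom γ))| ≤ 1 := fun F =>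
    sum_abs_atoms_le φ.toLinearMap 1 (fun f => by rw [one_mul]; exact hle f) zero_le_one F
  let t : T := (⟨fun γ => φ (v (.atom γ)), hb⟩, fun c => match c with
    | .atom _ => ⟨0, by simp⟩
    | .lin _ _ _ _ => ⟨0, by simp⟩
    | .lim _ => ⟨0, by simp⟩
    | .ext n N f => s n N f)
  refine ⟨t, fun c => ?_⟩
  induction c with
  | atom γ => exact v_atom γ t
  | lin a b c d ihc ihd =>
    rw [v, lp.coeFn_add, Pi.add_apply, lp.coeFn_smul, lp.coeFn_smul, Pi.smul_apply, Pi.smul_apply,
      ihc, ihd, map_add, map_smul, map_smul]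
  | lim f ih =>
    rw [v]
    split_ifs with hc
    · have h1 : Tendsto (fun i => v (f i)) atTop (𝓝 (limUnder atTop (fun i => v (f i)))) :=
        hc.tendsto_limUnder
      have h2 : Tendsto (fun i => v (f i) t) atTop
          (𝓝 ((limUnder atTop (fun i => v (f i)) : B) t)) := by
        rw [tendsto_iff_norm_sub_tendsto_zero] at h1 ⊢
        refine squeeze_zero (fun _ => norm_nonneg _) (fun i => ?_) h1
        have := abs_apply_le (v (f i) - limUnder atTop (fun i => v (f i))) t
        rwa [lp.coeFn_sub, Pi.sub_apply] at this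
      have h3 : Tendsto (fun i => φ (v (f i))) atTop
          (𝓝 (φ (limUnder atTop (fun i => v (f i))))) := (φ.continuous.tendsto _).comp h1
      refine tendsto_nhds_unique h2 (h3.congr fun i => ?_)
      rw [ih]
    · rw [lp.coeFn_zero, Pi.zero_apply, map_zero]
  | ext n N f ih =>
    by_cases hv : Valid n N (fun j => v (f j))
    · rw [v_ext hv]
      have h1 : (fun j => v (f j) t) = fun j => φ (v (f j)) := funext ih
      rw [h1]
      exact hs n N f hv
    · rw [v, if_neg hv, lp.coeFn_zero, Pi.zero_apply, map_zero]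

end Q98.HG
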