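import Pool.Agent.Q98.HG1

/-! The space of denoted functions is of universal disposition for finite-dimensional spaces. -/

set_option autoImplicit false

open Filter Topology

open scoped ENNReal

namespace Q98.HG

open Q98.SG (lo hi cross le_lo hi_le lo_le_hi neg_le_lo hi_le' abs_between exists_dominated NN dense_cast)

/-- the rank of a code -/
noncomputable def rk : Code → Ordinal.{0}
  | .atom _ => 0
  | .lin _ _ c d => Order.succ (max (rk c) (rk d))
  | .lim f => ⨆ i, Order.succ (rk (f i))
  | .ext _ _ f => Order.succ (⨆ j, Order.succ (rk (f j)))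

/-- Changing the parameter at a code does not change the functions of smaller rank. -/
lemma v_update [DecidableEq Code] (c₀ : Code) (t : T) (τ : Set.Icc (0 : ℝ) 1) :
    ∀ c : Code, rk c < rk c₀ → v c (t.1, Function.update t.2 c₀ τ) = v c t := by
  intro c
  induction c with
  | atom γ => intro _; rw [v_atom, v_atom]
  | lin a b c d ihc ihd =>
    intro h
    rw [rk, Order.succ_eq_add_one] at h
    have h1 : max (rk c) (rk d) < rk c₀ := (lt_add_one _).trans h
    rw [v, lp.coeFn_add, Pi.add_apply, Pi.add_apply, lp.coeFn_smul, lp.coeFn_smul,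
      Pi.smul_apply, Pi.smul_apply, Pi.smul_apply, Pi.smul_apply,
      ihc (lt_of_le_of_lt (le_max_left _ _) h1), ihd (lt_of_le_of_lt (le_max_right _ _) h1)]
  | lim f ih =>
    intro h
    rw [v]
    split_ifs with hc
    · have h1 : Tendsto (fun i => v (f i)) atTop (𝓝 (limUnder atTop (fun i => v (f i)))) :=
        hc.tendsto_limUnder
      have h2 : ∀ t : T, Tendsto (fun i => v (f i) t) atTop
          (𝓝 ((limUnder atTop (fun i => v (f i)) : B) t)) := by
        intro t
        rw [tendsto_iff_norm_sub_tendsto_zero] at h1 ⊢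
        refine squeeze_zero (fun _ => norm_nonneg _) (fun i => ?_) h1
        have := abs_apply_le (v (f i) - limUnder atTop (fun i => v (f i))) t
        rwa [lp.coeFn_sub, Pi.sub_apply] at this
      refine tendsto_nhds_unique (h2 _) ((h2 t).congr fun i => ?_)
      refine (ih i ?_).symm
      refine lt_of_lt_of_le (Order.lt_succ (rk (f i))) ?_
      refine le_trans ?_ h.le
      rw [rk]
      exact Ordinal.le_iSup (fun i => Order.succ (rk (f i))) i
    · rfl
  | ext n N f ih =>
    intro h
    have hlt : ∀ j, rk (f j) < rk (.ext n N f) := by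
      intro j
      rw [rk]
      exact (Order.lt_succ (rk (f j))).trans_le
        ((Ordinal.le_iSup (fun j => Order.succ (rk (f j))) j).trans (Order.le_succ _))
    have hne : Code.ext n N f ≠ c₀ := by
      rintro rfl
      exact lt_irrefl _ h
    by_cases hv : Valid n N (fun j => v (f j))
    · rw [v_ext hv, v_ext hv]
      have hup : (t.1, Function.update t.2 c₀ τ).2 (Code.ext n N f) = t.2 (Code.ext n N f) :=
        Function.update_of_ne hne _ _
      rw [hup]
      have : (fun j => v (f j) (t.1, Function.update t.2 c₀ τ)) = fun j => v (f j) t :=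
        funext fun j => ih j ((hlt j).trans h)
      rw [this]
    · rw [v, if_neg hv]; rfl

lemma rk_lt {n : ℕ} (N : (Fin n → ℚ) → ℝ) (f : Fin n → Code) (j : Fin n) :
    rk (f j) < rk (.ext n N f) := by
  rw [rk]
  exact (Order.lt_succ (rk (f j))).trans_le
    ((Ordinal.le_iSup (fun j => Order.succ (rk (f j))) j).trans (Order.le_succ _))

section Ext

variable {n : ℕ} {p : Seminorm ℝ ((Fin n → ℝ) × ℝ)} {f : Fin n → Code}
    (hp : ∀ x, p (x, 0) = ‖∑ j, x j • v (f j)‖)
    (hC : ∃ C : ℝ, ∀ (x : Fin n → ℝ) j, |x j| ≤ C * ‖∑ j, x j • v (f j)‖)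

include hp hC in
lemma valid_NN : Valid n (NN p) (fun j => v (f j)) := ⟨p, hp, fun _ => rfl, hC⟩

include hp in
lemma continuous_p : Continuous fun x : Fin n → ℝ => p (x, -1) := by
  rw [continuous_iff_continuousAt]
  intro x
  rw [ContinuousAt, tendsto_iff_norm_sub_tendsto_zero]
  have h1 : Tendsto (fun y : Fin n → ℝ => ‖∑ j, (y j - x j) • v (f j)‖) (𝓝 x) (𝓝 0) := by
    have : Continuous fun y : Fin n → ℝ => ‖∑ j, (y j - x j) • v (f j)‖ := by fun_prop
    have h2 := this.tendsto x
    simpa using h2
  refine squeeze_zero (fun _ => norm_nonneg _) (fun y => ?_) h1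
  have h2 := abs_sub_map_le_sub p (y, -1) (x, -1)
  rw [← hp (fun j => y j - x j)]
  have h3 : ((y, -1) : (Fin n → ℝ) × ℝ) - (x, -1) = (fun j => y j - x j, 0) := by
    ext j
    · rfl
    · simp
  rwa [h3] at h2

include hp in
/-- the lower end of the interval controls all real points -/
lemma real_le_lo {k : Fin n → ℝ} (hk : ∀ x : Fin n → ℝ, |∑ j, x j * k j| ≤ p (x, 0))
    (x : Fin n → ℝ) : ∑ j, x j * k j - p (x, -1) ≤ lo (NN p) k := by
  have hcl : IsClosed {x : Fin n → ℝ | ∑ j, x j * k j - p (x, -1) ≤ lo (NN p) k} :=
    isClosed_le ((by fun_prop : Continuous fun x : Fin n → ℝ => ∑ j, x j * k j).sub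
      (continuous_p hp)) continuous_const
  refine dense_cast.induction_on (p := fun x : Fin n → ℝ =>
    ∑ j, x j * k j - p (x, -1) ≤ lo (NN p) k) x hcl fun q => ?_
  exact le_lo (p := p) (fun _ => rfl) hk q

include hp in
lemma hi_le_real {k : Fin n → ℝ} (hk : ∀ x : Fin n → ℝ, |∑ j, x j * k j| ≤ p (x, 0))
    (x : Fin n → ℝ) : hi (NN p) k ≤ ∑ j, x j * k j + p (x, -1) := by
  have hcl : IsClosed {x : Fin n → ℝ | hi (NN p) k ≤ ∑ j, x j * k j + p (x, -1)} :=
    isClosed_le continuous_const ((by fun_prop : Continuous fun x : Fin n → ℝ =>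
      ∑ j, x j * k j).add (continuous_p hp))
  refine dense_cast.induction_on (p := fun x : Fin n → ℝ =>
    hi (NN p) k ≤ ∑ j, x j * k j + p (x, -1)) x hcl fun q => ?_
  exact hi_le (p := p) (fun _ => rfl) hk q

include hp hC in
/-- **The new vector realizes the prescribed extension isometrically.** -/
theorem norm_ext (x : Fin n → ℝ) (l : ℝ) :
    ‖∑ j, x j • v (f j) + l • v (.ext n (NN p) f)‖ = p (x, l) := by
  classical
  have hv := valid_NN hp hC
  have hval : ∀ t : T, (∑ j, x j • v (f j) + l • v (.ext n (NN p) f)) t
      = ∑ j, x j * v (f j) t + l * v (.ext n (NN p) f) t := by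
    intro t
    rw [lp.coeFn_add, Pi.add_apply, comb_apply, lp.coeFn_smul, Pi.smul_apply, smul_eq_mul]
  apply le_antisymm
  · refine lp.norm_le_of_forall_le (apply_nonneg _ _) fun t => ?_
    rw [hval, Real.norm_eq_abs]
    rcases eq_or_ne l 0 with rfl | hl
    · rw [zero_mul, add_zero]
      exact adm_apply hp t x
    · obtain ⟨h1, h2⟩ := v_ext_mem hv t
      set y : Fin n → ℝ := fun j => -(x j / l) with hy
      have h3 := real_le_lo hp (adm_apply hp t) y
      have h4 := hi_le_real hp (adm_apply hp t) y
      have h5 : |∑ j, y j * v (f j) t - v (.ext n (NN p) f) t| ≤ p (y, -1) := by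
        rw [abs_le]
        constructor <;> linarith
      have h6 : p (x, l) = |l| * p (y, -1) := by
        have : ((x, l) : (Fin n → ℝ) × ℝ) = (-l) • (y, -1) := by
          ext j
          · show x j = -l * y j
            rw [hy]
            field_simp
          · show l = -l * -1
            ring
        rw [this, map_smul_eq_mul, norm_neg, Real.norm_eq_abs]
      have h7 : ∑ j, x j * v (f j) t + l * v (.ext n (NN p) f) t
          = -l * (∑ j, y j * v (f j) t - v (.ext n (NN p) f) t) := by
        rw [mul_sub, Finset.mul_sum]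
        have : ∀ j, -l * (y j * v (f j) t) = x j * v (f j) t := by
          intro j
          rw [hy]
          field_simp
        simp only [this]
        ring
      rw [h6, h7, abs_mul, abs_neg]
      exact mul_le_mul_of_nonneg_left h5 (abs_nonneg l)
  · -- a norming functional on the extension
    obtain ⟨ψ, hψ1, hψ2⟩ := exists_dominated p (x, l)
    set k : Fin n → ℝ := fun j => ψ (Pi.single j 1, 0) with hk
    have hψx : ∀ y : Fin n → ℝ, ψ (y, 0) = ∑ j, y j * k j := by
      intro y
      have h1 : ((y, 0) : (Fin n → ℝ) × ℝ) = ∑ j, y j • ((Pi.single j 1, 0) : (Fin n → ℝ) × ℝ) := by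
        ext i
        · rw [Prod.fst_sum, Finset.sum_apply]
          simp [Pi.single_apply]
        · rw [Prod.snd_sum]
          simp
      rw [h1, map_sum]
      exact Finset.sum_congr rfl fun j _ => by rw [map_smul, smul_eq_mul]
    have hadm : ∀ y : Fin n → ℝ, |∑ j, y j * k j| ≤ p (y, 0) := by
      intro y
      rw [← hψx]; exact hψ1 _
    -- the functional on the span of the `v (f j)`
    obtain ⟨φ, hφ1, hφ2⟩ : ∃ φ : StrongDual ℝ B, ‖φ‖ ≤ 1 ∧ ∀ j, φ (v (f j)) = k j := by
      let A : (Fin n → ℝ) →ₗ[ℝ] B :=
        { toFun := fun y => ∑ j, y j • v (f j)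
          map_add' := fun y z => by
            rw [← Finset.sum_add_distrib]
            exact Finset.sum_congr rfl fun j _ => by rw [Pi.add_apply, add_smul]
          map_smul' := fun c y => by
            rw [RingHom.id_apply, Finset.smul_sum]
            exact Finset.sum_congr rfl fun j _ => by
              rw [Pi.smul_apply, smul_eq_mul, mul_smul] }
      have hA : ∀ y, A y = ∑ j, y j • v (f j) := fun _ => rfl
      have hAinj : Function.Injective A := by
        rw [← LinearMap.ker_eq_bot, LinearMap.ker_eq_bot']
        intro y hy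
        obtain ⟨C, hC⟩ := hC
        ext j
        have := hC y j
        rw [← hA, hy, norm_zero, mul_zero] at this
        exact abs_nonpos_iff.1 this
      let e := LinearEquiv.ofInjective A hAinj
      let φ0 : LinearMap.range A →ₗ[ℝ] ℝ :=
        { toFun := fun z => ∑ j, (e.symm z) j * k j
          map_add' := fun z w => by
            rw [map_add, ← Finset.sum_add_distrib]
            exact Finset.sum_congr rfl fun j _ => by rw [Pi.add_apply, add_mul]
          map_smul' := fun c z => by
            rw [map_smul, RingHom.id_apply, smul_eq_mul, Finset.mul_sum]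
            exact Finset.sum_congr rfl fun j _ => by rw [Pi.smul_apply, smul_eq_mul, mul_assoc] }
      have hφ0 : ∀ z, ‖φ0 z‖ ≤ 1 * ‖z‖ := by
        intro z
        rw [one_mul]
        refine (hadm (e.symm z)).trans (le_of_eq ?_)
        rw [hp, ← hA]
        have : A (e.symm z) = (z : B) := by
          have h1 := LinearEquiv.ofInjective_apply (h := hAinj) A (e.symm z)
          rw [← h1]
          exact congrArg Subtype.val (e.apply_symm_apply z)
        rw [this]; rfl
      obtain ⟨φ, hφ1, hφ2⟩ := exists_extension_norm_eq (LinearMap.range A)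
        (φ0.mkContinuous 1 hφ0)
      refine ⟨φ, ?_, fun j => ?_⟩
      · rw [hφ2]; exact LinearMap.mkContinuous_norm_le _ zero_le_one _
      · have h1 : v (f j) = A (Pi.single j 1) := by
          rw [hA, Finset.sum_eq_single j]
          · simp
          · intro i _ hi
            rw [Pi.single_eq_of_ne hi, zero_smul]
          · intro h; exact absurd (Finset.mem_univ j) h
        have h2 : (⟨v (f j), by rw [h1]; exact ⟨_, rfl⟩⟩ : LinearMap.range A) = e (Pi.single j 1) := by
          apply Subtype.ext
          rw [LinearEquiv.ofInjective_apply]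
          exact h1
        have h3 := hφ1 (e (Pi.single j 1))
        rw [← h2] at h3
        rw [h3]
        show ∑ i, (e.symm (⟨v (f j), _⟩ : LinearMap.range A)) i * k i = k j
        rw [h2, e.symm_apply_apply, Finset.sum_eq_single j]
        · simp
        · intro i _ hi
          rw [Pi.single_eq_of_ne hi, zero_mul]
        · intro h; exact absurd (Finset.mem_univ j) h
    obtain ⟨t, ht⟩ := exists_point φ hφ1
    have htk : (fun j => v (f j) t) = k := funext fun j => by rw [ht, hφ2]
    -- the value at the new vector
    set c : ℝ := ψ (0, 1) with hc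
    have hψxl : ψ (x, l) = ∑ j, x j * k j + l * c := by
      have : ((x, l) : (Fin n → ℝ) × ℝ) = (x, 0) + l • (0, 1) := by
        ext i <;> simp
      rw [this, map_add, map_smul, hψx, smul_eq_mul]
    have hq : ∀ q : Fin n → ℚ, |∑ j, (q j : ℝ) * k j - c| ≤ NN p q := by
      intro q
      have h1 : ∑ j, (q j : ℝ) * k j - c = ψ (fun j => (q j : ℝ), -1) := by
        have : ((fun j => (q j : ℝ), -1) : (Fin n → ℝ) × ℝ)
            = (fun j => (q j : ℝ), 0) - (0, 1) := by
          ext i <;> simp
        rw [this, map_sub, hψx]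
      rw [h1]
      exact hψ1 _
    have h1 : lo (NN p) k ≤ c := ciSup_le fun q => by
      have := (abs_le.1 (hq q)).2
      linarith
    have h2 : c ≤ hi (NN p) k := le_ciInf fun q => by
      have := (abs_le.1 (hq q)).1
      linarith
    obtain ⟨τ, hτ⟩ : ∃ τ : Set.Icc (0 : ℝ) 1,
        lo (NN p) k + (τ : ℝ) * (hi (NN p) k - lo (NN p) k) = c := by
      rcases (h1.trans h2).eq_or_lt with h3 | h3
      · refine ⟨⟨0, by simp⟩, ?_⟩
        simp only [zero_mul, add_zero]
        linarith
      · refine ⟨⟨(c - lo (NN p) k) / (hi (NN p) k - lo (NN p) k), ?_, ?_⟩, ?_⟩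
        · exact div_nonneg (by linarith) (by linarith)
        · rw [div_le_one (by linarith)]; linarith
        · show _ + (c - lo (NN p) k) / (hi (NN p) k - lo (NN p) k) * _ = _
          rw [div_mul_cancel₀ _ (by linarith : hi (NN p) k - lo (NN p) k ≠ 0)]
          ring
    set c₀ : Code := .ext n (NN p) f with hc₀
    set t' : T := (t.1, Function.update t.2 c₀ τ) with ht'
    have h3 : ∀ j, v (f j) t' = k j := by
      intro j
      rw [ht', v_update c₀ t τ (f j) (rk_lt _ f j)]
      exact congrFun htk j
    have h4 : v c₀ t' = c := by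
      rw [hc₀, v_ext hv]
      have h5 : (fun j => v (f j) t') = k := funext h3
      have h6 : t'.2 (.ext n (NN p) f) = τ := by
        rw [ht']
        exact Function.update_self c₀ τ t.2
      rw [h5, h6, hτ]
    have h5 : (∑ j, x j • v (f j) + l • v c₀) t' = p (x, l) := by
      rw [hval, h4, ← hψ2, hψxl]
      congr 1
      exact Finset.sum_congr rfl fun j _ => by rw [h3]
    rw [← h5]
    exact (le_abs_self _).trans (abs_apply_le _ _)

end Ext

end Q98.HG
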