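import Pool.Agent.Q98.HG3

/-! Countably many evaluations separate the points of the space. -/

set_option autoImplicit false

open Filter Topology

open scoped ENNReal

namespace Q98.HG

open Q98.SG (lo hi tendsto_lo hi_eq_neg_lo)

/-- **Continuity at the points which define functionals of norm less than one.** -/
theorem continuousAt_v (β : T0) {t₀ : Sp} {r : ℝ} (hr : r < 1)
    (ht₀ : ∀ c, |v c (β, t₀)| ≤ r * ‖v c‖) (c : Code) :
    ContinuousAt (fun t : Sp => v c (β, t)) t₀ := by
  induction c with
  | atom γ =>
    have e : (fun t : Sp => v (.atom γ) (β, t)) = fun _ => β.1 γ := by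
      funext t
      rw [v_atom]
    rw [e]
    exact continuousAt_const
  | lin a b c d ihc ihd =>
    have e : (fun t : Sp => v (.lin a b c d) (β, t)) = fun t => a * v c (β, t) + b * v d (β, t) := by
      funext t
      rw [v, lp.coeFn_add, Pi.add_apply, lp.coeFn_smul, lp.coeFn_smul]
      rfl
    rw [e]
    exact (ihc.const_mul a).add (ihd.const_mul b)
  | lim f ih =>
    by_cases hc : CauchySeq (fun i => v (f i))
    · have h1 : Tendsto (fun i => v (f i)) atTop (𝓝 (v (.lim f))) := by
        rw [v, if_pos hc]
        exact hc.tendsto_limUnder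
      rw [Metric.continuousAt_iff'] 
      intro ε hε
      obtain ⟨i, hi⟩ := (Metric.tendsto_atTop.1 h1 (ε / 3) (by positivity))
      have h2 := hi i le_rfl
      rw [dist_eq_norm] at h2
      have h3 : ∀ t : Sp, |v (f i) (β, t) - v (.lim f) (β, t)| < ε / 3 := by
        intro t
        have := abs_apply_le (v (f i) - v (.lim f)) (β, t)
        rw [lp.coeFn_sub, Pi.sub_apply] at this
        exact this.trans_lt h2
      filter_upwards [Metric.continuousAt_iff'.1 (ih i) (ε / 3) (by positivity)] with t ht
      rw [Real.dist_eq] at ht ⊢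
      have h4 := h3 t
      have h5 := h3 t₀
      rw [abs_lt] at *
      constructor <;> linarith
    · have e : (fun t : Sp => v (.lim f) (β, t)) = fun _ => 0 := by
        funext t
        rw [v, if_neg hc, lp.coeFn_zero, Pi.zero_apply]
      rw [e]
      exact continuousAt_const
  | ext n N f ih =>
    by_cases hv : Valid n N (fun j => v (f j))
    · have hv0 := hv
      obtain ⟨p, hp, hN, C, hC⟩ := hv
      have hC' : ∀ (x : Fin n → ℝ) j, |x j| ≤ C * p (x, 0) := by
        intro x j
        rw [hp]; exact hC x j
      -- functionals at `t₀` on the span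
      have hk₀ : ∀ x : Fin n → ℝ, |∑ j, x j * v (f j) (β, t₀)| ≤ r * p (x, 0) := by
        intro x
        rw [← comb_apply, hp]
        have hmem : (∑ j, x j • v (f j)) ∈ Xs :=
          Submodule.sum_mem _ fun j _ => Submodule.smul_mem _ _ (mem_Xs _)
        obtain ⟨c, hc⟩ := hmem
        rw [← hc]
        exact ht₀ c
      have hlo : Tendsto (fun t : Sp => lo N (fun j => v (f j) (β, t))) (𝓝 t₀)
          (𝓝 (lo N (fun j => v (f j) (β, t₀)))) :=
        tendsto_lo hN hC' hr hk₀ (fun t => adm_apply hp (β, t)) (fun j => ih j)
      have hhi : Tendsto (fun t : Sp => hi N (fun j => v (f j) (β, t))) (𝓝 t₀)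
          (𝓝 (hi N (fun j => v (f j) (β, t₀)))) := by
        simp only [hi_eq_neg_lo]
        refine Tendsto.neg ?_
        refine tendsto_lo hN hC' hr (fun x => ?_) (fun t x => ?_) (fun j => (ih j).neg)
        · have := hk₀ x
          simp only [mul_neg, Finset.sum_neg_distrib, abs_neg]
          exact this
        · have := adm_apply hp (β, t) x
          simp only [mul_neg, Finset.sum_neg_distrib, abs_neg]
          exact this
      have e : (fun t : Sp => v (.ext n N f) (β, t)) = fun t => lo N (fun j => v (f j) (β, t)) +
          (t (.ext n N f) : ℝ) * (hi N (fun j => v (f j) (β, t)) -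
            lo N (fun j => v (f j) (β, t))) := by
        funext t
        exact v_ext hv0 (β, t)
      rw [e]
      have hcoord : Tendsto (fun t : Sp => ((t (.ext n N f)) : ℝ)) (𝓝 t₀)
          (𝓝 ((t₀ (.ext n N f)) : ℝ)) :=
        (continuous_subtype_val.comp (continuous_apply _)).tendsto t₀
      exact hlo.add (hcoord.mul (hhi.sub hlo))
    · have e : (fun t : Sp => v (.ext n N f) (β, t)) = fun _ => 0 := by
        funext t
        rw [v, if_neg hv, lp.coeFn_zero, Pi.zero_apply]
      rw [e]
      exact continuousAt_const

end Q98.HG
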