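import Pool.Agent.Q98.HG5

/-! The isometries of the space do not map the atoms to the free vector. -/

set_option autoImplicit false

open Filter Topology Cardinal

open scoped ENNReal

namespace Q98.HG

open Q98.SG (lo hi)

/-- the code of the free vector -/
def cy : Code := .ext 0 (fun _ => 1) Fin.elim0

lemma valid_cy : Valid 0 (fun _ => 1) (fun j : Fin 0 => v (Fin.elim0 j : Code)) := by
  refine ⟨(normSeminorm ℝ ℝ).comp (LinearMap.snd ℝ (Fin 0 → ℝ) ℝ), ?_, ?_, 0, ?_⟩
  · intro x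
    show ‖(0:ℝ)‖ = _
    simp
  · intro q
    show ‖(-1:ℝ)‖ = 1
    simp
  · intro x j
    exact j.elim0

lemma cy_apply (t : T) : v cy t = 2 * (t.2 cy : ℝ) - 1 := by
  have h := v_ext (n := 0) (N := fun _ => 1) (f := Fin.elim0) valid_cy t
  have h1 : lo (n := 0) (fun _ => 1) (fun j => v (Fin.elim0 j : Code) t) = -1 := by
    unfold lo
    simp
  have h2 : hi (n := 0) (fun _ => 1) (fun j => v (Fin.elim0 j : Code) t) = 1 := by
    unfold hi
    simp
  rw [h1, h2] at h
  unfold cy
  rw [h]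
  ring

lemma norm_cy : ‖v cy‖ = 1 := by
  apply le_antisymm
  · refine lp.norm_le_of_forall_le zero_le_one fun t => ?_
    rw [cy_apply, Real.norm_eq_abs, abs_le]
    have h1 := (t.2 cy).2.1
    have h2 := (t.2 cy).2.2
    constructor <;> linarith
  · have h := abs_apply_le (v cy) (zero0, fun _ => ⟨1, by simp⟩)
    rw [cy_apply] at h
    norm_num at h
    exact h

/-- the elements of the span of the atoms do not depend on the parameters -/
lemma ZZ_indep {w : B} (hw : w ∈ ZZ) (b : T0) (s s' : Sp) : w (b, s) = w (b, s') := by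
  have hcl : IsClosed {w : B | w (b, s) = w (b, s')} := by
    have h1 : ∀ t : T, Continuous fun w : B => w t := by
      intro t
      refine (LipschitzWith.of_dist_le_mul (K := 1) fun w w' => ?_).continuous
      rw [NNReal.coe_one, one_mul, Real.dist_eq, dist_eq_norm]
      have := abs_apply_le (w - w') t
      rwa [lp.coeFn_sub, Pi.sub_apply] at this
    exact isClosed_eq (h1 _) (h1 _)
  have hsub : (Submodule.span ℝ (Set.range fun γ : ℝ => v (.atom γ)) : Set B) ⊆
      {w : B | w (b, s) = w (b, s')} := by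
    intro w hw
    induction hw using Submodule.span_induction with
    | mem x hx =>
      obtain ⟨γ, rfl⟩ := hx
      show v (.atom γ) (b, s) = v (.atom γ) (b, s')
      rw [v_atom, v_atom]
    | zero => rfl
    | add x y _ _ hx hy =>
      show (x + y) (b, s) = (x + y) (b, s')
      rw [lp.coeFn_add, Pi.add_apply, Pi.add_apply]
      exact congrArg₂ _ hx hy
    | smul a x _ hx =>
      show (a • x) (b, s) = (a • x) (b, s')
      rw [lp.coeFn_smul, Pi.smul_apply, Pi.smul_apply]
      exact congrArg _ hx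
  exact closure_minimal hsub hcl hw

/-- the free vector is far from the span of the atoms -/
lemma norm_add_cy {w : B} (hw : w ∈ ZZ) (h1 : ‖w‖ = 1) : 1 < ‖w + v cy‖ := by
  classical
  obtain ⟨t, ht⟩ : ∃ t : T, 1 / 2 < |w t| := by
    by_contra hcon
    push Not at hcon
    have : ‖w‖ ≤ 1 / 2 := lp.norm_le_of_forall_le (by norm_num) fun t => hcon t
    rw [h1] at this
    norm_num at this
  have key : ∀ τ : Set.Icc (0:ℝ) 1, |w t + (2 * (τ:ℝ) - 1)| ≤ ‖w + v cy‖ := by
    intro τ
    have h2 := abs_apply_le (w + v cy) (t.1, fun _ => τ)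
    rw [lp.coeFn_add, Pi.add_apply, cy_apply, ZZ_indep hw t.1 (fun _ => τ) t.2] at h2
    exact h2
  rcases le_total 0 (w t) with h2 | h2
  · have h3 := key ⟨1, by simp⟩
    rw [abs_of_nonneg h2] at ht
    have h4 := le_abs_self (w t + (2 * ((⟨1, by simp⟩ : Set.Icc (0:ℝ) 1) : ℝ) - 1))
    have h5 : ((⟨1, by simp⟩ : Set.Icc (0:ℝ) 1) : ℝ) = 1 := rfl
    rw [h5] at h3 h4
    linarith
  · have h3 := key ⟨0, by simp⟩
    rw [abs_of_nonpos h2] at ht
    have h4 := neg_le_abs (w t + (2 * ((⟨0, by simp⟩ : Set.Icc (0:ℝ) 1) : ℝ) - 1))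
    have h5 : ((⟨0, by simp⟩ : Set.Icc (0:ℝ) 1) : ℝ) = 0 := rfl
    rw [h5] at h3 h4
    linarith

lemma norm_atom (γ : ℝ) : ‖v (.atom γ)‖ = 1 := by
  classical
  apply le_antisymm
  · have := norm_atoms_le {γ} (fun _ => 1) (fun _ => by simp)
    simpa using this
  · have hb : ∀ F : Finset ℝ, ∑ γ' ∈ F, |(if γ' = γ then (1:ℝ) else 0)| ≤ 1 := by
      intro F
      have : ∀ γ', |(if γ' = γ then (1:ℝ) else 0)| = if γ' = γ then (1:ℝ) else 0 := by
        intro γ'
        split_ifs <;> simp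
      simp only [this]
      rw [Finset.sum_ite_eq' F γ]
      split_ifs <;> simp
    have h := abs_apply_le (v (.atom γ))
      ((⟨fun γ' => if γ' = γ then (1:ℝ) else 0, hb⟩ : T0), fun _ => ⟨1, by simp⟩)
    rw [v_atom] at h
    simpa using h

/-- an atom in the space -/
noncomputable def at' (γ : ℝ) : Xs := ⟨v (.atom γ), mem_Xs _⟩

/-- the free vector in the space -/
noncomputable def yy : Xs := ⟨v cy, mem_Xs _⟩

/-- **No isometry of the space into itself maps an atom to the free vector.** -/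
theorem no_isometry (U : Xs →ₗᵢ[ℝ] Xs) (γ₀ : ℝ) (hU : U (at' γ₀) = yy) : False := by
  classical
  obtain ⟨s, hs⟩ := exists_total
  -- the evaluations
  have hev : ∀ n (F : Finset ℝ), ∑ γ ∈ F, |(U (at' γ) : B) (zero0, s n)| ≤ 1 := by
    intro n F
    let ε : ℝ → ℝ := fun γ => if 0 ≤ (U (at' γ) : B) (zero0, s n) then 1 else -1
    have h1 : ∑ γ ∈ F, |(U (at' γ) : B) (zero0, s n)| =
        (U (∑ γ ∈ F, ε γ • at' γ) : B) (zero0, s n) := by
      rw [map_sum, Submodule.coe_sum, lp.coeFn_sum, Finset.sum_apply]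
      refine Finset.sum_congr rfl fun γ _ => ?_
      rw [map_smul, Submodule.coe_smul, lp.coeFn_smul, Pi.smul_apply, smul_eq_mul]
      show _ = (if 0 ≤ (U (at' γ) : B) (zero0, s n) then (1:ℝ) else -1) * _
      split_ifs with h
      · rw [abs_of_nonneg h, one_mul]
      · rw [abs_of_neg (not_le.1 h), neg_one_mul]
    rw [h1]
    refine (le_abs_self _).trans ((abs_apply_le _ _).trans ?_)
    have h2 : ‖(U (∑ γ ∈ F, ε γ • at' γ) : B)‖ = ‖∑ γ ∈ F, ε γ • at' γ‖ := U.norm_map _
    rw [h2]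
    have h3 : ‖∑ γ ∈ F, ε γ • at' γ‖ = ‖∑ γ ∈ F, ε γ • v (.atom γ)‖ := by
      have : ((∑ γ ∈ F, ε γ • at' γ : Xs) : B) = ∑ γ ∈ F, ε γ • v (.atom γ) := by
        rw [Submodule.coe_sum]
        rfl
      rw [← this]
      rfl
    rw [h3]
    refine norm_atoms_le F ε fun γ => ?_
    show |(if 0 ≤ (U (at' γ) : B) (zero0, s n) then (1:ℝ) else -1)| ≤ 1
    split_ifs <;> simp
  have hcount : ∀ n, (Function.support fun γ : ℝ => |(U (at' γ) : B) (zero0, s n)|).Countable :=
    fun n => (summable_of_sum_le (fun _ => abs_nonneg _) (hev n)).countable_support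
  obtain ⟨γ, hγ⟩ : ∃ γ : ℝ, γ ∉ (⋃ n, Function.support fun γ : ℝ =>
      |(U (at' γ) : B) (zero0, s n)|) ∪ {γ₀} := by
    by_contra hcon
    push Not at hcon
    have h1 : (Set.univ : Set ℝ).Countable :=
      ((Set.countable_iUnion hcount).union (Set.countable_singleton γ₀)).mono
        fun γ _ => hcon γ
    exact not_countable (Set.countable_univ_iff.1 h1)
  simp only [Set.mem_union, Set.mem_iUnion, Function.mem_support, Set.mem_singleton_iff,
    not_or, not_exists, not_not, abs_eq_zero] at hγ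
  obtain ⟨h1, h2⟩ := hγ
  have h3 : (U (at' γ) : B) ∈ ZZ := hs _ (U (at' γ)).2 h1
  have h4 : ‖(U (at' γ) : B)‖ = 1 := by
    have : ‖(U (at' γ) : B)‖ = ‖at' γ‖ := U.norm_map _
    rw [this]
    exact norm_atom γ
  have h5 := norm_add_cy h3 h4
  have h6 : ‖(U (at' γ) : B) + v cy‖ = ‖at' γ + at' γ₀‖ := by
    have h7 : ‖U (at' γ + at' γ₀)‖ = ‖at' γ + at' γ₀‖ := U.norm_map _
    rw [← h7, map_add, hU]
    rfl
  have h8 : ‖at' γ + at' γ₀‖ ≤ 1 := by
    have h9 := norm_atoms_le {γ, γ₀} (fun _ => 1) (fun _ => by simp)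
    rw [Finset.sum_pair h2, one_smul, one_smul] at h9
    exact h9
  rw [h6] at h5
  linarith

/-- the space is not homogeneous, even with respect to its lines -/
theorem not_homogeneous : ∃ (E F : Submodule ℝ Xs) (h : E ≃ₗᵢ[ℝ] F),
    FiniteDimensional ℝ E ∧ FiniteDimensional ℝ F ∧
    ∀ U : Xs →ₗᵢ[ℝ] Xs, ¬ ∀ e : E, U e = h e := by
  have hx : ‖at' 0‖ = 1 := norm_atom 0
  have hy : ‖yy‖ = 1 := norm_cy
  refine ⟨Submodule.span ℝ {at' 0}, Submodule.span ℝ {yy},
    (LinearIsometryEquiv.toSpanUnitSingleton (at' 0) hx).symm.trans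
      (LinearIsometryEquiv.toSpanUnitSingleton yy hy), inferInstance, inferInstance, ?_⟩
  intro U hU
  refine no_isometry U 0 ?_
  have h1 := hU ⟨at' 0, Submodule.mem_span_singleton_self _⟩
  have h2 : (LinearIsometryEquiv.toSpanUnitSingleton (𝕜 := ℝ) (at' 0) hx).symm
      ⟨at' 0, Submodule.mem_span_singleton_self _⟩ = 1 := by
    rw [LinearIsometryEquiv.symm_apply_eq]
    apply Subtype.ext
    rw [LinearIsometryEquiv.toSpanUnitSingleton_apply]
    exact (one_smul _ _).symm
  rw [LinearIsometryEquiv.trans_apply, h2, LinearIsometryEquiv.toSpanUnitSingleton_apply] at h1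
  rw [h1]
  exact one_smul _ _

end Q98.HG
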