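import Mathlib

set_option autoImplicit false
set_option linter.unusedSectionVars false

open Filter Topology

namespace Q98.JN

/-- Dependent recursive choice. -/
theorem exists_seq_dep {σ : Type*} (P : ℕ → σ → Prop) (R : ℕ → σ → σ → Prop) (s0 : σ)
    (h0 : P 0 s0) (h : ∀ m s, P m s → ∃ s', P (m + 1) s' ∧ R m s s') :
    ∃ s : ℕ → σ, s 0 = s0 ∧ ∀ m, P m (s m) ∧ R m (s m) (s (m + 1)) := by
  classical
  choose! nxt hn1 hn2 using h
  set s : ℕ → σ := fun m => Nat.rec s0 (fun m s => nxt m s) m with hs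
  have hs0 : s 0 = s0 := rfl
  have hss : ∀ m, s (m + 1) = nxt m (s m) := fun m => rfl
  have hP : ∀ m, P m (s m) := by
    intro m
    induction m with
    | zero => exact h0
    | succ m ih => rw [hss]; exact hn1 m _ ih
  exact ⟨s, hs0, fun m => ⟨hP m, by rw [hss]; exact hn2 m _ (hP m)⟩⟩

variable {E : Type*} [NormedAddCommGroup E] [NormedSpace ℝ E]

/-- Decreasing sequences of nonempty convex subsets of the dual ball. -/
structure CS (C : ℕ → Set (StrongDual ℝ E)) : Prop where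
  anti : Antitone C
  ne : ∀ n, (C n).Nonempty
  cvx : ∀ n, Convex ℝ (C n)
  bdd : ∀ n, ∀ h ∈ C n, ‖h‖ ≤ 1

/-- asymptotic oscillation at most `r` on the unit ball -/
def Osc (C : ℕ → Set (StrongDual ℝ E)) (r : ℝ) : Prop :=
  ∀ x : E, ‖x‖ ≤ 1 → ∃ j, ∀ h ∈ C j, ∀ h' ∈ C j, h x - h' x ≤ r

lemma Osc.mono {C : ℕ → Set (StrongDual ℝ E)} {r r' : ℝ} (h : Osc C r) (hr : r ≤ r') :
    Osc C r' := by
  intro x hx
  obtain ⟨j, hj⟩ := h x hx
  exact ⟨j, fun a ha b hb => (hj a ha b hb).trans hr⟩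

lemma Osc.sub {C D : ℕ → Set (StrongDual ℝ E)} {r : ℝ} (h : Osc C r) (hD : ∀ n, D n ⊆ C n) :
    Osc D r := by
  intro x hx
  obtain ⟨j, hj⟩ := h x hx
  exact ⟨j, fun a ha b hb => hj a (hD j ha) b (hD j hb)⟩

lemma Osc.of_tail {D : ℕ → Set (StrongDual ℝ E)} {r : ℝ} (k : ℕ)
    (h : Osc (fun n => D (max n k)) r) : Osc D r := by
  intro x hx
  obtain ⟨j, hj⟩ := h x hx
  exact ⟨max j k, hj⟩

lemma Osc.tail {D : ℕ → Set (StrongDual ℝ E)} (hD : Antitone D) {r : ℝ} (k : ℕ)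
    (h : Osc D r) : Osc (fun n => D (max n k)) r := h.sub fun n => hD (le_max_left n k)

lemma CS.tail {D : ℕ → Set (StrongDual ℝ E)} (hD : CS D) (k : ℕ) :
    CS (fun n => D (max n k)) :=
  ⟨fun a b hab => hD.anti (max_le_max_right k hab), fun n => hD.ne _, fun n => hD.cvx _,
    fun n => hD.bdd _⟩

lemma CS.osc_two {C : ℕ → Set (StrongDual ℝ E)} (hC : CS C) : Osc C 2 := by
  intro x hx
  refine ⟨0, fun a ha b hb => ?_⟩
  have h1 := hC.bdd 0 a ha
  have h2 := hC.bdd 0 b hb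
  have h3 : |a x| ≤ 1 := by
    have := a.le_opNorm x
    rw [Real.norm_eq_abs] at this
    calc |a x| ≤ ‖a‖ * ‖x‖ := this
      _ ≤ 1 * 1 := by gcongr
      _ = 1 := one_mul _
  have h4 : |b x| ≤ 1 := by
    have := b.le_opNorm x
    rw [Real.norm_eq_abs] at this
    calc |b x| ≤ ‖b‖ * ‖x‖ := this
      _ ≤ 1 * 1 := by gcongr
      _ = 1 := one_mul _
  rw [abs_le] at h3 h4
  linarith

/-- Stabilization of the oscillation. -/
theorem stab (C0 : ℕ → Set (StrongDual ℝ E)) (h0 : CS C0) :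
    ∃ (C : ℕ → Set (StrongDual ℝ E)) (δ : ℝ), CS C ∧ (∀ n, C n ⊆ C0 n) ∧ 0 ≤ δ ∧
      (∀ κ : ℝ, 0 < κ → Osc C (δ + κ)) ∧
      ∀ D : ℕ → Set (StrongDual ℝ E), CS D → (∀ n, D n ⊆ C n) → ∀ κ : ℝ, 0 < κ →
        ¬ Osc D (δ - κ) := by
  classical
  set RR : (ℕ → Set (StrongDual ℝ E)) → Set ℝ := fun C =>
    {r | 0 ≤ r ∧ ∃ D, CS D ∧ (∀ n, D n ⊆ C n) ∧ Osc D r} with hRR
  set m : (ℕ → Set (StrongDual ℝ E)) → ℝ := fun C => sInf (RR C) with hm
  have hbb : ∀ C, BddBelow (RR C) := fun C => ⟨0, fun r hr => hr.1⟩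
  have h2 : ∀ C, CS C → (2:ℝ) ∈ RR C := fun C hC => ⟨zero_le_two, C, hC, fun n => subset_rfl,
    hC.osc_two⟩
  have hm0 : ∀ C, CS C → 0 ≤ m C := fun C hC => le_csInf ⟨2, h2 C hC⟩ fun r hr => hr.1
  have hm2 : ∀ C, CS C → m C ≤ 2 := fun C hC => csInf_le (hbb C) (h2 C hC)
  obtain ⟨s, hs0, hs⟩ := exists_seq_dep (fun _ C => CS C)
    (fun k C C' => (∀ n, C' n ⊆ C n) ∧ Osc C' (m C + 1 / ((k : ℝ) + 1))) C0 h0 (by
      intro k C hC
      obtain ⟨r, hr, hlt⟩ := exists_lt_of_csInf_lt ⟨2, h2 C hC⟩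
        (show sInf (RR C) < m C + 1 / ((k : ℝ) + 1) by
          have : (0:ℝ) < 1 / ((k : ℝ) + 1) := by positivity
          show m C < _
          linarith)
      obtain ⟨_, D, hD, hDC, hOsc⟩ := hr
      exact ⟨D, hD, hDC, hOsc.mono hlt.le⟩)
  have hCS : ∀ k, CS (s k) := fun k => (hs k).1
  have hmono : ∀ k l, k ≤ l → ∀ n, s l n ⊆ s k n := by
    intro k l hkl
    induction l, hkl using Nat.le_induction with
    | base => exact fun n => subset_rfl
    | succ l _ ih => exact fun n => ((hs l).2.1 n).trans (ih n)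
  set C : ℕ → Set (StrongDual ℝ E) := fun n => s n n with hC
  have hCk : ∀ k n, C (max n k) ⊆ s k n := by
    intro k n
    exact (hmono k (max n k) (le_max_right _ _) _).trans ((hCS k).anti (le_max_left n k))
  have hCCS : CS C := by
    refine ⟨?_, fun n => (hCS n).ne n, fun n => (hCS n).cvx n, fun n => (hCS n).bdd n⟩
    intro a b hab
    exact (hmono a b hab b).trans ((hCS a).anti hab)
  have hbdd : BddAbove (Set.range fun k => m (s k)) := by
    refine ⟨2, ?_⟩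
    rintro _ ⟨k, rfl⟩
    exact hm2 _ (hCS k)
  refine ⟨C, ⨆ k, m (s k), hCCS, ?_, ?_, ?_, ?_⟩
  · intro n
    have := hmono 0 n (Nat.zero_le n) n
    rw [hs0] at this
    exact this
  · exact (hm0 _ (hCS 0)).trans (le_ciSup hbdd 0)
  · intro κ hκ
    obtain ⟨k, hk⟩ := exists_nat_one_div_lt hκ
    have h1 : Osc (s (k + 1)) (m (s k) + 1 / ((k : ℝ) + 1)) := (hs k).2.2
    have h3 : Osc (fun n => C (max n (k + 1))) (m (s k) + 1 / ((k : ℝ) + 1)) :=
      h1.sub (hCk (k + 1))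
    refine (h3.of_tail (k + 1)).mono ?_
    have h5 : m (s k) ≤ ⨆ k, m (s k) := le_ciSup hbdd k
    linarith
  · intro D hD hDC κ hκ hOsc
    by_cases hneg : (⨆ k, m (s k)) - κ < 0
    · obtain ⟨j, hj⟩ := hOsc 0 (by simp)
      obtain ⟨h, hh⟩ := hD.ne j
      have := hj h hh h hh
      linarith
    · push Not at hneg
      have h1 : ∀ k, m (s k) ≤ (⨆ k, m (s k)) - κ := by
        intro k
        apply csInf_le (hbb _)
        refine ⟨hneg, fun n => D (max n k), hD.tail k, fun n => ?_, hOsc.tail hD.anti k⟩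
        exact (hDC _).trans (hCk k n)
      have h3 := ciSup_le h1
      linarith

end Q98.JN
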