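import Mathlib
import Pool.Agent.Q98.JN1

set_option autoImplicit false
set_option linter.unusedSectionVars false

open Filter Topology

namespace Q98.JN

variable {E : Type*} [NormedAddCommGroup E] [NormedSpace ℝ E]

/-- half space condition -/
def cond (δ η : ℝ) (b : Bool) (h : StrongDual ℝ E) (p : E × ℝ) : Prop :=
  if b then p.2 - η < h p.1 else h p.1 < p.2 - δ + η

lemma cond_convex (δ η : ℝ) (b : Bool) (p : E × ℝ) :
    Convex ℝ {h : StrongDual ℝ E | cond δ η b h p} := by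
  intro h hh k hk a c ha hc hac
  cases b with
  | true =>
    have h1 : p.2 - η < h p.1 := by simpa [cond] using hh
    have h2 : p.2 - η < k p.1 := by simpa [cond] using hk
    show cond δ η true (a • h + c • k) p
    simp only [cond, if_true, add_apply, smul_apply, smul_eq_mul]
    have hc' : c = 1 - a := by linarith
    subst hc'
    rcases ha.eq_or_lt with h0 | h0
    · rw [← h0]; simpa using h2
    · nlinarith
  | false =>
    have h1 : h p.1 < p.2 - δ + η := by simpa [cond] using hh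
    have h2 : k p.1 < p.2 - δ + η := by simpa [cond] using hk
    show cond δ η false (a • h + c • k) p
    simp only [cond, add_apply, smul_apply, smul_eq_mul]
    rw [if_neg (by simp)]
    have hc' : c = 1 - a := by linarith
    subst hc'
    rcases ha.eq_or_lt with h0 | h0
    · rw [← h0]; simpa using h2
    · nlinarith

/-- good initial segments -/
def Good (C : ℕ → Set (StrongDual ℝ E)) (δ η : ℝ) (k : ℕ) (s : ℕ → E × ℝ) : Prop :=
  ∀ ε : ℕ → Bool, ∀ j, ∃ h ∈ C j, ∀ i < k, cond δ η (ε i) h (s i)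

/-- The extension step. -/
theorem step (C : ℕ → Set (StrongDual ℝ E)) (hC : CS C) (δ η : ℝ) (hη : 0 < η)
    (ha : ∀ κ : ℝ, 0 < κ → Osc C (δ + κ))
    (hb : ∀ D : ℕ → Set (StrongDual ℝ E), CS D → (∀ n, D n ⊆ C n) → ∀ κ : ℝ, 0 < κ →
        ¬ Osc D (δ - κ)) (k : ℕ) (s : ℕ → E × ℝ) (hs : Good C δ η k s) :
    ∃ p : E × ℝ, ‖p.1‖ ≤ 1 ∧ Good C δ η (k + 1) (Function.update s k p) := by
  classical
  -- nodes
  set N : (Fin k → Bool) → ℕ → Set (StrongDual ℝ E) := fun e j =>
    {h | h ∈ C j ∧ ∀ i : Fin k, cond δ η (e i) h (s i)} with hN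
  have hNne : ∀ e j, (N e j).Nonempty := by
    intro e j
    obtain ⟨h, hh, hc⟩ := hs (fun i => if hi : i < k then e ⟨i, hi⟩ else false) j
    refine ⟨h, hh, fun i => ?_⟩
    have := hc i i.2
    simpa using this
  have hNcv : ∀ e j, Convex ℝ (N e j) := by
    intro e j
    have : N e j = C j ∩ ⋂ i : Fin k, {h : StrongDual ℝ E | cond δ η (e i) h (s i)} := by
      ext h; simp [hN]
    rw [this]
    exact (hC.cvx j).inter (convex_iInter fun i => cond_convex δ η (e i) (s i))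
  have hNanti : ∀ e, Antitone (N e) := fun e a b hab h hh => ⟨hC.anti hab hh.1, hh.2⟩
  set K : ℝ := (Fintype.card (Fin k → Bool) : ℝ) with hK
  have hK1 : (1:ℝ) ≤ K := by
    have : 1 ≤ Fintype.card (Fin k → Bool) := Fintype.card_pos
    rw [hK]
    exact_mod_cast this
  set A : ℕ → Set (StrongDual ℝ E) := fun j =>
    {a | ∃ h : (Fin k → Bool) → StrongDual ℝ E, (∀ e, h e ∈ N e j) ∧ a = K⁻¹ • ∑ e, h e} with hA
  have hsumK : ∑ _e : Fin k → Bool, K⁻¹ = 1 := by
    rw [Finset.sum_const, Finset.card_univ, nsmul_eq_mul, ← hK, mul_inv_cancel₀ (by linarith)]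
  have hAC : ∀ j, A j ⊆ C j := by
    rintro j _ ⟨h, hh, rfl⟩
    rw [Finset.smul_sum]
    exact (hC.cvx j).sum_mem (fun _ _ => by positivity) hsumK (fun e _ => (hh e).1)
  have hACS : CS A := by
    refine ⟨?_, ?_, ?_, fun n h hh => hC.bdd n h (hAC n hh)⟩
    · rintro a b hab _ ⟨h, hh, rfl⟩
      exact ⟨h, fun e => hNanti e hab (hh e), rfl⟩
    · intro j
      choose h hh using fun e => hNne e j
      exact ⟨_, h, hh, rfl⟩
    · rintro j _ ⟨h, hh, rfl⟩ _ ⟨h', hh', rfl⟩ a c ha' hc' hac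
      refine ⟨fun e => a • h e + c • h' e, fun e => hNcv e j (hh e) (hh' e) ha' hc' hac, ?_⟩
      rw [Finset.sum_add_distrib, ← Finset.smul_sum, ← Finset.smul_sum, smul_add, smul_comm a,
        smul_comm c]
  set κ : ℝ := η / (2 * K + 1) with hκ
  have hκ0 : 0 < κ := by positivity
  have hκη : (2 * K + 1) * κ = η := by rw [hκ]; field_simp
  have hnot := hb A hACS hAC κ hκ0
  unfold Osc at hnot
  push Not at hnot
  obtain ⟨x, hx, hx2⟩ := hnot
  obtain ⟨j0, hj0⟩ := ha κ hκ0 x hx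
  have hbx : BddAbove ((fun h : StrongDual ℝ E => h x) '' C j0) := by
    refine ⟨1, ?_⟩
    rintro _ ⟨h, hh, rfl⟩
    have h1 := hC.bdd j0 h hh
    calc h x ≤ ‖h x‖ := le_abs_self _
      _ ≤ ‖h‖ * ‖x‖ := h.le_opNorm x
      _ ≤ 1 * 1 := by gcongr
      _ = 1 := one_mul _
  set P : ℝ := sSup ((fun h : StrongDual ℝ E => h x) '' C j0) with hP
  have hup : ∀ h ∈ C j0, h x ≤ P := fun h hh => le_csSup hbx ⟨h, hh, rfl⟩
  have hlow : ∀ h ∈ C j0, P - δ - κ ≤ h x := by
    intro h hh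
    have : P ≤ h x + (δ + κ) := by
      apply csSup_le (Set.Nonempty.image _ (hC.ne j0))
      rintro _ ⟨h', hh', rfl⟩
      have := hj0 h' hh' h hh
      linarith
    linarith
  refine ⟨(x, P), hx, ?_⟩
  intro ε j
  set J := max j j0
  obtain ⟨a, ⟨h, hh, rfl⟩, a', ⟨h', hh', rfl⟩, hlt⟩ := hx2 J
  have hCJ : ∀ e, h e ∈ C j0 ∧ h' e ∈ C j0 := fun e =>
    ⟨hC.anti (le_max_right j j0) (hh e).1, hC.anti (le_max_right j j0) (hh' e).1⟩
  have hle : ∀ e, h e x - h' e x ≤ δ + κ := fun e => hj0 _ (hCJ e).1 _ (hCJ e).2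
  have hsum : K * (δ - κ) < ∑ e, (h e x - h' e x) := by
    have h1 : (K⁻¹ • ∑ e, h e) x - (K⁻¹ • ∑ e, h' e) x = K⁻¹ * ∑ e, (h e x - h' e x) := by
      rw [Finset.sum_sub_distrib, mul_sub]
      simp [smul_apply]
    rw [h1, lt_inv_mul_iff₀ (by linarith)] at hlt
    exact hlt
  set e0 : Fin k → Bool := fun i => ε i with he0
  have hkey : δ - (2 * K - 1) * κ < h e0 x - h' e0 x := by
    have h1 : ∑ e, (h e x - h' e x) = (h e0 x - h' e0 x) +
        ∑ e ∈ Finset.univ.erase e0, (h e x - h' e x) :=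
      (Finset.add_sum_erase _ _ (Finset.mem_univ e0)).symm
    have h2 : ∑ e ∈ Finset.univ.erase e0, (h e x - h' e x) ≤ (K - 1) * (δ + κ) := by
      refine (Finset.sum_le_sum fun e _ => hle e).trans (le_of_eq ?_)
      rw [Finset.sum_const, Finset.card_erase_of_mem (Finset.mem_univ _), Finset.card_univ,
        nsmul_eq_mul, Nat.cast_sub Fintype.card_pos]
      simp [hK]
    rw [h1] at hsum
    nlinarith
  have h1 := (hlow _ (hCJ e0).2)
  have h2 := (hup _ (hCJ e0).1)
  by_cases hεk : ε k = true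
  · refine ⟨h e0, hC.anti (le_max_left j j0) (hh e0).1, fun i hi => ?_⟩
    rcases Nat.lt_succ_iff_lt_or_eq.1 hi with hi' | hi'
    · rw [Function.update_of_ne hi'.ne]
      exact (hh e0).2 ⟨i, hi'⟩
    · subst hi'
      rw [Function.update_self]
      unfold cond
      rw [if_pos hεk]
      show P - η < h e0 x
      nlinarith
  · refine ⟨h' e0, hC.anti (le_max_left j j0) (hh' e0).1, fun i hi => ?_⟩
    rcases Nat.lt_succ_iff_lt_or_eq.1 hi with hi' | hi'
    · rw [Function.update_of_ne hi'.ne]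
      exact (hh' e0).2 ⟨i, hi'⟩
    · subst hi'
      rw [Function.update_self]
      unfold cond
      rw [if_neg hεk]
      show h' e0 x < P - δ + η
      nlinarith

/-- The infinite tree. -/
theorem tree (C : ℕ → Set (StrongDual ℝ E)) (hC : CS C) (δ η : ℝ) (hη : 0 < η)
    (ha : ∀ κ : ℝ, 0 < κ → Osc C (δ + κ))
    (hb : ∀ D : ℕ → Set (StrongDual ℝ E), CS D → (∀ n, D n ⊆ C n) → ∀ κ : ℝ, 0 < κ →
        ¬ Osc D (δ - κ)) :
    ∃ t : ℕ → E × ℝ, (∀ i, ‖(t i).1‖ ≤ 1) ∧ ∀ k, Good C δ η k t := by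
  classical
  obtain ⟨s, _, hs⟩ := exists_seq_dep
    (fun k (s : ℕ → E × ℝ) => Good C δ η k s ∧ ∀ i < k, ‖(s i).1‖ ≤ 1)
    (fun k s s' => ∀ i < k, s' i = s i) (fun _ => 0) (by
      refine ⟨fun ε j => ?_, by simp⟩
      obtain ⟨h, hh⟩ := hC.ne j
      exact ⟨h, hh, by simp⟩) (by
      rintro k s ⟨hs1, hs2⟩
      obtain ⟨p, hp, hg⟩ := step C hC δ η hη ha hb k s hs1
      refine ⟨Function.update s k p, ⟨hg, fun i hi => ?_⟩, fun i hi => ?_⟩
      · rcases Nat.lt_succ_iff_lt_or_eq.1 hi with hi' | hi'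
        · rw [Function.update_of_ne hi'.ne]; exact hs2 i hi'
        · subst hi'; rw [Function.update_self]; exact hp
      · rw [Function.update_of_ne hi.ne])
  have hstab : ∀ k l, k ≤ l → ∀ i < k, s l i = s k i := by
    intro k l hkl
    induction l, hkl using Nat.le_induction with
    | base => exact fun i _ => rfl
    | succ l hl ih => exact fun i hi => ((hs l).2 i (lt_of_lt_of_le hi hl)).trans (ih i hi)
  refine ⟨fun i => s (i + 1) i, fun i => (hs (i + 1)).1.2 i (Nat.lt_succ_self i), fun k => ?_⟩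
  intro ε j
  obtain ⟨h, hh, hc⟩ := (hs k).1.1 ε j
  refine ⟨h, hh, fun i hi => ?_⟩
  show cond δ η (ε i) h (s (i + 1) i)
  rw [← hstab (i + 1) k hi i (Nat.lt_succ_self i)]
  exact hc i hi

end Q98.JN
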