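import Mathlib
import Pool.Agent.Q98.JN2

set_option autoImplicit false
set_option linter.unusedSectionVars false

open Filter Topology

namespace Q98.JN

section Bessel

variable {N : ℕ}

/-- Rademacher functions on the cube -/
def rad (e : Fin N → Bool) (n : Fin N) : ℝ := if e n then 1 else -1

lemma rad_sq (e : Fin N → Bool) (n : Fin N) : rad e n * rad e n = 1 := by
  unfold rad; split_ifs <;> norm_num

lemma sum_rad_mul (n m : Fin N) (hnm : n ≠ m) : ∑ e : Fin N → Bool, rad e n * rad e m = 0 := by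
  classical
  set σ : (Fin N → Bool) ≃ (Fin N → Bool) :=
    { toFun := fun e => Function.update e n (!e n)
      invFun := fun e => Function.update e n (!e n)
      left_inv := by
        intro e; funext i
        by_cases hi : i = n
        · subst hi; simp
        · simp [Function.update_of_ne hi]
      right_inv := by
        intro e; funext i
        by_cases hi : i = n
        · subst hi; simp
        · simp [Function.update_of_ne hi] } with hσ
  have h1 : ∑ e : Fin N → Bool, rad e n * rad e m = ∑ e, rad (σ e) n * rad (σ e) m :=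
    (Equiv.sum_comp σ fun e => rad e n * rad e m).symm
  have h2 : ∀ e, rad (σ e) n * rad (σ e) m = -(rad e n * rad e m) := by
    intro e
    have h3 : (σ e) n = !e n := by simp [hσ]
    have h4 : (σ e) m = e m := by
      simp only [hσ, Equiv.coe_fn_mk]
      rw [Function.update_of_ne hnm.symm]
    unfold rad
    rw [h3, h4]
    cases e n <;> cases e m <;> norm_num
  simp only [h2, Finset.sum_neg_distrib] at h1
  linarith

/-- Bessel's inequality on the cube. -/
theorem bessel (u : (Fin N → Bool) → ℝ) (B : ℝ) (hu : ∀ e, |u e| ≤ B) :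
    ∑ n, (((2:ℝ) ^ N)⁻¹ * ∑ e, rad e n * u e) ^ 2 ≤ B ^ 2 := by
  classical
  set c : Fin N → ℝ := fun n => ((2:ℝ) ^ N)⁻¹ * ∑ e, rad e n * u e with hc
  have hcard : (Finset.univ : Finset (Fin N → Bool)).card = 2 ^ N := by
    rw [Finset.card_univ]; simp
  have hpos : (0:ℝ) < 2 ^ N := by positivity
  have h0 : 0 ≤ ∑ e : Fin N → Bool, (u e - ∑ n, c n * rad e n) ^ 2 :=
    Finset.sum_nonneg fun e _ => sq_nonneg _
  have h1 : ∑ e : Fin N → Bool, (u e - ∑ n, c n * rad e n) ^ 2 =
      ∑ e, u e ^ 2 - 2 * (2 ^ N * ∑ n, c n ^ 2) + 2 ^ N * ∑ n, c n ^ 2 := by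
    have e1 : ∀ e : Fin N → Bool, (u e - ∑ n, c n * rad e n) ^ 2 = u e ^ 2 -
        2 * ∑ n, c n * (rad e n * u e) + ∑ n, ∑ m, c n * c m * (rad e n * rad e m) := by
      intro e
      have e2 : (∑ n, c n * rad e n) ^ 2 = ∑ n, ∑ m, c n * c m * (rad e n * rad e m) := by
        rw [sq, Finset.sum_mul_sum]
        apply Finset.sum_congr rfl; intro n _
        apply Finset.sum_congr rfl; intro m _
        ring
      have e3 : u e * ∑ n, c n * rad e n = ∑ n, c n * (rad e n * u e) := by
        rw [Finset.mul_sum]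
        apply Finset.sum_congr rfl; intro n _; ring
      rw [← e2, ← e3]; ring
    simp only [e1, Finset.sum_add_distrib, Finset.sum_sub_distrib]
    congr 1
    · congr 1
      rw [← Finset.mul_sum, Finset.sum_comm]
      congr 1
      rw [Finset.mul_sum]
      apply Finset.sum_congr rfl; intro n _
      rw [← Finset.mul_sum]
      have : ∑ e, rad e n * u e = 2 ^ N * c n := by
        simp only [hc]
        rw [← mul_assoc, mul_inv_cancel₀ hpos.ne', one_mul]
      rw [this]; ring
    · rw [Finset.sum_comm, Finset.mul_sum]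
      apply Finset.sum_congr rfl; intro n _
      rw [Finset.sum_comm]
      rw [Finset.sum_eq_single n]
      · rw [← Finset.mul_sum]
        simp only [rad_sq, Finset.sum_const, hcard, nsmul_eq_mul]
        push_cast
        ring
      · intro m _ hmn
        rw [← Finset.mul_sum, sum_rad_mul n m hmn.symm, mul_zero]
      · intro h; exact absurd (Finset.mem_univ n) h
  rw [h1] at h0
  have h2 : ∑ e : Fin N → Bool, u e ^ 2 ≤ 2 ^ N * B ^ 2 := by
    calc ∑ e : Fin N → Bool, u e ^ 2 ≤ ∑ _e : Fin N → Bool, B ^ 2 := by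
          apply Finset.sum_le_sum
          intro e _
          exact sq_le_sq' (abs_le.1 (hu e)).1 (abs_le.1 (hu e)).2
      _ = 2 ^ N * B ^ 2 := by rw [Finset.sum_const, hcard, nsmul_eq_mul]; push_cast; ring
  have h3 : (2:ℝ) ^ N * ∑ n, c n ^ 2 ≤ 2 ^ N * B ^ 2 := by linarith
  exact le_of_mul_le_mul_left h3 hpos

end Bessel

variable {E : Type*} [NormedAddCommGroup E] [NormedSpace ℝ E]

/-- A stable sequence of convex sets with positive oscillation yields a weak-star null sequence
which is bounded below in norm. -/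
theorem wstar_null_of_stable (C : ℕ → Set (StrongDual ℝ E)) (hC : CS C) (δ : ℝ) (hδ : 0 < δ)
    (ha : ∀ κ : ℝ, 0 < κ → Osc C (δ + κ))
    (hb : ∀ D : ℕ → Set (StrongDual ℝ E), CS D → (∀ n, D n ⊆ C n) → ∀ κ : ℝ, 0 < κ →
        ¬ Osc D (δ - κ)) :
    ∃ g : ℕ → StrongDual ℝ E, (∀ n, δ / 2 ≤ ‖g n‖) ∧ (∀ x, Tendsto (fun n => g n x) atTop (𝓝 0)) := by
  classical
  obtain ⟨t, ht1, ht⟩ := tree C hC δ (δ / 4) (by positivity) ha hb
  -- functionals at the leaves
  have hφ : ∀ (N : ℕ) (e : Fin N → Bool), ∃ h ∈ C 0, ∀ i : Fin N, cond δ (δ / 4) (e i) h (t i) := by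
    intro N e
    obtain ⟨h, hh, hc⟩ := ht N (fun i => if hi : i < N then e ⟨i, hi⟩ else false) 0
    refine ⟨h, hh, fun i => ?_⟩
    have := hc i i.2
    simpa using this
  choose φ hφC hφc using hφ
  set ψ : (N : ℕ) → (Fin N → Bool) → StrongDual ℝ E := fun N e => φ N e - φ N (fun i => !e i)
    with hψ
  have hψn : ∀ N e, ‖ψ N e‖ ≤ 2 := by
    intro N e
    have h1 := norm_sub_le (φ N e) (φ N (fun i => !e i))
    have h2 := hC.bdd 0 _ (hφC N e)
    have h3 := hC.bdd 0 _ (hφC N (fun i => !e i))
    simp only [hψ]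
    linarith
  have hψr : ∀ N e (i : Fin N), δ / 2 ≤ rad e i * ψ N e (t i).1 := by
    intro N e i
    have h1 := hφc N e i
    have h2 := hφc N (fun i => !e i) i
    simp only [hψ, sub_apply]
    unfold rad
    unfold cond at h1 h2
    by_cases hi : e i = true
    · rw [if_pos hi] at h1 ⊢
      rw [if_neg (by simp [hi])] at h2
      linarith
    · rw [if_neg hi] at h1 ⊢
      rw [if_pos (by simpa using hi)] at h2
      linarith
  -- averages
  set g0 : (N : ℕ) → Fin N → StrongDual ℝ E := fun N n =>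
    ((2:ℝ) ^ N)⁻¹ • ∑ e, rad e n • ψ N e with hg0
  have hcard : ∀ N, (Finset.univ : Finset (Fin N → Bool)).card = 2 ^ N := by
    intro N; rw [Finset.card_univ]; simp
  have hg0x : ∀ N n x, g0 N n x = ((2:ℝ) ^ N)⁻¹ * ∑ e, rad e n * ψ N e x := by
    intro N n x
    simp only [hg0, smul_apply, smul_eq_mul]
    congr 1
    rw [FunLike.coe_sum, Finset.sum_apply]
    rfl
  have hg0t : ∀ N (n : Fin N), δ / 2 ≤ g0 N n (t n).1 := by
    intro N n
    rw [hg0x, inv_mul_eq_div, le_div_iff₀ (by positivity)]
    calc δ / 2 * 2 ^ N = ∑ _e : Fin N → Bool, δ / 2 := by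
          rw [Finset.sum_const, hcard, nsmul_eq_mul]; push_cast; ring
      _ ≤ _ := Finset.sum_le_sum fun e _ => hψr N e n
  have hg0b : ∀ N x, ∑ n : Fin N, (g0 N n x) ^ 2 ≤ (2 * ‖x‖) ^ 2 := by
    intro N x
    have := bessel (fun e => ψ N e x) (2 * ‖x‖) (fun e => by
      calc |ψ N e x| ≤ ‖ψ N e‖ * ‖x‖ := (ψ N e).le_opNorm x
        _ ≤ 2 * ‖x‖ := by gcongr; exact hψn N e)
    simpa only [hg0x] using this
  -- extend to all indices
  set G : ℕ → ℕ → StrongDual ℝ E := fun N n => if h : n < N then g0 N ⟨n, h⟩ else 0 with hG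
  have hGx : ∀ N M x, ∑ n ∈ Finset.range M, (G N n x) ^ 2 ≤ (2 * ‖x‖) ^ 2 := by
    intro N M x
    calc ∑ n ∈ Finset.range M, (G N n x) ^ 2 ≤ ∑ n ∈ Finset.range (max M N), (G N n x) ^ 2 :=
          Finset.sum_le_sum_of_subset_of_nonneg
            (Finset.range_mono (le_max_left M N)) fun _ _ _ => sq_nonneg _
      _ = ∑ n ∈ Finset.range N, (G N n x) ^ 2 := by
          symm
          apply Finset.sum_subset (Finset.range_mono (le_max_right M N))
          intro n _ hn
          rw [Finset.mem_range] at hn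
          simp only [hG]
          rw [dif_neg hn]
          simp
      _ = ∑ n : Fin N, (G N n x) ^ 2 := (Fin.sum_univ_eq_sum_range (fun n => (G N n x) ^ 2) N).symm
      _ = ∑ n : Fin N, (g0 N n x) ^ 2 := by
          apply Finset.sum_congr rfl
          intro n _
          simp only [hG]
          rw [dif_pos n.2]
      _ ≤ _ := hg0b N x
  have hGle : ∀ N n x, |G N n x| ≤ 2 * ‖x‖ := by
    intro N n x
    have h1 := hGx N (n + 1) x
    have h2 : (G N n x) ^ 2 ≤ ∑ n ∈ Finset.range (n + 1), (G N n x) ^ 2 :=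
      Finset.single_le_sum (f := fun n => (G N n x) ^ 2) (fun _ _ => sq_nonneg _)
        (Finset.mem_range.2 (Nat.lt_succ_self n))
    exact abs_le_of_sq_le_sq (h2.trans h1) (by positivity)
  -- ultrafilter limit
  set U : Ultrafilter ℕ := hyperfilter ℕ with hU
  have hUge : ∀ j, ∀ᶠ k in (U : Filter ℕ), j < k := by
    intro j
    have h1 : (U : Filter ℕ) ≤ atTop := by
      rw [← Nat.cofinite_eq_atTop]; exact hyperfilter_le_cofinite
    exact h1 (eventually_gt_atTop j)
  have hlim : ∀ n x, ∃ r : ℝ, Tendsto (fun N => G N n x) (U : Filter ℕ) (𝓝 r) := by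
    intro n x
    obtain ⟨r, _, hr⟩ := (isCompact_closedBall (0 : ℝ) (2 * ‖x‖)).ultrafilter_le_nhds
      (U.map fun N => G N n x) (by
        rw [le_principal_iff]
        show _ ∈ (U.map fun N => G N n x)
        rw [Ultrafilter.mem_map]
        refine Filter.Eventually.of_forall (f := (U : Filter ℕ)) fun N => ?_
        show G N n x ∈ Metric.closedBall (0:ℝ) (2 * ‖x‖)
        rw [mem_closedBall_zero_iff]
        exact hGle N n x)
    exact ⟨r, hr⟩
  choose L hL using hlim
  set g : ℕ → StrongDual ℝ E := fun n => LinearMap.mkContinuous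
    { toFun := L n
      map_add' := fun x y => tendsto_nhds_unique (hL n (x + y)) (by
        have := (hL n x).add (hL n y)
        refine this.congr fun N => ?_
        rw [map_add])
      map_smul' := fun c x => tendsto_nhds_unique (hL n (c • x)) (by
        have := (hL n x).const_mul c
        refine this.congr fun N => ?_
        rw [map_smul, smul_eq_mul]) } 2 (by
      intro x
      exact le_of_tendsto (hL n x).norm (Eventually.of_forall fun N => hGle N n x)) with hg
  have hgx : ∀ n x, g n x = L n x := fun n x => rfl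
  refine ⟨g, fun n => ?_, fun x => ?_⟩
  · have h1 : δ / 2 ≤ g n (t n).1 := by
      rw [hgx]
      refine ge_of_tendsto (hL n (t n).1) ?_
      filter_upwards [hUge n] with N hN
      simp only [hG]
      rw [dif_pos hN]
      exact hg0t N ⟨n, hN⟩
    have h2 := (g n).le_opNorm (t n).1
    have h3 : ‖g n‖ * ‖(t n).1‖ ≤ ‖g n‖ * 1 := by gcongr; exact ht1 n
    have h4 := le_abs_self (g n (t n).1)
    rw [Real.norm_eq_abs] at h2
    linarith
  · have hsum : Summable fun n => (g n x) ^ 2 := by
      apply summable_of_sum_range_le (c := (2 * ‖x‖) ^ 2) (fun n => sq_nonneg _)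
      intro M
      have h1 : Tendsto (fun N => ∑ n ∈ Finset.range M, (G N n x) ^ 2) (U : Filter ℕ)
          (𝓝 (∑ n ∈ Finset.range M, (g n x) ^ 2)) :=
        tendsto_finsetSum _ fun n _ => (hL n x).pow 2
      exact le_of_tendsto h1 (Eventually.of_forall fun N => hGx N M x)
    have h0 := hsum.tendsto_atTop_zero
    have h1 : Tendsto (fun n => Real.sqrt ((g n x) ^ 2)) atTop (𝓝 0) := by
      have h2 := (Real.continuous_sqrt.tendsto 0).comp h0
      rw [Real.sqrt_zero] at h2
      exact h2
    rw [tendsto_zero_iff_abs_tendsto_zero]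
    refine h1.congr fun n => ?_
    rw [Real.sqrt_sq_eq_abs]; rfl

end Q98.JN
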