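import Mathlib
import Pool.Agent.Q98.JN3
import Pool.Agent.H825R3.Seq

set_option autoImplicit false
set_option linter.unusedSectionVars false

open Filter Topology

namespace Q98.JN

variable {E : Type*} [NormedAddCommGroup E] [NormedSpace ℝ E]

/-- The nonreflexive case of the Josefson–Nissenzweig theorem. -/
theorem jn_nonreflexive [CompleteSpace E]
    (h : ¬ Function.Surjective (NormedSpace.inclusionInDoubleDual ℝ E)) :
    ∃ (g : ℕ → StrongDual ℝ E) (c : ℝ), 0 < c ∧ (∀ n, c ≤ ‖g n‖) ∧
      (∀ x, Tendsto (fun n => g n x) atTop (𝓝 0)) := by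
  classical
  obtain ⟨x, f, hx, hf, hf0, hfθ⟩ := Pool.Agent.H825R3.james_seq h (θ := 1 / 2) (δ := 1 / 8)
    (by norm_num) (by norm_num) (by norm_num)
  set C0 : ℕ → Set (StrongDual ℝ E) := fun N => convexHull ℝ (f '' Set.Ici N) with hC0
  have hCS : CS C0 := by
    refine ⟨fun a b hab => convexHull_mono (Set.image_mono (Set.Ici_subset_Ici.2 hab)),
      fun n => ⟨f n, subset_convexHull ℝ _ ⟨n, Set.mem_Ici.2 le_rfl, rfl⟩⟩,
      fun n => convex_convexHull ℝ _, fun n g hg => ?_⟩
    have h1 : convexHull ℝ (f '' Set.Ici n) ⊆ Metric.closedBall (0 : StrongDual ℝ E) 1 := by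
      apply convexHull_min _ (convex_closedBall _ _)
      rintro _ ⟨m, _, rfl⟩
      rw [mem_closedBall_zero_iff]; exact hf m
    have h2 := h1 hg
    rwa [mem_closedBall_zero_iff] at h2
  obtain ⟨C, δ, hC, hCC0, hδ0, ha, hb⟩ := stab C0 hCS
  rcases hδ0.lt_or_eq with hδ | hδ
  · obtain ⟨g, hg1, hg2⟩ := wstar_null_of_stable C hC δ hδ ha hb
    exact ⟨g, δ / 2, by positivity, hg1, hg2⟩
  · -- weak-star convergent case
    choose g hg using hC.ne
    have hgn : ∀ n, ‖g n‖ ≤ 1 := fun n => hC.bdd n _ (hg n)
    have hcauchy : ∀ y : E, CauchySeq fun n => g n y := by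
      intro y
      rw [Metric.cauchySeq_iff']
      intro ε hε
      -- scale
      set r : ℝ := ‖y‖ + 1 with hr
      have hr0 : 0 < r := by positivity
      have hy : ‖r⁻¹ • y‖ ≤ 1 := by
        rw [norm_smul, norm_inv, Real.norm_of_nonneg hr0.le, inv_mul_le_iff₀ hr0]
        linarith
      obtain ⟨j, hj⟩ := ha (ε / (2 * r)) (by positivity) _ hy
      refine ⟨j, fun n hn => ?_⟩
      have h1 := hj (g n) (hC.anti hn (hg n)) (g j) (hg j)
      have h2 := hj (g j) (hg j) (g n) (hC.anti hn (hg n))
      rw [← hδ, zero_add, map_smul, map_smul, smul_eq_mul, smul_eq_mul, ← mul_sub,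
        inv_mul_le_iff₀ hr0] at h1 h2
      have h3 : r * (ε / (2 * r)) = ε / 2 := by field_simp
      rw [h3] at h1 h2
      rw [Real.dist_eq, abs_lt]
      constructor <;> linarith
    have hlim : ∀ y : E, ∃ r : ℝ, Tendsto (fun n => g n y) atTop (𝓝 r) := fun y =>
      cauchySeq_tendsto_of_complete (hcauchy y)
    choose L hL using hlim
    set w : StrongDual ℝ E := LinearMap.mkContinuous
      { toFun := L
        map_add' := fun a b => tendsto_nhds_unique (hL (a + b)) (by
          refine ((hL a).add (hL b)).congr fun n => ?_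
          rw [map_add])
        map_smul' := fun c a => tendsto_nhds_unique (hL (c • a)) (by
          refine ((hL a).const_mul c).congr fun n => ?_
          rw [map_smul, smul_eq_mul]) } 1 (by
        intro a
        refine le_of_tendsto (hL a).norm (Eventually.of_forall fun n => ?_)
        refine ((g n).le_opNorm a).trans ?_
        gcongr
        exact hgn n) with hw
    have hwL : ∀ y, w y = L y := fun y => rfl
    have hzero : ∀ N, ∀ k < N, ∀ h ∈ C0 N, h (x k) = 0 := by
      intro N k hk h hh
      have h1 : convexHull ℝ (f '' Set.Ici N) ⊆ {h : StrongDual ℝ E | h (x k) = 0} := by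
        apply convexHull_min
        · rintro _ ⟨m, hm, rfl⟩
          exact hf0 m k (lt_of_lt_of_le hk hm)
        · intro a ha' b hb' s t _ _ _
          show (s • a + t • b) (x k) = 0
          have h1 : a (x k) = 0 := ha'
          have h2 : b (x k) = 0 := hb'
          simp [h1, h2]
      exact h1 hh
    have hbig : ∀ N, ∀ h ∈ C0 N, ∃ M, ∀ k, M ≤ k → 3 / 8 ≤ h (x k) := by
      intro N h hh
      have h1 : convexHull ℝ (f '' Set.Ici N) ⊆
          {h : StrongDual ℝ E | ∃ M, ∀ k, M ≤ k → 3 / 8 ≤ h (x k)} := by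
        apply convexHull_min
        · rintro _ ⟨m, _, rfl⟩
          refine ⟨m, fun k hk => ?_⟩
          have := (abs_le.1 (hfθ m k hk)).1
          linarith
        · rintro a ⟨M, hM⟩ b ⟨M', hM'⟩ s t hs ht hst
          refine ⟨max M M', fun k hk => ?_⟩
          have h1 := hM k ((le_max_left _ _).trans hk)
          have h2 := hM' k ((le_max_right _ _).trans hk)
          show 3 / 8 ≤ (s • a + t • b) (x k)
          simp only [add_apply, smul_apply, smul_eq_mul]
          have ht' : t = 1 - s := by linarith
          subst ht'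
          nlinarith
      exact h1 hh
    have hwx : ∀ k, w (x k) = 0 := by
      intro k
      rw [hwL]
      refine tendsto_nhds_unique (hL (x k)) ?_
      refine tendsto_const_nhds.congr' ?_
      filter_upwards [eventually_gt_atTop k] with n hn
      exact (hzero n k hn (g n) (hCC0 n (hg n))).symm
    refine ⟨fun n => g n - w, 3 / 8, by norm_num, fun n => ?_, fun y => ?_⟩
    · obtain ⟨M, hM⟩ := hbig n (g n) (hCC0 n (hg n))
      have h1 := hM M le_rfl
      have h2 : (g n - w) (x M) = g n (x M) := by
        rw [sub_apply, hwx, sub_zero]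
      have h3 := (g n - w).le_opNorm (x M)
      rw [h2] at h3
      have h4 : ‖g n - w‖ * ‖x M‖ ≤ ‖g n - w‖ * 1 := by gcongr; exact hx M
      have h5 := le_abs_self (g n (x M))
      rw [Real.norm_eq_abs] at h3
      linarith
    · have := (hL y).sub_const (L y)
      rw [sub_self] at this
      exact this

end Q98.JN
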