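import Mathlib
import Pool.Agent.Q98.JN4

set_option autoImplicit false
set_option linter.unusedSectionVars false

open Filter Topology

namespace Q98.JN

variable {E : Type*} [NormedAddCommGroup E] [NormedSpace ℝ E]

/-- annihilators of proper closed subspaces -/
lemma exists_annihilator {F : Type*} [NormedAddCommGroup F] [NormedSpace ℝ F]
    (p : Submodule ℝ F) (hp : IsClosed (p : Set F)) (x : F) (hx : x ∉ p) :
    ∃ f : StrongDual ℝ F, (∀ y ∈ p, f y = 0) ∧ f x ≠ 0 := by
  obtain ⟨f, u, h1, h2⟩ := geometric_hahn_banach_point_closed p.convex hp hx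
  have hu : u < 0 := by simpa using h2 0 p.zero_mem
  refine ⟨f, fun y hy => ?_, by linarith⟩
  by_contra hne
  have h3 := h2 ((u / f y) • y) (p.smul_mem _ hy)
  rw [map_smul, smul_eq_mul, div_mul_cancel₀ _ hne] at h3
  exact lt_irrefl _ h3

lemma exists_kill (hE : ¬ FiniteDimensional ℝ E) (D : Finset E) :
    ∃ z : StrongDual ℝ E, ‖z‖ = 1 ∧ ∀ y ∈ D, z y = 0 := by
  classical
  set p : Submodule ℝ E := Submodule.span ℝ (D : Set E)
  have hfd : FiniteDimensional ℝ p := FiniteDimensional.span_finset ℝ D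
  have hne : ∃ x, x ∉ p := by
    by_contra hcon
    push Not at hcon
    apply hE
    have : p = ⊤ := Submodule.eq_top_iff'.2 hcon
    rw [this] at hfd
    exact Module.Finite.equiv (Submodule.topEquiv (R := ℝ) (M := E))
  obtain ⟨x, hx⟩ := hne
  obtain ⟨f, hf, hfx⟩ := exists_annihilator p (Submodule.closed_of_finiteDimensional p) x hx
  have hfn : 0 < ‖f‖ := by
    rw [norm_pos_iff]
    rintro rfl
    exact hfx rfl
  refine ⟨‖f‖⁻¹ • f, ?_, fun y hy => ?_⟩
  · rw [norm_smul, norm_inv, norm_norm, inv_mul_cancel₀ hfn.ne']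
  · rw [smul_apply, hf y (Submodule.subset_span hy), smul_zero]

lemma exists_norming_abs {F : Type*} [NormedAddCommGroup F] [NormedSpace ℝ F]
    (W : Submodule ℝ F) (hW : FiniteDimensional ℝ W) (S : Set (StrongDual ℝ F))
    (hS : ∀ w : F, w ≠ 0 → ∃ φ ∈ S, ‖w‖ < 2 * |φ w|) :
    ∃ D : Finset (StrongDual ℝ F), (D : Set (StrongDual ℝ F)) ⊆ S ∧
      ∀ w ∈ W, w ≠ 0 → ∃ φ ∈ D, ‖w‖ ≤ 2 * |φ w| := by
  classical
  have hcomp : IsCompact (Metric.sphere (0 : W) 1) := by
    have : ProperSpace W := FiniteDimensional.proper ℝ W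
    exact isCompact_sphere _ _
  have hex : ∀ w : W, w ∈ Metric.sphere (0 : W) 1 → ∃ φ ∈ S, 1 < 2 * |φ (w : F)| := by
    intro w hw
    have hw1 : ‖w‖ = 1 := mem_sphere_zero_iff_norm.1 hw
    obtain ⟨φ, hφ, h⟩ := hS (w : F) (by
      intro h0
      have : ‖(w : F)‖ = 1 := hw1
      rw [h0, norm_zero] at this
      exact zero_ne_one this)
    refine ⟨φ, hφ, ?_⟩
    have : ‖(w : F)‖ = 1 := hw1
    rwa [this] at h
  choose! y hy1 hy2 using hex
  obtain ⟨t, ht, hcov⟩ := hcomp.elim_nhds_subcover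
    (fun w : W => {v : W | 1 < 2 * |(y w) (v : F)|}) (by
      intro w hw
      apply IsOpen.mem_nhds
      · apply isOpen_lt continuous_const
        exact continuous_const.mul (((y w).continuous.comp continuous_subtype_val).abs)
      · exact hy2 w hw)
  refine ⟨t.image y, ?_, fun w hw hw0 => ?_⟩
  · intro z hz
    rw [Finset.mem_coe, Finset.mem_image] at hz
    obtain ⟨w, hw, rfl⟩ := hz
    exact hy1 w (ht w hw)
  · have hn : 0 < ‖w‖ := norm_pos_iff.2 hw0
    set v : W := ‖w‖⁻¹ • (⟨w, hw⟩ : W) with hv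
    have hv1 : v ∈ Metric.sphere (0 : W) 1 := by
      rw [mem_sphere_zero_iff_norm, hv, norm_smul, norm_inv, norm_norm]
      exact inv_mul_cancel₀ hn.ne'
    obtain ⟨u, hu, huv⟩ := Set.mem_iUnion₂.1 (hcov hv1)
    refine ⟨y u, Finset.mem_image_of_mem _ hu, ?_⟩
    have h1 : 1 < 2 * |(y u) (v : F)| := huv
    have h2 : (y u) (v : F) = ‖w‖⁻¹ * (y u) w := by
      have : (v : F) = ‖w‖⁻¹ • w := rfl
      rw [this, map_smul, smul_eq_mul]
    rw [h2, abs_mul, abs_of_pos (by positivity)] at h1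
    have h3 : ‖w‖ * 1 < ‖w‖ * (2 * (‖w‖⁻¹ * |(y u) w|)) := by gcongr
    have h4 : ‖w‖ * (2 * (‖w‖⁻¹ * |(y u) w|)) = 2 * |(y u) w| := by field_simp
    linarith

lemma exists_norming (W : Submodule ℝ (StrongDual ℝ E)) (hW : FiniteDimensional ℝ W) :
    ∃ D : Finset E, (∀ y ∈ D, ‖y‖ ≤ 1) ∧ ∀ w ∈ W, w ≠ 0 → ∃ y ∈ D, ‖w‖ ≤ 2 * |w y| := by
  classical
  obtain ⟨D, hD1, hD2⟩ := exists_norming_abs W hW
    (NormedSpace.inclusionInDoubleDual ℝ E '' {y | ‖y‖ ≤ 1}) (by
      intro w hw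
      have hpos : 0 < ‖w‖ := norm_pos_iff.2 hw
      obtain ⟨y, hy1, hy2⟩ := ContinuousLinearMap.exists_lt_apply_of_lt_opNorm w
        (show ‖w‖ / 2 < ‖w‖ by linarith)
      refine ⟨_, ⟨y, hy1.le, rfl⟩, ?_⟩
      have : |(NormedSpace.inclusionInDoubleDual ℝ E y) w| = ‖w y‖ := rfl
      rw [this]; linarith)
  have hD1' : ∀ φ ∈ D, ∃ y : E, ‖y‖ ≤ 1 ∧ NormedSpace.inclusionInDoubleDual ℝ E y = φ := by
    intro φ hφ
    obtain ⟨y, hy, hyφ⟩ := hD1 hφ
    exact ⟨y, hy, hyφ⟩
  choose! y hy hyφ using hD1'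
  refine ⟨D.image y, fun z hz => ?_, fun w hw hw0 => ?_⟩
  · rw [Finset.mem_image] at hz
    obtain ⟨φ, hφ, rfl⟩ := hz
    exact hy φ hφ
  · obtain ⟨φ, hφ, h⟩ := hD2 w hw hw0
    refine ⟨y φ, Finset.mem_image_of_mem _ hφ, ?_⟩
    have h1 := hyφ φ hφ
    have h2 : w (y φ) = φ w := by
      conv_rhs => rw [← h1]
      rfl
    rw [h2]; exact h

/-- The reflexive case of the Josefson–Nissenzweig theorem. -/
theorem jn_reflexive (hE : ¬ FiniteDimensional ℝ E)
    (h : Function.Surjective (NormedSpace.inclusionInDoubleDual ℝ E)) :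
    ∃ g : ℕ → StrongDual ℝ E, (∀ n, ‖g n‖ = 1) ∧ (∀ x, Tendsto (fun n => g n x) atTop (𝓝 0)) := by
  classical
  obtain ⟨u, hu1, hu2⟩ := exists_seq_of_forall_finset_exists
    (fun p : StrongDual ℝ E × Submodule ℝ (StrongDual ℝ E) × Finset E =>
      ‖p.1‖ = 1 ∧ p.1 ∈ p.2.1 ∧ FiniteDimensional ℝ p.2.1 ∧
        ∀ w ∈ p.2.1, w ≠ 0 → ∃ y ∈ p.2.2, ‖y‖ ≤ 1 ∧ ‖w‖ ≤ 2 * |w y|)
    (fun p q => p.2.1 ≤ q.2.1 ∧ ∀ y ∈ p.2.2, q.1 y = 0) (by
      intro s hs
      obtain ⟨z, hz1, hz2⟩ := exists_kill hE (s.biUnion fun p => p.2.2)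
      set W : Submodule ℝ (StrongDual ℝ E) := (s.sup fun p => p.2.1) ⊔ Submodule.span ℝ {z}
      have hWs : FiniteDimensional ℝ (s.sup fun p => p.2.1 : Submodule ℝ (StrongDual ℝ E)) := by
        have : ∀ t : Finset (StrongDual ℝ E × Submodule ℝ (StrongDual ℝ E) × Finset E),
            t ⊆ s → FiniteDimensional ℝ
              (t.sup fun p => p.2.1 : Submodule ℝ (StrongDual ℝ E)) := by
          intro t
          induction t using Finset.induction_on with
          | empty => intro _; rw [Finset.sup_empty]; exact inferInstance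
          | insert a t _ ih =>
            intro hts
            rw [Finset.sup_insert]
            have h1 : FiniteDimensional ℝ a.2.1 := (hs a (hts (Finset.mem_insert_self _ _))).2.2.1
            have h2 := ih ((Finset.subset_insert _ _).trans hts)
            exact Submodule.finiteDimensional_sup _ _
        exact this s subset_rfl
      have hW : FiniteDimensional ℝ W := Submodule.finiteDimensional_sup _ _
      obtain ⟨D, hD1, hD2⟩ := exists_norming W hW
      refine ⟨(z, W, D), ⟨hz1, Submodule.mem_sup_right (Submodule.mem_span_singleton_self z), hW,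
        fun w hw hw0 => ?_⟩, fun p hp => ⟨?_, fun y hy => ?_⟩⟩
      · obtain ⟨y, hy, hy2⟩ := hD2 w hw hw0
        exact ⟨y, hy, hD1 y hy, hy2⟩
      · exact (Finset.le_sup (f := fun p : StrongDual ℝ E × Submodule ℝ (StrongDual ℝ E) ×
          Finset E => p.2.1) hp).trans le_sup_left
      · exact hz2 y (Finset.mem_biUnion.2 ⟨p, hp, hy⟩))
  set z : ℕ → StrongDual ℝ E := fun n => (u n).1 with hz
  set W : ℕ → Submodule ℝ (StrongDual ℝ E) := fun n => (u n).2.1 with hW
  have hWmono : Monotone W := by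
    apply monotone_nat_of_le_succ
    intro n
    exact (hu2 n (n + 1) (Nat.lt_succ_self n)).1
  set Z : Submodule ℝ (StrongDual ℝ E) := (⨆ n, W n).topologicalClosure with hZ
  have hzn : ∀ n, ‖z n‖ = 1 := fun n => (hu1 n).1
  refine ⟨z, hzn, fun x => ?_⟩
  -- it suffices to use ultrafilters
  rw [tendsto_iff_ultrafilter]
  intro U hU
  -- the limit functional
  have hlim : ∀ y : E, ∃ r : ℝ, Tendsto (fun n => z n y) (U : Filter ℕ) (𝓝 r) := by
    intro y
    obtain ⟨r, _, hr⟩ := (isCompact_closedBall (0 : ℝ) (‖y‖)).ultrafilter_le_nhds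
      (U.map fun n => z n y) (by
        rw [le_principal_iff]
        show _ ∈ (U.map fun n => z n y)
        rw [Ultrafilter.mem_map]
        refine Filter.Eventually.of_forall (f := (U : Filter ℕ)) fun n => ?_
        show z n y ∈ Metric.closedBall (0:ℝ) (‖y‖)
        rw [mem_closedBall_zero_iff]
        have := (z n).le_opNorm y
        rwa [hzn n, one_mul] at this)
    exact ⟨r, hr⟩
  choose L hL using hlim
  set w : StrongDual ℝ E := LinearMap.mkContinuous
    { toFun := L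
      map_add' := fun a b => tendsto_nhds_unique (hL (a + b)) (by
        refine ((hL a).add (hL b)).congr fun n => ?_
        rw [map_add])
      map_smul' := fun c a => tendsto_nhds_unique (hL (c • a)) (by
        refine ((hL a).const_mul c).congr fun n => ?_
        rw [map_smul, smul_eq_mul]) } 1 (by
      intro a
      refine le_of_tendsto (hL a).norm (Eventually.of_forall fun n => ?_)
      refine ((z n).le_opNorm a).trans ?_
      rw [hzn n]) with hw
  have hwL : ∀ y, w y = L y := fun y => rfl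
  -- `w` vanishes on the norming vectors
  have hwD : ∀ n, ∀ y ∈ (u n).2.2, w y = 0 := by
    intro n y hy
    rw [hwL]
    refine tendsto_nhds_unique (hL y) ?_
    refine tendsto_const_nhds.congr' ?_
    have h1 : ∀ᶠ m in (U : Filter ℕ), n < m := hU (eventually_gt_atTop n)
    filter_upwards [h1] with m hm
    exact ((hu2 n m hm).2 y hy).symm
  -- `w` belongs to `Z`
  have hwZ : w ∈ Z := by
    by_contra hcon
    obtain ⟨Φ, hΦ1, hΦ2⟩ := exists_annihilator Z (Submodule.isClosed_topologicalClosure _) w hcon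
    obtain ⟨y, rfl⟩ := h Φ
    apply hΦ2
    show w y = 0
    rw [hwL]
    refine tendsto_nhds_unique (hL y) ?_
    refine tendsto_const_nhds.congr fun m => ?_
    have h1 : z m ∈ Z := Submodule.le_topologicalClosure _
      ((le_iSup W m) (hu1 m).2.1)
    exact (hΦ1 (z m) h1).symm
  have hw0 : w = 0 := by
    by_contra hne
    have hpos : 0 < ‖w‖ := norm_pos_iff.2 hne
    have hmem : w ∈ closure ((⨆ n, W n : Submodule ℝ (StrongDual ℝ E)) : Set (StrongDual ℝ E)) :=
      hwZ
    obtain ⟨v, hv, hvw⟩ := Metric.mem_closure_iff.1 hmem (‖w‖ / 4) (by positivity)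
    rw [dist_eq_norm] at hvw
    obtain ⟨n, hn⟩ := (Submodule.mem_iSup_of_directed W hWmono.directed_le).1 hv
    have hv0 : v ≠ 0 := by
      rintro rfl
      rw [sub_zero] at hvw
      linarith
    obtain ⟨y, hy, hy1, hy2⟩ := (hu1 n).2.2.2 v hn hv0
    have h1 : |v y| ≤ ‖w‖ / 4 := by
      have h2 : v y = -((w - v) y) := by
        rw [sub_apply, hwD n y hy]; ring
      rw [h2, abs_neg]
      calc |(w - v) y| ≤ ‖w - v‖ * ‖y‖ := (w - v).le_opNorm y
        _ ≤ ‖w - v‖ * 1 := by gcongr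
        _ ≤ ‖w‖ / 4 := by rw [mul_one]; exact hvw.le
    have h3 : ‖w‖ ≤ ‖v‖ + ‖w - v‖ := by
      have := norm_add_le v (w - v)
      rwa [add_sub_cancel] at this
    linarith
  have := hL x
  rw [← hwL, hw0] at this
  exact this

/-- **Josefson–Nissenzweig theorem** (real case). -/
theorem josefson_nissenzweig [CompleteSpace E] (hE : ¬ FiniteDimensional ℝ E) :
    ∃ g : ℕ → StrongDual ℝ E, (∀ n, ‖g n‖ = 1) ∧ (∀ x, Tendsto (fun n => g n x) atTop (𝓝 0)) := by
  by_cases h : Function.Surjective (NormedSpace.inclusionInDoubleDual ℝ E)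
  · exact jn_reflexive hE h
  · obtain ⟨g, c, hc, hg, hgx⟩ := jn_nonreflexive h
    have hpos : ∀ n, 0 < ‖g n‖ := fun n => lt_of_lt_of_le hc (hg n)
    refine ⟨fun n => ‖g n‖⁻¹ • g n, fun n => ?_, fun x => ?_⟩
    · rw [norm_smul, norm_inv, norm_norm, inv_mul_cancel₀ (hpos n).ne']
    · have h1 : Tendsto (fun n => c⁻¹ * |g n x|) atTop (𝓝 0) := by
        have := (hgx x).abs.const_mul c⁻¹
        simpa using this
      rw [tendsto_zero_iff_abs_tendsto_zero]
      refine squeeze_zero (fun _ => abs_nonneg _) (fun n => ?_) h1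
      show |(‖g n‖⁻¹ • g n) x| ≤ c⁻¹ * |g n x|
      rw [smul_apply, smul_eq_mul, abs_mul, abs_of_pos (inv_pos.2 (hpos n))]
      gcongr
      exact hg n

end Q98.JN
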