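import Pool.Agent.Q98.JN5

/-! The Josefson–Nissenzweig theorem over `ℝ` or `ℂ`. -/

set_option autoImplicit false

open Filter Topology

namespace Q98.JN

/-- **Josefson–Nissenzweig**, over `ℝ` or `ℂ`: the dual sphere of an infinite-dimensional Banach
space contains a weak* null sequence. -/
theorem josefson_nissenzweig_rclike {𝕜 E : Type*} [RCLike 𝕜] [NormedAddCommGroup E]
    [NormedSpace 𝕜 E] [CompleteSpace E] (hE : ¬ FiniteDimensional 𝕜 E) :
    ∃ g : ℕ → StrongDual 𝕜 E, (∀ n, ‖g n‖ = 1) ∧ (∀ x, Tendsto (fun n => g n x) atTop (𝓝 0)) := by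
  letI : NormedSpace ℝ E := NormedSpace.restrictScalars ℝ 𝕜 E
  haveI : IsScalarTower ℝ 𝕜 E := RestrictScalars.isScalarTower ℝ 𝕜 E
  have hE' : ¬ FiniteDimensional ℝ E := by
    intro h
    exact hE (Module.Finite.of_restrictScalars_finite ℝ 𝕜 E)
  obtain ⟨g, hg, hgx⟩ := josefson_nissenzweig hE'
  refine ⟨fun n => StrongDual.extendRCLike (𝕜 := 𝕜) (g n), fun n => ?_, fun x => ?_⟩
  · rw [StrongDual.norm_extendRCLike, hg n]
  · have h1 : Tendsto (fun n => ((g n x : ℝ) : 𝕜)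
        - (RCLike.I : 𝕜) * ((g n ((RCLike.I : 𝕜) • x) : ℝ) : 𝕜)) atTop
        (𝓝 (((0 : ℝ) : 𝕜) - (RCLike.I : 𝕜) * ((0 : ℝ) : 𝕜))) := by
      refine Tendsto.sub ?_ (Tendsto.const_mul _ ?_)
      · exact (RCLike.continuous_ofReal.tendsto (0 : ℝ)).comp (hgx x)
      · exact (RCLike.continuous_ofReal.tendsto (0 : ℝ)).comp (hgx _)
    simpa [StrongDual.extendRCLike_apply] using h1

end Q98.JN
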