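import Mathlib

set_option autoImplicit false
set_option linter.unusedSectionVars false

open Filter Topology Cardinal

namespace Q98.KOct

universe u

section Chains

variable {Γ : Type u} [LinearOrder Γ]

/-- norming functionals of the `k`-th coordinate -/
inductive W (r : ℝ) : (Γ →₀ ℝ) → Prop
  | zero : W r 0
  | step (w : Γ →₀ ℝ) (β : Γ) (σ : ℝ) (hw : W r w) (hlt : ∀ α ∈ w.support, α < β)
      (hσ : σ = 1 ∨ σ = -1) : W r (r • w + Finsupp.single β σ)

lemma W.neg {r : ℝ} {w : Γ →₀ ℝ} (h : W r w) : W r (-w) := by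
  induction h with
  | zero => simpa using W.zero
  | step w β σ hw hlt hσ ih =>
    have h1 : -(r • w + Finsupp.single β σ) = r • (-w) + Finsupp.single β (-σ) := by
      rw [smul_neg, Finsupp.single_neg]; abel
    rw [h1]
    refine W.step (-w) β (-σ) ih (by simpa using hlt) ?_
    rcases hσ with h | h <;> simp [h]

lemma W.single (r : ℝ) (β : Γ) : W r (Finsupp.single β 1) := by
  have := W.step (r := r) 0 β 1 W.zero (by simp) (Or.inl rfl)
  simpa using this

/-- `ℓ₁` norm -/
noncomputable def n1 (w : Γ →₀ ℝ) : ℝ := w.sum fun _ t => |t|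

lemma n1_eq (w : Γ →₀ ℝ) (s : Finset Γ) (hs : w.support ⊆ s) : n1 w = ∑ i ∈ s, |w i| := by
  unfold n1
  rw [Finsupp.sum_of_support_subset w hs]
  intro i _; simp

lemma n1_add_le (v w : Γ →₀ ℝ) : n1 (v + w) ≤ n1 v + n1 w := by
  classical
  rw [n1_eq (v + w) (v.support ∪ w.support) Finsupp.support_add,
    n1_eq v (v.support ∪ w.support) Finset.subset_union_left,
    n1_eq w (v.support ∪ w.support) Finset.subset_union_right, ← Finset.sum_add_distrib]
  exact Finset.sum_le_sum fun i _ => abs_add_le _ _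

lemma n1_smul_le (r : ℝ) (hr : 0 ≤ r) (w : Γ →₀ ℝ) : n1 (r • w) = r * n1 w := by
  rw [n1_eq (r • w) w.support Finsupp.support_smul, n1_eq w w.support subset_rfl, Finset.mul_sum]
  apply Finset.sum_congr rfl
  intro i _
  rw [Finsupp.smul_apply, smul_eq_mul, abs_mul, abs_of_nonneg hr]

lemma W.n1_le {r : ℝ} (hr : 0 ≤ r) (hr1 : r < 1) {w : Γ →₀ ℝ} (h : W r w) :
    n1 w ≤ (1 - r)⁻¹ := by
  have hpos : 0 < 1 - r := by linarith
  induction h with
  | zero => simp [n1]; linarith
  | step w β σ hw hlt hσ ih =>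
    have h1 := n1_add_le (r • w) (Finsupp.single β σ)
    rw [n1_smul_le r hr] at h1
    have h2 : n1 (Finsupp.single β σ) = 1 := by
      rw [n1_eq _ {β} Finsupp.support_single_subset, Finset.sum_singleton, Finsupp.single_eq_same]
      rcases hσ with h | h <;> simp [h]
    have h3 : r * n1 w ≤ r * (1 - r)⁻¹ := by gcongr
    have h4 : r * (1 - r)⁻¹ + 1 = (1 - r)⁻¹ := by field_simp; ring
    linarith

lemma W.abs_le {r : ℝ} (hr : 0 ≤ r) (hr1 : r < 1) {w : Γ →₀ ℝ} (h : W r w) (α : Γ) :
    |w α| ≤ 1 := by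
  induction h with
  | zero => simp
  | step w β σ hw hlt hσ ih =>
    by_cases hα : α = β
    · subst hα
      have : w α = 0 := by
        by_contra h0
        exact lt_irrefl _ (hlt α (Finsupp.mem_support_iff.2 h0))
      rw [Finsupp.add_apply, Finsupp.smul_apply, this, Finsupp.single_eq_same]
      rcases hσ with h | h <;> simp [h]
    · rw [Finsupp.add_apply, Finsupp.smul_apply, Finsupp.single_eq_of_ne hα, add_zero,
        smul_eq_mul, abs_mul, abs_of_nonneg hr]
      calc r * |w α| ≤ 1 * 1 := by gcongr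
        _ = 1 := one_mul _

lemma W.restrict {r : ℝ} (hr : 0 ≤ r) (hr1 : r < 1) {w : Γ →₀ ℝ} (h : W r w) (β : Γ) :
    ∃ (w' : Γ →₀ ℝ) (t : ℝ), W r w' ∧ 0 ≤ t ∧ t ≤ 1 ∧ (∀ α ∈ w'.support, α < β) ∧
      ∀ α < β, w α = t * w' α := by
  induction h with
  | zero => exact ⟨0, 1, W.zero, zero_le_one, le_rfl, by simp, by simp⟩
  | step w γ σ hw hlt hσ ih =>
    by_cases hγ : γ < β
    · refine ⟨r • w + Finsupp.single γ σ, 1, W.step w γ σ hw hlt hσ, zero_le_one, le_rfl, ?_,
        fun α _ => (one_mul _).symm⟩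
      classical
      intro α hα
      have h1 := Finsupp.support_add hα
      rw [Finset.mem_union] at h1
      rcases h1 with h1 | h1
      · exact (hlt α (Finsupp.support_smul h1)).trans hγ
      · have := Finsupp.support_single_subset h1
        rw [Finset.mem_singleton] at this
        rw [this]; exact hγ
    · obtain ⟨w', t, hw', ht0, ht1, hsupp, heq⟩ := ih
      refine ⟨w', r * t, hw', by positivity, by nlinarith, hsupp, fun α hα => ?_⟩
      have hne : α ≠ γ := by
        rintro rfl; exact hγ hα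
      rw [Finsupp.add_apply, Finsupp.smul_apply, Finsupp.single_eq_of_ne hne, add_zero,
        smul_eq_mul, heq α hα]
      ring

end Chains

end Q98.KOct
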