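import Mathlib
import Pool.Agent.Q98.KOct1

set_option autoImplicit false
set_option linter.unusedSectionVars false

open Filter Topology Cardinal

open scoped ENNReal

namespace Q98.KOct

universe u

variable {Γ : Type u} [LinearOrder Γ]

/-- the radii -/
noncomputable def rad (k : ℕ) : ℝ := 1 - 1 / ((k : ℝ) + 1)

lemma rad_nonneg (k : ℕ) : 0 ≤ rad k := by
  unfold rad
  have : 1 / ((k : ℝ) + 1) ≤ 1 := by
    rw [div_le_one (by positivity)]
    have : (0:ℝ) ≤ k := Nat.cast_nonneg k
    linarith
  linarith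

lemma rad_lt (k : ℕ) : rad k < 1 := by
  unfold rad
  have : (0:ℝ) < 1 / ((k : ℝ) + 1) := by positivity
  linarith

variable (Γ) in
/-- index set of the norming functionals -/
def I : Type u := {w : ℕ → (Γ →₀ ℝ) // ∀ k, W (rad k) (w k)}

instance : Nonempty (I Γ) := ⟨⟨fun _ => 0, fun _ => W.zero⟩⟩

/-- evaluation of a functional -/
noncomputable def P (w : ℕ → (Γ →₀ ℝ)) : (ℕ × Γ →₀ ℝ) →ₗ[ℝ] ℝ :=
  Finsupp.linearCombination ℝ (fun p : ℕ × Γ => w p.1 p.2)

lemma P_apply (w : ℕ → (Γ →₀ ℝ)) (x : ℕ × Γ →₀ ℝ) :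
    P w x = ∑ p ∈ x.support, x p * w p.1 p.2 := by
  unfold P
  rw [Finsupp.linearCombination_apply, Finsupp.sum]
  simp

/-- unit vectors -/
noncomputable def v (p : ℕ × Γ) : lp (fun _ : I Γ => ℝ) ∞ :=
  ⟨fun w => w.1 p.1 p.2, by
    apply memℓp_infty
    refine ⟨1, ?_⟩
    rintro _ ⟨w, rfl⟩
    exact (w.2 p.1).abs_le (rad_nonneg _) (rad_lt _) p.2⟩

/-- synthesis -/
noncomputable def T : (ℕ × Γ →₀ ℝ) →ₗ[ℝ] lp (fun _ : I Γ => ℝ) ∞ :=
  Finsupp.linearCombination ℝ v

lemma T_apply (x : ℕ × Γ →₀ ℝ) (w : I Γ) : (T x : lp (fun _ : I Γ => ℝ) ∞) w = P w.1 x := by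
  unfold T P
  rw [Finsupp.linearCombination_apply, Finsupp.linearCombination_apply, Finsupp.sum, Finsupp.sum]
  rw [lp.coeFn_sum, Finset.sum_apply]
  rfl

lemma abs_P_le (w : I Γ) (x : ℕ × Γ →₀ ℝ) : |P w.1 x| ≤ ‖T x‖ := by
  rw [← T_apply, ← Real.norm_eq_abs]
  exact lp.norm_apply_le_norm (by simp) _ _

lemma exists_P_near (x : ℕ × Γ →₀ ℝ) (ε : ℝ) (hε : 0 < ε) : ∃ w : I Γ, ‖T x‖ - ε < |P w.1 x| := by
  by_contra hcon
  push Not at hcon
  have : ‖T x‖ ≤ ‖T x‖ - ε := by
    apply lp.norm_le_of_forall_le'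
    intro w
    rw [T_apply, Real.norm_eq_abs]
    exact hcon w
  linarith

lemma T_le (x : ℕ × Γ →₀ ℝ) (C : ℝ) (h : ∀ w : I Γ, |P w.1 x| ≤ C) : ‖T x‖ ≤ C := by
  apply lp.norm_le_of_forall_le'
  intro w
  rw [T_apply, Real.norm_eq_abs]
  exact h w

/-- coordinates are bounded by the norm -/
lemma coord_le (x : ℕ × Γ →₀ ℝ) (p : ℕ × Γ) : |x p| ≤ ‖T x‖ := by
  classical
  set w : I Γ := ⟨Function.update (fun _ => 0) p.1 (Finsupp.single p.2 1), by
    intro k
    by_cases hk : k = p.1
    · subst hk; rw [Function.update_self]; exact W.single _ _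
    · rw [Function.update_of_ne hk]; exact W.zero⟩ with hw
  have h := abs_P_le w x
  have h2 : P w.1 x = x p := by
    have hval : ∀ q : ℕ × Γ, w.1 q.1 q.2 = if q = p then 1 else 0 := by
      intro q
      simp only [hw]
      by_cases hq1 : q.1 = p.1
      · rw [hq1, Function.update_self]
        by_cases hq2 : q.2 = p.2
        · rw [hq2, Finsupp.single_eq_same, if_pos (Prod.ext hq1 hq2)]
        · rw [Finsupp.single_eq_of_ne hq2, if_neg (fun h => hq2 (by rw [h]))]
      · rw [Function.update_of_ne hq1, if_neg (fun h => hq1 (by rw [h]))]; rfl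
    rw [P_apply]
    simp only [hval, mul_ite, mul_one, mul_zero]
    rw [Finset.sum_ite_eq']
    split_ifs with hp
    · rfl
    · exact (Finsupp.notMem_support_iff.1 hp).symm
  rwa [h2] at h

/-- upper estimate -/
lemma T_upper (K : ℕ) (x : ℕ × Γ →₀ ℝ) (hx : ∀ p ∈ x.support, p.1 < K) (M : ℝ) (hM : 0 ≤ M)
    (hxM : ∀ p, |x p| ≤ M) : ‖T x‖ ≤ (∑ k ∈ Finset.range K, (1 - rad k)⁻¹) * M := by
  classical
  apply T_le
  intro w
  rw [P_apply]
  refine (Finset.abs_sum_le_sum_abs _ _).trans ?_
  set S : Finset Γ := x.support.image Prod.snd with hS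
  have hsub : x.support ⊆ Finset.range K ×ˢ S := by
    intro p hp
    rw [Finset.mem_product, Finset.mem_range]
    exact ⟨hx p hp, Finset.mem_image_of_mem _ hp⟩
  calc ∑ p ∈ x.support, |x p * w.1 p.1 p.2|
      ≤ ∑ p ∈ Finset.range K ×ˢ S, |x p * w.1 p.1 p.2| :=
        Finset.sum_le_sum_of_subset_of_nonneg hsub fun _ _ _ => abs_nonneg _
    _ ≤ ∑ p ∈ Finset.range K ×ˢ S, M * |w.1 p.1 p.2| := by
        apply Finset.sum_le_sum
        intro p _
        rw [abs_mul]
        exact mul_le_mul_of_nonneg_right (hxM p) (abs_nonneg _)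
    _ = ∑ k ∈ Finset.range K, ∑ α ∈ S, M * |w.1 k α| := by rw [Finset.sum_product]
    _ ≤ ∑ k ∈ Finset.range K, M * (1 - rad k)⁻¹ := by
        apply Finset.sum_le_sum
        intro k _
        rw [← Finset.mul_sum]
        gcongr
        refine le_trans ?_ ((w.2 k).n1_le (rad_nonneg k) (rad_lt k))
        rw [n1_eq (w.1 k) (S ∪ (w.1 k).support) Finset.subset_union_right]
        exact Finset.sum_le_sum_of_subset_of_nonneg Finset.subset_union_left
          fun _ _ _ => abs_nonneg _
    _ = (∑ k ∈ Finset.range K, (1 - rad k)⁻¹) * M := by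
        rw [Finset.sum_mul]
        apply Finset.sum_congr rfl
        intro _ _; ring

/-- The functional with the `k`-th coordinate replaced. -/
lemma P_update_rest (w : ℕ → (Γ →₀ ℝ)) (k : ℕ) (u : Γ →₀ ℝ) (x : ℕ × Γ →₀ ℝ)
    (hx : ∀ p ∈ x.support, p.1 ≠ k) : P (Function.update w k u) x = P w x := by
  rw [P_apply, P_apply]
  apply Finset.sum_congr rfl
  intro p hp
  rw [Function.update_of_ne (hx p hp)]

lemma P_row (w : ℕ → (Γ →₀ ℝ)) (k : ℕ) (x : ℕ × Γ →₀ ℝ)
    (hx : ∀ p ∈ x.support, p.1 = k) : P w x = ∑ p ∈ x.support, x p * w k p.2 := by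
  rw [P_apply]
  apply Finset.sum_congr rfl
  intro p hp
  rw [hx p hp]

/-- The basic lower estimate. -/
theorem T_lower (k : ℕ) (β : Γ) (x : ℕ × Γ →₀ ℝ) (hx : ∀ p ∈ x.support, p.2 < β) (c : ℝ) :
    rad k * (|c| + ‖T x‖) ≤ ‖T (c • Finsupp.single (k, β) 1 + x)‖ := by
  classical
  apply le_of_forall_pos_sub_le
  intro ε hε
  obtain ⟨w, hw⟩ := exists_P_near x ε hε
  set r := rad k with hr
  have hr0 : 0 ≤ r := rad_nonneg k
  have hr1 : r < 1 := rad_lt k
  obtain ⟨w', t, hw', ht0, ht1, hsupp, heq⟩ := (w.2 k).restrict (rad_nonneg k) (rad_lt k) β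
  set x1 := x.filter (fun p => p.1 = k) with hx1
  set x2 := x.filter (fun p => ¬ p.1 = k) with hx2
  have hx12 : x1 + x2 = x := Finsupp.filter_add_filter_not x _
  have hx1s : ∀ p ∈ x1.support, p.1 = k := by
    intro p hp
    rw [hx1, Finsupp.support_filter, Finset.mem_filter] at hp
    exact hp.2
  have hx1b : ∀ p ∈ x1.support, p.2 < β := by
    intro p hp
    rw [hx1, Finsupp.support_filter, Finset.mem_filter] at hp
    exact hx p hp.1
  have hx2s : ∀ p ∈ x2.support, p.1 ≠ k := by
    intro p hp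
    rw [hx2, Finsupp.support_filter, Finset.mem_filter] at hp
    exact hp.2
  set A := P w.1 x2 with hA
  set B := ∑ p ∈ x1.support, x1 p * w' p.2 with hB
  have hPw : P w.1 x = A + t * B := by
    rw [← hx12, map_add, P_row w.1 k x1 hx1s, add_comm]
    congr 1
    rw [hB, Finset.mul_sum]
    apply Finset.sum_congr rfl
    intro p hp
    rw [heq p.2 (hx1b p hp)]; ring
  -- signs
  have hsgn : ∀ a b : ℝ, ∃ s : ℝ, (s = 1 ∨ s = -1) ∧ |a + s * b| = |a| + |b| := by
    intro a b
    rcases le_total 0 (a * b) with h | h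
    · exact ⟨1, Or.inl rfl, by rw [one_mul]; exact (abs_add_eq_add_abs_iff a b).2 (by
        rcases le_total 0 a with ha | ha
        · rcases le_total 0 b with hb | hb
          · exact Or.inl ⟨ha, hb⟩
          · rcases eq_or_lt_of_le ha with h0 | h0
            · exact Or.inr ⟨h0.symm.le, hb⟩
            · have : b = 0 := le_antisymm hb (by
                by_contra hb'
                push Not at hb'
                nlinarith)
              exact Or.inl ⟨ha, this.symm.le⟩
        · rcases le_total 0 b with hb | hb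
          · rcases eq_or_lt_of_le ha with h0 | h0
            · exact Or.inl ⟨h0.symm.le, hb⟩
            · have : b = 0 := le_antisymm (by
                by_contra hb'
                push Not at hb'
                nlinarith) hb
              exact Or.inr ⟨ha, this.le⟩
          · exact Or.inr ⟨ha, hb⟩)⟩
    · refine ⟨-1, Or.inr rfl, ?_⟩
      have h2 : (-1) * b = -b := by ring
      rw [h2, ← abs_neg b]
      exact (abs_add_eq_add_abs_iff a (-b)).2 (by
        rcases le_total 0 a with ha | ha
        · rcases le_total 0 b with hb | hb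
          · rcases eq_or_lt_of_le ha with h0 | h0
            · exact Or.inr ⟨h0.symm.le, by linarith⟩
            · have : b = 0 := le_antisymm (by
                by_contra hb'
                push Not at hb'
                nlinarith) hb
              exact Or.inl ⟨ha, by linarith⟩
          · exact Or.inl ⟨ha, by linarith⟩
        · rcases le_total 0 b with hb | hb
          · exact Or.inr ⟨ha, by linarith⟩
          · rcases eq_or_lt_of_le ha with h0 | h0
            · exact Or.inl ⟨h0.symm.le, by linarith⟩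
            · have : b = 0 := le_antisymm hb (by
                by_contra hb'
                push Not at hb'
                nlinarith)
              exact Or.inr ⟨ha, by linarith⟩)
  obtain ⟨s, hs, hsA⟩ := hsgn A (r * B)
  obtain ⟨σ, hσ, hσA⟩ := hsgn (A + s * (r * B)) c
  -- the new functional
  have hsw' : W r (s • w') := by
    rcases hs with h | h
    · rw [h, one_smul]; exact hw'
    · rw [h, neg_one_smul]; exact hw'.neg
  have hsupp' : ∀ α ∈ (s • w').support, α < β := fun α hα => hsupp α (Finsupp.support_smul hα)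
  set u : Γ →₀ ℝ := r • (s • w') + Finsupp.single β σ with hu
  have huW : W r u := W.step (s • w') β σ hsw' hsupp' hσ
  set w2 : I Γ := ⟨Function.update w.1 k u, by
    intro j
    by_cases hj : j = k
    · subst hj; rw [Function.update_self]; exact huW
    · rw [Function.update_of_ne hj]; exact w.2 j⟩ with hw2
  have hP : P w2.1 (c • Finsupp.single (k, β) 1 + x) = (A + s * (r * B)) + σ * c := by
    rw [← hx12, map_add, map_add]
    have e1 : P w2.1 x2 = A := P_update_rest w.1 k u x2 hx2s
    have e2 : P w2.1 x1 = s * (r * B) := by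
      rw [P_row w2.1 k x1 hx1s, hB, Finset.mul_sum, Finset.mul_sum]
      apply Finset.sum_congr rfl
      intro p hp
      have : w2.1 k p.2 = r * (s * w' p.2) := by
        simp only [hw2]
        rw [Function.update_self, hu, Finsupp.add_apply,
          Finsupp.single_eq_of_ne (hx1b p hp).ne, add_zero]
        rfl
      rw [this]; ring
    have e3 : P w2.1 (c • Finsupp.single (k, β) 1) = σ * c := by
      rw [map_smul]
      unfold P
      rw [Finsupp.linearCombination_single]
      have : w2.1 k β = σ := by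
        simp only [hw2]
        rw [Function.update_self, hu, Finsupp.add_apply, Finsupp.single_eq_same]
        have : (r • (s • w')) β = 0 := by
          have h0 : w' β = 0 := by
            by_contra h0
            exact lt_irrefl _ (hsupp β (Finsupp.mem_support_iff.2 h0))
          simp [h0]
        rw [this, zero_add]
      show c * (1 * w2.1 k β) = σ * c
      rw [this]; ring
    rw [e1, e2, e3]; ring
  have hfin := abs_P_le w2 (c • Finsupp.single (k, β) 1 + x)
  rw [hP, hσA, hsA] at hfin
  have hAB : |P w.1 x| ≤ |A| + |B| := by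
    rw [hPw]
    have h1 : |t * B| ≤ |B| := by
      rw [abs_mul, abs_of_nonneg ht0]
      calc t * |B| ≤ 1 * |B| := by gcongr
        _ = |B| := one_mul _
    have h2 := abs_add_le A (t * B)
    linarith
  rw [abs_mul, abs_of_nonneg hr0] at hfin
  have hc : 0 ≤ |c| := abs_nonneg _
  have hA0 : 0 ≤ |A| := abs_nonneg _
  have hB0 : 0 ≤ |B| := abs_nonneg _
  nlinarith

lemma T_single_norm (k : ℕ) (β : Γ) : ‖T (Finsupp.single (k, β) (1:ℝ))‖ = 1 := by
  apply le_antisymm
  · apply T_le
    intro w
    unfold P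
    rw [Finsupp.linearCombination_single, one_smul]
    exact (w.2 k).abs_le (rad_nonneg _) (rad_lt _) β
  · have := coord_le (Finsupp.single (k, β) (1:ℝ)) (k, β)
    rwa [Finsupp.single_eq_same, abs_one] at this

end Q98.KOct
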