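import Mathlib
import Pool.Agent.Q98.KOct2

set_option autoImplicit false
set_option linter.unusedSectionVars false

open Filter Topology Cardinal

open scoped ENNReal

namespace Q98.KOct

universe u

/-- small subsets of `κ⁺` are bounded -/
lemma bounded_of_small (κ : Cardinal.{u}) (hκ : ℵ₀ ≤ κ) (S : Set (Order.succ κ).ord.ToType)
    (hS : #S ≤ κ) : ∃ β, ∀ α ∈ S, α < β := by
  by_contra hcon
  push Not at hcon
  have hcov : (⋃ α : S, Set.Iic (α : (Order.succ κ).ord.ToType)) = Set.univ := by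
    rw [Set.eq_univ_iff_forall]
    intro β
    obtain ⟨α, hα, hβ⟩ := hcon β
    exact Set.mem_iUnion.2 ⟨⟨α, hα⟩, hβ⟩
  have h1 : ∀ α : (Order.succ κ).ord.ToType, #(Set.Iic α) ≤ κ := by
    intro α
    have h2 : #(Set.Iio α) < Order.succ κ := by simpa using mk_Iio_lt α (by simp)
    have h3 : #(Set.Iio α) ≤ κ := Order.lt_succ_iff.1 h2
    have h4 : (Set.Iic α) = insert α (Set.Iio α) := by
      ext x; simp [le_iff_eq_or_lt]
    rw [h4]
    refine (mk_insert_le).trans ?_
    calc #(Set.Iio α) + 1 ≤ κ + 1 := by gcongr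
      _ = κ := add_one_eq hκ
  have h5 : #(⋃ α : S, Set.Iic (α : (Order.succ κ).ord.ToType)) ≤ κ := by
    refine (mk_iUnion_le _).trans ?_
    calc #S * ⨆ i : S, #(Set.Iic (i : (Order.succ κ).ord.ToType)) ≤ κ * κ := by
          gcongr
          exact ciSup_le' fun i => h1 _
      _ = κ := mul_eq_self hκ
  rw [hcov, mk_univ, mk_ord_toType] at h5
  exact absurd h5 (not_le.2 (Order.lt_succ κ))

section Space

variable {Γ : Type u} [LinearOrder Γ]

variable (Γ) in
/-- The space. -/
noncomputable def X : Submodule ℝ (lp (fun _ : I Γ => ℝ) ∞) :=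
  (LinearMap.range (T (Γ := Γ))).topologicalClosure

instance : CompleteSpace (X Γ) :=
  (Submodule.isClosed_topologicalClosure _).completeSpace_coe

/-- synthesis into `X` -/
noncomputable def TX (x : ℕ × Γ →₀ ℝ) : X Γ :=
  ⟨T x, Submodule.le_topologicalClosure _ ⟨x, rfl⟩⟩

lemma norm_TX (x : ℕ × Γ →₀ ℝ) : ‖TX x‖ = ‖T x‖ := rfl

lemma TX_add (x y : ℕ × Γ →₀ ℝ) : TX (x + y) = TX x + TX y := by
  apply Subtype.ext; simp [TX]

lemma TX_smul (c : ℝ) (x : ℕ × Γ →₀ ℝ) : TX (c • x) = c • TX x := by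
  apply Subtype.ext; simp [TX]

/-- density -/
lemma exists_near (z : X Γ) (ε : ℝ) (hε : 0 < ε) : ∃ x : ℕ × Γ →₀ ℝ, ‖TX x - z‖ < ε := by
  have hz : (z : lp (fun _ : I Γ => ℝ) ∞) ∈
      closure ((LinearMap.range (T (Γ := Γ))) : Set (lp (fun _ : I Γ => ℝ) ∞)) := z.2
  obtain ⟨_, ⟨x, rfl⟩, hx⟩ := Metric.mem_closure_iff.1 hz ε hε
  refine ⟨x, ?_⟩
  rw [dist_comm, dist_eq_norm] at hx
  exact hx

/-- pigeonhole on a finite set of coordinates -/
lemma exists_close_pair {ι : Type*} (G : Set ι) (hG : G.Infinite) (x : ι → (ℕ × Γ →₀ ℝ)) (C : ℝ)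
    (hC0 : 0 ≤ C)
    (hC : ∀ g ∈ G, ∀ p, |x g p| ≤ C) (F : Finset (ℕ × Γ)) (δ : ℝ) (hδ : 0 < δ) (N : Finset ι) :
    ∃ g ∈ G, ∃ g' ∈ G, g ≠ g' ∧ g ∉ N ∧ g' ∉ N ∧ ∀ p ∈ F, |x g p - x g' p| < δ := by
  classical
  have hinf : (G \ (N : Set ι)).Infinite := hG.sdiff N.finite_toSet
  set f := hinf.natEmbedding with hf
  set v : ℕ → (F → ℝ) := fun n p => x (f n) p.1 with hv
  have hvb : ∀ n, v n ∈ Metric.closedBall (0 : F → ℝ) C := by
    intro n
    rw [mem_closedBall_zero_iff, pi_norm_le_iff_of_nonneg hC0]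
    intro p
    exact hC (f n) (f n).2.1 p.1
  obtain ⟨z, _, φ, hφ, hlim⟩ := (isCompact_closedBall (0 : F → ℝ) C).tendsto_subseq hvb
  have hc := hlim.cauchySeq
  rw [Metric.cauchySeq_iff] at hc
  obtain ⟨M, hM⟩ := hc δ hδ
  have h1 := hM M le_rfl (M + 1) (Nat.le_succ M)
  refine ⟨f (φ M), (f (φ M)).2.1, f (φ (M + 1)), (f (φ (M + 1))).2.1, ?_, ?_, ?_, ?_⟩
  · intro h
    have h2 : φ M = φ (M + 1) := f.injective (Subtype.ext h)
    exact absurd (hφ.injective h2) (by omega)
  · intro h; exact (f (φ M)).2.2 h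
  · intro h; exact (f (φ (M + 1))).2.2 h
  · intro p hp
    have h2 := lt_of_le_of_lt (dist_le_pi_dist _ _ (⟨p, hp⟩ : F)) h1
    rw [Real.dist_eq] at h2
    exact h2

lemma exists_comb {ι : Type*} (G : Set ι) (hG : G.Infinite) (x : ι → (ℕ × Γ →₀ ℝ)) (C : ℝ)
    (hC0 : 0 ≤ C) (hC : ∀ g ∈ G, ∀ p, |x g p| ≤ C) (δ : ℝ) (hδ : 0 < δ) (m : ℕ) :
    ∃ a : ι →₀ ℝ, (∀ i ∈ a.support, i ∈ G) ∧ (∑ i ∈ a.support, |a i|) = 2 * m ∧
      ∀ p, |(Finsupp.linearCombination ℝ x a) p| ≤ 2 * C + m * δ := by
  classical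
  induction m with
  | zero => exact ⟨0, by simp, by simp, fun p => by simpa using hC0⟩
  | succ m ih =>
    obtain ⟨a, ha1, ha2, ha3⟩ := ih
    obtain ⟨g, hg, g', hg', hne, hgN, hgN', hclose⟩ := exists_close_pair G hG x C hC0 hC
      (Finsupp.linearCombination ℝ x a).support δ hδ a.support
    have hag : a g = 0 := Finsupp.notMem_support_iff.1 hgN
    have hag' : a g' = 0 := Finsupp.notMem_support_iff.1 hgN'
    set b : ι →₀ ℝ := a + Finsupp.single g 1 - Finsupp.single g' 1 with hb
    have hsub : b.support ⊆ insert g (insert g' a.support) := by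
      intro i hi
      rw [Finsupp.mem_support_iff] at hi
      by_contra hcon
      simp only [Finset.mem_insert, not_or] at hcon
      apply hi
      rw [hb, Finsupp.sub_apply, Finsupp.add_apply, Finsupp.single_eq_of_ne hcon.1,
        Finsupp.single_eq_of_ne hcon.2.1, Finsupp.notMem_support_iff.1 hcon.2.2]
      simp
    refine ⟨b, ?_, ?_, ?_⟩
    · intro i hi
      have := hsub hi
      simp only [Finset.mem_insert] at this
      rcases this with h | h | h
      · rw [h]; exact hg
      · rw [h]; exact hg'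
      · exact ha1 i h
    · have h1 : (∑ i ∈ b.support, |b i|) = ∑ i ∈ insert g (insert g' a.support), |b i| := by
        apply Finset.sum_subset hsub
        intro i _ hi
        rw [Finsupp.notMem_support_iff.1 hi, abs_zero]
      have hgn : g ∉ insert g' a.support := by
        simp only [Finset.mem_insert, not_or]; exact ⟨hne, hgN⟩
      rw [h1, Finset.sum_insert hgn, Finset.sum_insert hgN']
      have e1 : b g = 1 := by
        rw [hb, Finsupp.sub_apply, Finsupp.add_apply, Finsupp.single_eq_same,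
          Finsupp.single_eq_of_ne hne, hag]; simp
      have e2 : b g' = -1 := by
        rw [hb, Finsupp.sub_apply, Finsupp.add_apply, Finsupp.single_eq_same,
          Finsupp.single_eq_of_ne hne.symm, hag']; simp
      have e3 : ∑ i ∈ a.support, |b i| = ∑ i ∈ a.support, |a i| := by
        apply Finset.sum_congr rfl
        intro i hi
        have h1 : i ≠ g := fun h => hgN (h ▸ hi)
        have h2 : i ≠ g' := fun h => hgN' (h ▸ hi)
        rw [hb, Finsupp.sub_apply, Finsupp.add_apply, Finsupp.single_eq_of_ne h1,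
          Finsupp.single_eq_of_ne h2]; simp
      rw [e1, e2, e3, ha2]
      push_cast
      norm_num
      ring
    · intro p
      have hL : (Finsupp.linearCombination ℝ x b) p =
          (Finsupp.linearCombination ℝ x a) p + (x g p - x g' p) := by
        rw [hb, map_sub, map_add, Finsupp.linearCombination_single,
          Finsupp.linearCombination_single, one_smul, one_smul, Finsupp.sub_apply,
          Finsupp.add_apply]
        ring
      rw [hL]
      push_cast
      by_cases hp : p ∈ (Finsupp.linearCombination ℝ x a).support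
      · have h1 := ha3 p
        have h2 := hclose p hp
        have h3 := abs_add_le ((Finsupp.linearCombination ℝ x a) p) (x g p - x g' p)
        linarith
      · rw [Finsupp.notMem_support_iff.1 hp, zero_add]
        have h1 := hC g hg p
        have h2 := hC g' hg' p
        have h3 := abs_sub (x g p) (x g' p)
        have h4 : (0:ℝ) ≤ m := Nat.cast_nonneg m
        nlinarith

/-- No uncountable `ℓ₁` inside `X`. -/
theorem no_l1 (ι : Type*) [Uncountable ι] (S : lp (fun _ : ι => ℝ) 1 →L[ℝ] X Γ) (c : ℝ)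
    (hc : 0 < c) (hS : ∀ f, c * ‖f‖ ≤ ‖S f‖) : False := by
  classical
  have h0 : ∀ i : ι, ∃ x : ℕ × Γ →₀ ℝ, ‖TX x - S (lp.single 1 i 1)‖ < c / 2 := fun i =>
    exists_near _ _ (by positivity)
  choose x hx using h0
  set K : ι → ℕ := fun i => (x i).support.sup Prod.fst + 1 with hK
  obtain ⟨k, hk⟩ : ∃ k, (K ⁻¹' {k}).Infinite := by
    by_contra hcon
    push Not at hcon
    have h1 : (Set.univ : Set ι) = ⋃ k, K ⁻¹' {k} := by
      ext i; simp
    have h2 : (Set.univ : Set ι).Countable := by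
      rw [h1]
      exact Set.countable_iUnion fun k => (hcon k).countable
    rw [Set.countable_univ_iff] at h2
    exact absurd h2 (not_countable)
  set G : Set ι := K ⁻¹' {k}
  set C : ℝ := ‖S‖ + c / 2 with hCdef
  have hC0 : 0 ≤ C := by positivity
  have hsn : ∀ i : ι, ‖(lp.single 1 i 1 : lp (fun _ : ι => ℝ) 1)‖ = 1 := by
    intro i
    rw [lp.norm_single (by norm_num)]; simp
  have hC : ∀ g ∈ G, ∀ p, |x g p| ≤ C := by
    intro g _ p
    refine (coord_le (x g) p).trans ?_
    have h1 : ‖TX (x g)‖ ≤ ‖S (lp.single 1 g 1)‖ + ‖TX (x g) - S (lp.single 1 g 1)‖ := by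
      have := norm_add_le (S (lp.single 1 g 1)) (TX (x g) - S (lp.single 1 g 1))
      rwa [add_sub_cancel] at this
    have h2 := S.le_opNorm (lp.single 1 g 1)
    rw [hsn, mul_one] at h2
    have h3 := (hx g).le
    rw [norm_TX] at h1
    linarith
  set CK : ℝ := ∑ k ∈ Finset.range k, (1 - rad k)⁻¹ with hCK
  have hCK0 : 0 ≤ CK := Finset.sum_nonneg fun j _ => by
    have := rad_lt j
    have h1 : 0 < 1 - rad j := by linarith
    positivity
  set δ : ℝ := c / (2 * (CK + 1)) with hδ
  have hδ0 : 0 < δ := by positivity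
  obtain ⟨m, hm⟩ := exists_nat_gt (4 * C * CK / c)
  obtain ⟨a, ha1, ha2, ha3⟩ := exists_comb G hk x C hC0 hC δ hδ0 m
  -- upper bound
  have hup : ‖T (Finsupp.linearCombination ℝ x a)‖ ≤ CK * (2 * C + m * δ) := by
    apply T_upper k _ _ _ (by positivity) ha3
    intro p hp
    by_contra hge
    rw [Finsupp.mem_support_iff] at hp
    apply hp
    rw [Finsupp.linearCombination_apply, Finsupp.sum, Finsupp.finsetSum_apply]
    apply Finset.sum_eq_zero
    intro i hi
    have hiG : K i = k := ha1 i hi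
    have : x i p = 0 := by
      by_contra hne
      have h1 : p.1 ≤ (x i).support.sup Prod.fst :=
        Finset.le_sup (f := Prod.fst) (Finsupp.mem_support_iff.2 hne)
      simp only [hK] at hiG
      omega
    rw [Finsupp.smul_apply, this, smul_zero]
  -- lower bound
  have hTL : TX (Finsupp.linearCombination ℝ x a) = ∑ i ∈ a.support, a i • TX (x i) := by
    apply Subtype.ext
    show T (Finsupp.linearCombination ℝ x a) = _
    rw [Finsupp.linearCombination_apply, Finsupp.sum, map_sum, Submodule.coe_sum]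
    apply Finset.sum_congr rfl
    intro i _
    rw [map_smul]; rfl
  set f : lp (fun _ : ι => ℝ) 1 := ∑ i ∈ a.support, lp.single 1 i (a i) with hf
  have hfn : ‖f‖ = 2 * m := by
    have := lp.norm_sum_single (p := 1) (by norm_num) (fun i : ι => a i) a.support
    simp only [ENNReal.toReal_one, Real.rpow_one] at this
    rw [← hf] at this
    rw [this, ← ha2]
    rfl
  have hSf : S f = ∑ i ∈ a.support, a i • S (lp.single 1 i 1) := by
    rw [hf, map_sum]
    apply Finset.sum_congr rfl
    intro i _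
    rw [← map_smul]
    congr 1
    rw [← lp.single_smul]; simp
  have hlow : c * m ≤ ‖T (Finsupp.linearCombination ℝ x a)‖ := by
    have h1 : ‖S f - TX (Finsupp.linearCombination ℝ x a)‖ ≤ c * m := by
      rw [hSf, hTL, ← Finset.sum_sub_distrib]
      calc ‖∑ i ∈ a.support, (a i • S (lp.single 1 i 1) - a i • TX (x i))‖
          ≤ ∑ i ∈ a.support, ‖a i • S (lp.single 1 i 1) - a i • TX (x i)‖ := norm_sum_le _ _
        _ ≤ ∑ i ∈ a.support, |a i| * (c / 2) := by
            apply Finset.sum_le_sum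
            intro i _
            rw [← smul_sub, norm_smul, Real.norm_eq_abs, norm_sub_rev]
            exact mul_le_mul_of_nonneg_left (hx i).le (abs_nonneg _)
        _ = c * m := by rw [← Finset.sum_mul, ha2]; ring
    have h2 := hS f
    rw [hfn] at h2
    have h3 : ‖S f‖ ≤ ‖TX (Finsupp.linearCombination ℝ x a)‖ +
        ‖S f - TX (Finsupp.linearCombination ℝ x a)‖ := by
      have := norm_add_le (TX (Finsupp.linearCombination ℝ x a))
        (S f - TX (Finsupp.linearCombination ℝ x a))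
      rwa [add_sub_cancel] at this
    rw [norm_TX] at h3
    linarith
  have hδC : CK * δ ≤ c / 2 := by
    rw [hδ]
    rw [mul_div_assoc', div_le_div_iff₀ (by positivity) (by positivity)]
    nlinarith
  have hm' : 4 * C * CK < m * c := by
    rwa [div_lt_iff₀ hc] at hm
  have hm0 : (0:ℝ) ≤ m := Nat.cast_nonneg m
  nlinarith

end Space

lemma isClosed_oct {E : Type*} [NormedAddCommGroup E] [NormedSpace ℝ E] (r c : ℝ) (z : E) :
    IsClosed {y : E | r * (|c| + ‖y‖) ≤ ‖c • z + y‖} :=
  isClosed_le (continuous_const.mul (continuous_const.add continuous_norm))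
    ((continuous_const.add continuous_id).norm)

/-- The octahedral property. -/
theorem octahedral (κ : Cardinal.{u}) (hκ : ℵ₀ ≤ κ) (ε : ℝ) (hε : 0 < ε)
    (Y : Submodule ℝ (X (Order.succ κ).ord.ToType))
    (D : Set (X (Order.succ κ).ord.ToType)) (hD : #D ≤ κ) (hYD : (Y : Set _) ⊆ closure D) :
    ∃ z : X (Order.succ κ).ord.ToType, ‖z‖ = 1 ∧ ∀ c : ℝ, ∀ y ∈ Y,
      (1 - ε) * (|c| + ‖y‖) ≤ ‖c • z + y‖ := by
  classical
  have h0 : ∀ (q : D × ℕ), ∃ x : ℕ × (Order.succ κ).ord.ToType →₀ ℝ,
      ‖TX x - q.1‖ < 1 / ((q.2 : ℝ) + 1) := fun q => exists_near _ _ (by positivity)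
  choose x hx using h0
  obtain ⟨β, hβ⟩ := bounded_of_small κ hκ
    (⋃ q : D × ULift.{u} ℕ, (((x (q.1, q.2.down)).support.image Prod.snd :
      Finset (Order.succ κ).ord.ToType) : Set (Order.succ κ).ord.ToType)) (by
    refine (mk_iUnion_le _).trans ?_
    calc #(D × ULift.{u} ℕ) * ⨆ q : D × ULift.{u} ℕ, #((((x (q.1, q.2.down)).support.image Prod.snd :
            Finset (Order.succ κ).ord.ToType) : Set (Order.succ κ).ord.ToType))
          ≤ κ * κ := by
          gcongr
          · rw [mk_prod, lift_id, lift_id]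
            calc #D * #(ULift.{u} ℕ) ≤ κ * κ := by
                  gcongr
                  simpa using hκ
              _ = κ := mul_eq_self hκ
          · refine ciSup_le' fun q => ?_
            exact ((Finset.countable_toSet _).le_aleph0).trans hκ
      _ = κ := mul_eq_self hκ)
  obtain ⟨k, hk⟩ := exists_nat_one_div_lt hε
  refine ⟨TX (Finsupp.single (k, β) 1), T_single_norm k β, fun c y hy => ?_⟩
  have hr : 1 - ε ≤ rad k := by unfold rad; linarith
  -- closedness argument
  have hclosed : IsClosed {y : X (Order.succ κ).ord.ToType |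
      rad k * (|c| + ‖y‖) ≤ ‖c • TX (Finsupp.single (k, β) 1) + y‖} :=
    isClosed_oct _ _ _
  have hmem : ∀ q : D × ℕ, TX (x q) ∈ {y : X (Order.succ κ).ord.ToType |
      rad k * (|c| + ‖y‖) ≤ ‖c • TX (Finsupp.single (k, β) 1) + y‖} := by
    intro q
    show rad k * (|c| + ‖TX (x q)‖) ≤ ‖c • TX (Finsupp.single (k, β) 1) + TX (x q)‖
    rw [← TX_smul, ← TX_add, norm_TX, norm_TX]
    apply T_lower
    intro p hp
    apply hβ
    rw [Set.mem_iUnion]
    exact ⟨(q.1, ⟨q.2⟩), Finset.mem_coe.2 (Finset.mem_image_of_mem _ hp)⟩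
  have hDsub : D ⊆ {y : X (Order.succ κ).ord.ToType |
      rad k * (|c| + ‖y‖) ≤ ‖c • TX (Finsupp.single (k, β) 1) + y‖} := by
    intro d hd
    apply hclosed.mem_of_tendsto (f := fun n : ℕ => TX (x (⟨d, hd⟩, n))) (b := atTop)
    · rw [tendsto_iff_norm_sub_tendsto_zero]
      refine squeeze_zero (fun _ => norm_nonneg _) (fun n => (hx (⟨d, hd⟩, n)).le) ?_
      exact tendsto_one_div_add_atTop_nhds_zero_nat
    · exact Eventually.of_forall fun n => hmem _
  have hyin : rad k * (|c| + ‖y‖) ≤ ‖c • TX (Finsupp.single (k, β) 1) + y‖ :=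
    (hclosed.closure_subset_iff.2 hDsub) (hYD hy)
  refine le_trans ?_ hyin
  gcongr

end Q98.KOct
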