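import Mathlib

/-! `ℓ_∞` has no locally uniformly rotund renorming. -/

set_option autoImplicit false

open Filter Topology

open scoped ENNReal

namespace Q98.LU

/-- Hahn–Banach for seminorms -/
lemma exists_dominated {E : Type*} [AddCommGroup E] [Module ℝ E] (p : Seminorm ℝ E) (z : E) :
    ∃ ψ : E →ₗ[ℝ] ℝ, (∀ w, |ψ w| ≤ p w) ∧ ψ z = p z := by
  rcases eq_or_ne z 0 with rfl | hz
  · exact ⟨0, fun w => by simp, by simp⟩
  · obtain ⟨g, hg1, hg2⟩ := exists_extension_of_le_sublinear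
      (LinearPMap.mkSpanSingleton (K := ℝ) z (p z) hz) p
      (fun c hc z => by rw [map_smul_eq_mul, Real.norm_eq_abs, abs_of_pos hc])
      (fun z w => map_add_le_add p z w) (by
        rintro ⟨w, hw⟩
        obtain ⟨c, rfl⟩ := Submodule.mem_span_singleton.1 hw
        rw [LinearPMap.mkSpanSingleton'_apply, map_smul_eq_mul, smul_eq_mul]
        exact mul_le_mul_of_nonneg_right (le_abs_self c) (apply_nonneg _ _))
    refine ⟨g, fun w => ?_, ?_⟩
    · rw [abs_le]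
      constructor
      · have := hg2 (-w)
        rw [map_neg, map_neg_eq_map] at this
        linarith
      · exact hg2 w
    · have h1 := hg1 ⟨z, Submodule.mem_span_singleton_self _⟩
      rw [LinearPMap.mkSpanSingleton_apply] at h1
      exact h1

variable (𝕜 : Type*) [RCLike 𝕜]

/-- the space of bounded sequences -/
abbrev Y : Type _ := lp (fun _ : ℕ => 𝕜) ∞

variable {𝕜}

lemma norm_apply_le (y : Y 𝕜) (i : ℕ) : ‖y i‖ ≤ ‖y‖ :=
  lp.norm_apply_le_norm ENNReal.top_ne_zero y i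

/-- a bounded sequence from its entries -/
def mkY (f : ℕ → 𝕜) {C : ℝ} (h : ∀ i, ‖f i‖ ≤ C) : Y 𝕜 :=
  ⟨f, memℓp_infty ⟨C, by rintro _ ⟨i, rfl⟩; exact h i⟩⟩

@[simp] lemma mkY_apply (f : ℕ → 𝕜) {C : ℝ} (h : ∀ i, ‖f i‖ ≤ C) (i : ℕ) : mkY f h i = f i := rfl

lemma norm_mkY_le (f : ℕ → 𝕜) {C : ℝ} (h : ∀ i, ‖f i‖ ≤ C) : ‖mkY f h‖ ≤ C :=
  lp.norm_le_of_forall_le ((norm_nonneg _).trans (h 0)) h

/-- A bounded functional is small on an infinite block of coordinates. -/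
lemma exists_small (g : Y 𝕜 →ₗ[ℝ] ℝ) {C : ℝ} (hC : ∀ y, |g y| ≤ C * ‖y‖) {A : Set ℕ}
    (hA : A.Infinite) {ε : ℝ} (hε : 0 < ε) :
    ∃ A' ⊆ A, A'.Infinite ∧ ∀ w : Y 𝕜, (∀ i ∉ A', w i = 0) → |g w| ≤ ε * ‖w‖ := by
  classical
  obtain ⟨K, hK⟩ := exists_nat_gt (C / ε)
  have hK' : C < ε * K := by
    rw [div_lt_iff₀ hε] at hK; linarith
  have hC0 : 0 ≤ C := by
    have h1 := hC (lp.single ∞ 0 1)
    have h2 : ‖(lp.single ∞ 0 (1 : 𝕜) : Y 𝕜)‖ = 1 := by
      rw [lp.norm_single (by simp), norm_one]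
    rw [h2, mul_one] at h1
    exact (abs_nonneg _).trans h1
  have hK0 : 0 < K := by
    rcases Nat.eq_zero_or_pos K with h | h
    · rw [h] at hK'; simp at hK'; linarith
    · exact h
  let e : ℕ ↪ A := hA.natEmbedding
  have he : Function.Injective fun n => ((e n : A) : ℕ) := fun a b h => e.injective (Subtype.ext h)
  let P : ℕ → Set ℕ := fun j => (fun n => ((e n : A) : ℕ)) '' {n | n % K = j}
  have hPinf : ∀ j < K, (P j).Infinite := by
    intro j hj
    refine Set.Infinite.image (he.injOn) ?_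
    have : Set.range (fun m : ℕ => K * m + j) ⊆ {n | n % K = j} := by
      rintro _ ⟨m, rfl⟩
      show (K * m + j) % K = j
      rw [Nat.mul_add_mod, Nat.mod_eq_of_lt hj]
    refine (Set.infinite_range_of_injective ?_).mono this
    intro a b h
    have h' : K * a + j = K * b + j := h
    have : K * a = K * b := by omega
    exact Nat.eq_of_mul_eq_mul_left hK0 this
  have hPdisj : ∀ j j' i, i ∈ P j → i ∈ P j' → j = j' := by
    rintro j j' i ⟨n, hn, rfl⟩ ⟨n', hn', h⟩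
    have : n' = n := he h
    subst this
    exact hn.symm.trans hn'
  by_contra hcon
  push Not at hcon
  have h1 : ∀ j : ℕ, ∃ w : Y 𝕜, j < K → (∀ i ∉ P j, w i = 0) ∧ ‖w‖ ≤ 1 ∧ ε ≤ g w := by
    intro j
    by_cases hj : j < K
    · obtain ⟨w, hw, hgw⟩ := hcon (P j) (by rintro _ ⟨n, -, rfl⟩; exact (e n).2) (hPinf j hj)
      have hw0 : w ≠ 0 := by
        rintro rfl
        simp at hgw
      have hn : 0 < ‖w‖ := norm_pos_iff.2 hw0
      rcases le_or_gt 0 (g w) with hg | hg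
      · rw [abs_of_nonneg hg] at hgw
        refine ⟨‖w‖⁻¹ • w, fun _ => ⟨fun i hi => ?_, ?_, ?_⟩⟩
        · rw [lp.coeFn_smul, Pi.smul_apply, hw i hi, smul_zero]
        · rw [norm_smul, norm_inv, norm_norm, inv_mul_cancel₀ hn.ne']
        · rw [map_smul, smul_eq_mul, ← div_eq_inv_mul, le_div_iff₀ hn]
          exact hgw.le
      · rw [abs_of_neg hg] at hgw
        refine ⟨(-‖w‖⁻¹) • w, fun _ => ⟨fun i hi => ?_, ?_, ?_⟩⟩
        · rw [lp.coeFn_smul, Pi.smul_apply, hw i hi, smul_zero]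
        · rw [norm_smul, norm_neg, norm_inv, norm_norm, inv_mul_cancel₀ hn.ne']
        · rw [map_smul, smul_eq_mul, neg_mul, ← mul_neg, ← div_eq_inv_mul, le_div_iff₀ hn]
          exact hgw.le
    · exact ⟨0, fun h => absurd h hj⟩
  choose w hw using h1
  set W : Y 𝕜 := ∑ j ∈ Finset.range K, w j with hW
  have hWi : ∀ i, W i = ∑ j ∈ Finset.range K, w j i := by
    intro i
    rw [hW, lp.coeFn_sum, Finset.sum_apply]
  have hW1 : ‖W‖ ≤ 1 := by
    refine lp.norm_le_of_forall_le zero_le_one fun i => ?_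
    rw [hWi]
    by_cases hi : ∃ j < K, i ∈ P j
    · obtain ⟨j, hj, hij⟩ := hi
      rw [Finset.sum_eq_single j]
      · exact (norm_apply_le _ _).trans (hw j hj).2.1
      · intro j' hj' hne
        exact (hw j' (Finset.mem_range.1 hj')).1 i fun h => hne (hPdisj _ _ i h hij)
      · intro h; exact absurd (Finset.mem_range.2 hj) h
    · push Not at hi
      rw [Finset.sum_eq_zero]
      · simp
      · intro j hj
        exact (hw j (Finset.mem_range.1 hj)).1 i (hi j (Finset.mem_range.1 hj))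
  have h2 : ε * K ≤ g W := by
    rw [hW, map_sum]
    have : ∑ j ∈ Finset.range K, ε ≤ ∑ j ∈ Finset.range K, g (w j) :=
      Finset.sum_le_sum fun j hj => (hw j (Finset.mem_range.1 hj)).2.2
    rw [Finset.sum_const, Finset.card_range, nsmul_eq_mul] at this
    linarith
  have h3 := (le_abs_self _).trans (hC W)
  have h4 : C * ‖W‖ ≤ C := mul_le_of_le_one_right hC0 hW1
  linarith

/-- the ball elements which agree with `x` off `A` -/
def S (x : Y 𝕜) (A : Set ℕ) : Set (Y 𝕜) := {y | ‖y‖ ≤ 1 ∧ ∀ i ∉ A, y i = x i}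

/-- one step of the construction -/
lemma step (N : Seminorm ℝ (Y 𝕜)) {b : ℝ} (hb : ∀ y, N y ≤ b * ‖y‖) (x : Y 𝕜) (hx : ‖x‖ ≤ 1)
    {A : Set ℕ} (hA : A.Infinite) (n : ℕ) {ε : ℝ} (hε : 0 < ε) :
    ∃ (x' : Y 𝕜) (A' : Set ℕ), x' ∈ S x A ∧ A' ⊆ A ∧ A'.Infinite ∧ (∀ i ∈ A', n ≤ i) ∧
      (∀ y ∈ S x A, N y ≤ N x' + ε) ∧
      (∀ y ∈ S x' A', ∀ y' ∈ S x' A', 2 * N x' - ε ≤ N (y + y')) := by
  have hb0 : 0 ≤ b := by
    have h1 := hb (lp.single ∞ 0 1)
    have h2 : ‖(lp.single ∞ 0 (1 : 𝕜) : Y 𝕜)‖ = 1 := by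
      rw [lp.norm_single (by simp), norm_one]
    rw [h2, mul_one] at h1
    exact (apply_nonneg _ _).trans h1
  have hne : (N '' S x A).Nonempty := ⟨N x, x, ⟨hx, fun _ _ => rfl⟩, rfl⟩
  have hbd : BddAbove (N '' S x A) := by
    refine ⟨b, ?_⟩
    rintro _ ⟨y, hy, rfl⟩
    exact (hb y).trans (mul_le_of_le_one_right hb0 hy.1)
  obtain ⟨_, ⟨x', hx', rfl⟩, hx'2⟩ := exists_lt_of_lt_csSup hne
    (show sSup (N '' S x A) - ε < sSup (N '' S x A) by linarith)
  obtain ⟨g, hg1, hg2⟩ := exists_dominated N x'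
  have hA2 : (A \ Set.Iio n).Infinite := hA.sdiff (Set.finite_Iio n)
  obtain ⟨A', hA', hA'inf, hA'g⟩ := exists_small g (fun y => (hg1 y).trans (hb y)) hA2
    (show 0 < ε / 4 by positivity)
  refine ⟨x', A', hx', hA'.trans Set.sdiff_subset, hA'inf, fun i hi => ?_, fun y hy => ?_,
    fun y hy y' hy' => ?_⟩
  · have := (hA' hi).2
    simpa using this
  · have := le_csSup hbd ⟨y, hy, rfl⟩
    linarith
  · have key : ∀ y ∈ S x' A', N x' - ε / 2 ≤ g y := by
      intro y hy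
      have h1 := hA'g (y - x') fun i hi => by
        rw [lp.coeFn_sub, Pi.sub_apply, hy.2 i hi, sub_self]
      have h2 : ‖y - x'‖ ≤ 2 := (norm_sub_le _ _).trans (by linarith [hy.1, hx'.1])
      have h3 : ε / 4 * ‖y - x'‖ ≤ ε / 4 * 2 := mul_le_mul_of_nonneg_left h2 (by positivity)
      have h4 := (abs_le.1 h1).1
      rw [map_sub, hg2] at h4
      linarith
    have h1 := key y hy
    have h2 := key y' hy'
    have h3 := (le_abs_self _).trans (hg1 (y + y'))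
    rw [map_add] at h3
    linarith

/-- **Failure of local uniform rotundity.** -/
theorem exists_bad (N : Seminorm ℝ (Y 𝕜)) {b : ℝ} (hb : ∀ y, N y ≤ b * ‖y‖) :
    ∃ (x : Y 𝕜) (z : ℕ → Y 𝕜), (∀ n, 1 ≤ ‖z n - x‖) ∧ Tendsto (fun n => N (z n)) atTop (𝓝 (N x)) ∧
      Tendsto (fun n => N (z n + x)) atTop (𝓝 (2 * N x)) := by
  classical
  -- the sequence
  let St : Type _ := {q : Y 𝕜 × Set ℕ // ‖q.1‖ ≤ 1 ∧ q.2.Infinite}
  have hstep : ∀ (n : ℕ) (q : St), ∃ q' : St, q'.1.1 ∈ S q.1.1 q.1.2 ∧ q'.1.2 ⊆ q.1.2 ∧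
      (∀ i ∈ q'.1.2, n + 1 ≤ i) ∧
      (∀ y ∈ S q.1.1 q.1.2, N y ≤ N q'.1.1 + 1 / ((n : ℝ) + 1)) ∧
      (∀ y ∈ S q'.1.1 q'.1.2, ∀ y' ∈ S q'.1.1 q'.1.2,
        2 * N q'.1.1 - 1 / ((n : ℝ) + 1) ≤ N (y + y')) := by
    intro n q
    obtain ⟨x', A', h1, h2, h3, h4, h5, h6⟩ := step N hb q.1.1 q.2.1 q.2.2 (n + 1)
      (show 0 < 1 / ((n : ℝ) + 1) by positivity)
    exact ⟨⟨(x', A'), h1.1, h3⟩, h1, h2, h4, h5, h6⟩
  choose F hF using hstep
  let q : ℕ → St := fun n => Nat.rec ⟨(0, Set.univ), by simp, Set.infinite_univ⟩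
    (fun n q => F n q) n
  have hq : ∀ n, q (n + 1) = F n (q n) := fun n => rfl
  set X : ℕ → Y 𝕜 := fun n => (q n).1.1 with hX
  set A : ℕ → Set ℕ := fun n => (q n).1.2 with hAdef
  have hXS : ∀ n, X (n + 1) ∈ S (X n) (A n) := fun n => (hF n (q n)).1
  have hAsub : ∀ n, A (n + 1) ⊆ A n := fun n => (hF n (q n)).2.1
  have hAmin : ∀ n, ∀ i ∈ A (n + 1), n + 1 ≤ i := fun n => (hF n (q n)).2.2.1
  have hsup : ∀ n, ∀ y ∈ S (X n) (A n), N y ≤ N (X (n + 1)) + 1 / ((n : ℝ) + 1) :=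
    fun n => (hF n (q n)).2.2.2.1
  have hlow : ∀ n, ∀ y ∈ S (X (n + 1)) (A (n + 1)), ∀ y' ∈ S (X (n + 1)) (A (n + 1)),
      2 * N (X (n + 1)) - 1 / ((n : ℝ) + 1) ≤ N (y + y') := fun n => (hF n (q n)).2.2.2.2
  have hAinf : ∀ n, (A n).Infinite := fun n => (q n).2.2
  have hX1 : ∀ n, ‖X n‖ ≤ 1 := fun n => (q n).2.1
  have hAanti : ∀ n m, n ≤ m → A m ⊆ A n := by
    intro n m h
    induction h with
    | refl => exact subset_rfl
    | step _ ih => exact (hAsub _).trans ih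
  have hXcoh : ∀ n m, n ≤ m → ∀ i ∉ A n, X m i = X n i := by
    intro n m h i hi
    induction h with
    | refl => rfl
    | @step m hnm ih =>
      rw [(hXS m).2 i fun h => hi (hAanti n m hnm h), ih]
  -- the limit point
  let x : Y 𝕜 := mkY (fun i => X (i + 1) i) (C := 1) fun i =>
    (norm_apply_le _ _).trans (hX1 (i + 1))
  have hx1 : ‖x‖ ≤ 1 := norm_mkY_le _ _
  have hiA : ∀ i, i ∉ A (i + 1) := fun i h => by
    have := hAmin i i h
    omega
  have hxS : ∀ n, x ∈ S (X n) (A n) := by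
    intro n
    refine ⟨hx1, fun i hi => ?_⟩
    show X (i + 1) i = X n i
    rw [← hXcoh n (max n (i + 1)) (le_max_left _ _) i hi,
      ← hXcoh (i + 1) (max n (i + 1)) (le_max_right _ _) i (hiA i)]
  -- the perturbations
  have hz : ∀ n, ∃ z : Y 𝕜, z ∈ S (X (n + 1)) (A (n + 1)) ∧ 1 ≤ ‖z - x‖ := by
    intro n
    obtain ⟨i, hi⟩ := (hAinf (n + 1)).nonempty
    obtain ⟨c, hc1, hc2⟩ : ∃ c : 𝕜, ‖c‖ ≤ 1 ∧ 1 ≤ ‖c - x i‖ := by
      rcases le_total (RCLike.re (x i)) 0 with h | h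
      · refine ⟨1, by simp, ?_⟩
        have h1 := RCLike.re_le_norm (1 - x i)
        rw [map_sub, RCLike.one_re] at h1
        linarith
      · refine ⟨-1, by simp, ?_⟩
        have h1 := RCLike.re_le_norm (x i - (-1))
        rw [map_sub, map_neg, RCLike.one_re, norm_sub_rev] at h1
        linarith
    refine ⟨mkY (fun j => if j = i then c else x j) (C := 1) fun j => ?_, ⟨norm_mkY_le _ _, ?_⟩, ?_⟩
    · split_ifs
      · exact hc1
      · exact (norm_apply_le _ _).trans hx1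
    · intro j hj
      rw [mkY_apply, if_neg (by rintro rfl; exact hj hi)]
      exact (hxS (n + 1)).2 j hj
    · refine le_trans ?_ (norm_apply_le _ i)
      rw [lp.coeFn_sub, Pi.sub_apply, mkY_apply, if_pos rfl]
      exact hc2
  choose z hzS hz1 using hz
  have hlim : Tendsto (fun n : ℕ => 1 / ((n : ℝ) + 1)) atTop (𝓝 0) :=
    tendsto_one_div_add_atTop_nhds_zero_nat
  have hx2 : ∀ n, |N (X (n + 1)) - N x| ≤ 1 / ((n : ℝ) + 1) := by
    intro n
    have h1 := hsup n x (hxS n)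
    have h2 := hlow n x (hxS (n + 1)) x (hxS (n + 1))
    have h3 : N (x + x) = 2 * N x := by
      rw [← two_smul ℝ x, map_smul_eq_mul]
      norm_num
    rw [h3] at h2
    have h4 : 0 < 1 / ((n : ℝ) + 1) := by positivity
    rw [abs_le]
    constructor <;> linarith
  have hmono : ∀ n, S (X (n + 1)) (A (n + 1)) ⊆ S (X n) (A n) := by
    intro n y hy
    refine ⟨hy.1, fun i hi => ?_⟩
    rw [hy.2 i fun h => hi (hAsub n h), (hXS n).2 i hi]
  have hNz : ∀ n, |N (z n) - N x| ≤ 3 * (1 / ((n : ℝ) + 1)) := by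
    intro n
    have h1 := hsup n (z n) (hmono n (hzS n))
    have h2 := hlow n (z n) (hzS n) x (hxS (n + 1))
    have h3 := map_add_le_add N (z n) x
    have h4 := abs_le.1 (hx2 n)
    have h5 : 0 < 1 / ((n : ℝ) + 1) := by positivity
    rw [abs_le]
    constructor <;> linarith
  have hNzx : ∀ n, |N (z n + x) - 2 * N x| ≤ 3 * (1 / ((n : ℝ) + 1)) := by
    intro n
    have h1 := hsup n (z n) (hmono n (hzS n))
    have h2 := hlow n (z n) (hzS n) x (hxS (n + 1))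
    have h3 := map_add_le_add N (z n) x
    have h4 := abs_le.1 (hx2 n)
    have h5 : 0 < 1 / ((n : ℝ) + 1) := by positivity
    have h6 := abs_le.1 (hNz n)
    rw [abs_le]
    constructor <;> linarith
  have hlim3 : Tendsto (fun n : ℕ => 3 * (1 / ((n : ℝ) + 1))) atTop (𝓝 0) := by
    have := hlim.const_mul 3
    rwa [mul_zero] at this
  refine ⟨x, z, hz1, ?_, ?_⟩
  · rw [tendsto_iff_norm_sub_tendsto_zero]
    exact squeeze_zero (fun _ => norm_nonneg _) hNz hlim3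
  · rw [tendsto_iff_norm_sub_tendsto_zero]
    exact squeeze_zero (fun _ => norm_nonneg _) hNzx hlim3

end Q98.LU
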