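import Pool.Agent.Q98.LU1

/-! A Markushevich basis of `ℓ_∞ ⊕ ℓ₁(Γ)`. -/

set_option autoImplicit false

open Filter Topology

open scoped ENNReal

namespace Q98.LU

variable (𝕜 : Type*) [RCLike 𝕜]

/-- the index set: elements of the unit ball of `ℓ_∞`, repeated countably often -/
abbrev Ga : Type _ := {y : Y 𝕜 // ‖y‖ ≤ 1} × ℕ

/-- `ℓ₁(Γ)` -/
abbrev Z : Type _ := lp (fun _ : Ga 𝕜 => 𝕜) 1

/-- The space. -/
abbrev E : Type _ := Y 𝕜 × Z 𝕜

variable {𝕜}

lemma summable_Z (z : Z 𝕜) : Summable fun γ => ‖z γ‖ := by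
  have := (memℓp_gen_iff (p := 1) (by norm_num)).1 (lp.memℓp z)
  simpa using this

lemma norm_Z (z : Z 𝕜) : ‖z‖ = ∑' γ, ‖z γ‖ := by
  have := lp.norm_rpow_eq_tsum (p := 1) (by norm_num) z
  simpa using this

lemma summable_pair {c : Ga 𝕜 → 𝕜} {C : ℝ} (hc : ∀ γ, ‖c γ‖ ≤ C) (z : Z 𝕜) :
    Summable fun γ => c γ * z γ := by
  refine Summable.of_norm_bounded ((summable_Z z).mul_left C) fun γ => ?_
  rw [norm_mul]
  exact mul_le_mul_of_nonneg_right (hc γ) (norm_nonneg _)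

/-- the functional with bounded coefficients `c` -/
noncomputable def pair (c : Ga 𝕜 → 𝕜) {C : ℝ} (hc : ∀ γ, ‖c γ‖ ≤ C) : Z 𝕜 →L[𝕜] 𝕜 :=
  LinearMap.mkContinuous
    { toFun := fun z => ∑' γ, c γ * z γ
      map_add' := fun z w => by
        rw [← (summable_pair hc z).tsum_add (summable_pair hc w)]
        exact tsum_congr fun γ => by rw [lp.coeFn_add, Pi.add_apply, mul_add]
      map_smul' := fun a z => by
        rw [RingHom.id_apply, smul_eq_mul, ← tsum_mul_left]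
        exact tsum_congr fun γ => by rw [lp.coeFn_smul, Pi.smul_apply, smul_eq_mul]; ring } C
    (fun z => by
      rw [norm_Z, ← tsum_mul_left]
      refine tsum_of_norm_bounded ((summable_Z z).mul_left C).hasSum fun γ => ?_
      rw [norm_mul]
      exact mul_le_mul_of_nonneg_right (hc γ) (norm_nonneg _))

open Classical in
lemma pair_single (c : Ga 𝕜 → 𝕜) {C : ℝ} (hc : ∀ γ, ‖c γ‖ ≤ C) (γ : Ga 𝕜) :
    pair c hc (lp.single 1 γ 1) = c γ := by
  show ∑' δ, c δ * (lp.single 1 γ (1 : 𝕜) : Z 𝕜) δ = c γ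
  rw [tsum_eq_single γ]
  · rw [lp.single_apply_self, mul_one]
  · intro δ hδ
    rw [lp.single_apply_ne _ _ _ hδ, mul_zero]

/-- the tail of a bounded sequence -/
noncomputable def cut (k : ℕ) (y : Y 𝕜) : Y 𝕜 := mkY (fun n => if k < n then y n else 0) (C := ‖y‖) fun n => by
  split_ifs
  · exact norm_apply_le y n
  · simp

lemma cut_apply (k : ℕ) (y : Y 𝕜) (n : ℕ) : cut k y n = if k < n then y n else 0 := rfl

/-- coefficients of the correcting functionals -/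
noncomputable def co (n : ℕ) (γ : Ga 𝕜) : 𝕜 := -(((γ.2 : 𝕜) + 1) * cut γ.2 γ.1.1 n)

lemma norm_co_le (n : ℕ) (γ : Ga 𝕜) : ‖co n γ‖ ≤ (n : ℝ) + 1 := by
  rw [co, norm_neg, norm_mul, cut_apply]
  split_ifs with h
  · have h1 : ‖(γ.2 : 𝕜) + 1‖ ≤ (n : ℝ) := by
      have : (γ.2 : 𝕜) + 1 = ((γ.2 + 1 : ℕ) : 𝕜) := by push_cast; ring
      rw [this, RCLike.norm_natCast]
      exact_mod_cast h
    have h2 : ‖γ.1.1 n‖ ≤ 1 := (norm_apply_le _ _).trans γ.1.2
    calc ‖(γ.2 : 𝕜) + 1‖ * ‖γ.1.1 n‖ ≤ n * 1 := mul_le_mul h1 h2 (norm_nonneg _) (by positivity)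
      _ ≤ n + 1 := by linarith
  · rw [norm_zero, mul_zero]; positivity

/-- the index set of the basis -/
abbrev Idx (𝕜 : Type*) [RCLike 𝕜] : Type _ := ℕ ⊕ Ga 𝕜

open Classical in
/-- the vectors of the basis -/
noncomputable def bx : Idx 𝕜 → E 𝕜
  | .inl n => (lp.single ∞ n 1, 0)
  | .inr γ => (((γ.2 : 𝕜) + 1) • cut γ.2 γ.1.1, lp.single 1 γ 1)

/-- the functionals of the basis -/
noncomputable def bf : Idx 𝕜 → (E 𝕜 →L[𝕜] 𝕜)
  | .inl n => (lp.evalCLM 𝕜 (fun _ : ℕ => 𝕜) ∞ n).comp (ContinuousLinearMap.fst 𝕜 (Y 𝕜) (Z 𝕜)) +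
      (pair (co n) (norm_co_le n)).comp (ContinuousLinearMap.snd 𝕜 (Y 𝕜) (Z 𝕜))
  | .inr γ => (lp.evalCLM 𝕜 (fun _ : Ga 𝕜 => 𝕜) 1 γ).comp (ContinuousLinearMap.snd 𝕜 (Y 𝕜) (Z 𝕜))

lemma bf_inl (n : ℕ) (v : E 𝕜) : bf (.inl n) v = v.1 n + pair (co n) (norm_co_le n) v.2 := rfl

lemma bf_inr (γ : Ga 𝕜) (v : E 𝕜) : bf (.inr γ) v = v.2 γ := rfl

open Classical in
theorem biorthogonal (i j : Idx 𝕜) : bf i (bx j) = if i = j then 1 else 0 := by
  rcases i with n | γ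
  · rw [bf_inl]
    rcases j with m | δ
    · simp only [bx, map_zero, add_zero, Sum.inl.injEq]
      rw [lp.single_apply, Pi.single_apply]
    · rw [if_neg (by simp)]
      simp only [bx]
      rw [pair_single, lp.coeFn_smul, Pi.smul_apply, smul_eq_mul, co]
      ring
  · rw [bf_inr]
    rcases j with m | δ
    · rw [if_neg (by simp)]
      rfl
    · simp only [bx, Sum.inr.injEq]
      rw [lp.single_apply, Pi.single_apply]

theorem total (v : E 𝕜) (h : ∀ i, bf i v = 0) : v = 0 := by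
  have h2 : v.2 = 0 := by
    ext γ
    exact h (.inr γ)
  have h1 : v.1 = 0 := by
    ext n
    have := h (.inl n)
    rw [bf_inl, h2, map_zero, add_zero] at this
    exact this
  exact Prod.ext h1 h2

theorem fundamental : (Submodule.span 𝕜 (Set.range (bx (𝕜 := 𝕜)))).topologicalClosure = ⊤ := by
  classical
  set S := (Submodule.span 𝕜 (Set.range (bx (𝕜 := 𝕜)))).topologicalClosure with hS
  have hmem : ∀ i, bx i ∈ S := fun i =>
    Submodule.le_topologicalClosure _ (Submodule.subset_span ⟨i, rfl⟩)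
  have hclosed : IsClosed (S : Set (E 𝕜)) := Submodule.isClosed_topologicalClosure _
  -- the unit ball of the first summand
  have h1 : ∀ y : Y 𝕜, ‖y‖ ≤ 1 → ((y, 0) : E 𝕜) ∈ S := by
    intro y hy
    let γ : ℕ → Ga 𝕜 := fun k => (⟨y, hy⟩, k)
    let w : ℕ → E 𝕜 := fun k => ((k : 𝕜) + 1)⁻¹ • bx (.inr (γ k)) +
      ∑ n ∈ Finset.range (k + 1), y n • bx (.inl n)
    have hk0 : ∀ k : ℕ, (k : 𝕜) + 1 ≠ 0 := fun k => by
      have : (k : 𝕜) + 1 = ((k + 1 : ℕ) : 𝕜) := by push_cast; ring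
      rw [this]
      exact_mod_cast Nat.succ_ne_zero k
    have hw : ∀ k, w k = (y, ((k : 𝕜) + 1)⁻¹ • lp.single 1 (γ k) 1) := by
      intro k
      refine Prod.ext ?_ ?_
      · show (((k : 𝕜) + 1)⁻¹ • (bx (.inr (γ k))).1 +
          (∑ n ∈ Finset.range (k + 1), y n • bx (.inl n) : E 𝕜).1) = y
        rw [Prod.fst_sum]
        simp only [bx, Prod.smul_fst]
        ext m
        simp only [lp.coeFn_add, Pi.add_apply, lp.coeFn_smul, Pi.smul_apply, lp.coeFn_sum,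
          Finset.sum_apply, cut_apply, lp.single_apply, Pi.single_apply, smul_eq_mul]
        rw [← mul_assoc, inv_mul_cancel₀ (hk0 k), one_mul]
        by_cases hm : k < m
        · rw [if_pos hm, Finset.sum_eq_zero, add_zero]
          intro n hn
          have : m ≠ n := by
            have := Finset.mem_range.1 hn
            omega
          rw [if_neg this, mul_zero]
        · rw [if_neg hm, zero_add, Finset.sum_eq_single m]
          · rw [if_pos rfl, mul_one]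
          · intro n _ hne
            rw [if_neg hne.symm, mul_zero]
          · intro h
            exact absurd (Finset.mem_range.2 (by omega)) h
      · show (((k : 𝕜) + 1)⁻¹ • (bx (.inr (γ k))).2 +
          (∑ n ∈ Finset.range (k + 1), y n • bx (.inl n) : E 𝕜).2) = _
        rw [Prod.snd_sum]
        simp only [bx, Prod.smul_snd, smul_zero, Finset.sum_const_zero, add_zero]
    have hwS : ∀ k, w k ∈ S := fun k =>
      S.add_mem (S.smul_mem _ (hmem _)) (S.sum_mem fun n _ => S.smul_mem _ (hmem _))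
    refine hclosed.mem_of_tendsto (f := w) (b := atTop) ?_ (Eventually.of_forall hwS)
    rw [tendsto_iff_norm_sub_tendsto_zero]
    refine squeeze_zero (fun _ => norm_nonneg _) (fun k => ?_)
      (tendsto_one_div_add_atTop_nhds_zero_nat (𝕜 := ℝ))
    rw [hw]
    have : ((y, ((k : 𝕜) + 1)⁻¹ • lp.single 1 (γ k) 1) : E 𝕜) - (y, 0)
        = (0, ((k : 𝕜) + 1)⁻¹ • lp.single 1 (γ k) 1) := by
      refine Prod.ext ?_ ?_ <;> simp
    rw [this, Prod.norm_mk, norm_zero, max_eq_right (norm_nonneg _), norm_smul,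
      lp.norm_single (by norm_num), norm_one, mul_one, norm_inv]
    have : (k : 𝕜) + 1 = ((k + 1 : ℕ) : 𝕜) := by push_cast; ring
    rw [this, RCLike.norm_natCast]
    push_cast
    rw [one_div]
  have h2 : ∀ y : Y 𝕜, ((y, 0) : E 𝕜) ∈ S := by
    intro y
    have h3 : ‖((‖y‖ + 1 : ℝ)⁻¹ : 𝕜) • y‖ ≤ 1 := by
      rw [norm_smul]
      have h4 : ‖((‖y‖ + 1 : ℝ)⁻¹ : 𝕜)‖ = (‖y‖ + 1)⁻¹ := by
        rw [← RCLike.ofReal_inv, RCLike.norm_ofReal, abs_of_pos (by positivity)]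
      rw [h4, ← div_eq_inv_mul, div_le_one (by positivity)]
      linarith
    have h5 := S.smul_mem ((‖y‖ + 1 : ℝ) : 𝕜) (h1 _ h3)
    have h6 : ((‖y‖ + 1 : ℝ) : 𝕜) ≠ 0 := by
      have : (‖y‖ + 1 : ℝ) ≠ 0 := by positivity
      exact_mod_cast this
    have h7 : ((‖y‖ + 1 : ℝ) : 𝕜) • ((((‖y‖ + 1 : ℝ)⁻¹ : 𝕜) • y, 0) : E 𝕜) = (y, 0) := by
      refine Prod.ext ?_ ?_
      · show ((‖y‖ + 1 : ℝ) : 𝕜) • (((‖y‖ + 1 : ℝ)⁻¹ : 𝕜) • y) = y
        rw [smul_smul, mul_inv_cancel₀ h6, one_smul]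
      · show ((‖y‖ + 1 : ℝ) : 𝕜) • (0 : Z 𝕜) = 0
        rw [smul_zero]
    rw [h7] at h5
    exact h5
  have h3 : ∀ γ : Ga 𝕜, ((0, lp.single 1 γ 1) : E 𝕜) ∈ S := by
    intro γ
    have h4 := S.sub_mem (hmem (.inr γ)) (h2 (((γ.2 : 𝕜) + 1) • cut γ.2 γ.1.1))
    have h5 : bx (.inr γ) - ((((γ.2 : 𝕜) + 1) • cut γ.2 γ.1.1, 0) : E 𝕜)
        = (0, lp.single 1 γ 1) := by
      refine Prod.ext ?_ ?_ <;> simp [bx]
    rwa [h5] at h4
  have h4 : ∀ z : Z 𝕜, ((0, z) : E 𝕜) ∈ S := by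
    intro z
    have h5 := lp.hasSum_single (p := 1) (by norm_num) z
    have h6 : Tendsto (fun s : Finset (Ga 𝕜) => ((0, ∑ γ ∈ s, lp.single 1 γ (z γ)) : E 𝕜)) atTop
        (𝓝 (0, z)) := tendsto_const_nhds.prodMk_nhds h5
    refine hclosed.mem_of_tendsto h6 (Eventually.of_forall fun s => ?_)
    have h7 : ((0, ∑ γ ∈ s, lp.single 1 γ (z γ)) : E 𝕜)
        = ∑ γ ∈ s, z γ • ((0, lp.single 1 γ 1) : E 𝕜) := by
      refine Prod.ext ?_ ?_
      · rw [Prod.fst_sum]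
        simp
      · rw [Prod.snd_sum]
        show ∑ γ ∈ s, lp.single 1 γ (z γ) = ∑ γ ∈ s, z γ • (lp.single 1 γ 1 : Z 𝕜)
        refine Finset.sum_congr rfl fun γ _ => ?_
        rw [← lp.single_smul, smul_eq_mul, mul_one]
    rw [h7]
    exact S.sum_mem fun γ _ => S.smul_mem _ (h3 γ)
  rw [Submodule.eq_top_iff']
  intro v
  have h5 : v = (v.1, 0) + (0, v.2) := by
    refine Prod.ext ?_ ?_ <;> simp
  rw [h5]
  exact S.add_mem (h2 _) (h4 _)

end Q98.LU
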