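import Pool.Agent.Q98.LU2

/-! The space has no locally uniformly convex renorming. -/

set_option autoImplicit false

open Filter Topology

open scoped ENNReal

namespace Q98.LU

variable {𝕜 : Type*} [RCLike 𝕜]

/-- Normalization of a sequence witnessing the failure of local uniform convexity. -/
theorem normalize {V : Type*} [AddCommGroup V] [Module 𝕜 V] (N : Seminorm 𝕜 V) (x : V) (z : ℕ → V)
    {a : ℝ} (ha : 0 < a) (hz : ∀ n, a ≤ N (z n - x)) (h1 : Tendsto (fun n => N (z n)) atTop (𝓝 (N x)))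
    (h2 : Tendsto (fun n => N (z n + x)) atTop (𝓝 (2 * N x))) :
    ∃ (w : V) (u : ℕ → V), N w = 1 ∧ (∀ n, N (u n) = 1) ∧
      Tendsto (fun n => N (u n + w)) atTop (𝓝 2) ∧ ¬ Tendsto (fun n => N (u n - w)) atTop (𝓝 0) := by
  set M := N x with hM
  have hMpos : 0 < M := by
    have h3 : Tendsto (fun n => N (z n) + M) atTop (𝓝 (M + M)) := h1.add_const M
    have h4 : a ≤ M + M := ge_of_tendsto h3 (Eventually.of_forall fun n =>
      (hz n).trans (map_sub_le_add N _ _))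
    linarith
  have hsc : ∀ (r : ℝ) (v : V), N ((r : 𝕜) • v) = |r| * N v := fun r v => by
    rw [map_smul_eq_mul, RCLike.norm_ofReal]
  let w : V := ((M⁻¹ : ℝ) : 𝕜) • x
  let u : ℕ → V := fun n => if 0 < N (z n) then (((N (z n))⁻¹ : ℝ) : 𝕜) • z n else w
  have hw : N w = 1 := by
    show N (((M⁻¹ : ℝ) : 𝕜) • x) = 1
    rw [hsc, abs_of_pos (by positivity), ← hM, inv_mul_cancel₀ hMpos.ne']
  have hu : ∀ n, N (u n) = 1 := by
    intro n
    show N (if 0 < N (z n) then (((N (z n))⁻¹ : ℝ) : 𝕜) • z n else w) = 1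
    split_ifs with h
    · rw [hsc, abs_of_pos (by positivity), inv_mul_cancel₀ h.ne']
    · exact hw
  have hpos : ∀ᶠ n in atTop, 0 < N (z n) := h1.eventually (lt_mem_nhds hMpos)
  -- the distance to the simpler normalization
  have hd : Tendsto (fun n => N (u n - ((M⁻¹ : ℝ) : 𝕜) • z n)) atTop (𝓝 0) := by
    have h3 : Tendsto (fun n => |(N (z n))⁻¹ - M⁻¹| * N (z n)) atTop (𝓝 (|M⁻¹ - M⁻¹| * M)) :=
      (((h1.inv₀ hMpos.ne').sub_const _).abs).mul h1
    rw [sub_self, abs_zero, zero_mul] at h3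
    refine h3.congr' ?_
    filter_upwards [hpos] with n hn
    have : u n - ((M⁻¹ : ℝ) : 𝕜) • z n = ((((N (z n))⁻¹ - M⁻¹ : ℝ)) : 𝕜) • z n := by
      show (if 0 < N (z n) then (((N (z n))⁻¹ : ℝ) : 𝕜) • z n else w) - _ = _
      rw [if_pos hn, RCLike.ofReal_sub, sub_smul]
    rw [this, hsc]
  refine ⟨w, u, hw, hu, ?_, ?_⟩
  · have h3 : Tendsto (fun n => M⁻¹ * N (z n + x)) atTop (𝓝 (M⁻¹ * (2 * M))) := h2.const_mul _
    have h4 : M⁻¹ * (2 * M) = 2 := by field_simp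
    rw [h4] at h3
    have h5 : Tendsto (fun n => N (u n + w) - M⁻¹ * N (z n + x)) atTop (𝓝 0) := by
      refine squeeze_zero_norm (fun n => ?_) hd
      have h6 : M⁻¹ * N (z n + x) = N (((M⁻¹ : ℝ) : 𝕜) • z n + w) := by
        show _ = N (((M⁻¹ : ℝ) : 𝕜) • z n + ((M⁻¹ : ℝ) : 𝕜) • x)
        rw [← smul_add, hsc, abs_of_pos (by positivity)]
      rw [h6, Real.norm_eq_abs]
      refine (abs_sub_map_le_sub N _ _).trans (le_of_eq ?_)
      congr 1
      abel
    have h6 := h5.add h3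
    rw [zero_add] at h6
    refine h6.congr fun n => by ring
  · intro hcon
    have h3 := hcon.add hd
    rw [add_zero] at h3
    have h4 : a / M ≤ 0 := ge_of_tendsto h3 (Eventually.of_forall fun n => by
      have h5 : ((M⁻¹ : ℝ) : 𝕜) • (z n - x) = (u n - w) - (u n - ((M⁻¹ : ℝ) : 𝕜) • z n) := by
        rw [smul_sub]
        show _ - ((M⁻¹ : ℝ) : 𝕜) • x = (u n - ((M⁻¹ : ℝ) : 𝕜) • x) - _
        abel
      have h6 := map_sub_le_add N (u n - w) (u n - ((M⁻¹ : ℝ) : 𝕜) • z n)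
      rw [← h5, hsc, abs_of_pos (by positivity)] at h6
      have h7 : M⁻¹ * a ≤ M⁻¹ * N (z n - x) := mul_le_mul_of_nonneg_left (hz n) (by positivity)
      rw [div_eq_inv_mul]
      linarith)
    have : 0 < a / M := by positivity
    linarith

/-- No equivalent norm on the space is locally uniformly convex. -/
theorem no_LUR (N : Seminorm 𝕜 (E 𝕜)) {a b : ℝ} (ha : 0 < a) (hN : ∀ v, a * ‖v‖ ≤ N v ∧
    N v ≤ b * ‖v‖) : ∃ (w : E 𝕜) (u : ℕ → E 𝕜), N w = 1 ∧ (∀ n, N (u n) = 1) ∧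
      Tendsto (fun n => N (u n + w)) atTop (𝓝 2) ∧
      ¬ Tendsto (fun n => N (u n - w)) atTop (𝓝 0) := by
  let N' : Seminorm ℝ (Y 𝕜) := (N.comp (LinearMap.inl 𝕜 (Y 𝕜) (Z 𝕜))).restrictScalars ℝ
  have hN' : ∀ y, N' y = N (y, 0) := fun _ => rfl
  have hnorm : ∀ y : Y 𝕜, ‖((y, 0) : E 𝕜)‖ = ‖y‖ := fun y => by
    rw [Prod.norm_mk, norm_zero, max_eq_left (norm_nonneg _)]
  obtain ⟨x, z, h1, h2, h3⟩ := exists_bad N' (b := b) fun y => by
    rw [hN', ← hnorm y]; exact (hN _).2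
  refine normalize N ((x, 0) : E 𝕜) (fun n => (z n, 0)) ha (fun n => ?_) h2 ?_
  · have h4 : ((z n, 0) : E 𝕜) - (x, 0) = (z n - x, 0) := by
      refine Prod.ext ?_ ?_ <;> simp
    rw [h4]
    refine le_trans ?_ (hN _).1
    rw [hnorm]
    exact le_mul_of_one_le_right ha.le (h1 n)
  · refine h3.congr fun n => ?_
    rw [hN']
    congr 1
    refine Prod.ext ?_ ?_ <;> simp

end Q98.LU
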