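import Mathlib

set_option autoImplicit false
set_option linter.unusedSectionVars false

open MeasureTheory Filter Topology

namespace Q98.MuComp

variable {E : Type*} [NormedAddCommGroup E] [NormedSpace ℝ E]

/-- the separated sequence -/
lemma exists_separated (A : Set E) (hA : ¬ TotallyBounded A) :
    ∃ (a : ℕ → E) (ε : ℝ), 0 < ε ∧ (∀ n, a n ∈ A) ∧ ∀ m n, m < n → ε ≤ dist (a m) (a n) := by
  rw [Metric.totallyBounded_iff] at hA
  push Not at hA
  obtain ⟨ε, hε, h⟩ := hA
  obtain ⟨a, ha, hr⟩ := exists_seq_of_forall_finset_exists (P := fun x : E => x ∈ A)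
    (r := fun x y => ε ≤ dist x y) (by
      intro s _
      have h1 := h s s.finite_toSet
      rw [Set.not_subset] at h1
      obtain ⟨y, hy, hy2⟩ := h1
      refine ⟨y, hy, fun x hx => ?_⟩
      by_contra hcon
      push Not at hcon
      apply hy2
      rw [Set.mem_iUnion₂]
      exact ⟨x, hx, by rw [Metric.mem_ball, dist_comm]; exact hcon⟩)
  exact ⟨a, ε, hε, ha, hr⟩

section Measure

variable [MeasurableSpace E] [BorelSpace E] [CompleteSpace E]

/-- finite convex combinations of Dirac measures -/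
lemma exists_prob (A : Set E) (S : Set E) (hS : S ⊆ A) (x : E) (hx : x ∈ convexHull ℝ S) :
    ∃ μ : ProbabilityMeasure A, ∫ y, (y : E) ∂(μ : Measure A) = x ∧
      (μ : Measure A) {y : A | (y : E) ∈ S} = 1 := by
  classical
  rw [_root_.convexHull_eq] at hx
  obtain ⟨ι, t, w, z, hw, hw1, hz, hzx⟩ := hx
  have hne : ∃ i ∈ t, True := by
    by_contra hcon
    push Not at hcon
    have : t = ∅ := Finset.eq_empty_iff_forall_notMem.2 fun i hi => (hcon i hi)
    rw [this, Finset.sum_empty] at hw1
    exact zero_ne_one hw1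
  obtain ⟨i0, hi0, _⟩ := hne
  set z' : ι → A := fun i => if h : z i ∈ A then ⟨z i, h⟩ else ⟨z i0, hS (hz i0 hi0)⟩ with hz'
  have hz'z : ∀ i ∈ t, (z' i : E) = z i := by
    intro i hi
    simp only [hz']
    rw [dif_pos (hS (hz i hi))]
  set μ0 : Measure A := ∑ i ∈ t, ENNReal.ofReal (w i) • Measure.dirac (z' i) with hμ0
  have hsum : ∑ i ∈ t, ENNReal.ofReal (w i) = 1 := by
    rw [← ENNReal.ofReal_sum_of_nonneg hw, hw1, ENNReal.ofReal_one]
  have hSm : μ0 {y : A | (y : E) ∈ S} = 1 := by
    rw [hμ0, Measure.finsetSum_apply, ← hsum]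
    apply Finset.sum_congr rfl
    intro i hi
    rw [Measure.smul_apply, smul_eq_mul, Measure.dirac_apply_of_mem, mul_one]
    show (z' i : E) ∈ S
    rw [hz'z i hi]
    exact hz i hi
  have huniv : μ0 Set.univ = 1 := by
    rw [hμ0, Measure.finsetSum_apply, ← hsum]
    apply Finset.sum_congr rfl
    intro i hi
    rw [Measure.smul_apply, smul_eq_mul, Measure.dirac_apply_of_mem (Set.mem_univ _), mul_one]
  have hprob : IsProbabilityMeasure μ0 := ⟨huniv⟩
  refine ⟨⟨μ0, hprob⟩, ?_, hSm⟩
  show ∫ y, (y : E) ∂μ0 = x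
  rw [hμ0, integral_finsetSum_measure]
  · rw [← hzx, Finset.centerMass_eq_of_sum_1 _ _ hw1]
    apply Finset.sum_congr rfl
    intro i hi
    rw [integral_smul_measure, integral_dirac, hz'z i hi, ENNReal.toReal_ofReal (hw i hi)]
  · intro i _
    apply Integrable.smul_measure _ ENNReal.ofReal_ne_top
    exact integrable_dirac (by simp [enorm_lt_top])

/-- The main argument. -/
theorem compact_of_muCompact
    (hIP : ∀ C : ℕ → Set E, (∀ n, IsClosed (C n)) → (∀ n, Convex ℝ (C n)) → Antitone C →
      (∀ n, (C n).Nonempty) → Bornology.IsBounded (C 0) → (⋂ n, C n).Nonempty)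
    (A : Set E) (hAcl : IsClosed A) (hAcv : Convex ℝ A) (hAb : Bornology.IsBounded A)
    (hA : ∀ K : Set E, K ⊆ A → IsCompact K →
      IsCompact {μ : ProbabilityMeasure A | ∫ x, (x : E) ∂(μ : Measure A) ∈ K}) :
    IsCompact A := by
  classical
  by_contra hnc
  have hntb : ¬ TotallyBounded A := fun h => hnc (h.isCompact_of_isClosed hAcl)
  obtain ⟨a, ε, hε, haA, hsep⟩ := exists_separated A hntb
  have hsep' : ∀ m n, m ≠ n → ε ≤ dist (a m) (a n) := by
    intro m n hmn
    rcases lt_or_gt_of_ne hmn with h | h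
    · exact hsep m n h
    · rw [dist_comm]; exact hsep n m h
  set S : ℕ → Set E := fun k => a '' Set.Ici k with hS
  have hSA : ∀ k, S k ⊆ A := by
    rintro k _ ⟨n, _, rfl⟩; exact haA n
  have hconvA : ∀ k, convexHull ℝ (S k) ⊆ A := fun k => convexHull_min (hSA k) hAcv
  set C : ℕ → Set E := fun k => closure (convexHull ℝ (S k)) with hC
  have hCA : ∀ k, C k ⊆ A := fun k => closure_minimal (hconvA k) hAcl
  obtain ⟨a₀, ha₀⟩ := hIP C (fun n => isClosed_closure) (fun n => (convex_convexHull ℝ _).closure)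
    (by
      intro m n hmn
      apply closure_mono
      apply convexHull_mono
      exact Set.image_mono (Set.Ici_subset_Ici.2 hmn))
    (fun n => ⟨a n, subset_closure (subset_convexHull ℝ _ ⟨n, Set.mem_Ici.2 le_rfl, rfl⟩)⟩)
    (hAb.subset (hCA 0))
  rw [Set.mem_iInter] at ha₀
  have hx : ∀ k : ℕ, ∃ x ∈ convexHull ℝ (S k), dist a₀ x < 1 / ((k : ℝ) + 1) := fun k =>
    Metric.mem_closure_iff.1 (ha₀ k) _ (by positivity)
  choose x hxc hxd using hx
  have hlim : Tendsto x atTop (𝓝 a₀) := by
    rw [tendsto_iff_dist_tendsto_zero]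
    refine squeeze_zero (fun _ => dist_nonneg) (fun k => ?_) tendsto_one_div_add_atTop_nhds_zero_nat
    rw [dist_comm]; exact (hxd k).le
  set K : Set E := insert a₀ (Set.range x) with hK
  have hKc : IsCompact K := hlim.isCompact_insert_range
  have hKA : K ⊆ A := by
    rintro y (rfl | ⟨k, rfl⟩)
    · exact hCA 0 (ha₀ 0)
    · exact hconvA k (hxc k)
  choose μ hμx hμS using fun k => exists_prob A (S k) (hSA k) (x k) (hxc k)
  have hcomp := hA K hKA hKc
  set U : Ultrafilter ℕ := hyperfilter ℕ with hU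
  have hUge : ∀ j, ∀ᶠ k in (U : Filter ℕ), j ≤ k := by
    intro j
    have h1 : (U : Filter ℕ) ≤ atTop := by
      rw [← Nat.cofinite_eq_atTop]; exact hyperfilter_le_cofinite
    exact h1 (eventually_ge_atTop j)
  obtain ⟨ν, hνS, hν⟩ := hcomp.ultrafilter_le_nhds (U.map μ) (by
    rw [le_principal_iff]
    show _ ∈ (U.map μ)
    rw [Ultrafilter.mem_map]
    refine Filter.Eventually.of_forall (f := (U : Filter ℕ)) fun k => ?_
    show ∫ y, (y : E) ∂(μ k : Measure A) ∈ K
    rw [hμx k]
    exact Set.mem_insert_of_mem _ ⟨k, rfl⟩)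
  have hμlim : Tendsto μ (U : Filter ℕ) (𝓝 ν) := hν
  set F : ℕ → Set A := fun j => {y : A | (y : E) ∈ S j} with hF
  have hFcl : ∀ j, IsClosed (F j) := by
    intro j
    have h1 : IsClosed (S j) := by
      apply Metric.isClosed_of_pairwise_le_dist hε
      rintro _ ⟨m, _, rfl⟩ _ ⟨n, _, rfl⟩ hne
      exact hsep' m n (fun h => hne (by rw [h]))
    exact h1.preimage continuous_subtype_val
  have hF1 : ∀ j, (ν : Measure A) (F j) = 1 := by
    intro j
    apply le_antisymm prob_le_one
    have h1 := ProbabilityMeasure.limsup_measure_closed_le_of_tendsto hμlim (hFcl j)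
    have h2 : (U : Filter ℕ).limsup (fun i => (μ i : Measure A) (F j)) = 1 := by
      have h3 : (fun i => (μ i : Measure A) (F j)) =ᶠ[(U : Filter ℕ)] fun _ => 1 := by
        filter_upwards [hUge j] with k hk
        apply le_antisymm prob_le_one
        rw [← hμS k]
        apply measure_mono
        intro y hy
        exact Set.image_mono (Set.Ici_subset_Ici.2 hk) hy
      rw [limsup_congr h3, limsup_const]
    rw [h2] at h1
    exact h1
  have hanti : Antitone F := by
    intro m n hmn y hy
    exact Set.image_mono (Set.Ici_subset_Ici.2 hmn) hy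
  have hinter : ⋂ j, F j = ∅ := by
    rw [Set.eq_empty_iff_forall_notMem]
    intro y hy
    rw [Set.mem_iInter] at hy
    obtain ⟨m, _, hm⟩ := hy 0
    obtain ⟨n, hn, hn2⟩ := hy (m + 1)
    have hne : m ≠ n := by
      have : m + 1 ≤ n := hn
      omega
    have := hsep' m n hne
    rw [hm, hn2, dist_self] at this
    linarith
  have htend := tendsto_measure_iInter_atTop (μ := (ν : Measure A)) (s := F)
    (fun j => (hFcl j).measurableSet.nullMeasurableSet) hanti ⟨0, measure_ne_top _ _⟩
  rw [hinter, measure_empty] at htend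
  have hconst : Tendsto (fun j => (ν : Measure A) (F j)) atTop (𝓝 1) := by
    refine tendsto_const_nhds.congr fun j => (hF1 j).symm
  exact zero_ne_one (tendsto_nhds_unique htend hconst)

end Measure

end Q98.MuComp
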