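import Mathlib
import Pool.Agent.Q98.WeakNhd

set_option autoImplicit false

open Filter Topology

namespace Q98.PiBase

variable {X : Type*} [NormedAddCommGroup X] [NormedSpace ℝ X]

/-- The unconditionality hypothesis. -/
def Unc (e : ℕ → X) : Prop :=
  ∀ (s : Finset ℕ) (a ε : ℕ → ℝ), (∀ n, ε n = 1 ∨ ε n = -1) →
          ‖∑ n ∈ s, (ε n * a n) • e n‖ ≤ ‖∑ n ∈ s, a n • e n‖

/-- The synthesis map. -/
noncomputable def T (e : ℕ → X) : (ℕ →₀ ℝ) →ₗ[ℝ] X := Finsupp.linearCombination ℝ e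

lemma T_eq_sum (e : ℕ → X) (a : ℕ →₀ ℝ) (s : Finset ℕ) (hs : a.support ⊆ s) :
    T e a = ∑ n ∈ s, a n • e n := by
  unfold T
  rw [Finsupp.linearCombination_apply, Finsupp.sum_of_support_subset a hs]
  intro i _; simp

lemma T_le_of_abs {e : ℕ → X} (hu : Unc e) (a b : ℕ →₀ ℝ) (h : ∀ n, |b n| = |a n|) :
    ‖T e b‖ ≤ ‖T e a‖ := by
  classical
  rw [T_eq_sum e a (a.support ∪ b.support) Finset.subset_union_left,
    T_eq_sum e b (a.support ∪ b.support) Finset.subset_union_right]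
  have := hu (a.support ∪ b.support) a (fun n => if b n = a n then 1 else -1)
    (fun n => by by_cases hn : b n = a n <;> simp [hn])
  refine le_trans (le_of_eq ?_) this
  congr 1
  apply Finset.sum_congr rfl
  intro n _
  congr 1
  by_cases hn : b n = a n
  · simp [hn]
  · have := (abs_eq_abs.1 (h n)).resolve_left hn
    simp [hn, this]

lemma T_filter_le {e : ℕ → X} (hu : Unc e) (a : ℕ →₀ ℝ) (p : ℕ → Prop) [DecidablePred p] :
    ‖T e (a.filter p)‖ ≤ ‖T e a‖ := by
  set b : ℕ →₀ ℝ := a.filter p - a.filter (fun n => ¬ p n) with hb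
  have hab : ∀ n, |b n| = |a n| := by
    intro n
    by_cases hn : p n <;> simp [hb, hn]
  have h1 := T_le_of_abs hu a b hab
  have h2 : a.filter p = (1/2 : ℝ) • (a + b) := by
    ext n
    by_cases hn : p n <;> simp [hb, hn]
    ring
  rw [h2, map_smul, map_add, norm_smul]
  have h3 := norm_add_le (T e a) (T e b)
  rw [Real.norm_of_nonneg (by norm_num)]
  linarith

/-- The weighted absolute sum. -/
noncomputable def G (w : ℕ → ℝ) (a : ℕ →₀ ℝ) : ℝ := a.sum (fun n t => w n * |t|)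

lemma G_eq (w : ℕ → ℝ) (a : ℕ →₀ ℝ) (s : Finset ℕ) (hs : a.support ⊆ s) :
    G w a = ∑ n ∈ s, w n * |a n| := by
  unfold G
  rw [Finsupp.sum_of_support_subset a hs]
  intro i _; simp

lemma abs_le_G (e : ℕ → X) (f : StrongDual ℝ X) (w : ℕ → ℝ) (hw : ∀ n, |f (e n)| ≤ w n)
    (a : ℕ →₀ ℝ) : |f (T e a)| ≤ G w a := by
  rw [T_eq_sum e a a.support subset_rfl, G_eq w a a.support subset_rfl, map_sum]
  refine (Finset.abs_sum_le_sum_abs _ _).trans ?_
  apply Finset.sum_le_sum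
  intro n _
  rw [map_smul, smul_eq_mul, abs_mul, mul_comm]
  exact mul_le_mul_of_nonneg_right (hw n) (abs_nonneg _)

lemma G_single_le {e : ℕ → X} (hu : Unc e) (f : StrongDual ℝ X) (a : ℕ →₀ ℝ) :
    G (fun n => |f (e n)|) a ≤ ‖f‖ * ‖T e a‖ := by
  classical
  set b : ℕ →₀ ℝ := Finsupp.onFinset a.support (fun n => if 0 ≤ f (e n) * a n then a n else - a n)
    (by
      intro n hn
      rw [Finsupp.mem_support_iff]
      intro h0
      apply hn
      simp [h0]) with hb
  have hbn : ∀ n, b n = if 0 ≤ f (e n) * a n then a n else - a n := fun n => rfl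
  have hab : ∀ n, |b n| = |a n| := by
    intro n
    rw [hbn]
    split_ifs <;> simp
  have hsub : b.support ⊆ a.support := Finsupp.support_onFinset_subset
  have h1 : f (T e b) = G (fun n => |f (e n)|) a := by
    rw [T_eq_sum e b a.support hsub, G_eq _ a a.support subset_rfl, map_sum]
    apply Finset.sum_congr rfl
    intro n _
    rw [map_smul, smul_eq_mul, hbn, ← abs_mul]
    split_ifs with h
    · rw [abs_of_nonneg h, mul_comm]
    · rw [abs_of_neg (not_le.1 h)]; ring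
  rw [← h1]
  calc f (T e b) ≤ ‖f (T e b)‖ := le_abs_self _
    _ ≤ ‖f‖ * ‖T e b‖ := f.le_opNorm _
    _ ≤ ‖f‖ * ‖T e a‖ := by gcongr; exact T_le_of_abs hu a b hab

/-- Weight of a finite set of functionals. -/
noncomputable def W (e : ℕ → X) (I : Finset (StrongDual ℝ X)) (n : ℕ) : ℝ := ∑ f ∈ I, |f (e n)|

lemma G_W_le {e : ℕ → X} (hu : Unc e) (I : Finset (StrongDual ℝ X)) (a : ℕ →₀ ℝ) :
    G (W e I) a ≤ (∑ f ∈ I, ‖f‖) * ‖T e a‖ := by
  have : G (W e I) a = ∑ f ∈ I, G (fun n => |f (e n)|) a := by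
    simp only [G_eq _ a a.support subset_rfl, W, Finset.sum_mul]
    rw [Finset.sum_comm]
  rw [this, Finset.sum_mul]
  exact Finset.sum_le_sum fun f _ => G_single_le hu f a

lemma G_smul (w : ℕ → ℝ) (a : ℕ →₀ ℝ) (c : ℝ) (hc : 0 ≤ c) : G w (c • a) = c * G w a := by
  rw [G_eq w (c • a) a.support (Finsupp.support_smul), G_eq w a a.support subset_rfl,
    Finset.mul_sum]
  apply Finset.sum_congr rfl
  intro n _
  rw [Finsupp.smul_apply, smul_eq_mul, abs_mul, abs_of_nonneg hc]; ring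

lemma G_add_disj (w : ℕ → ℝ) (a b : ℕ →₀ ℝ) (h : Disjoint a.support b.support) :
    G w (a + b) = G w a + G w b := by
  classical
  rw [G_eq w (a + b) (a.support ∪ b.support) Finsupp.support_add,
    G_eq w a (a.support ∪ b.support) Finset.subset_union_left,
    G_eq w b (a.support ∪ b.support) Finset.subset_union_right, ← Finset.sum_add_distrib]
  apply Finset.sum_congr rfl
  intro n _
  by_cases hn : n ∈ a.support
  · have : b n = 0 := Finsupp.notMem_support_iff.1 (Finset.disjoint_left.1 h hn)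
    simp [this]
  · have : a n = 0 := Finsupp.notMem_support_iff.1 hn
    simp [this]

lemma G_neg (w : ℕ → ℝ) (a : ℕ →₀ ℝ) : G w (-a) = G w a := by
  rw [G_eq w (-a) a.support (by simp), G_eq w a a.support subset_rfl]
  simp

lemma G_nonneg (w : ℕ → ℝ) (hw : ∀ n, 0 ≤ w n) (a : ℕ →₀ ℝ) : 0 ≤ G w a := by
  rw [G_eq w a a.support subset_rfl]
  exact Finset.sum_nonneg fun n _ => mul_nonneg (hw n) (abs_nonneg _)

lemma W_nonneg (e : ℕ → X) (I : Finset (StrongDual ℝ X)) (n : ℕ) : 0 ≤ W e I n :=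
  Finset.sum_nonneg fun _ _ => abs_nonneg _

lemma le_W (e : ℕ → X) (I : Finset (StrongDual ℝ X)) (f : StrongDual ℝ X) (hf : f ∈ I) (n : ℕ) :
    |f (e n)| ≤ W e I n :=
  Finset.single_le_sum (f := fun f : StrongDual ℝ X => |f (e n)|) (fun _ _ => abs_nonneg _) hf

/-- The combinatorial core: there is a finitely supported `y` which is blocking. -/
theorem exists_blocking {e : ℕ → X} (hu : Unc e) (I : Finset (StrongDual ℝ X)) (x : X)
    (δ : ℝ) (hδ : 0 < δ) (a₀ : ℕ →₀ ℝ) (h₀ : ‖T e a₀‖ < 1) (h₀' : ∀ f ∈ I, |f (T e a₀ - x)| < δ) :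
    ∃ a : ℕ →₀ ℝ, ‖T e a‖ < 1 ∧ (∀ f ∈ I, |f (T e a - x)| < δ) ∧
      ∃ (F : Finset ℕ) (η : ℝ), a.support ⊆ F ∧ 0 < η ∧
        ∀ u : ℕ →₀ ℝ, Disjoint u.support F → ‖T e (a + u)‖ ≤ 1 + η → ∀ f ∈ I, |f (T e u)| ≤ δ := by
  classical
  by_contra hcon
  push Not at hcon
  set w := W e I
  -- the set of admissible vectors
  set A : Set (ℕ →₀ ℝ) := {a | ‖T e a‖ < 1 ∧ ∀ f ∈ I, |f (T e a - x)| < δ} with hA
  set K : ℝ := ∑ f ∈ I, ‖f‖
  have hK : 0 ≤ K := Finset.sum_nonneg fun _ _ => norm_nonneg _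
  have hbdd : BddAbove (G w '' A) := by
    refine ⟨K, ?_⟩
    rintro _ ⟨a, ha, rfl⟩
    refine (G_W_le hu I a).trans ?_
    have := ha.1.le
    calc K * ‖T e a‖ ≤ K * 1 := by gcongr
      _ = K := mul_one _
  have hne : (G w '' A).Nonempty := ⟨_, a₀, ⟨h₀, h₀'⟩, rfl⟩
  obtain ⟨_, ⟨a, haA, rfl⟩, hlt⟩ := exists_lt_of_lt_csSup hne
    (show sSup (G w '' A) - δ / 2 < sSup (G w '' A) by linarith)
  -- choose ζ small
  have hstrict : ∃ ζ > 0, ζ < 1 ∧ (∀ f ∈ I, |f (T e a - x)| + ζ * (|f x| + 1) < δ) ∧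
      ζ * (K * 4) < δ / 2 := by
    obtain ⟨ζ₁, hζ₁, h1⟩ : ∃ ζ > 0, ∀ f ∈ I, |f (T e a - x)| + ζ * (|f x| + 1) < δ := by
      by_cases hI : I.Nonempty
      · obtain ⟨f0, hf0, hmin⟩ := I.exists_min_image
          (fun f => (δ - |f (T e a - x)|) / (2 * (|f x| + 1))) hI
        refine ⟨(δ - |f0 (T e a - x)|) / (2 * (|f0 x| + 1)), ?_, fun f hf => ?_⟩
        · have := haA.2 f0 hf0
          have h2 : 0 ≤ |f0 x| := abs_nonneg _
          apply div_pos (by linarith) (by linarith)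
        · have h3 := hmin f hf
          have h4 := haA.2 f hf
          have h2 : 0 ≤ |f x| := abs_nonneg _
          have h5 : (δ - |f0 (T e a - x)|) / (2 * (|f0 x| + 1)) * (|f x| + 1) ≤
              (δ - |f (T e a - x)|) / (2 * (|f x| + 1)) * (|f x| + 1) := by
            gcongr
          have h6 : (δ - |f (T e a - x)|) / (2 * (|f x| + 1)) * (|f x| + 1) =
              (δ - |f (T e a - x)|) / 2 := by
            field_simp
          linarith
      · exact ⟨1, one_pos, fun f hf => absurd ⟨f, hf⟩ hI⟩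
    obtain ⟨ζ₂, hζ₂, h2⟩ : ∃ ζ > 0, ζ * (K * 4) < δ / 2 := by
      refine ⟨δ / 2 / (K * 4 + 1), by positivity, ?_⟩
      rw [div_mul_eq_mul_div, div_lt_iff₀ (by positivity)]
      nlinarith
    refine ⟨min (min ζ₁ ζ₂) (1/2), by positivity, ?_, ?_, ?_⟩
    · exact lt_of_le_of_lt (min_le_right _ _) (by norm_num)
    · intro f hf
      refine lt_of_le_of_lt ?_ (h1 f hf)
      have : min (min ζ₁ ζ₂) (1/2) ≤ ζ₁ := (min_le_left _ _).trans (min_le_left _ _)
      gcongr
    · refine lt_of_le_of_lt ?_ h2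
      have : min (min ζ₁ ζ₂) (1/2) ≤ ζ₂ := (min_le_left _ _).trans (min_le_right _ _)
      gcongr
  obtain ⟨ζ, hζ, hζ1, hζf, hζK⟩ := hstrict
  -- η with (1-ζ)(1+η) < 1
  have hη : (0:ℝ) < ζ := hζ
  have key := hcon a haA.1 haA.2
  -- sequences of disjoint good vectors
  obtain ⟨u, hu1, hu2⟩ := exists_seq_of_forall_finset_exists
    (P := fun u : ℕ →₀ ℝ => Disjoint u.support a.support ∧ ‖T e (a + u)‖ ≤ 1 + ζ ∧
      ∃ f ∈ I, δ < |f (T e u)|)
    (r := fun u v => Disjoint u.support v.support) (by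
      intro s hs
      obtain ⟨v, hv1, hv2, f, hf, hf2⟩ := key (a.support ∪ s.biUnion fun u => u.support) ζ
        Finset.subset_union_left hζ
      refine ⟨v, ⟨hv1.mono_right Finset.subset_union_left, hv2, f, hf, hf2⟩, fun u hus => ?_⟩
      refine (hv1.mono_right ?_).symm
      exact (Finset.subset_biUnion_of_mem (fun u : ℕ →₀ ℝ => u.support) hus).trans
        Finset.subset_union_right)
  -- bounded values
  have hub : ∀ m, ‖T e (u m)‖ ≤ 3 := by
    intro m
    have h1 : T e (u m) = T e (a + u m) - T e a := by rw [map_add]; abel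
    rw [h1]
    have := norm_sub_le (T e (a + u m)) (T e a)
    have h2 := (hu1 m).2.1
    have h3 := haA.1
    linarith
  -- find two close indices
  obtain ⟨m, m', hmm, hclose⟩ : ∃ m m' : ℕ, m < m' ∧ ∀ f ∈ I, |f (T e (u m)) - f (T e (u m'))| < 2 * ζ := by
    set v : ℕ → (I → ℝ) := fun m f => f.1 (T e (u m)) with hv
    have hvb : ∀ m, v m ∈ Metric.closedBall (0 : I → ℝ) (3 * K) := by
      intro m
      rw [mem_closedBall_zero_iff, pi_norm_le_iff_of_nonneg (by positivity)]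
      intro f
      have h1 : ‖(f.1 : StrongDual ℝ X)‖ ≤ K :=
        Finset.single_le_sum (f := fun f : StrongDual ℝ X => ‖f‖) (fun _ _ => norm_nonneg _) f.2
      calc ‖v m f‖ ≤ ‖f.1‖ * ‖T e (u m)‖ := f.1.le_opNorm _
        _ ≤ K * 3 := by gcongr; exact hub m
        _ = 3 * K := mul_comm _ _
    obtain ⟨z, _, φ, hφ, hlim⟩ := (isCompact_closedBall (0 : I → ℝ) (3 * K)).tendsto_subseq hvb
    have hc := hlim.cauchySeq
    rw [Metric.cauchySeq_iff] at hc
    obtain ⟨N, hN⟩ := hc (2 * ζ) (by positivity)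
    have := hN N le_rfl (N + 1) (Nat.le_succ N)
    refine ⟨φ N, φ (N + 1), hφ (Nat.lt_succ_self N), fun f hf => ?_⟩
    have h2 := lt_of_le_of_lt (dist_le_pi_dist _ _ (⟨f, hf⟩ : I)) this
    rw [Real.dist_eq] at h2
    exact h2
  set p := u m
  set q := u m'
  have hpa := (hu1 m).1
  have hqa := (hu1 m').1
  have hpq : Disjoint p.support q.support := hu2 m m' hmm
  obtain ⟨f0, hf0, hbig⟩ := (hu1 m).2.2
  -- the new vector
  set b : ℕ →₀ ℝ := (1 - ζ) • (a + (1/2 : ℝ) • (p - q)) with hb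
  have hnorm1 : ‖T e (a - q)‖ ≤ 1 + ζ := by
    refine (T_le_of_abs hu (a + q) (a - q) ?_).trans (hu1 m').2.1
    intro n
    rw [Finsupp.sub_apply, Finsupp.add_apply]
    by_cases hn : n ∈ q.support
    · have : a n = 0 := Finsupp.notMem_support_iff.1 (Finset.disjoint_left.1 hqa hn)
      simp [this]
    · have : q n = 0 := Finsupp.notMem_support_iff.1 hn
      simp [this]
  have hdec : a + (1/2 : ℝ) • (p - q) = (1/2 : ℝ) • ((a + p) + (a - q)) := by
    ext n
    simp
    ring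
  have hnorm2 : ‖T e (a + (1/2 : ℝ) • (p - q))‖ ≤ 1 + ζ := by
    rw [hdec, map_smul, map_add, norm_smul, Real.norm_of_nonneg (by norm_num)]
    have h1 := norm_add_le (T e (a + p)) (T e (a - q))
    have h2 := (hu1 m).2.1
    linarith
  have hbn : ‖T e b‖ < 1 := by
    rw [hb, map_smul, norm_smul, Real.norm_of_nonneg (by linarith)]
    calc (1 - ζ) * ‖T e (a + (1/2 : ℝ) • (p - q))‖ ≤ (1 - ζ) * (1 + ζ) := by
          gcongr
      _ < 1 := by nlinarith
  have hbf : ∀ f ∈ I, |f (T e b - x)| < δ := by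
    intro f hf
    have h1 : f (T e b - x) = (1 - ζ) * f (T e a - x) - ζ * f x +
        (1 - ζ) * (1/2) * (f (T e p) - f (T e q)) := by
      simp only [hb, map_smul, map_add, map_sub, smul_eq_mul]
      ring
    have h2 := hclose f hf
    have h3 := hζf f hf
    rw [h1]
    have t1 : |(1 - ζ) * f (T e a - x)| ≤ (1 - ζ) * |f (T e a - x)| := by
      rw [abs_mul, abs_of_pos (by linarith : 0 < 1 - ζ)]
    have t2 : |ζ * f x| = ζ * |f x| := by rw [abs_mul, abs_of_pos hζ]
    have t3 : |(1 - ζ) * (1/2) * (f (T e p) - f (T e q))| ≤ (1 - ζ) * (1/2) * (2 * ζ) := by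
      rw [abs_mul, abs_of_pos (by linarith : 0 < (1 - ζ) * (1/2))]
      have : 0 ≤ (1 - ζ) * (1/2) := by linarith
      exact mul_le_mul_of_nonneg_left h2.le this
    have t4 : |(1 - ζ) * f (T e a - x) - ζ * f x + (1 - ζ) * (1/2) * (f (T e p) - f (T e q))| ≤
        |(1 - ζ) * f (T e a - x)| + |ζ * f x| + |(1 - ζ) * (1/2) * (f (T e p) - f (T e q))| := by
      refine (abs_add_le _ _).trans ?_
      gcongr
      exact abs_sub _ _
    have h0 : 0 ≤ |f (T e a - x)| := abs_nonneg _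
    nlinarith
  have hdisj1 : Disjoint p.support (-q).support := by simpa using hpq
  have hsupp : (p - q).support ⊆ p.support ∪ q.support := by
    rw [sub_eq_add_neg]
    refine Finsupp.support_add.trans ?_
    simp
  have hdisj2 : Disjoint a.support ((1/2 : ℝ) • (p - q)).support := by
    refine Disjoint.mono_right (Finsupp.support_smul.trans hsupp) ?_
    rw [Finset.disjoint_union_right]
    exact ⟨hpa.symm, hqa.symm⟩
  have hGb : G w b = (1 - ζ) * (G w a + 1/2 * (G w p + G w q)) := by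
    rw [hb, G_smul _ _ _ (by linarith), G_add_disj _ _ _ hdisj2, G_smul _ _ _ (by norm_num),
      sub_eq_add_neg p q, G_add_disj _ _ _ hdisj1, G_neg]
  have hGp : δ < G w p := lt_of_lt_of_le hbig (abs_le_G e f0 w (le_W e I f0 hf0) p)
  have hGq : δ < G w q := by
    obtain ⟨f1, hf1, hbig1⟩ := (hu1 m').2.2
    exact lt_of_lt_of_le hbig1 (abs_le_G e f1 w (le_W e I f1 hf1) q)
  have hGa : G w a ≤ K := by
    refine (G_W_le hu I a).trans ?_
    have := haA.1.le
    calc K * ‖T e a‖ ≤ K * 1 := by gcongr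
      _ = K := mul_one _
  have hle : G w b ≤ sSup (G w '' A) := le_csSup hbdd ⟨b, ⟨hbn, hbf⟩, rfl⟩
  have hGtot : G w a + 1/2 * (G w p + G w q) - δ / 2 < G w b := by
    rw [hGb]
    have hGpn : G w p ≤ 3 * K := by
      refine (G_W_le hu I p).trans ?_
      calc K * ‖T e p‖ ≤ K * 3 := by gcongr; exact hub m
        _ = 3 * K := mul_comm _ _
    have hGqn : G w q ≤ 3 * K := by
      refine (G_W_le hu I q).trans ?_
      calc K * ‖T e q‖ ≤ K * 3 := by gcongr; exact hub m'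
        _ = 3 * K := mul_comm _ _
    nlinarith
  linarith

end Q98.PiBase
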