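import Mathlib
import Pool.Agent.Q98.PiBase

set_option autoImplicit false

open Filter Topology

namespace Q98.PiBase

variable {X : Type*} [NormedAddCommGroup X] [NormedSpace ℝ X]

/-- truncation as a finitely supported function -/
noncomputable def tr (a : ℕ → ℝ) (s : Finset ℕ) : ℕ →₀ ℝ := by
  classical
  exact Finsupp.onFinset s (fun n => if n ∈ s then a n else 0) (by
    intro n hn; by_contra h; simp [h] at hn)

lemma tr_apply (a : ℕ → ℝ) (s : Finset ℕ) (n : ℕ) :
    tr a s n = if n ∈ s then a n else 0 := by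
  classical
  unfold tr; simp

lemma tr_supp (a : ℕ → ℝ) (s : Finset ℕ) : (tr a s).support ⊆ s := by
  intro n hn
  rw [Finsupp.mem_support_iff, tr_apply] at hn
  by_contra h; simp [h] at hn

lemma T_tr (e : ℕ → X) (a : ℕ → ℝ) (s : Finset ℕ) : T e (tr a s) = ∑ n ∈ s, a n • e n := by
  rw [T_eq_sum e _ s (tr_supp a s)]
  apply Finset.sum_congr rfl
  intro n hn
  rw [tr_apply, if_pos hn]

lemma norm_tr_le {e : ℕ → X} (hu : Unc e) (a : ℕ → ℝ) (x : X)
    (hx : HasSum (fun n => a n • e n) x) (F : Finset ℕ) : ‖T e (tr a F)‖ ≤ ‖x‖ := by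
  have h1 : Tendsto (fun s : Finset ℕ => ‖∑ n ∈ s, a n • e n‖) atTop (𝓝 ‖x‖) := hx.norm
  refine ge_of_tendsto h1 ?_
  filter_upwards [eventually_ge_atTop F] with s hs
  rw [← T_tr e a s]
  have h2 : tr a F = (tr a s).filter (fun n => n ∈ F) := by
    ext n
    rw [Finsupp.filter_apply, tr_apply, tr_apply]
    by_cases hn : n ∈ F
    · simp [hn, hs hn]
    · simp [hn]
  rw [h2]
  exact T_filter_le hu _ _

section Basis

variable (e : ℕ → X) (hb : ∀ x : X, ∃! a : ℕ → ℝ, HasSum (fun n => a n • e n) x)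

/-- coefficients -/
noncomputable def co (x : X) : ℕ → ℝ := (hb x).choose

lemma co_hasSum (x : X) : HasSum (fun n => co e hb x n • e n) x := (hb x).choose_spec.1

lemma co_unique (x : X) (a : ℕ → ℝ) (ha : HasSum (fun n => a n • e n) x) : a = co e hb x :=
  (hb x).choose_spec.2 a ha

include hb in
lemma e_ne_zero (n : ℕ) : e n ≠ 0 := by
  intro h0
  have h1 : HasSum (fun k => (0 : ℕ → ℝ) k • e k) (0 : X) := by simpa using hasSum_zero
  have h2 : HasSum (fun k => (Pi.single n 1 : ℕ → ℝ) k • e k) (0 : X) := by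
    have : (fun k => (Pi.single n 1 : ℕ → ℝ) k • e k) = fun _ => 0 := by
      funext k
      by_cases hk : k = n
      · subst hk; simp [h0]
      · simp [hk]
    rw [this]; exact hasSum_zero
  have h3 := (co_unique e hb 0 _ h1).trans (co_unique e hb 0 _ h2).symm
  have h4 := congrFun h3 n
  simp at h4

lemma co_bound (hu : Unc e) (x : X) (n : ℕ) : |co e hb x n| ≤ ‖e n‖⁻¹ * ‖x‖ := by
  have h := norm_tr_le hu _ x (co_hasSum e hb x) {n}
  rw [T_tr, Finset.sum_singleton, norm_smul, Real.norm_eq_abs] at h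
  have hpos : 0 < ‖e n‖ := norm_pos_iff.2 (e_ne_zero e hb n)
  rw [inv_mul_eq_div, le_div_iff₀ hpos]
  exact h

/-- coordinate functional -/
noncomputable def cf (hu : Unc e) (n : ℕ) : StrongDual ℝ X :=
  LinearMap.mkContinuous
    { toFun := fun x => co e hb x n
      map_add' := by
        intro x y
        have h := (co_hasSum e hb x).add (co_hasSum e hb y)
        have h2 : HasSum (fun k => (co e hb x + co e hb y) k • e k) (x + y) := by
          simpa [add_smul] using h
        rw [← co_unique e hb (x + y) _ h2]; rfl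
      map_smul' := by
        intro c x
        have h := (co_hasSum e hb x).const_smul c
        have h2 : HasSum (fun k => (c • co e hb x) k • e k) (c • x) := by
          simpa [smul_smul] using h
        rw [← co_unique e hb (c • x) _ h2]; rfl }
    (‖e n‖⁻¹) (by intro x; exact co_bound e hb hu x n)

lemma cf_apply (hu : Unc e) (n : ℕ) (x : X) : cf e hb hu n x = co e hb x n := rfl

end Basis

/-- The key local statement. -/
theorem exists_head (e : ℕ → X) (hb : ∀ x : X, ∃! a : ℕ → ℝ, HasSum (fun n => a n • e n) x)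
    (hu : Unc e) (I : Finset (StrongDual ℝ X)) (x : X) (hx : ‖x‖ ≤ 1) (δ : ℝ) (hδ : 0 < δ) :
    ∃ y : X, ‖y‖ ≤ 1 ∧ ∃ (F : Finset ℕ) (η : ℝ), 0 < η ∧
      ∀ y' : X, ‖y'‖ ≤ 1 → (∀ n ∈ F, |co e hb y' n - co e hb y n| < η) →
        ∀ f ∈ I, |f (y' - x)| < δ := by
  classical
  set K : ℝ := ∑ f ∈ I, ‖f‖
  have hK : 0 ≤ K := Finset.sum_nonneg fun _ _ => norm_nonneg _
  have hfK : ∀ f ∈ I, ‖f‖ ≤ K := fun f hf =>
    Finset.single_le_sum (f := fun f : StrongDual ℝ X => ‖f‖) (fun _ _ => norm_nonneg _) hf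
  -- initial point
  obtain ⟨a₀, ha0, ha0'⟩ : ∃ a₀ : ℕ →₀ ℝ, ‖T e a₀‖ < 1 ∧ ∀ f ∈ I, |f (T e a₀ - x)| < δ / 4 := by
    set ρ : ℝ := min (1/2) (δ / 4 / (K + 1)) with hρ
    have hρ0 : 0 < ρ := by positivity
    have hρ1 : ρ ≤ 1/2 := min_le_left _ _
    have hlim := (co_hasSum e hb x)
    have h1 : ∀ᶠ s : Finset ℕ in atTop, ‖(∑ n ∈ s, co e hb x n • e n) - x‖ < ρ / 2 := by
      have := (Metric.tendsto_nhds.1 hlim) (ρ / 2) (by positivity)
      simpa [dist_eq_norm] using this
    obtain ⟨s, hs⟩ := h1.exists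
    have hn : ‖T e (tr (co e hb x) s)‖ ≤ 1 := (norm_tr_le hu _ x hlim s).trans hx
    refine ⟨(1 - ρ / 4) • tr (co e hb x) s, ?_, ?_⟩
    · rw [map_smul, norm_smul, Real.norm_of_nonneg (by linarith)]
      nlinarith [norm_nonneg (T e (tr (co e hb x) s))]
    · intro f hf
      have h2 : ‖T e ((1 - ρ / 4) • tr (co e hb x) s) - x‖ < ρ := by
        have h3 : T e ((1 - ρ / 4) • tr (co e hb x) s) - x =
            (T e (tr (co e hb x) s) - x) - (ρ / 4) • T e (tr (co e hb x) s) := by
          rw [map_smul, sub_smul, one_smul]; abel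
        rw [h3]
        refine lt_of_le_of_lt (norm_sub_le _ _) ?_
        rw [norm_smul, Real.norm_of_nonneg (by positivity)]
        rw [T_tr] at hn ⊢
        nlinarith [norm_nonneg (∑ n ∈ s, co e hb x n • e n)]
      calc |f (T e ((1 - ρ / 4) • tr (co e hb x) s) - x)|
          ≤ ‖f‖ * ‖T e ((1 - ρ / 4) • tr (co e hb x) s) - x‖ := f.le_opNorm _
        _ ≤ K * ρ := by
            apply mul_le_mul (hfK f hf) h2.le (norm_nonneg _) hK
        _ < (K + 1) * ρ := by nlinarith
        _ ≤ (K + 1) * (δ / 4 / (K + 1)) := by gcongr; exact min_le_right _ _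
        _ = δ / 4 := by field_simp
  obtain ⟨a, ha1, ha2, F, η, haF, hη, hblock⟩ :=
    exists_blocking hu I x (δ / 4) (by positivity) a₀ ha0 ha0'
  set M : ℝ := ∑ n ∈ F, ‖e n‖
  have hM : 0 ≤ M := Finset.sum_nonneg fun _ _ => norm_nonneg _
  set τ : ℝ := min η (δ / 4 / (K + 1)) with hτ
  have hτ0 : 0 < τ := by positivity
  have hco : co e hb (T e a) = a := by
    symm
    apply co_unique e hb
    rw [T_eq_sum e a a.support subset_rfl]
    apply hasSum_sum_of_ne_finset_zero
    intro n hn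
    rw [Finsupp.notMem_support_iff.1 hn, zero_smul]
  refine ⟨T e a, ha1.le, F, τ / (M + 1), by positivity, ?_⟩
  intro y' hy' hclose f hf
  rw [hco] at hclose
  -- head difference
  have hhead : ‖T e (tr (co e hb y') F) - T e a‖ ≤ τ := by
    rw [T_tr, T_eq_sum e a F haF, ← Finset.sum_sub_distrib]
    calc ‖∑ n ∈ F, (co e hb y' n • e n - a n • e n)‖
        ≤ ∑ n ∈ F, ‖co e hb y' n • e n - a n • e n‖ := norm_sum_le _ _
      _ ≤ ∑ n ∈ F, τ / (M + 1) * ‖e n‖ := by
          apply Finset.sum_le_sum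
          intro n hn
          rw [← sub_smul, norm_smul, Real.norm_eq_abs]
          exact mul_le_mul_of_nonneg_right (hclose n hn).le (norm_nonneg _)
      _ = τ / (M + 1) * M := by rw [Finset.mul_sum]
      _ ≤ τ := by
          rw [div_mul_eq_mul_div, div_le_iff₀ (by positivity)]
          nlinarith
  have htail : |f (y' - T e (tr (co e hb y') F))| ≤ δ / 4 := by
    have hlim : Tendsto (fun s : Finset ℕ => |f ((∑ n ∈ s, co e hb y' n • e n) -
        T e (tr (co e hb y') F))|) atTop (𝓝 |f (y' - T e (tr (co e hb y') F))|) := by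
      have h1 : Tendsto (fun s : Finset ℕ => (∑ n ∈ s, co e hb y' n • e n)) atTop (𝓝 y') :=
        co_hasSum e hb y'
      exact ((f.continuous.tendsto _).comp (h1.sub_const _)).abs
    refine le_of_tendsto hlim ?_
    filter_upwards [eventually_ge_atTop F] with s hs
    have hs' : F ⊆ s := hs
    rw [← T_tr e _ s, ← map_sub]
    apply hblock _ ?_ ?_ f hf
    · rw [Finset.disjoint_left]
      intro n hn hnF
      rw [Finsupp.mem_support_iff, Finsupp.sub_apply, tr_apply, tr_apply, if_pos hnF,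
        if_pos (hs' hnF)] at hn
      simp at hn
    · have h1 : T e (a + (tr (co e hb y') s - tr (co e hb y') F)) =
          T e (tr (co e hb y') s) - (T e (tr (co e hb y') F) - T e a) := by
        rw [map_add, map_sub]; abel
      rw [h1]
      refine (norm_sub_le _ _).trans ?_
      have h2 := norm_tr_le hu _ y' (co_hasSum e hb y') s
      have h3 : τ ≤ η := min_le_left _ _
      linarith
  have hmid : |f (T e (tr (co e hb y') F) - T e a)| < δ / 4 := by
    calc |f (T e (tr (co e hb y') F) - T e a)| ≤ ‖f‖ * ‖T e (tr (co e hb y') F) - T e a‖ :=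
          f.le_opNorm _
      _ ≤ K * τ := mul_le_mul (hfK f hf) hhead (norm_nonneg _) hK
      _ < (K + 1) * τ := by nlinarith
      _ ≤ (K + 1) * (δ / 4 / (K + 1)) := by gcongr; exact min_le_right _ _
      _ = δ / 4 := by field_simp
  have hlast := ha2 f hf
  have hdecomp : f (y' - x) = f (y' - T e (tr (co e hb y') F)) +
      f (T e (tr (co e hb y') F) - T e a) + f (T e a - x) := by
    rw [← map_add, ← map_add]; congr 1; abel
  rw [hdecomp]
  have := abs_add_three (f (y' - T e (tr (co e hb y') F)))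
    (f (T e (tr (co e hb y') F) - T e a)) (f (T e a - x))
  linarith

theorem main (e : ℕ → X)
    (hb : ∀ x : X, ∃! a : ℕ → ℝ, HasSum (fun n => a n • e n) x) (hu : Unc e) :
      ∃ U : ℕ → Set (WeakSpace ℝ X),
        (∀ n, IsOpen (U n) ∧
            (U n ∩ (toWeakSpace ℝ X) '' Metric.closedBall (0 : X) 1).Nonempty) ∧
        ∀ V : Set (WeakSpace ℝ X), IsOpen V →
          (V ∩ (toWeakSpace ℝ X) '' Metric.closedBall (0 : X) 1).Nonempty →
            ∃ n, U n ∩ (toWeakSpace ℝ X) '' Metric.closedBall (0 : X) 1 ⊆ V := by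
  classical
  -- the index family
  set S : Finset ℕ × (ℕ →₀ ℚ) × ℕ → Set (WeakSpace ℝ X) := fun p =>
    ⋂ n ∈ p.1, {z : WeakSpace ℝ X |
      |cf e hb hu n ((toWeakSpace ℝ X).symm z) - (p.2.1 n : ℝ)| < 1 / ((p.2.2 : ℝ) + 1)} with hS
  set B : Set (WeakSpace ℝ X) := (toWeakSpace ℝ X) '' Metric.closedBall (0 : X) 1 with hB
  set U' : Finset ℕ × (ℕ →₀ ℚ) × ℕ → Set (WeakSpace ℝ X) := fun p =>
    if (S p ∩ B).Nonempty then S p else Set.univ with hU'
  obtain ⟨enum, henum⟩ := exists_surjective_nat (Finset ℕ × (ℕ →₀ ℚ) × ℕ)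
  have hSo : ∀ p, IsOpen (S p) := by
    intro p
    exact isOpen_biInter_finset fun n _ => isOpen_slab _ _ _
  have hBne : B.Nonempty := ⟨toWeakSpace ℝ X 0, 0, by simp, rfl⟩
  refine ⟨fun k => U' (enum k), fun k => ?_, fun V hV hVne => ?_⟩
  · simp only [hU']
    split_ifs with h
    · exact ⟨hSo _, h⟩
    · exact ⟨isOpen_univ, by rw [Set.univ_inter]; exact hBne⟩
  · obtain ⟨_, hxV, x, hxB, rfl⟩ := hVne
    rw [mem_closedBall_zero_iff] at hxB
    obtain ⟨I, δ, hδ, hI⟩ := weak_nhd V hV x hxV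
    obtain ⟨y, hy, F, η, hη, hhead⟩ := exists_head e hb hu I x hxB δ hδ
    obtain ⟨m, hm⟩ := exists_nat_one_div_lt (show (0:ℝ) < η / 2 by positivity)
    have hq : ∀ n, ∃ q : ℚ, |co e hb y n - q| < 1 / ((m : ℝ) + 1) := by
      intro n
      obtain ⟨q, hq⟩ := exists_rat_near (co e hb y n) (show (0:ℝ) < 1 / ((m:ℝ) + 1) by positivity)
      exact ⟨q, hq⟩
    choose q hq using hq
    set z : ℕ →₀ ℚ := Finsupp.onFinset F (fun n => if n ∈ F then q n else 0) (by
      intro n hn; by_contra h; simp [h] at hn) with hz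
    have hzn : ∀ n ∈ F, z n = q n := by
      intro n hn; simp [hz, hn]
    obtain ⟨k, hk⟩ := henum (F, z, m)
    refine ⟨k, ?_⟩
    have hne : (S (F, z, m) ∩ B).Nonempty := by
      refine ⟨toWeakSpace ℝ X y, ?_, y, by simpa using hy, rfl⟩
      simp only [hS, Set.mem_iInter, Set.mem_setOf_eq]
      intro n hn
      rw [hzn n hn]
      exact hq n
    have hUk : U' (enum k) = S (F, z, m) := by
      rw [hk]; simp only [hU']; rw [if_pos hne]
    show U' (enum k) ∩ B ⊆ V
    rw [hUk]
    rintro _ ⟨h1, y', hy', rfl⟩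
    rw [mem_closedBall_zero_iff] at hy'
    apply hI
    apply hhead y' hy'
    intro n hn
    simp only [hS, Set.mem_iInter, Set.mem_setOf_eq] at h1
    have h2 := h1 n hn
    rw [hzn n hn] at h2
    have h3 := hq n
    have h4 : |co e hb y' n - (q n : ℝ)| < 1 / ((m : ℝ) + 1) := h2
    have h5 : |co e hb y' n - co e hb y n| ≤ |co e hb y' n - (q n : ℝ)| + |co e hb y n - q n| := by
      have := abs_sub_le (co e hb y' n) (q n : ℝ) (co e hb y n)
      rw [abs_sub_comm (q n : ℝ)] at this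
      exact this
    linarith

end Q98.PiBase
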