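import Mathlib

set_option autoImplicit false

open Filter Topology

open scoped ENNReal

namespace Q98.QMeas

/-- `ℓ_∞` -/
abbrev Linf : Type := lp (fun _ : ℕ => ℝ) ∞

/-- the block of index `k` -/
def I (k : ℕ) : Finset ℕ := (Finset.range ((k + 1) * (k + 1))).filter fun n => Nat.sqrt n = k

lemma mem_I (k n : ℕ) : n ∈ I k ↔ Nat.sqrt n = k := by
  unfold I
  rw [Finset.mem_filter, Finset.mem_range]
  constructor
  · exact fun h => h.2
  · intro h
    refine ⟨?_, h⟩
    rw [← h]
    exact Nat.lt_succ_sqrt n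

lemma card_I (k : ℕ) : k < (I k).card := by
  have h : (Finset.range (k + 1)).image (fun j => k * k + j) ⊆ I k := by
    intro n hn
    rw [Finset.mem_image] at hn
    obtain ⟨j, hj, rfl⟩ := hn
    rw [Finset.mem_range] at hj
    rw [mem_I]
    exact Nat.sqrt_add_eq k (by omega)
  have h2 := Finset.card_le_card h
  rw [Finset.card_image_of_injective _ (fun a b hab => by simpa using hab), Finset.card_range] at h2
  omega

/-- thin sets -/
def Thin (S : Set ℕ) : Prop := ∃ m : ℕ, ∀ k, ∀ F : Finset ℕ, (F : Set ℕ) ⊆ S → F ⊆ I k → F.card ≤ m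

lemma Thin.mono {S T : Set ℕ} (h : Thin T) (hST : S ⊆ T) : Thin S := by
  obtain ⟨m, hm⟩ := h
  exact ⟨m, fun k F hF hFk => hm k F (hF.trans hST) hFk⟩

lemma Thin.union {S T : Set ℕ} (hS : Thin S) (hT : Thin T) : Thin (S ∪ T) := by
  classical
  obtain ⟨m, hm⟩ := hS
  obtain ⟨m', hm'⟩ := hT
  refine ⟨m + m', fun k F hF hFk => ?_⟩
  have h1 := hm k (F.filter fun n => n ∈ S) (by intro n hn; simpa using (Finset.mem_filter.1 hn).2)
    ((Finset.filter_subset _ _).trans hFk)
  have h2 := hm' k (F.filter fun n => ¬ n ∈ S) (by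
    intro n hn
    have h3 := Finset.mem_filter.1 hn
    exact (hF h3.1).resolve_left h3.2)
    ((Finset.filter_subset _ _).trans hFk)
  have h3 := Finset.card_filter_add_card_filter_not (s := F) (fun n => n ∈ S)
  omega

lemma thin_empty : Thin ∅ := ⟨0, fun k F hF _ => by
  have : F = ∅ := by
    rw [Finset.eq_empty_iff_forall_notMem]
    intro n hn; exact hF hn
  simp [this]⟩

lemma not_thin_univ : ¬ Thin Set.univ := by
  rintro ⟨m, hm⟩
  have h1 := hm m (I m) (Set.subset_univ _) subset_rfl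
  have h2 := card_I m
  omega

lemma thin_of_finite {S : Set ℕ} (hS : S.Finite) : Thin S := by
  refine ⟨hS.toFinset.card, fun k F hF _ => Finset.card_le_card ?_⟩
  intro n hn
  rw [Set.Finite.mem_toFinset]; exact hF hn

/-- the dual filter -/
def coThin : Filter ℕ where
  sets := {S | Thin Sᶜ}
  univ_sets := by simpa using thin_empty
  sets_of_superset := by
    intro S T hS hST
    exact Thin.mono hS (Set.compl_subset_compl.2 hST)
  inter_sets := by
    intro S T hS hT
    show Thin (S ∩ T)ᶜ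
    rw [Set.compl_inter]
    exact Thin.union hS hT

instance : coThin.NeBot := by
  rw [Filter.neBot_iff]
  intro h
  have h1 : (∅ : Set ℕ) ∈ coThin := by rw [h]; exact Filter.mem_bot
  have h2 : Thin (∅ : Set ℕ)ᶜ := h1
  rw [Set.compl_empty] at h2
  exact not_thin_univ h2

/-- an ultrafilter avoiding thin sets -/
noncomputable def V : Ultrafilter ℕ := Ultrafilter.of coThin

lemma V_thin {S : Set ℕ} (hS : Thin S) : Sᶜ ∈ V := by
  have : Sᶜ ∈ coThin := by
    show Thin Sᶜᶜ
    rwa [compl_compl]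
  exact Ultrafilter.of_le coThin this

/-- the limit along `V` -/
lemma exists_lim (h : Linf) : ∃ r : ℝ, Tendsto (fun n => h n) V (𝓝 r) := by
  have hb : ∀ n, h n ∈ Metric.closedBall (0 : ℝ) ‖h‖ := by
    intro n
    rw [mem_closedBall_zero_iff]
    exact lp.norm_apply_le_norm (by simp) h n
  have hc : IsCompact (Metric.closedBall (0 : ℝ) ‖h‖) := isCompact_closedBall _ _
  obtain ⟨r, _, hr⟩ := hc.ultrafilter_le_nhds (V.map fun n => h n) (by
    rw [le_principal_iff]
    show _ ∈ (V.map fun n => h n)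
    rw [Ultrafilter.mem_map]
    exact Filter.Eventually.of_forall (f := (V : Filter ℕ)) hb)
  exact ⟨r, hr⟩

/-- the limit -/
noncomputable def vlim (h : Linf) : ℝ := (exists_lim h).choose

lemma tendsto_vlim (h : Linf) : Tendsto (fun n => h n) V (𝓝 (vlim h)) := (exists_lim h).choose_spec

lemma vlim_eq (h : Linf) (r : ℝ) (hr : Tendsto (fun n => h n) V (𝓝 r)) : vlim h = r :=
  tendsto_nhds_unique (tendsto_vlim h) hr

/-- the limit functional -/
noncomputable def LV : StrongDual ℝ Linf :=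
  LinearMap.mkContinuous
    { toFun := vlim
      map_add' := fun f g => vlim_eq _ _ ((tendsto_vlim f).add (tendsto_vlim g))
      map_smul' := fun c f => vlim_eq _ _ ((tendsto_vlim f).const_mul c) } 1 (by
    intro h
    rw [one_mul]
    show ‖vlim h‖ ≤ ‖h‖
    refine le_of_tendsto (tendsto_vlim h).norm (Eventually.of_forall fun n => ?_)
    exact lp.norm_apply_le_norm (by simp) h n)

lemma LV_apply (h : Linf) : LV h = vlim h := rfl

/-- The norming set. -/
def K : Type := {p : ℝ × (ℕ → ℝ) // |p.1| ≤ 1 ∧ ∀ k,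
  ∑ n ∈ I k, max (p.2 n + p.1) 0 ≤ 1 + p.1 ∧ ∑ n ∈ I k, max (-(p.2 n + p.1)) 0 ≤ 1 - p.1}

lemma K.abs_val_le (f : K) (n : ℕ) : |f.1.2 n| ≤ 1 := by
  obtain ⟨h1, h2⟩ := f.2
  obtain ⟨h3, h4⟩ := h2 (Nat.sqrt n)
  have hn : n ∈ I (Nat.sqrt n) := (mem_I _ _).2 rfl
  have h5 : max (f.1.2 n + f.1.1) 0 ≤ 1 + f.1.1 :=
    (Finset.single_le_sum (f := fun n => max (f.1.2 n + f.1.1) 0)
      (fun _ _ => le_max_right _ _) hn).trans h3
  have h6 : max (-(f.1.2 n + f.1.1)) 0 ≤ 1 - f.1.1 :=
    (Finset.single_le_sum (f := fun n => max (-(f.1.2 n + f.1.1)) 0)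
      (fun _ _ => le_max_right _ _) hn).trans h4
  have h7 := (le_max_left _ _).trans h5
  have h8 := (le_max_left _ _).trans h6
  rw [abs_le]
  constructor <;> linarith

/-- block sums -/
lemma K.sum_le (f : K) (k : ℕ) (F : Finset ℕ) (hF : F ⊆ I k) :
    |∑ n ∈ F, (f.1.2 n + f.1.1)| ≤ 2 := by
  obtain ⟨h1, h2⟩ := f.2
  obtain ⟨h3, h4⟩ := h2 k
  have ha := abs_le.1 h1
  have e1 : ∑ n ∈ F, (f.1.2 n + f.1.1) ≤ 1 + f.1.1 := by
    refine le_trans ?_ h3
    calc ∑ n ∈ F, (f.1.2 n + f.1.1) ≤ ∑ n ∈ F, max (f.1.2 n + f.1.1) 0 :=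
          Finset.sum_le_sum fun _ _ => le_max_left _ _
      _ ≤ ∑ n ∈ I k, max (f.1.2 n + f.1.1) 0 :=
          Finset.sum_le_sum_of_subset_of_nonneg hF fun _ _ _ => le_max_right _ _
  have e2 : -∑ n ∈ F, (f.1.2 n + f.1.1) ≤ 1 - f.1.1 := by
    refine le_trans ?_ h4
    rw [← Finset.sum_neg_distrib]
    calc ∑ n ∈ F, -(f.1.2 n + f.1.1) ≤ ∑ n ∈ F, max (-(f.1.2 n + f.1.1)) 0 :=
          Finset.sum_le_sum fun _ _ => le_max_left _ _
      _ ≤ ∑ n ∈ I k, max (-(f.1.2 n + f.1.1)) 0 :=
          Finset.sum_le_sum_of_subset_of_nonneg hF fun _ _ _ => le_max_right _ _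
  rw [abs_le]
  constructor <;> linarith

/-- symmetry -/
def K.neg (f : K) : K := ⟨(-f.1.1, fun n => -f.1.2 n), by
  obtain ⟨h1, h2⟩ := f.2
  refine ⟨by simpa using h1, fun k => ?_⟩
  obtain ⟨h3, h4⟩ := h2 k
  refine ⟨?_, ?_⟩
  · have : ∀ n, max (-f.1.2 n + -f.1.1) 0 = max (-(f.1.2 n + f.1.1)) 0 := fun n => by
      congr 1; ring
    simp only [this]
    linarith
  · have : ∀ n, max (-(-f.1.2 n + -f.1.1)) 0 = max (f.1.2 n + f.1.1) 0 := fun n => by
      congr 1; ring
    simp only [this]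
    linarith⟩

/-- coordinates -/
def co (f : K) : Option ℕ → ℝ
  | none => f.1.1
  | some n => f.1.2 n

lemma abs_co_le (f : K) (i : Option ℕ) : |co f i| ≤ 1 := by
  cases i with
  | none => exact f.2.1
  | some n => exact f.abs_val_le n

lemma co_neg (f : K) (i : Option ℕ) : co f.neg i = - co f i := by
  cases i <;> rfl

/-- unit vectors -/
def v (i : Option ℕ) : lp (fun _ : K => ℝ) ∞ :=
  ⟨fun f => co f i, by
    apply memℓp_infty
    refine ⟨1, ?_⟩
    rintro _ ⟨f, rfl⟩
    exact abs_co_le f i⟩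

/-- synthesis -/
noncomputable def T : (Option ℕ →₀ ℝ) →ₗ[ℝ] lp (fun _ : K => ℝ) ∞ := Finsupp.linearCombination ℝ v

/-- evaluation -/
noncomputable def P (f : K) (a : Option ℕ →₀ ℝ) : ℝ := ∑ i ∈ a.support, a i * co f i

lemma T_apply (a : Option ℕ →₀ ℝ) (f : K) : (T a : lp (fun _ : K => ℝ) ∞) f = P f a := by
  unfold T P
  rw [Finsupp.linearCombination_apply, Finsupp.sum, lp.coeFn_sum, Finset.sum_apply]
  rfl

instance : Nonempty K := ⟨⟨(0, fun _ => 0), by simp⟩⟩

lemma P_neg (f : K) (a : Option ℕ →₀ ℝ) : P f.neg a = - P f a := by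
  unfold P
  rw [← Finset.sum_neg_distrib]
  apply Finset.sum_congr rfl
  intro i _
  rw [co_neg]; ring

lemma exists_P_near (a : Option ℕ →₀ ℝ) (ε : ℝ) (hε : 0 < ε) : ∃ f : K, ‖T a‖ - ε < P f a := by
  by_contra hcon
  push Not at hcon
  have : ‖T a‖ ≤ ‖T a‖ - ε := by
    apply lp.norm_le_of_forall_le'
    intro f
    rw [T_apply, Real.norm_eq_abs, abs_le]
    constructor
    · have := hcon f.neg
      rw [P_neg] at this
      linarith
    · exact hcon f
  linarith

/-- The space. -/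
noncomputable def X : Submodule ℝ (lp (fun _ : K => ℝ) ∞) := (LinearMap.range T).topologicalClosure

instance : CompleteSpace X := (Submodule.isClosed_topologicalClosure _).completeSpace_coe

/-- generators as elements of `X` -/
noncomputable def e (i : Option ℕ) : X :=
  ⟨v i, Submodule.le_topologicalClosure _ ⟨Finsupp.single i 1, by
    unfold T; rw [Finsupp.linearCombination_single, one_smul]⟩⟩

lemma norm_e_le (i : Option ℕ) : ‖e i‖ ≤ 1 := by
  show ‖v i‖ ≤ 1
  apply lp.norm_le_of_forall_le'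
  intro f
  exact abs_co_le f i

/-- evaluations as functionals on `X` -/
noncomputable def ev (f : K) : StrongDual ℝ X :=
  LinearMap.mkContinuous
    { toFun := fun x : X => (x : lp (fun _ : K => ℝ) ∞) f
      map_add' := fun _ _ => rfl
      map_smul' := fun _ _ => rfl } 1 (by
    intro x
    rw [one_mul]
    exact lp.norm_apply_le_norm (by simp) (x : lp (fun _ : K => ℝ) ∞) f)

lemma ev_e (f : K) (i : Option ℕ) : ev f (e i) = co f i := rfl

lemma norm_ev_le (f : K) : ‖ev f‖ ≤ 1 := LinearMap.mkContinuous_norm_le _ zero_le_one _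

lemma norm_e_none : ‖e none‖ = 1 := by
  apply le_antisymm (norm_e_le none)
  set f : K := ⟨(1, fun _ => -1), by simp⟩
  have h1 := (ev f).le_opNorm (e none)
  have h2 : ev f (e none) = 1 := rfl
  rw [h2, norm_one] at h1
  have h3 := norm_ev_le f
  have h4 := norm_nonneg (e none)
  nlinarith

/-- averages over blocks are small -/
lemma avg_small (k : ℕ) (F : Finset ℕ) (hF : F ⊆ I k) :
    ‖∑ n ∈ F, (e (some n) + e none)‖ ≤ 2 := by
  have h : ‖((∑ n ∈ F, (e (some n) + e none) : X) : lp (fun _ : K => ℝ) ∞)‖ ≤ 2 := by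
    apply lp.norm_le_of_forall_le'
    intro f
    rw [Submodule.coe_sum, lp.coeFn_sum, Finset.sum_apply]
    exact f.sum_le k F hF
  exact h

lemma thin_set (g : StrongDual ℝ X) (δ : ℝ) (hδ : 0 < δ) :
    Thin {n | δ < g (e (some n) + e none)} := by
  obtain ⟨m, hm⟩ := exists_nat_gt (‖g‖ * 2 / δ)
  refine ⟨m, fun k F hF hFk => ?_⟩
  by_contra hcon
  push Not at hcon
  have h1 : g (∑ n ∈ F, (e (some n) + e none)) ≤ ‖g‖ * 2 := by
    refine (le_abs_self _).trans ((g.le_opNorm _).trans ?_)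
    gcongr
    exact avg_small k F hFk
  rw [map_sum] at h1
  have h2 : (F.card : ℝ) * δ ≤ ∑ n ∈ F, g (e (some n) + e none) := by
    rw [← nsmul_eq_mul, ← Finset.sum_const]
    exact Finset.sum_le_sum fun n hn => (hF hn).le
  rw [div_lt_iff₀ hδ] at hm
  have h3 : (m : ℝ) < F.card := by exact_mod_cast hcon
  nlinarith

lemma tendsto_V (g : StrongDual ℝ X) : Tendsto (fun n => g (e (some n))) V (𝓝 (- g (e none))) := by
  rw [Metric.tendsto_nhds]
  intro δ hδ
  have h1 := V_thin (thin_set g (δ / 2) (by positivity))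
  have h2 := V_thin (thin_set (-g) (δ / 2) (by positivity))
  filter_upwards [h1, h2] with n hn1 hn2
  simp only [Set.mem_compl_iff, Set.mem_ofPred_eq, not_lt, neg_apply] at hn1 hn2
  rw [map_add] at hn1 hn2
  rw [Real.dist_eq, sub_neg_eq_add, abs_lt]
  constructor <;> linarith

/-- L-orthogonality -/
lemma tendsto_T (a : Option ℕ →₀ ℝ) : Tendsto (fun n => ‖T a + v (some n)‖) atTop (𝓝 (1 + ‖T a‖)) := by
  rw [Metric.tendsto_atTop]
  intro δ hδ
  -- threshold
  obtain ⟨N, hN⟩ : ∃ N : ℕ, ∀ i ∈ a.support, ∀ m, i = some m → Nat.sqrt m < N := by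
    refine ⟨(a.support.sup fun i => Nat.sqrt (i.getD 0)) + 1, fun i hi m him => ?_⟩
    have := Finset.le_sup (f := fun i : Option ℕ => Nat.sqrt (i.getD 0)) hi
    rw [him] at this
    simp only [Option.getD_some] at this
    omega
  refine ⟨N * N, fun n hn => ?_⟩
  have hsn : N ≤ Nat.sqrt n := Nat.le_sqrt.2 hn
  have hup : ‖T a + v (some n)‖ ≤ 1 + ‖T a‖ := by
    have h1 := norm_add_le (T a) (v (some n))
    have h2 : ‖v (some n)‖ ≤ 1 := norm_e_le (some n)
    linarith
  have hlow : 1 + ‖T a‖ - δ < ‖T a + v (some n)‖ := by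
    obtain ⟨f, hf⟩ := exists_P_near a δ hδ
    set c' : ℕ → ℝ := fun m => if Nat.sqrt m = Nat.sqrt n then (if m = n then 1 else -f.1.1)
      else f.1.2 m with hc'
    have hf' : |f.1.1| ≤ 1 ∧ ∀ k, ∑ m ∈ I k, max (c' m + f.1.1) 0 ≤ 1 + f.1.1 ∧
        ∑ m ∈ I k, max (-(c' m + f.1.1)) 0 ≤ 1 - f.1.1 := by
      obtain ⟨h1, h2⟩ := f.2
      have ha := abs_le.1 h1
      refine ⟨h1, fun k => ?_⟩
      by_cases hk : k = Nat.sqrt n
      · have hval : ∀ m ∈ I k, c' m + f.1.1 = if m = n then 1 + f.1.1 else 0 := by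
          intro m hm
          rw [mem_I] at hm
          simp only [hc']
          rw [if_pos (hm.trans hk)]
          split_ifs <;> ring
        constructor
        · have : ∑ m ∈ I k, max (c' m + f.1.1) 0 = ∑ m ∈ I k, if m = n then 1 + f.1.1 else 0 := by
            apply Finset.sum_congr rfl
            intro m hm
            rw [hval m hm]
            split_ifs
            · exact max_eq_left (by linarith)
            · exact max_self _
          rw [this, Finset.sum_ite_eq']
          split_ifs <;> linarith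
        · have : ∑ m ∈ I k, max (-(c' m + f.1.1)) 0 = 0 := by
            apply Finset.sum_eq_zero
            intro m hm
            rw [hval m hm]
            split_ifs
            · exact max_eq_right (by linarith)
            · simp
          rw [this]; linarith
      · have hval : ∀ m ∈ I k, c' m = f.1.2 m := by
          intro m hm
          rw [mem_I] at hm
          simp only [hc']
          rw [if_neg (by rw [hm]; exact hk)]
        constructor
        · rw [Finset.sum_congr rfl fun m hm => by rw [hval m hm]]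
          exact (h2 k).1
        · rw [Finset.sum_congr rfl fun m hm => by rw [hval m hm]]
          exact (h2 k).2
    set f' : K := ⟨(f.1.1, c'), hf'⟩ with hf'def
    have hP : P f' a = P f a := by
      unfold P
      apply Finset.sum_congr rfl
      intro i hi
      congr 1
      cases i with
      | none => rfl
      | some m =>
        show c' m = f.1.2 m
        simp only [hc']
        rw [if_neg]
        have := hN (some m) hi m rfl
        omega
    have hvn : (v (some n) : lp (fun _ : K => ℝ) ∞) f' = 1 := by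
      show c' n = 1
      simp [hc']
    have h3 : (T a + v (some n) : lp (fun _ : K => ℝ) ∞) f' = P f a + 1 := by
      rw [lp.coeFn_add, Pi.add_apply, T_apply, hP, hvn]
    have h4 := lp.norm_apply_le_norm (E := fun _ : K => ℝ) (p := ∞) (by simp) (T a + v (some n)) f'
    rw [h3] at h4
    have h5 := le_abs_self (P f a + 1)
    rw [Real.norm_eq_abs] at h4
    linarith
  rw [Real.dist_eq, abs_lt]
  constructor <;> linarith

lemma tendsto_X (x : X) : Tendsto (fun n => ‖x + e (some n)‖) atTop (𝓝 (1 + ‖x‖)) := by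
  rw [Metric.tendsto_atTop]
  intro δ hδ
  have hz : (x : lp (fun _ : K => ℝ) ∞) ∈
      closure ((LinearMap.range T) : Set (lp (fun _ : K => ℝ) ∞)) := x.2
  obtain ⟨_, ⟨a, rfl⟩, ha⟩ := Metric.mem_closure_iff.1 hz (δ / 3) (by positivity)
  rw [dist_eq_norm] at ha
  obtain ⟨N, hN⟩ := Metric.tendsto_atTop.1 (tendsto_T a) (δ / 3) (by positivity)
  refine ⟨N, fun n hn => ?_⟩
  have h1 := hN n hn
  rw [Real.dist_eq] at h1 ⊢
  have h2 : |‖x + e (some n)‖ - ‖T a + v (some n)‖| ≤ ‖(x : lp (fun _ : K => ℝ) ∞) - T a‖ := by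
    have : ‖x + e (some n)‖ = ‖(x : lp (fun _ : K => ℝ) ∞) + v (some n)‖ := rfl
    rw [this]
    refine (abs_norm_sub_norm_le _ _).trans (le_of_eq ?_)
    congr 1; abel
  have h3 : |‖x‖ - ‖T a‖| ≤ ‖(x : lp (fun _ : K => ℝ) ∞) - T a‖ := by
    have : ‖x‖ = ‖(x : lp (fun _ : K => ℝ) ∞)‖ := rfl
    rw [this]
    exact abs_norm_sub_norm_le _ _
  rw [abs_lt] at h1
  rw [abs_le] at h2 h3
  rw [abs_lt]
  constructor <;> linarith

end Q98.QMeas
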