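import Mathlib
import Pool.Agent.Q98.QMeas1

set_option autoImplicit false

open Filter Topology

open scoped ENNReal

namespace Q98.QMeas

/-- indicator function as an element of `ℓ_∞` -/
noncomputable def ind (A : Set ℕ) : Linf :=
  ⟨A.indicator fun _ => (1 : ℝ), by
    apply memℓp_infty
    refine ⟨1, ?_⟩
    rintro _ ⟨n, rfl⟩
    by_cases hn : n ∈ A <;> simp [hn]⟩

lemma ind_apply (A : Set ℕ) (n : ℕ) [Decidable (n ∈ A)] : ind A n = if n ∈ A then 1 else 0 := by
  show A.indicator (fun _ => (1 : ℝ)) n = _
  rw [Set.indicator_apply]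

section Extension

variable (ν : Set ℕ → ℝ) (h0 : ∀ A, 0 ≤ ν A)
  (hadd : ∀ A B, Disjoint A B → ν (A ∪ B) = ν A + ν B)

include hadd in
lemma ν_empty : ν ∅ = 0 := by
  have := hadd ∅ ∅ (by simp)
  rw [Set.union_empty] at this
  linarith

include hadd in
lemma ν_biUnion {ι : Type*} (s : Finset ι) (B : ι → Set ℕ)
    (hB : ∀ i ∈ s, ∀ j ∈ s, i ≠ j → Disjoint (B i) (B j)) :
    ν (⋃ i ∈ s, B i) = ∑ i ∈ s, ν (B i) := by
  classical
  induction s using Finset.induction_on with
  | empty => simpa using ν_empty ν hadd
  | insert a s ha ih =>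
    rw [Finset.set_biUnion_insert, Finset.sum_insert ha, hadd, ih]
    · intro i hi j hj hij
      exact hB i (Finset.mem_insert_of_mem hi) j (Finset.mem_insert_of_mem hj) hij
    · rw [Set.disjoint_iUnion₂_right]
      intro j hj
      exact hB a (Finset.mem_insert_self _ _) j (Finset.mem_insert_of_mem hj)
        (fun h => ha (h ▸ hj))

open Classical in
/-- atom -/
noncomputable def atom (F : Finset (Set ℕ)) (t : Finset (Set ℕ)) : Set ℕ :=
  {n | F.filter (fun A => n ∈ A) = t}

open Classical in
lemma mem_atom (F t : Finset (Set ℕ)) (n : ℕ) : n ∈ atom F t ↔ F.filter (fun A => n ∈ A) = t :=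
  Iff.rfl

open Classical in
/-- a point of the atom -/
noncomputable def pt (F t : Finset (Set ℕ)) : ℕ :=
  if h : (atom F t).Nonempty then h.choose else 0

open Classical in
/-- approximating functional -/
noncomputable def approx (F : Finset (Set ℕ)) (h : Linf) : ℝ :=
  ∑ t ∈ F.powerset, ν (atom F t) * h (pt F t)

include hadd in
lemma sum_atoms (F : Finset (Set ℕ)) : ∑ t ∈ F.powerset, ν (atom F t) = ν Set.univ := by
  classical
  rw [← ν_biUnion ν hadd]
  · congr 1
    rw [Set.eq_univ_iff_forall]
    intro n
    rw [Set.mem_iUnion₂]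
    exact ⟨F.filter (fun A => n ∈ A), Finset.mem_powerset.2 (Finset.filter_subset _ _), rfl⟩
  · intro i _ j _ hij
    rw [Set.disjoint_left]
    intro n hi hj
    exact hij (hi.symm.trans hj)

include h0 hadd in
lemma abs_approx_le (F : Finset (Set ℕ)) (h : Linf) : |approx ν F h| ≤ ν Set.univ * ‖h‖ := by
  classical
  unfold approx
  refine (Finset.abs_sum_le_sum_abs _ _).trans ?_
  rw [← sum_atoms ν hadd F, Finset.sum_mul]
  apply Finset.sum_le_sum
  intro t _
  rw [abs_mul, abs_of_nonneg (h0 _)]
  exact mul_le_mul_of_nonneg_left (lp.norm_apply_le_norm (by simp) h _) (h0 _)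

include hadd in
lemma approx_ind (F : Finset (Set ℕ)) (A : Set ℕ) (hA : A ∈ F) : approx ν F (ind A) = ν A := by
  classical
  have h1 : ∀ t ∈ F.powerset, ν (atom F t) * ind A (pt F t) =
      if A ∈ t then ν (atom F t) else 0 := by
    intro t _
    by_cases hne : (atom F t).Nonempty
    · have hpt : pt F t ∈ atom F t := by
        unfold pt; rw [dif_pos hne]; exact hne.choose_spec
      have h2 : F.filter (fun B => pt F t ∈ B) = t := by
        have h5 := (mem_atom F t (pt F t)).1 hpt
        convert h5
      have h3 : pt F t ∈ A ↔ A ∈ t := by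
        rw [← h2, Finset.mem_filter]
        rw [h2]
        exact ⟨fun h => ⟨hA, h⟩, fun h => h.2⟩
      rw [ind_apply]
      by_cases hAt : A ∈ t
      · rw [if_pos (h3.2 hAt), if_pos hAt, mul_one]
      · rw [if_neg (fun h => hAt (h3.1 h)), if_neg hAt, mul_zero]
    · rw [Set.not_nonempty_iff_eq_empty] at hne
      rw [hne, ν_empty ν hadd]
      simp
  unfold approx
  rw [Finset.sum_congr rfl h1, ← Finset.sum_filter, ← ν_biUnion ν hadd]
  · congr 1
    ext n
    rw [Set.mem_iUnion₂]
    constructor
    · rintro ⟨t, ht, hn⟩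
      rw [Finset.mem_filter] at ht
      have h2 : F.filter (fun B => n ∈ B) = t := by
        have h5 := (mem_atom F t n).1 hn
        convert h5
      have h3 := ht.2
      rw [← h2, Finset.mem_filter] at h3
      exact h3.2
    · intro hn
      refine ⟨F.filter (fun B => n ∈ B), ?_, ?_⟩
      · rw [Finset.mem_filter, Finset.mem_powerset, Finset.mem_filter]
        exact ⟨Finset.filter_subset _ _, hA, hn⟩
      · unfold atom
        show F.filter (fun B => n ∈ B) = F.filter (fun B => n ∈ B)
        rfl
  · intro i _ j _ hij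
    rw [Set.disjoint_left]
    intro n hi hj
    exact hij (hi.symm.trans hj)

include h0 hadd in
/-- Every finitely additive nonnegative measure on `P(ℕ)` is given by a functional on `ℓ_∞`. -/
theorem exists_functional :
    ∃ Λ : StrongDual ℝ Linf, ‖Λ‖ ≤ ν Set.univ ∧ ∀ A, Λ (ind A) = ν A := by
  classical
  set U : Ultrafilter (Finset (Set ℕ)) := Ultrafilter.of atTop with hU
  have hUle : (U : Filter (Finset (Set ℕ))) ≤ atTop := Ultrafilter.of_le _
  have hex : ∀ h : Linf, ∃ r : ℝ, Tendsto (fun F => approx ν F h) U (𝓝 r) := by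
    intro h
    have hb : ∀ F, approx ν F h ∈ Metric.closedBall (0 : ℝ) (ν Set.univ * ‖h‖) := by
      intro F
      rw [mem_closedBall_zero_iff]
      exact abs_approx_le ν h0 hadd F h
    obtain ⟨r, _, hr⟩ := (isCompact_closedBall (0 : ℝ) (ν Set.univ * ‖h‖)).ultrafilter_le_nhds
      (U.map fun F => approx ν F h) (by
        rw [le_principal_iff]
        show _ ∈ (U.map fun F => approx ν F h)
        rw [Ultrafilter.mem_map]
        exact Filter.Eventually.of_forall (f := (U : Filter _)) hb)
    exact ⟨r, hr⟩
  choose L hL using hex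
  refine ⟨LinearMap.mkContinuous
    { toFun := L
      map_add' := fun f g => tendsto_nhds_unique (hL (f + g)) (by
        have := (hL f).add (hL g)
        refine this.congr fun F => ?_
        unfold approx
        rw [← Finset.sum_add_distrib]
        apply Finset.sum_congr rfl
        intro t _
        rw [lp.coeFn_add, Pi.add_apply]; ring)
      map_smul' := fun c f => tendsto_nhds_unique (hL (c • f)) (by
        have := (hL f).const_mul c
        refine this.congr fun F => ?_
        unfold approx
        rw [Finset.mul_sum]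
        apply Finset.sum_congr rfl
        intro t _
        rw [lp.coeFn_smul, Pi.smul_apply, smul_eq_mul]; ring) } (ν Set.univ) (by
    intro h
    show ‖L h‖ ≤ _
    exact le_of_tendsto (hL h).norm (Eventually.of_forall fun F => abs_approx_le ν h0 hadd F h)),
    LinearMap.mkContinuous_norm_le _ (h0 _) _, fun A => ?_⟩
  show L (ind A) = ν A
  refine tendsto_nhds_unique (hL (ind A)) ?_
  refine tendsto_const_nhds.congr' ?_
  have : ∀ᶠ F in (U : Filter (Finset (Set ℕ))), A ∈ F := by
    apply hUle
    filter_upwards [eventually_ge_atTop {A}] with F hF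
    exact hF (Finset.mem_singleton_self A)
  filter_upwards [this] with F hF
  exact (approx_ind ν hadd F A hF).symm

end Extension

end Q98.QMeas
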