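import Mathlib

/-! A strong Gurarii space inside `ℓ_∞`: the codes and the functions they denote. -/

set_option autoImplicit false

open Filter Topology

open scoped ENNReal

namespace Q98.SG

/-- Codes for the elements of the space: linear combinations, limits of sequences, and one-point
extensions of finite-dimensional subspaces. -/
inductive Code : Type
  | lin (a b : ℝ) (c d : Code) : Code
  | lim (f : ℕ → Code) : Code
  | ext (n : ℕ) (N : (Fin n → ℚ) → ℝ) (f : Fin n → Code) : Code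

/-- The parameter space. -/
abbrev T : Type := Code → Set.Icc (0 : ℝ) 1

/-- The ambient space of bounded functions on the parameter space. -/
abbrev B : Type := lp (fun _ : T => ℝ) ∞

open Classical in
/-- a bounded function as an element of `B` -/
noncomputable def toB (f : T → ℝ) : B := if h : Memℓp f ∞ then ⟨f, h⟩ else 0

lemma toB_apply {f : T → ℝ} (h : Memℓp f ∞) (t : T) : toB f t = f t := by
  rw [toB, dif_pos h]

/-- `N` is the distance function of a one-point extension of the span of `b`. -/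
def Valid (n : ℕ) (N : (Fin n → ℚ) → ℝ) (b : Fin n → B) : Prop :=
  ∃ p : Seminorm ℝ ((Fin n → ℝ) × ℝ), (∀ x, p (x, 0) = ‖∑ j, x j • b j‖) ∧
    (∀ q : Fin n → ℚ, p (fun j => (q j : ℝ), -1) = N q) ∧
    ∃ C : ℝ, ∀ (x : Fin n → ℝ) j, |x j| ≤ C * ‖∑ j, x j • b j‖

/-- lower end of the interval of possible values -/
noncomputable def lo {n : ℕ} (N : (Fin n → ℚ) → ℝ) (k : Fin n → ℝ) : ℝ :=
  ⨆ q : Fin n → ℚ, (∑ j, (q j : ℝ) * k j - N q)

/-- upper end of the interval of possible values -/
noncomputable def hi {n : ℕ} (N : (Fin n → ℚ) → ℝ) (k : Fin n → ℝ) : ℝ :=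
  ⨅ q : Fin n → ℚ, (∑ j, (q j : ℝ) * k j + N q)

open Classical in
/-- The function denoted by a code. -/
noncomputable def v : Code → B
  | .lin a b c d => a • v c + b • v d
  | .lim f => if CauchySeq (fun i => v (f i)) then limUnder atTop (fun i => v (f i)) else 0
  | .ext n N f => if Valid n N (fun j => v (f j)) then
      toB (fun t => lo N (fun j => v (f j) t) + (t (.ext n N f) : ℝ) *
        (hi N (fun j => v (f j) t) - lo N (fun j => v (f j) t))) else 0

section Interval

variable {n : ℕ} {N : (Fin n → ℚ) → ℝ} {p : Seminorm ℝ ((Fin n → ℝ) × ℝ)} {k : Fin n → ℝ}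

/-- the value of a functional at a rational point -/
def ev (q : Fin n → ℚ) (k : Fin n → ℝ) : ℝ := ∑ j, (q j : ℝ) * k j

lemma cross (hN : ∀ q : Fin n → ℚ, p (fun j => (q j : ℝ), -1) = N q)
    (hk : ∀ x : Fin n → ℝ, |∑ j, x j * k j| ≤ p (x, 0)) (q q' : Fin n → ℚ) :
    ∑ j, (q j : ℝ) * k j - N q ≤ ∑ j, (q' j : ℝ) * k j + N q' := by
  have h1 := hk (fun j => (q j : ℝ) - q' j)
  have h2 : p (fun j => (q j : ℝ) - q' j, 0) ≤ N q + N q' := by
    rw [← hN, ← hN]
    have h3 : ((fun j => (q j : ℝ) - q' j, 0) : (Fin n → ℝ) × ℝ)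
        = (fun j => (q j : ℝ), -1) - (fun j => (q' j : ℝ), -1) := by
      ext j
      · rfl
      · simp
    rw [h3]
    exact map_sub_le_add p _ _
  have h3 : ∑ j, ((q j : ℝ) - q' j) * k j = ∑ j, (q j : ℝ) * k j - ∑ j, (q' j : ℝ) * k j := by
    rw [← Finset.sum_sub_distrib]
    exact Finset.sum_congr rfl fun j _ => by ring
  have h4 := (le_abs_self _).trans h1
  rw [h3] at h4
  linarith

lemma le_lo (hN : ∀ q : Fin n → ℚ, p (fun j => (q j : ℝ), -1) = N q)
    (hk : ∀ x : Fin n → ℝ, |∑ j, x j * k j| ≤ p (x, 0)) (q : Fin n → ℚ) :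
    ∑ j, (q j : ℝ) * k j - N q ≤ lo N k := by
  refine le_ciSup (f := fun q : Fin n → ℚ => ∑ j, (q j : ℝ) * k j - N q) ⟨N 0, ?_⟩ q
  rintro _ ⟨q', rfl⟩
  have := cross hN hk q' 0
  simpa using this

lemma hi_le (hN : ∀ q : Fin n → ℚ, p (fun j => (q j : ℝ), -1) = N q)
    (hk : ∀ x : Fin n → ℝ, |∑ j, x j * k j| ≤ p (x, 0)) (q : Fin n → ℚ) :
    hi N k ≤ ∑ j, (q j : ℝ) * k j + N q := by
  refine ciInf_le (f := fun q : Fin n → ℚ => ∑ j, (q j : ℝ) * k j + N q) ⟨- N 0, ?_⟩ q
  rintro _ ⟨q', rfl⟩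
  have := cross hN hk 0 q'
  simpa using this

lemma lo_le_hi (hN : ∀ q : Fin n → ℚ, p (fun j => (q j : ℝ), -1) = N q)
    (hk : ∀ x : Fin n → ℝ, |∑ j, x j * k j| ≤ p (x, 0)) : lo N k ≤ hi N k :=
  ciSup_le fun q => le_ciInf fun q' => cross hN hk q q'

lemma neg_le_lo (hN : ∀ q : Fin n → ℚ, p (fun j => (q j : ℝ), -1) = N q)
    (hk : ∀ x : Fin n → ℝ, |∑ j, x j * k j| ≤ p (x, 0)) : - N 0 ≤ lo N k := by
  have := le_lo hN hk 0
  simpa using this

lemma hi_le' (hN : ∀ q : Fin n → ℚ, p (fun j => (q j : ℝ), -1) = N q)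
    (hk : ∀ x : Fin n → ℝ, |∑ j, x j * k j| ≤ p (x, 0)) : hi N k ≤ N 0 := by
  have := hi_le hN hk 0
  simpa using this

end Interval

/-- values of linear combinations -/
lemma comb_apply {n : ℕ} (b : Fin n → B) (x : Fin n → ℝ) (t : T) :
    (∑ j, x j • b j) t = ∑ j, x j * b j t := by
  rw [lp.coeFn_sum, Finset.sum_apply]
  rfl

lemma abs_apply_le (f : B) (t : T) : |f t| ≤ ‖f‖ :=
  lp.norm_apply_le_norm ENNReal.top_ne_zero f t

lemma adm_apply {n : ℕ} {b : Fin n → B} {p : Seminorm ℝ ((Fin n → ℝ) × ℝ)}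
    (hp : ∀ x, p (x, 0) = ‖∑ j, x j • b j‖) (t : T) (x : Fin n → ℝ) :
    |∑ j, x j * b j t| ≤ p (x, 0) := by
  rw [← comb_apply, hp]
  exact abs_apply_le _ t

lemma abs_between {a b c s : ℝ} (h1 : a ≤ b) (h2 : -c ≤ a) (h3 : b ≤ c) (h4 : 0 ≤ s)
    (h5 : s ≤ 1) : |a + s * (b - a)| ≤ c := by
  rw [abs_le]
  constructor <;> nlinarith

/-- the value of a valid extension code -/
lemma v_ext {n : ℕ} {N : (Fin n → ℚ) → ℝ} {f : Fin n → Code}
    (h : Valid n N (fun j => v (f j))) (t : T) :
    v (.ext n N f) t = lo N (fun j => v (f j) t) + (t (.ext n N f) : ℝ) *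
        (hi N (fun j => v (f j) t) - lo N (fun j => v (f j) t)) := by
  have h0 := h
  obtain ⟨p, hp, hN, -⟩ := h
  rw [v, if_pos h0, toB_apply]
  refine memℓp_infty ⟨N 0, ?_⟩
  rintro _ ⟨t, rfl⟩
  have h1 := lo_le_hi hN (adm_apply hp t)
  have h2 := neg_le_lo hN (adm_apply hp t)
  have h3 := hi_le' hN (adm_apply hp t)
  exact abs_between h1 h2 h3 (t (.ext n N f)).2.1 (t (.ext n N f)).2.2

lemma v_ext_mem {n : ℕ} {N : (Fin n → ℚ) → ℝ} {f : Fin n → Code}
    (h : Valid n N (fun j => v (f j))) (t : T) :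
    lo N (fun j => v (f j) t) ≤ v (.ext n N f) t ∧
      v (.ext n N f) t ≤ hi N (fun j => v (f j) t) := by
  have h0 := h
  obtain ⟨p, hp, hN, -⟩ := h
  rw [v_ext h0]
  have h1 := lo_le_hi hN (adm_apply hp t)
  have h4 := (t (.ext n N f)).2.1
  have h5 := (t (.ext n N f)).2.2
  constructor <;> nlinarith

/-- the distance of the new vector to the rational points -/
lemma norm_sub_le {n : ℕ} {N : (Fin n → ℚ) → ℝ} {f : Fin n → Code}
    (h : Valid n N (fun j => v (f j))) (q : Fin n → ℚ) :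
    ‖∑ j, (q j : ℝ) • v (f j) - v (.ext n N f)‖ ≤ N q := by
  have h0 := h
  obtain ⟨p, hp, hN, -⟩ := h
  have hpos : 0 ≤ N q := by rw [← hN]; exact apply_nonneg _ _
  refine lp.norm_le_of_forall_le hpos fun t => ?_
  have e : (∑ j, (q j : ℝ) • v (f j) - v (.ext n N f)) t
      = ∑ j, (q j : ℝ) * v (f j) t - v (.ext n N f) t := by
    rw [lp.coeFn_sub, Pi.sub_apply, comb_apply]
  rw [e, Real.norm_eq_abs]
  obtain ⟨h1, h2⟩ := v_ext_mem h0 t
  have h3 := le_lo hN (adm_apply hp t) q
  have h4 := hi_le hN (adm_apply hp t) q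
  rw [abs_le]
  constructor <;> linarith

/-- **Every functional of norm at most one is, on the denoted functions, an evaluation.** -/
theorem exists_point (φ : StrongDual ℝ B) (hφ : ‖φ‖ ≤ 1) : ∃ t : T, ∀ c, v c t = φ (v c) := by
  have hle : ∀ f : B, |φ f| ≤ ‖f‖ := by
    intro f
    refine (φ.le_opNorm f).trans ?_
    have := mul_le_mul_of_nonneg_right hφ (norm_nonneg f)
    rwa [one_mul] at this
  -- the parameter of a code
  have hpar : ∀ (n : ℕ) (N : (Fin n → ℚ) → ℝ) (f : Fin n → Code), ∃ s : Set.Icc (0 : ℝ) 1,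
      Valid n N (fun j => v (f j)) → lo N (fun j => φ (v (f j))) + (s : ℝ) *
        (hi N (fun j => φ (v (f j))) - lo N (fun j => φ (v (f j)))) = φ (v (.ext n N f)) := by
    intro n N f
    by_cases hv : Valid n N (fun j => v (f j))
    · have hv0 := hv
      obtain ⟨p, hp, hN, -⟩ := hv
      have hadm : ∀ x : Fin n → ℝ, |∑ j, x j * φ (v (f j))| ≤ p (x, 0) := by
        intro x
        have : ∑ j, x j * φ (v (f j)) = φ (∑ j, x j • v (f j)) := by
          rw [map_sum]
          exact Finset.sum_congr rfl fun j _ => by rw [map_smul, smul_eq_mul]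
        rw [this, hp]
        exact hle _
      have hφq : ∀ q : Fin n → ℚ, |∑ j, (q j : ℝ) * φ (v (f j)) - φ (v (.ext n N f))| ≤ N q := by
        intro q
        have : ∑ j, (q j : ℝ) * φ (v (f j)) - φ (v (.ext n N f))
            = φ (∑ j, (q j : ℝ) • v (f j) - v (.ext n N f)) := by
          rw [map_sub, map_sum]
          congr 1
          exact Finset.sum_congr rfl fun j _ => by rw [map_smul, smul_eq_mul]
        rw [this]
        exact (hle _).trans (norm_sub_le hv0 q)
      have h1 : lo N (fun j => φ (v (f j))) ≤ φ (v (.ext n N f)) := by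
        refine ciSup_le fun q => ?_
        have := (abs_le.1 (hφq q)).2
        linarith
      have h2 : φ (v (.ext n N f)) ≤ hi N (fun j => φ (v (f j))) := by
        refine le_ciInf fun q => ?_
        have := (abs_le.1 (hφq q)).1
        linarith
      rcases (h1.trans h2).eq_or_lt with h3 | h3
      · refine ⟨⟨0, by simp⟩, fun _ => ?_⟩
        simp only [zero_mul, add_zero]
        linarith
      · refine ⟨⟨(φ (v (.ext n N f)) - lo N (fun j => φ (v (f j)))) /
          (hi N (fun j => φ (v (f j))) - lo N (fun j => φ (v (f j)))), ?_, ?_⟩, fun _ => ?_⟩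
        · exact div_nonneg (by linarith) (by linarith)
        · rw [div_le_one (by linarith)]; linarith
        · show _ + (φ (v (.ext n N f)) - lo N (fun j => φ (v (f j)))) /
            (hi N (fun j => φ (v (f j))) - lo N (fun j => φ (v (f j)))) * _ = _
          rw [div_mul_cancel₀ _ (by linarith : hi N (fun j => φ (v (f j))) -
            lo N (fun j => φ (v (f j))) ≠ 0)]
          ring
    · exact ⟨⟨0, by simp⟩, fun h => absurd h hv⟩
  choose s hs using hpar
  let t : T := fun c => match c with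
    | .lin _ _ _ _ => ⟨0, by simp⟩
    | .lim _ => ⟨0, by simp⟩
    | .ext n N f => s n N f
  refine ⟨t, fun c => ?_⟩
  induction c with
  | lin a b c d ihc ihd =>
    rw [v, lp.coeFn_add, Pi.add_apply, lp.coeFn_smul, lp.coeFn_smul, Pi.smul_apply, Pi.smul_apply,
      ihc, ihd, map_add, map_smul, map_smul]
  | lim f ih =>
    rw [v]
    split_ifs with hc
    · have h1 : Tendsto (fun i => v (f i)) atTop (𝓝 (limUnder atTop (fun i => v (f i)))) :=
        hc.tendsto_limUnder
      have h2 : Tendsto (fun i => v (f i) t) atTop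
          (𝓝 ((limUnder atTop (fun i => v (f i)) : B) t)) := by
        rw [tendsto_iff_norm_sub_tendsto_zero] at h1 ⊢
        refine squeeze_zero (fun _ => norm_nonneg _) (fun i => ?_) h1
        have := abs_apply_le (v (f i) - limUnder atTop (fun i => v (f i))) t
        rwa [lp.coeFn_sub, Pi.sub_apply] at this
      have h3 : Tendsto (fun i => φ (v (f i))) atTop
          (𝓝 (φ (limUnder atTop (fun i => v (f i))))) := (φ.continuous.tendsto _).comp h1
      refine tendsto_nhds_unique h2 (h3.congr fun i => ?_)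
      rw [ih]
    · rw [lp.coeFn_zero, Pi.zero_apply, map_zero]
  | ext n N f ih =>
    by_cases hv : Valid n N (fun j => v (f j))
    · rw [v_ext hv]
      have h1 : (fun j => v (f j) t) = fun j => φ (v (f j)) := funext ih
      rw [h1]
      exact hs n N f hv
    · rw [v, if_neg hv, lp.coeFn_zero, Pi.zero_apply, map_zero]

end Q98.SG
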