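import Pool.Agent.Q98.SG2

/-! The strong Gurarii space. -/

set_option autoImplicit false

open Filter Topology

open scoped ENNReal

namespace Q98.SG

/-- The space of all denoted functions. -/
noncomputable def Xs : Submodule ℝ B where
  carrier := Set.range v
  zero_mem' := ⟨.lin 0 0 (.ext 0 0 Fin.elim0) (.ext 0 0 Fin.elim0), by rw [v]; simp⟩
  add_mem' := by
    rintro _ _ ⟨c, rfl⟩ ⟨d, rfl⟩
    exact ⟨.lin 1 1 c d, by rw [v, one_smul, one_smul]⟩
  smul_mem' := by
    rintro a _ ⟨c, rfl⟩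
    exact ⟨.lin a 0 c c, by rw [v, zero_smul, add_zero]⟩

lemma mem_Xs (c : Code) : v c ∈ Xs := ⟨c, rfl⟩

lemma isClosed_Xs : IsClosed (Xs : Set B) := by
  rw [← isSeqClosed_iff_isClosed]
  intro x y hx hxy
  choose c hc using hx
  have h1 : CauchySeq (fun i => v (c i)) := by
    have : (fun i => v (c i)) = x := funext hc
    rw [this]
    exact hxy.cauchySeq
  refine ⟨.lim c, ?_⟩
  rw [v, if_pos h1]
  have : (fun i => v (c i)) = x := funext hc
  rw [this]
  exact hxy.limUnder_eq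

noncomputable instance : CompleteSpace Xs := isClosed_Xs.completeSpace_coe

variable {E : Type*} [NormedAddCommGroup E] [NormedSpace ℝ E] [FiniteDimensional ℝ E]

/-- one-step extension -/
lemma step (S : Submodule ℝ E) (f : S →ₗᵢ[ℝ] Xs) (τ : E) (hτ : τ ∉ S) :
    ∃ S' : Submodule ℝ E, S ≤ S' ∧ Module.finrank ℝ S < Module.finrank ℝ S' ∧
      ∃ g : S' →ₗᵢ[ℝ] Xs, ∀ (s : E) (hs : s ∈ S) (hs' : s ∈ S'), g ⟨s, hs'⟩ = f ⟨s, hs⟩ := by
  classical
  set n := Module.finrank ℝ S with hn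
  let bs : Module.Basis (Fin n) ℝ S := Module.finBasis ℝ S
  let Lm : (Fin n → ℝ) × ℝ →ₗ[ℝ] E :=
    { toFun := fun z => ∑ j, z.1 j • (bs j : E) + z.2 • τ
      map_add' := fun z w => by
        simp only [Prod.fst_add, Pi.add_apply, Prod.snd_add, add_smul, Finset.sum_add_distrib]
        abel
      map_smul' := fun c z => by
        simp only [Prod.smul_fst, Pi.smul_apply, Prod.smul_snd, smul_eq_mul, mul_smul,
          RingHom.id_apply, smul_add, Finset.smul_sum] }
  have hLm : ∀ x l, Lm (x, l) = ∑ j, x j • (bs j : E) + l • τ := fun _ _ => rfl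
  have hsum : ∀ x : Fin n → ℝ, ((∑ j, x j • bs j : S) : E) = ∑ j, x j • (bs j : E) := by
    intro x
    rw [Submodule.coe_sum]
    rfl
  have hinj : Function.Injective Lm := by
    rw [← LinearMap.ker_eq_bot, LinearMap.ker_eq_bot']
    rintro ⟨x, l⟩ h
    rw [hLm, ← hsum] at h
    have hl : l = 0 := by
      by_contra hl
      apply hτ
      have h1 : τ = (-l⁻¹) • ((∑ j, x j • bs j : S) : E) := by
        have h2 : l • τ = -((∑ j, x j • bs j : S) : E) := by
          rw [eq_neg_iff_add_eq_zero, add_comm]; exact h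
        rw [neg_smul, ← smul_neg, ← h2, smul_smul, inv_mul_cancel₀ hl, one_smul]
      rw [h1]
      exact S.smul_mem _ (Subtype.mem _)
    rw [hl, zero_smul, add_zero] at h
    have h1 : (∑ j, x j • bs j : S) = 0 := Subtype.ext h
    have h2 := Fintype.linearIndependent_iff.1 bs.linearIndependent x h1
    ext j
    · exact h2 j
    · exact hl
  let p : Seminorm ℝ ((Fin n → ℝ) × ℝ) := (normSeminorm ℝ E).comp Lm
  have hpL : ∀ z, p z = ‖Lm z‖ := fun _ => rfl
  choose c hc using fun j => (f (bs j)).2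
  have hcf : ∀ x : Fin n → ℝ, ∑ j, x j • v (c j) = ((f (∑ j, x j • bs j) : Xs) : B) := by
    intro x
    rw [map_sum, Submodule.coe_sum]
    refine Finset.sum_congr rfl fun j _ => ?_
    rw [map_smul, hc]; rfl
  have hnormS : ∀ x : Fin n → ℝ, ‖∑ j, x j • v (c j)‖ = ‖(∑ j, x j • bs j : S)‖ := by
    intro x
    rw [hcf]
    exact f.norm_map _
  have hp : ∀ x, p (x, 0) = ‖∑ j, x j • v (c j)‖ := by
    intro x
    rw [hpL, hLm, zero_smul, add_zero, hnormS, ← hsum]
    rfl
  have hC : ∃ C : ℝ, ∀ (x : Fin n → ℝ) j, |x j| ≤ C * ‖∑ j, x j • v (c j)‖ := by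
    refine ⟨‖(bs.equivFunL : S →L[ℝ] (Fin n → ℝ))‖, fun x j => ?_⟩
    rw [hnormS]
    have h1 := (bs.equivFunL : S →L[ℝ] (Fin n → ℝ)).le_opNorm (∑ j, x j • bs j)
    have h2 : (bs.equivFunL : S →L[ℝ] (Fin n → ℝ)) (∑ j, x j • bs j) = x := by
      have : (bs.equivFun) (∑ j, x j • bs j) = x := by
        rw [← bs.equivFun_symm_apply, LinearEquiv.apply_symm_apply]
      exact this
    rw [h2] at h1
    exact (norm_le_pi_norm x j).trans h1
  have hnorm := norm_ext hp hC
  set c₀ : Code := .ext n (NN p) c with hc₀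
  let g0 : (Fin n → ℝ) × ℝ →ₗ[ℝ] Xs :=
    { toFun := fun z => ∑ j, z.1 j • f (bs j) + z.2 • ⟨v c₀, mem_Xs c₀⟩
      map_add' := fun z w => by
        simp only [Prod.fst_add, Pi.add_apply, Prod.snd_add, add_smul, Finset.sum_add_distrib]
        abel
      map_smul' := fun c z => by
        simp only [Prod.smul_fst, Pi.smul_apply, Prod.smul_snd, smul_eq_mul, mul_smul,
          RingHom.id_apply, smul_add, Finset.smul_sum] }
  have hg0 : ∀ z, ‖g0 z‖ = ‖Lm z‖ := by
    rintro ⟨x, l⟩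
    rw [← hpL, ← hnorm]
    show ‖((∑ j, x j • f (bs j) + l • ⟨v c₀, mem_Xs c₀⟩ : Xs) : B)‖ = _
    rw [Submodule.coe_add, Submodule.coe_sum, Submodule.coe_smul]
    congr 2
    exact Finset.sum_congr rfl fun j _ => by rw [Submodule.coe_smul, hc]
  let e := LinearEquiv.ofInjective Lm hinj
  have he : ∀ y : LinearMap.range Lm, Lm (e.symm y) = (y : E) := by
    intro y
    have h1 := LinearEquiv.ofInjective_apply (h := hinj) Lm (e.symm y)
    rw [← h1]
    exact congrArg Subtype.val (e.apply_symm_apply y)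
  have hrep : ∀ (s : E) (hs : s ∈ S), Lm (bs.equivFun ⟨s, hs⟩, 0) = s := by
    intro s hs
    rw [hLm, zero_smul, add_zero, ← hsum]
    have := bs.sum_equivFun ⟨s, hs⟩
    rw [this]
  refine ⟨LinearMap.range Lm, fun s hs => ⟨_, hrep s hs⟩, ?_, ⟨g0.comp e.symm.toLinearMap, ?_⟩, ?_⟩
  · rw [LinearMap.finrank_range_of_inj hinj]
    simp
  · intro y
    show ‖g0 (e.symm y)‖ = ‖y‖
    rw [hg0, he]
    rfl
  · intro s hs hs'
    show g0 (e.symm ⟨s, hs'⟩) = f ⟨s, hs⟩
    have h1 : e.symm ⟨s, hs'⟩ = (bs.equivFun ⟨s, hs⟩, 0) := by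
      apply hinj
      rw [he, hrep s hs]
    rw [h1]
    show ∑ j, (bs.equivFun ⟨s, hs⟩) j • f (bs j) + (0 : ℝ) • _ = _
    rw [zero_smul, add_zero]
    have h2 : f ⟨s, hs⟩ = f (∑ j, (bs.equivFun ⟨s, hs⟩) j • bs j) := by
      rw [bs.sum_equivFun]
    rw [h2, map_sum]
    exact Finset.sum_congr rfl fun j _ => by rw [map_smul]

/-- **The space is of universal disposition for finite-dimensional spaces.** -/
theorem universal_disposition (S : Submodule ℝ E) (f : S →ₗᵢ[ℝ] Xs) :
    ∃ g : E →ₗᵢ[ℝ] Xs, ∀ s : S, g s = f s := by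
  have key : ∀ (d : ℕ) (S : Submodule ℝ E), Module.finrank ℝ E ≤ Module.finrank ℝ S + d →
      ∀ f : S →ₗᵢ[ℝ] Xs, ∃ g : E →ₗᵢ[ℝ] Xs, ∀ s : S, g s = f s := by
    intro d
    induction d with
    | zero =>
      intro S hS f
      have hle := Submodule.finrank_le S
      have htop : S = ⊤ := Submodule.eq_top_of_finrank_eq (by omega)
      subst htop
      refine ⟨⟨f.toLinearMap.comp (Submodule.topEquiv (R := ℝ) (M := E)).symm.toLinearMap, ?_⟩, ?_⟩
      · intro x
        show ‖f _‖ = ‖x‖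
        rw [f.norm_map]; rfl
      · intro s; rfl
    | succ d ih =>
      intro S hS f
      by_cases htop : S = ⊤
      · exact ih S (by rw [htop, finrank_top]; omega) f
      · obtain ⟨τ, hτ⟩ : ∃ τ, τ ∉ S := by
          by_contra hcon
          push Not at hcon
          exact htop (Submodule.eq_top_iff'.2 hcon)
        obtain ⟨S', hSS', hfr, g, hg⟩ := step S f τ hτ
        obtain ⟨g', hg'⟩ := ih S' (by omega) g
        refine ⟨g', fun s => ?_⟩
        rw [← hg s s.2 (hSS' s.2), ← hg']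
  exact key (Module.finrank ℝ E) S (by omega) f

end Q98.SG
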