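import Pool.Agent.Q98.SG3

/-! Countably many evaluations separate the points of the space. -/

set_option autoImplicit false

open Filter Topology

open scoped ENNReal

namespace Q98.SG

section Cont

variable {n : ℕ} {N : (Fin n → ℚ) → ℝ} {p : Seminorm ℝ ((Fin n → ℝ) × ℝ)}

lemma hi_eq_neg_lo (k : Fin n → ℝ) : hi N k = - lo N (fun j => - k j) := by
  have h1 : (fun q : Fin n → ℚ => ∑ j, (q j : ℝ) * -k j - N q)
      = fun q => -(∑ j, (q j : ℝ) * k j + N q) := by
    funext q
    simp only [mul_neg, Finset.sum_neg_distrib]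
    ring
  unfold lo hi
  rw [h1, iSup, iInf]
  have h2 : Set.range (fun q : Fin n → ℚ => -(∑ j, (q j : ℝ) * k j + N q))
      = -Set.range (fun q : Fin n → ℚ => ∑ j, (q j : ℝ) * k j + N q) := by
    ext y
    constructor
    · rintro ⟨q, rfl⟩
      exact ⟨q, (neg_neg _).symm⟩
    · rintro ⟨q, hq⟩
      refine ⟨q, ?_⟩
      have hq' : ∑ j, (q j : ℝ) * k j + N q = -y := hq
      show -_ = y
      rw [hq', neg_neg]
  rw [h2, Real.sSup_neg, neg_neg]

/-- a quantitative continuity estimate for `lo` -/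
lemma lo_le_lo_add (hN : ∀ q : Fin n → ℚ, p (fun j => (q j : ℝ), -1) = N q) {k k₀ : Fin n → ℝ}
    {ρ δ : ℝ} (hρ : ρ < 1) (hδ : 0 ≤ δ)
    (hk : ∀ x : Fin n → ℝ, |∑ j, x j * k j| ≤ ρ * p (x, 0))
    (hk₀ : ∀ x : Fin n → ℝ, |∑ j, x j * k₀ j| ≤ p (x, 0))
    (hkk : ∀ x : Fin n → ℝ, |∑ j, x j * (k j - k₀ j)| ≤ δ * p (x, 0)) :
    lo N k ≤ lo N k₀ + δ * (2 * N 0 / (1 - ρ)) := by
  have hN0 : 0 ≤ N 0 := by rw [← hN]; exact apply_nonneg _ _
  have h1ρ : 0 < 1 - ρ := by linarith
  set R : ℝ := 2 * N 0 / (1 - ρ) with hR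
  have hR0 : 0 ≤ R := by positivity
  refine ciSup_le fun q => ?_
  set s : ℝ := p (fun j => (q j : ℝ), 0) with hs
  have hs0 : 0 ≤ s := apply_nonneg _ _
  by_cases hcase : s ≤ R
  · have h1 := (le_abs_self _).trans (hkk (fun j => (q j : ℝ)))
    have h2 : ∑ j, (q j : ℝ) * (k j - k₀ j) = ∑ j, (q j : ℝ) * k j - ∑ j, (q j : ℝ) * k₀ j := by
      rw [← Finset.sum_sub_distrib]
      exact Finset.sum_congr rfl fun j _ => by ring
    rw [h2] at h1
    have h3 := le_lo hN hk₀ q
    have h4 : δ * s ≤ δ * R := mul_le_mul_of_nonneg_left hcase hδ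
    linarith
  · push Not at hcase
    have h1 := (le_abs_self _).trans (hk (fun j => (q j : ℝ)))
    have h2 : s ≤ N q + N 0 := by
      rw [← hN q, ← hN 0, hs]
      have h3 : ((fun j => (q j : ℝ), 0) : (Fin n → ℝ) × ℝ)
          = (fun j => (q j : ℝ), -1) - (fun j => (((0 : Fin n → ℚ) j : ℚ) : ℝ), -1) := by
        ext j <;> simp
      rw [h3]
      exact map_sub_le_add p _ _
    have h3 : 2 * N 0 < (1 - ρ) * s := by
      rw [hR, div_lt_iff₀ h1ρ] at hcase
      linarith
    have h4 := neg_le_lo hN hk₀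
    have h5 : 0 ≤ δ * R := by positivity
    linarith

/-- continuity of `lo` along a family -/
lemma tendsto_lo {X : Type*} {l : Filter X} {κ : X → Fin n → ℝ} {k₀ : Fin n → ℝ}
    (hN : ∀ q : Fin n → ℚ, p (fun j => (q j : ℝ), -1) = N q)
    {C : ℝ} (hC : ∀ (x : Fin n → ℝ) j, |x j| ≤ C * p (x, 0))
    {r : ℝ} (hr : r < 1)
    (hk₀ : ∀ x : Fin n → ℝ, |∑ j, x j * k₀ j| ≤ r * p (x, 0))
    (hκ : ∀ a, ∀ x : Fin n → ℝ, |∑ j, x j * κ a j| ≤ p (x, 0))
    (hlim : ∀ j, Tendsto (fun a => κ a j) l (𝓝 (k₀ j))) :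
    Tendsto (fun a => lo N (κ a)) l (𝓝 (lo N k₀)) := by
  set δ : X → ℝ := fun a => |C| * ∑ j, |κ a j - k₀ j| with hδ
  have hδ0 : ∀ a, 0 ≤ δ a := fun a => by positivity
  have hδlim : Tendsto δ l (𝓝 0) := by
    have h1 : Tendsto (fun a => ∑ j, |κ a j - k₀ j|) l (𝓝 (∑ j : Fin n, |k₀ j - k₀ j|)) :=
      tendsto_finsetSum _ fun j _ => ((hlim j).sub_const _).abs
    have h2 := h1.const_mul |C|
    simpa using h2
  have hdiff : ∀ a, ∀ x : Fin n → ℝ, |∑ j, x j * (κ a j - k₀ j)| ≤ δ a * p (x, 0) := by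
    intro a x
    refine (Finset.abs_sum_le_sum_abs _ _).trans ?_
    rw [hδ]
    show ∑ j, |x j * (κ a j - k₀ j)| ≤ |C| * (∑ j, |κ a j - k₀ j|) * p (x, 0)
    have h1 : |C| * (∑ j, |κ a j - k₀ j|) * p (x, 0) = ∑ j, |C| * p (x, 0) * |κ a j - k₀ j| := by
      rw [← Finset.mul_sum]; ring
    rw [h1]
    refine Finset.sum_le_sum fun j _ => ?_
    rw [abs_mul]
    refine mul_le_mul_of_nonneg_right ((hC x j).trans ?_) (abs_nonneg _)
    exact mul_le_mul_of_nonneg_right (le_abs_self C) (apply_nonneg _ _)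
  set ρ : ℝ := max ((1 + r) / 2) (1 / 2) with hρ
  have hρ1 : ρ < 1 := max_lt (by linarith) (by norm_num)
  have hrρ : r < ρ := lt_of_lt_of_le (by linarith) (le_max_left _ _)
  set R : ℝ := 2 * N 0 / (1 - ρ) with hR
  have hN0 : 0 ≤ N 0 := by rw [← hN]; exact apply_nonneg _ _
  have hev : ∀ᶠ a in l, |lo N (κ a) - lo N k₀| ≤ δ a * R := by
    filter_upwards [hδlim.eventually (gt_mem_nhds (show (0 : ℝ) < ρ - r by linarith))] with a ha
    have ha' : δ a < ρ - r := ha
    have hκρ : ∀ x : Fin n → ℝ, |∑ j, x j * κ a j| ≤ ρ * p (x, 0) := by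
      intro x
      have h1 : ∑ j, x j * κ a j = ∑ j, x j * (κ a j - k₀ j) + ∑ j, x j * k₀ j := by
        rw [← Finset.sum_add_distrib]
        exact Finset.sum_congr rfl fun j _ => by ring
      rw [h1]
      refine (abs_add_le _ _).trans ?_
      have h2 := hdiff a x
      have h3 := hk₀ x
      have h4 : δ a * p (x, 0) ≤ (ρ - r) * p (x, 0) :=
        mul_le_mul_of_nonneg_right ha'.le (apply_nonneg _ _)
      nlinarith
    have hk₀ρ : ∀ x : Fin n → ℝ, |∑ j, x j * k₀ j| ≤ ρ * p (x, 0) := fun x =>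
      (hk₀ x).trans (mul_le_mul_of_nonneg_right hrρ.le (apply_nonneg _ _))
    have hk₀1 : ∀ x : Fin n → ℝ, |∑ j, x j * k₀ j| ≤ p (x, 0) := fun x =>
      (hk₀ρ x).trans (by
        have := mul_le_mul_of_nonneg_right hρ1.le (apply_nonneg p ((x, 0) : (Fin n → ℝ) × ℝ))
        rwa [one_mul] at this)
    have h1 := lo_le_lo_add hN hρ1 (hδ0 a) hκρ hk₀1 (hdiff a)
    have h2 := lo_le_lo_add hN hρ1 (hδ0 a) hk₀ρ (hκ a) (fun x => by
      have h3 := hdiff a x
      have h4 : ∑ j, x j * (k₀ j - κ a j) = -∑ j, x j * (κ a j - k₀ j) := by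
        rw [← Finset.sum_neg_distrib]
        exact Finset.sum_congr rfl fun j _ => by ring
      rw [h4, abs_neg]
      exact h3)
    rw [abs_le]
    constructor <;> linarith
  rw [tendsto_iff_norm_sub_tendsto_zero]
  have h5 : Tendsto (fun a => δ a * R) l (𝓝 0) := by
    have := hδlim.mul_const R
    rwa [zero_mul] at this
  exact squeeze_zero' (Eventually.of_forall fun _ => norm_nonneg _) hev h5

end Cont

/-- **Continuity at the points which define functionals of norm less than one.** -/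
theorem continuousAt_v {t₀ : T} {r : ℝ} (hr : r < 1) (ht₀ : ∀ c, |v c t₀| ≤ r * ‖v c‖) (c : Code) :
    ContinuousAt (fun t => v c t) t₀ := by
  induction c with
  | lin a b c d ihc ihd =>
    have e : (fun t => v (.lin a b c d) t) = fun t => a * v c t + b * v d t := by
      funext t
      rw [v, lp.coeFn_add, Pi.add_apply, lp.coeFn_smul, lp.coeFn_smul]
      rfl
    rw [e]
    exact (ihc.const_mul a).add (ihd.const_mul b)
  | lim f ih =>
    by_cases hc : CauchySeq (fun i => v (f i))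
    · have h1 : Tendsto (fun i => v (f i)) atTop (𝓝 (v (.lim f))) := by
        rw [v, if_pos hc]
        exact hc.tendsto_limUnder
      rw [Metric.continuousAt_iff'] 
      intro ε hε
      obtain ⟨i, hi⟩ := (Metric.tendsto_atTop.1 h1 (ε / 3) (by positivity))
      have h2 := hi i le_rfl
      rw [dist_eq_norm] at h2
      have h3 : ∀ t, |v (f i) t - v (.lim f) t| < ε / 3 := by
        intro t
        have := abs_apply_le (v (f i) - v (.lim f)) t
        rw [lp.coeFn_sub, Pi.sub_apply] at this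
        exact this.trans_lt h2
      filter_upwards [Metric.continuousAt_iff'.1 (ih i) (ε / 3) (by positivity)] with t ht
      rw [Real.dist_eq] at ht ⊢
      have h4 := h3 t
      have h5 := h3 t₀
      rw [abs_lt] at *
      constructor <;> linarith
    · have e : (fun t => v (.lim f) t) = fun _ => 0 := by
        funext t
        rw [v, if_neg hc, lp.coeFn_zero, Pi.zero_apply]
      rw [e]
      exact continuousAt_const
  | ext n N f ih =>
    by_cases hv : Valid n N (fun j => v (f j))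
    · have hv0 := hv
      obtain ⟨p, hp, hN, C, hC⟩ := hv
      have hC' : ∀ (x : Fin n → ℝ) j, |x j| ≤ C * p (x, 0) := by
        intro x j
        rw [hp]; exact hC x j
      -- functionals at `t₀` on the span
      have hk₀ : ∀ x : Fin n → ℝ, |∑ j, x j * v (f j) t₀| ≤ r * p (x, 0) := by
        intro x
        rw [← comb_apply, hp]
        have hmem : (∑ j, x j • v (f j)) ∈ Xs :=
          Submodule.sum_mem _ fun j _ => Submodule.smul_mem _ _ (mem_Xs _)
        obtain ⟨c, hc⟩ := hmem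
        rw [← hc]
        exact ht₀ c
      have hlo : Tendsto (fun t => lo N (fun j => v (f j) t)) (𝓝 t₀)
          (𝓝 (lo N (fun j => v (f j) t₀))) :=
        tendsto_lo hN hC' hr hk₀ (fun t => adm_apply hp t) (fun j => ih j)
      have hhi : Tendsto (fun t => hi N (fun j => v (f j) t)) (𝓝 t₀)
          (𝓝 (hi N (fun j => v (f j) t₀))) := by
        simp only [hi_eq_neg_lo]
        refine Tendsto.neg ?_
        refine tendsto_lo hN hC' hr (fun x => ?_) (fun t x => ?_) (fun j => (ih j).neg)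
        · have := hk₀ x
          simp only [mul_neg, Finset.sum_neg_distrib, abs_neg]
          exact this
        · have := adm_apply hp t x
          simp only [mul_neg, Finset.sum_neg_distrib, abs_neg]
          exact this
      have e : (fun t => v (.ext n N f) t) = fun t => lo N (fun j => v (f j) t) +
          (t (.ext n N f) : ℝ) * (hi N (fun j => v (f j) t) - lo N (fun j => v (f j) t)) := by
        funext t
        exact v_ext hv0 t
      rw [e]
      have hcoord : Tendsto (fun t : T => ((t (.ext n N f)) : ℝ)) (𝓝 t₀)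
          (𝓝 ((t₀ (.ext n N f)) : ℝ)) :=
        (continuous_subtype_val.comp (continuous_apply _)).tendsto t₀
      exact hlo.add (hcoord.mul (hhi.sub hlo))
    · have e : (fun t => v (.ext n N f) t) = fun _ => 0 := by
        funext t
        rw [v, if_neg hv, lp.coeFn_zero, Pi.zero_apply]
      rw [e]
      exact continuousAt_const

end Q98.SG
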