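import Pool.Agent.Q98.SG4

/-! Countably many evaluations separate the points of the space. -/

set_option autoImplicit false

open Filter Topology Cardinal

open scoped ENNReal

namespace Q98.SG

/-- one layer of codes -/
abbrev Layer (γ : Type) : Type :=
  ((ℝ × ℝ) × (γ × γ)) ⊕ ((ℕ → γ) ⊕ (Σ n : ℕ, ((Fin n → ℚ) → ℝ) × (Fin n → γ)))

/-- the Cantor set -/
abbrev Ca : Type := ℕ → Bool

lemma mk_Ca : #Ca = 𝔠 := by
  rw [mk_arrow, mk_bool, mk_nat, lift_id, lift_aleph0, two_power_aleph0]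

lemma mk_Layer : #(Layer Ca) ≤ 𝔠 := by
  have h1 : #((ℝ × ℝ) × (Ca × Ca)) = 𝔠 := by
    simp only [mk_prod, lift_id, mk_Ca, mk_real, continuum_mul_self]
  have h2 : #(ℕ → Ca) = 𝔠 := by
    rw [mk_arrow, mk_Ca, mk_nat, lift_id, lift_aleph0, continuum_power_aleph0]
  have h3 : #(Σ n : ℕ, ((Fin n → ℚ) → ℝ) × (Fin n → Ca)) ≤ 𝔠 := by
    rw [mk_sigma]
    have h4 : ∀ n : ℕ, #(((Fin n → ℚ) → ℝ) × (Fin n → Ca)) ≤ 𝔠 := by
      intro n
      have h5 : #((Fin n → ℚ) → ℝ) ≤ 𝔠 := by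
        rw [mk_arrow, lift_id, lift_id, mk_real]
        refine (power_le_power_left continuum_ne_zero (mk_le_aleph0 (α := Fin n → ℚ))).trans ?_
        rw [continuum_power_aleph0]
      have h6 : #(Fin n → Ca) ≤ 𝔠 := by
        rw [mk_arrow, lift_id, lift_id, mk_Ca]
        refine (power_le_power_left continuum_ne_zero (mk_le_aleph0 (α := Fin n))).trans ?_
        rw [continuum_power_aleph0]
      rw [mk_prod, lift_id, lift_id]
      refine (mul_le_mul' h5 h6).trans ?_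
      rw [continuum_mul_self]
    refine (sum_le_sum _ (fun _ => 𝔠) h4).trans ?_
    rw [sum_const', mk_nat, aleph0_mul_continuum]
  rw [mk_sum, mk_sum, lift_id, lift_id, lift_id, lift_id, h1, h2]
  refine (add_le_add le_rfl (add_le_add le_rfl h3)).trans ?_
  rw [continuum_add_self, continuum_add_self]

lemma exists_emb : ∃ Φ : Layer Ca → Ca, Function.Injective Φ := by
  have h : #(Layer Ca) ≤ #Ca := by rw [mk_Ca]; exact mk_Layer
  obtain ⟨Φ⟩ := (le_def _ _).1 h
  exact ⟨Φ, Φ.injective⟩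

/-- There are at most continuum many codes. -/
theorem exists_code_emb : ∃ e : Code → Ca, Function.Injective e := by
  obtain ⟨Φ, hΦ⟩ := exists_emb
  let rec' : Code → Ca := fun c => Code.rec (motive := fun _ => Ca)
    (fun a b _ _ ec ed => Φ (Sum.inl ((a, b), (ec, ed))))
    (fun _ ef => Φ (Sum.inr (Sum.inl ef)))
    (fun n N _ ef => Φ (Sum.inr (Sum.inr ⟨n, N, ef⟩))) c
  refine ⟨rec', ?_⟩
  intro c
  induction c with
  | lin a b c d ihc ihd =>
    intro c' h
    cases c' with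
    | lin a' b' c' d' =>
      have h1 := hΦ h
      simp only [Sum.inl.injEq, Prod.mk.injEq] at h1
      obtain ⟨⟨rfl, rfl⟩, h2, h3⟩ := h1
      rw [ihc h2, ihd h3]
    | lim f' => exact absurd (hΦ h) (by simp)
    | ext n' N' f' => exact absurd (hΦ h) (by simp)
  | lim f ih =>
    intro c' h
    cases c' with
    | lin a' b' c' d' => exact absurd (hΦ h) (by simp)
    | lim f' =>
      have h1 := hΦ h
      simp only [Sum.inr.injEq, Sum.inl.injEq] at h1
      congr 1
      funext i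
      exact ih i (congrFun h1 i)
    | ext n' N' f' => exact absurd (hΦ h) (by simp)
  | ext n N f ih =>
    intro c' h
    cases c' with
    | lin a' b' c' d' => exact absurd (hΦ h) (by simp)
    | lim f' => exact absurd (hΦ h) (by simp)
    | ext n' N' f' =>
      have h1 := hΦ h
      simp only [Sum.inr.injEq, Sigma.mk.injEq] at h1
      obtain ⟨rfl, h2⟩ := h1
      have h3 := eq_of_heq h2
      simp only [Prod.mk.injEq] at h3
      obtain ⟨rfl, h4⟩ := h3
      congr 1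
      funext i
      exact ih i (congrFun h4 i)

/-- index set of the step functions -/
abbrev Idx : Type := Σ n : ℕ, ((Fin n → Bool) → ℕ)

/-- step functions on the codes -/
noncomputable def dd (e : Code → Ca) (i : Idx) : T :=
  fun c => TopologicalSpace.denseSeq (Set.Icc (0 : ℝ) 1) (i.2 fun j => e c j)

lemma exists_sep {e : Code → Ca} (he : Function.Injective e) (I : Finset Code) :
    ∃ n : ℕ, ∀ c ∈ I, ∀ d ∈ I, (∀ j : Fin n, e c j = e d j) → c = d := by
  classical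
  have h1 : ∀ c d : Code, ∃ n : ℕ, c ≠ d → e c n ≠ e d n := by
    intro c d
    by_cases h : c = d
    · exact ⟨0, fun h' => absurd h h'⟩
    · have : e c ≠ e d := fun h' => h (he h')
      obtain ⟨n, hn⟩ := Function.ne_iff.1 this
      exact ⟨n, fun _ => hn⟩
  choose m hm using h1
  refine ⟨(I ×ˢ I).sup (fun z => m z.1 z.2) + 1, fun c hc d hd h => ?_⟩
  by_contra hne
  have h2 : m c d ≤ (I ×ˢ I).sup (fun z => m z.1 z.2) :=
    Finset.le_sup (f := fun z : Code × Code => m z.1 z.2) (b := (c, d))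
      (Finset.mem_product.2 ⟨hc, hd⟩)
  exact hm c d hne (h ⟨m c d, by omega⟩)

/-- The step functions are dense. -/
theorem denseRange_dd {e : Code → Ca} (he : Function.Injective e) : DenseRange (dd e) := by
  classical
  intro x
  rw [mem_closure_iff]
  intro U hU hx
  obtain ⟨I, u, h1, h2⟩ := isOpen_pi_iff.1 hU x hx
  obtain ⟨n, hn⟩ := exists_sep he I
  have h3 : ∀ c : Code, ∃ k : ℕ, c ∈ I → TopologicalSpace.denseSeq (Set.Icc (0 : ℝ) 1) k ∈ u c := by
    intro c
    by_cases hc : c ∈ I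
    · obtain ⟨k, hk⟩ := (TopologicalSpace.denseRange_denseSeq (Set.Icc (0 : ℝ) 1)).exists_mem_open
        (h1 c hc).1 ⟨_, (h1 c hc).2⟩
      exact ⟨k, fun _ => hk⟩
    · exact ⟨0, fun h => absurd h hc⟩
  choose k hk using h3
  let h : (Fin n → Bool) → ℕ := fun s =>
    if hs : ∃ c ∈ I, ∀ j : Fin n, e c j = s j then k hs.choose else 0
  refine ⟨dd e ⟨n, h⟩, h2 ?_, ⟨_, rfl⟩⟩
  intro c hc
  have hs : ∃ c' ∈ I, ∀ j : Fin n, e c' j = e c j := ⟨c, hc, fun _ => rfl⟩
  have h4 : h (fun j => e c j) = k c := by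
    show (if hs : ∃ c' ∈ I, ∀ j : Fin n, e c' j = e c j then k hs.choose else 0) = k c
    rw [dif_pos hs]
    rw [hn _ hs.choose_spec.1 c hc hs.choose_spec.2]
  show TopologicalSpace.denseSeq (Set.Icc (0 : ℝ) 1) (h fun j => e c j) ∈ u c
  rw [h4]
  exact hk c hc

/-- **Countably many evaluations separate the points of the space.** -/
theorem exists_total : ∃ t : ℕ → T, ∀ x ∈ Xs, (∀ n, x (t n) = 0) → x = 0 := by
  obtain ⟨e, he⟩ := exists_code_emb
  obtain ⟨s, hs⟩ := exists_surjective_nat Idx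
  refine ⟨fun n => dd e (s n), ?_⟩
  rintro _ ⟨c, rfl⟩ h0
  by_contra hne
  obtain ⟨φ, hφ1, hφ2⟩ := exists_dual_vector ℝ (v c) (norm_ne_zero_iff.2 hne)
  have h1 : ‖(1 / 2 : ℝ) • φ‖ ≤ 1 / 2 := by
    rw [norm_smul, hφ1]; norm_num
  obtain ⟨t₀, ht₀⟩ := exists_point ((1 / 2 : ℝ) • φ) (h1.trans (by norm_num))
  have h2 : ∀ c, |v c t₀| ≤ (1 / 2) * ‖v c‖ := by
    intro c
    rw [ht₀]
    refine (((1 / 2 : ℝ) • φ).le_opNorm (v c)).trans ?_
    exact mul_le_mul_of_nonneg_right h1 (norm_nonneg _)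
  have h3 := continuousAt_v (by norm_num : (1 / 2 : ℝ) < 1) h2 c
  have h4 : v c t₀ ≠ 0 := by
    rw [ht₀]
    show (1 / 2 : ℝ) * φ (v c) ≠ 0
    rw [hφ2]
    have : ‖v c‖ ≠ 0 := norm_ne_zero_iff.2 hne
    simpa using hne
  have h5 : ∀ᶠ t in 𝓝 t₀, v c t ≠ 0 := h3.eventually_ne h4
  obtain ⟨i, hi⟩ := (denseRange_dd he).exists_mem_open isOpen_interior
    ⟨t₀, mem_interior_iff_mem_nhds.2 h5⟩
  obtain ⟨n, rfl⟩ := hs i
  exact interior_subset hi (h0 n)

end Q98.SG
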