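import Pool.Agent.Q98.SG5

/-! A rotund renorming from an injective operator into `ℓ²`. -/

set_option autoImplicit false

open Filter Topology

open scoped ENNReal

namespace Q98.SG

/-- A rotund equivalent norm from an injective operator into a Hilbert space. -/
theorem rotund_of_injective {X H : Type*} [NormedAddCommGroup X] [NormedSpace ℝ X]
    [NormedAddCommGroup H] [InnerProductSpace ℝ H] (L : X →L[ℝ] H) (hL : Function.Injective L) :
    ∃ N : Seminorm ℝ X, (∃ a : ℝ, 0 < a ∧ ∃ b : ℝ, ∀ x, a * ‖x‖ ≤ N x ∧ N x ≤ b * ‖x‖) ∧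
      ∀ x y, N (x + y) = 2 * N x → N (x + y) = 2 * N y → x = y := by
  let Lm : X →ₗ[ℝ] WithLp 2 (X × H) :=
    { toFun := fun x => WithLp.toLp 2 (x, L x)
      map_add' := fun x y => by rw [map_add]; rfl
      map_smul' := fun c x => by rw [map_smul]; rfl }
  have hnorm : ∀ x, ‖Lm x‖ ^ 2 = ‖x‖ ^ 2 + ‖L x‖ ^ 2 := by
    intro x
    rw [WithLp.prod_norm_sq_eq_of_L2]
    rfl
  let N : Seminorm ℝ X := (normSeminorm ℝ (WithLp 2 (X × H))).comp Lm
  have hN : ∀ x, N x ^ 2 = ‖x‖ ^ 2 + ‖L x‖ ^ 2 := hnorm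
  have hN0 : ∀ x, 0 ≤ N x := fun x => apply_nonneg N x
  refine ⟨N, ⟨1, one_pos, 1 + ‖L‖, fun x => ⟨?_, ?_⟩⟩, fun x y h1 h2 => ?_⟩
  · have h3 := hN x
    have h4 := hN0 x
    have h5 : ‖x‖ ^ 2 ≤ N x ^ 2 := by rw [h3]; nlinarith [norm_nonneg (L x)]
    rw [one_mul]
    exact abs_le_of_sq_le_sq' h5 h4 |>.2
  · have h3 := hN x
    have h4 := L.le_opNorm x
    have h5 := norm_nonneg x
    have h6 := norm_nonneg (L x)
    have h7 := norm_nonneg L
    have h8 : N x ^ 2 ≤ ((1 + ‖L‖) * ‖x‖) ^ 2 := by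
      rw [h3]
      have h9 : ‖L x‖ ^ 2 ≤ (‖L‖ * ‖x‖) ^ 2 := by
        apply pow_le_pow_left₀ h6 h4
      have h10 : 0 ≤ ‖L‖ * ‖x‖ * ‖x‖ := by positivity
      nlinarith
    exact abs_le_of_sq_le_sq' h8 (by positivity) |>.2
  · have h3 := hN x
    have h4 := hN y
    have h5 := hN (x + y)
    have h6 : ‖L (x + y)‖ ^ 2 = 2 * ‖L x‖ ^ 2 + 2 * ‖L y‖ ^ 2 - ‖L x - L y‖ ^ 2 := by
      have h7 := parallelogram_law_with_norm ℝ (L x) (L y)
      rw [map_add]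
      nlinarith
    have h7 : ‖x + y‖ ^ 2 ≤ 2 * ‖x‖ ^ 2 + 2 * ‖y‖ ^ 2 := by
      have h8 := norm_add_le x y
      have h9 := norm_nonneg (x + y)
      nlinarith [sq_nonneg (‖x‖ - ‖y‖), norm_nonneg x, norm_nonneg y]
    have h8 : ‖L x - L y‖ ^ 2 ≤ 0 := by
      have h9 : N (x + y) ^ 2 = 2 * N x ^ 2 + 2 * N y ^ 2 := by
        have h10 : N x = N y := by linarith
        rw [h1, h10]; ring
      nlinarith
    have h9 : ‖L x - L y‖ = 0 := by
      have := norm_nonneg (L x - L y)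
      nlinarith
    exact hL (sub_eq_zero.1 (norm_eq_zero.1 h9))

/-- the evaluations, as an operator into `ℓ²` -/
theorem exists_injective : ∃ L : Xs →L[ℝ] lp (fun _ : ℕ => ℝ) 2, Function.Injective L := by
  obtain ⟨t, ht⟩ := exists_total
  have hsum : Summable fun n : ℕ => ((1 / 4 : ℝ)) ^ n := summable_geometric_of_lt_one
    (by norm_num) (by norm_num)
  have hbd : ∀ (x : Xs) (n : ℕ), |(1 / 2 : ℝ) ^ n * (x : B) (t n)| ≤ (1 / 2) ^ n * ‖x‖ := by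
    intro x n
    rw [abs_mul, abs_of_nonneg (by positivity : (0 : ℝ) ≤ (1 / 2) ^ n)]
    exact mul_le_mul_of_nonneg_left (abs_apply_le _ _) (by positivity)
  have hsq : ∀ (x : Xs) (n : ℕ), ‖(1 / 2 : ℝ) ^ n * (x : B) (t n)‖ ^ (2 : ℝ≥0∞).toReal
      ≤ (1 / 4) ^ n * ‖x‖ ^ 2 := by
    intro x n
    have h1 := hbd x n
    rw [ENNReal.toReal_ofNat, Real.rpow_ofNat, Real.norm_eq_abs]
    have h2 : ((1 / 4 : ℝ)) ^ n = ((1 / 2) ^ n) ^ 2 := by
      rw [← pow_mul, mul_comm n 2, pow_mul]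
      norm_num
    rw [h2, ← mul_pow]
    exact pow_le_pow_left₀ (abs_nonneg _) h1 2
  have hmem : ∀ x : Xs, Memℓp (fun n : ℕ => (1 / 2 : ℝ) ^ n * (x : B) (t n)) 2 := by
    intro x
    refine memℓp_gen ?_
    exact Summable.of_nonneg_of_le (fun n => by positivity) (hsq x) (hsum.mul_right _)
  let L0 : Xs →ₗ[ℝ] lp (fun _ : ℕ => ℝ) 2 :=
    { toFun := fun x => ⟨fun n : ℕ => (1 / 2 : ℝ) ^ n * (x : B) (t n), hmem x⟩
      map_add' := fun x y => by
        ext n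
        show (1 / 2 : ℝ) ^ n * ((x + y : Xs) : B) (t n) = (1 / 2 : ℝ) ^ n * (x : B) (t n) +
          (1 / 2 : ℝ) ^ n * (y : B) (t n)
        rw [Submodule.coe_add, lp.coeFn_add, Pi.add_apply]
        ring
      map_smul' := fun c x => by
        ext n
        show (1 / 2 : ℝ) ^ n * ((c • x : Xs) : B) (t n) = c * ((1 / 2 : ℝ) ^ n * (x : B) (t n))
        rw [Submodule.coe_smul, lp.coeFn_smul, Pi.smul_apply, smul_eq_mul]
        ring }
  have hL0 : ∀ x n, L0 x n = (1 / 2 : ℝ) ^ n * (x : B) (t n) := fun _ _ => rfl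
  have hle : ∀ x, ‖L0 x‖ ≤ √(∑' n : ℕ, ((1 / 4 : ℝ)) ^ n) * ‖x‖ := by
    intro x
    have h0 : 0 < (2 : ℝ≥0∞).toReal := by norm_num
    have h1 := lp.norm_rpow_eq_tsum h0 (L0 x)
    have h2 : ‖L0 x‖ ^ 2 ≤ (∑' n : ℕ, ((1 / 4 : ℝ)) ^ n) * ‖x‖ ^ 2 := by
      have h3 : ‖L0 x‖ ^ 2 = ‖L0 x‖ ^ (2 : ℝ≥0∞).toReal := by
        rw [ENNReal.toReal_ofNat, Real.rpow_ofNat]
      rw [h3, h1, ← tsum_mul_right]
      refine Summable.tsum_le_tsum (hsq x) ?_ (hsum.mul_right _)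
      exact Summable.of_nonneg_of_le (fun n => by positivity) (hsq x) (hsum.mul_right _)
    have h3 : 0 ≤ ∑' n : ℕ, ((1 / 4 : ℝ)) ^ n := tsum_nonneg fun n => by positivity
    refine abs_le_of_sq_le_sq' ?_ (by positivity) |>.2
    rw [mul_pow, Real.sq_sqrt h3]
    exact h2
  refine ⟨L0.mkContinuous _ hle, ?_⟩
  have hinj : Function.Injective L0 := by
    rw [← LinearMap.ker_eq_bot, LinearMap.ker_eq_bot']
    intro x hx
    apply Subtype.ext
    refine ht x x.2 fun n => ?_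
    have h1 : L0 x = 0 := hx
    have h2 : L0 x n = 0 := by rw [h1]; rfl
    rw [hL0] at h2
    have h3 : ((1 / 2 : ℝ)) ^ n ≠ 0 := by positivity
    exact (mul_eq_zero.1 h2).resolve_left h3
  exact hinj

end Q98.SG
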